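import Pool.Agent.H24.FB.Defs

/-! Block A of the MP_fb7d21_an project: the trace of a rotated product factors. -/

open MeasureTheory Matrix Filter Topology Polynomial
open scoped MatrixGroups ComplexConjugate

namespace H5FBA

open H24FB

abbrev M2 := Matrix (Fin 2) (Fin 2) ℂ

/-- diagonal coefficient -/
noncomputable def al (A : SL(2, ℝ)) : ℂ :=
  (((A.1 0 0 + A.1 1 1 : ℝ) : ℂ) + ((A.1 1 0 - A.1 0 1 : ℝ) : ℂ) * Complex.I) / 2

/-- off-diagonal coefficient -/
noncomputable def be (A : SL(2, ℝ)) : ℂ :=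
  (((A.1 0 0 - A.1 1 1 : ℝ) : ℂ) + ((A.1 1 0 + A.1 0 1 : ℝ) : ℂ) * Complex.I) / 2

noncomputable def UU (A : SL(2, ℝ)) : M2 :=
  !![al A, be A; conj (be A), conj (al A)]

lemma conj_al (A : SL(2, ℝ)) : conj (al A) =
    (((A.1 0 0 + A.1 1 1 : ℝ) : ℂ) - ((A.1 1 0 - A.1 0 1 : ℝ) : ℂ) * Complex.I) / 2 := by
  unfold al
  rw [map_div₀, map_add, map_mul, Complex.conj_ofReal, Complex.conj_ofReal, Complex.conj_I,
    map_ofNat]
  ring

lemma conj_be (A : SL(2, ℝ)) : conj (be A) =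
    (((A.1 0 0 - A.1 1 1 : ℝ) : ℂ) - ((A.1 1 0 + A.1 0 1 : ℝ) : ℂ) * Complex.I) / 2 := by
  unfold be
  rw [map_div₀, map_add, map_mul, Complex.conj_ofReal, Complex.conj_ofReal, Complex.conj_I,
    map_ofNat]
  ring

lemma UU_mul (A B : SL(2, ℝ)) : UU (A * B) = UU A * UU B := by
  have hI : Complex.I ^ 2 = -1 := Complex.I_sq
  unfold UU
  rw [conj_al, conj_al, conj_al, conj_be, conj_be, conj_be]
  unfold al be
  ext i j
  fin_cases i <;> fin_cases j <;>
    · simp [Matrix.mul_apply, Fin.sum_univ_two, Matrix.SpecialLinearGroup.coe_mul]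
      ring_nf
      simp only [hI]
      ring_nf

lemma UU_one : UU 1 = 1 := by
  unfold UU
  rw [conj_al, conj_be]
  unfold al be
  ext i j
  fin_cases i <;> fin_cases j <;> simp

noncomputable def UUhom : SL(2, ℝ) →* M2 where
  toFun := UU
  map_one' := UU_one
  map_mul' := UU_mul

lemma UU_trace (A : SL(2, ℝ)) : (UU A).trace = ((tr A : ℝ) : ℂ) := by
  unfold UU tr
  rw [Matrix.trace_fin_two, Matrix.trace_fin_two, conj_al]
  unfold al
  simp
  ring

lemma det_real (A : SL(2, ℝ)) : A.1 0 0 * A.1 1 1 - A.1 0 1 * A.1 1 0 = 1 := by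
  have := A.2
  rw [Matrix.det_fin_two] at this
  exact this

lemma normSq_al_be (A : SL(2, ℝ)) : Complex.normSq (al A) - Complex.normSq (be A) = 1 := by
  have h := det_real A
  unfold al be
  rw [Complex.normSq_apply, Complex.normSq_apply]
  simp
  nlinarith [h]

lemma UU_det (A : SL(2, ℝ)) : (UU A).det = 1 := by
  unfold UU
  rw [Matrix.det_fin_two]
  simp only [Matrix.of_apply, Matrix.cons_val', Matrix.cons_val_zero, Matrix.cons_val_one,
    Matrix.cons_val_fin_one]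
  rw [Complex.mul_conj, Complex.mul_conj]
  have h := normSq_al_be A
  have : ((Complex.normSq (al A) : ℝ) : ℂ) - ((Complex.normSq (be A) : ℝ) : ℂ) = ((1 : ℝ) : ℂ) := by
    rw [← h]; push_cast; ring
  simpa using this

lemma al_ne (A : SL(2, ℝ)) : al A ≠ 0 := by
  intro h0
  have h := normSq_al_be A
  rw [h0, map_zero] at h
  have := Complex.normSq_nonneg (be A)
  linarith

lemma wp_hom {G H : Type*} [Monoid G] [Monoid H] (f : G →* H) (B : ℕ → G) (m : ℕ) :
    f (wp B m) = wp (fun j => f (B j)) m := by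
  induction m with
  | zero => simp [wp]
  | succ k ih => simp [wp, ih]

/-- the diagonal matrix -/
noncomputable def DD (w : ℂ) : M2 := !![w, 0; 0, w⁻¹]

lemma UU_rot (θ : ℝ) : UU (rot θ) = DD (Complex.exp (θ * Complex.I)) := by
  have hc : (Complex.exp (θ * Complex.I))⁻¹ = Complex.exp (-(θ * Complex.I)) := by
    rw [Complex.exp_neg]
  have h1 : Complex.exp (θ * Complex.I) = Real.cos θ + Real.sin θ * Complex.I := by
    rw [Complex.exp_mul_I]; push_cast; rfl
  have h2 : Complex.exp (-(θ * Complex.I)) = Real.cos θ - Real.sin θ * Complex.I := by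
    rw [← neg_mul, Complex.exp_mul_I]
    push_cast
    rw [Complex.cos_neg, Complex.sin_neg]
    ring
  unfold UU DD
  rw [conj_al, conj_be, hc, h1, h2]
  unfold al be rot
  ext i j
  fin_cases i <;> fin_cases j <;> (simp; try ring)

/-- polynomial matrices -/
noncomputable def PP (A : ℕ → SL(2, ℝ)) (j : ℕ) : Matrix (Fin 2) (Fin 2) ℂ[X] :=
  !![X ^ 2 * C (al (A j)), X ^ 2 * C (be (A j)); C (conj (be (A j))), C (conj (al (A j)))]

noncomputable def NN (A : ℕ → SL(2, ℝ)) (w : ℂ) (j : ℕ) : M2 :=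
  !![w ^ 2 * al (A j), w ^ 2 * be (A j); conj (be (A j)), conj (al (A j))]

noncomputable def pp (A : ℕ → SL(2, ℝ)) (m : ℕ) (c : ℝ) : ℂ[X] :=
  (wp (PP A) m).trace - C (c : ℂ) * X ^ m

lemma eval_wp (A : ℕ → SL(2, ℝ)) (m : ℕ) (w : ℂ) :
    ((wp (PP A) m).map (Polynomial.evalRingHom w)) = wp (NN A w) m := by
  have h := wp_hom ((Polynomial.evalRingHom w).mapMatrix : Matrix (Fin 2) (Fin 2) ℂ[X] →+* M2).toMonoidHom
    (PP A) m
  have h2 : ∀ j, ((Polynomial.evalRingHom w).mapMatrix : Matrix (Fin 2) (Fin 2) ℂ[X] →+* M2).toMonoidHom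
      (PP A j) = NN A w j := by
    intro j
    ext a b
    fin_cases a <;> fin_cases b <;> (simp [PP, NN]; try ring)
  have h3 : (fun j => ((Polynomial.evalRingHom w).mapMatrix :
      Matrix (Fin 2) (Fin 2) ℂ[X] →+* M2).toMonoidHom (PP A j)) = NN A w := funext h2
  rw [h3] at h
  exact h

lemma eval_pp (A : ℕ → SL(2, ℝ)) (m : ℕ) (c : ℝ) (w : ℂ) :
    (pp A m c).eval w = (wp (NN A w) m).trace - c * w ^ m := by
  rw [← eval_wp]
  unfold pp
  rw [Matrix.trace_fin_two, Matrix.trace_fin_two]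
  simp

lemma NN_eq (A : ℕ → SL(2, ℝ)) (w : ℂ) (hw : w ≠ 0) (j : ℕ) :
    NN A w j = w • (DD w * UU (A j)) := by
  unfold NN DD UU
  ext a b
  fin_cases a <;> fin_cases b <;>
    (simp [Matrix.mul_apply, Fin.sum_univ_two]; try (field_simp))

lemma wp_smul (B : ℕ → M2) (w : ℂ) (m : ℕ) :
    wp (fun j => w • B j) m = w ^ m • wp B m := by
  induction m with
  | zero => simp [wp]
  | succ k ih =>
    show (w • B k) * wp (fun j => w • B j) k = w ^ (k + 1) • (B k * wp B k)
    rw [ih, smul_mul_smul_comm]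
    congr 1
    ring

lemma trace_NN (A : ℕ → SL(2, ℝ)) (w : ℂ) (hw : w ≠ 0) (m : ℕ) :
    (wp (NN A w) m).trace = w ^ m * (wp (fun j => DD w * UU (A j)) m).trace := by
  have : NN A w = fun j => w • (DD w * UU (A j)) := funext (NN_eq A w hw)
  rw [this, wp_smul, Matrix.trace_smul, smul_eq_mul]

lemma tr_eq (A : ℕ → SL(2, ℝ)) (m : ℕ) (θ : ℝ) :
    ((tr (wp (fun j => rot θ * A j) m) : ℝ) : ℂ) =
      (wp (fun j => DD (Complex.exp (θ * Complex.I)) * UU (A j)) m).trace := by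
  rw [← UU_trace]
  have h := wp_hom UUhom (fun j => rot θ * A j) m
  have h2 : ∀ j, UUhom (rot θ * A j) = DD (Complex.exp (θ * Complex.I)) * UU (A j) := by
    intro j
    rw [map_mul]
    show UU (rot θ) * UU (A j) = _
    rw [UU_rot]
  have h3 : (fun j => UUhom (rot θ * A j)) =
    fun j => DD (Complex.exp (θ * Complex.I)) * UU (A j) := funext h2
  rw [h3] at h
  have h4 : UUhom (wp (fun j => rot θ * A j) m) = UU (wp (fun j => rot θ * A j) m) := rfl
  rw [← h4, h]

/-! degrees -/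

lemma degs (A : ℕ → SL(2, ℝ)) (k : ℕ) :
    (∀ a b : Fin 2, ∀ n, 2 * k < n → (wp (PP A) k a b).coeff n = 0) ∧
    (wp (PP A) k 0 0).coeff (2 * k) = ∏ j ∈ Finset.range k, al (A j) ∧
    (wp (PP A) k 1 0).coeff (2 * k) = 0 ∧
    (0 < k → (wp (PP A) k 1 1).coeff (2 * k) = 0) := by
  induction k with
  | zero =>
    refine ⟨?_, ?_, ?_, fun h => absurd h (lt_irrefl _)⟩
    · intro a b n hn
      have hn' : n ≠ 0 := by omega
      fin_cases a <;> fin_cases b <;> simp [wp, Polynomial.coeff_one, hn']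
    · simp [wp]
    · simp [wp]
  | succ k ih =>
    obtain ⟨h1, h2, h3, h4⟩ := ih
    have e00 : wp (PP A) (k + 1) 0 0 = (C (al (A k)) * wp (PP A) k 0 0 +
        C (be (A k)) * wp (PP A) k 1 0) * X ^ 2 := by
      show (PP A k * wp (PP A) k) 0 0 = _
      rw [Matrix.mul_apply, Fin.sum_univ_two]
      simp [PP]; ring
    have e01 : wp (PP A) (k + 1) 0 1 = (C (al (A k)) * wp (PP A) k 0 1 +
        C (be (A k)) * wp (PP A) k 1 1) * X ^ 2 := by
      show (PP A k * wp (PP A) k) 0 1 = _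
      rw [Matrix.mul_apply, Fin.sum_univ_two]
      simp [PP]; ring
    have e10 : wp (PP A) (k + 1) 1 0 = C (conj (be (A k))) * wp (PP A) k 0 0 +
        C (conj (al (A k))) * wp (PP A) k 1 0 := by
      show (PP A k * wp (PP A) k) 1 0 = _
      rw [Matrix.mul_apply, Fin.sum_univ_two]
      simp [PP]
    have e11 : wp (PP A) (k + 1) 1 1 = C (conj (be (A k))) * wp (PP A) k 0 1 +
        C (conj (al (A k))) * wp (PP A) k 1 1 := by
      show (PP A k * wp (PP A) k) 1 1 = _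
      rw [Matrix.mul_apply, Fin.sum_univ_two]
      simp [PP]
    refine ⟨?_, ?_, ?_, fun _ => ?_⟩
    · intro a b n hn
      obtain ⟨n', rfl⟩ : ∃ n', n = n' + 2 := ⟨n - 2, by omega⟩
      have hn' : 2 * k < n' := by omega
      have hn2 : 2 * k < n' + 2 := by omega
      fin_cases a <;> fin_cases b
      · show (wp (PP A) (k + 1) 0 0).coeff (n' + 2) = 0
        rw [e00, Polynomial.coeff_mul_X_pow]
        simp [Polynomial.coeff_C_mul, h1 0 0 n' hn', h1 1 0 n' hn']
      · show (wp (PP A) (k + 1) 0 1).coeff (n' + 2) = 0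
        rw [e01, Polynomial.coeff_mul_X_pow]
        simp [Polynomial.coeff_C_mul, h1 0 1 n' hn', h1 1 1 n' hn']
      · show (wp (PP A) (k + 1) 1 0).coeff (n' + 2) = 0
        rw [e10]
        simp [Polynomial.coeff_C_mul, h1 0 0 _ hn2, h1 1 0 _ hn2]
      · show (wp (PP A) (k + 1) 1 1).coeff (n' + 2) = 0
        rw [e11]
        simp [Polynomial.coeff_C_mul, h1 0 1 _ hn2, h1 1 1 _ hn2]
    · have : 2 * (k + 1) = 2 * k + 2 := by ring
      rw [this, e00, Polynomial.coeff_mul_X_pow]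
      simp only [Polynomial.coeff_add, Polynomial.coeff_C_mul, h2, h3, mul_zero, add_zero]
      rw [Finset.prod_range_succ, mul_comm]
    · have hn2 : 2 * k < 2 * (k + 1) := by omega
      rw [e10]
      simp only [Polynomial.coeff_add, Polynomial.coeff_C_mul, h1 0 0 _ hn2, h1 1 0 _ hn2,
        mul_zero, add_zero]
    · have hn2 : 2 * k < 2 * (k + 1) := by omega
      rw [e11]
      simp only [Polynomial.coeff_add, Polynomial.coeff_C_mul, h1 0 1 _ hn2, h1 1 1 _ hn2,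
        mul_zero, add_zero]

lemma pp_coeff (A : ℕ → SL(2, ℝ)) (m : ℕ) (hm : 0 < m) (c : ℝ) :
    (pp A m c).coeff (2 * m) = ∏ j ∈ Finset.range m, al (A j) := by
  obtain ⟨_, h2, _, h4⟩ := degs A m
  unfold pp
  have hne : (2 * m = m) = False := by
    simp only [eq_iff_iff, iff_false]; omega
  rw [Matrix.trace_fin_two, Polynomial.coeff_sub, Polynomial.coeff_add, h2, h4 hm,
    Polynomial.coeff_C_mul, Polynomial.coeff_X_pow]
  simp [hne]

lemma pp_coeff_gt (A : ℕ → SL(2, ℝ)) (m : ℕ) (hm : 0 < m) (c : ℝ) (n : ℕ) (hn : 2 * m < n) :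
    (pp A m c).coeff n = 0 := by
  obtain ⟨h1, _, _, _⟩ := degs A m
  unfold pp
  have hne : (n = m) = False := by
    simp only [eq_iff_iff, iff_false]; omega
  rw [Matrix.trace_fin_two, Polynomial.coeff_sub, Polynomial.coeff_add, h1 0 0 n hn, h1 1 1 n hn,
    Polynomial.coeff_C_mul, Polynomial.coeff_X_pow]
  simp [hne]

lemma prod_al_ne (A : ℕ → SL(2, ℝ)) (m : ℕ) : ∏ j ∈ Finset.range m, al (A j) ≠ 0 :=
  Finset.prod_ne_zero_iff.mpr fun j _ => al_ne (A j)

lemma pp_natDegree (A : ℕ → SL(2, ℝ)) (m : ℕ) (hm : 0 < m) (c : ℝ) :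
    (pp A m c).natDegree = 2 * m := by
  apply le_antisymm
  · rw [Polynomial.natDegree_le_iff_coeff_eq_zero]
    intro n hn
    exact pp_coeff_gt A m hm c n hn
  · apply Polynomial.le_natDegree_of_ne_zero
    rw [pp_coeff A m hm c]
    exact prod_al_ne A m

/-! the constant term -/

lemma zero_wp (A : ℕ → SL(2, ℝ)) (k : ℕ) :
    wp (NN A 0) k 0 1 = 0 ∧ wp (NN A 0) k 1 1 = ∏ j ∈ Finset.range k, conj (al (A j)) ∧
      (0 < k → wp (NN A 0) k 0 0 = 0) := by
  induction k with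
  | zero => simp [wp]
  | succ k ih =>
    obtain ⟨h1, h2, h3⟩ := ih
    refine ⟨?_, ?_, fun _ => ?_⟩
    · show (NN A 0 k * wp (NN A 0) k) 0 1 = _
      rw [Matrix.mul_apply, Fin.sum_univ_two]
      simp [NN]
    · show (NN A 0 k * wp (NN A 0) k) 1 1 = _
      rw [Matrix.mul_apply, Fin.sum_univ_two, h1, h2, Finset.prod_range_succ]
      simp [NN]
      ring
    · show (NN A 0 k * wp (NN A 0) k) 0 0 = _
      rw [Matrix.mul_apply, Fin.sum_univ_two]
      simp [NN]

lemma pp_zero (A : ℕ → SL(2, ℝ)) (m : ℕ) (hm : 0 < m) (c : ℝ) : (pp A m c).eval 0 ≠ 0 := by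
  obtain ⟨_, h2, h3⟩ := zero_wp A m
  rw [eval_pp, Matrix.trace_fin_two, h2, h3 hm, zero_pow hm.ne']
  simp only [zero_add, mul_zero, sub_zero]
  exact Finset.prod_ne_zero_iff.mpr fun j _ => (_root_.map_ne_zero _).mpr (al_ne (A j))

/-! the form -/

noncomputable def QQ (v : Fin 2 → ℂ) : ℝ := Complex.normSq (v 0) - Complex.normSq (v 1)

lemma QQ_UU (A : SL(2, ℝ)) (v : Fin 2 → ℂ) : QQ (UU A *ᵥ v) = QQ v := by
  have h := normSq_al_be A
  have e0 : (UU A *ᵥ v) 0 = al A * v 0 + be A * v 1 := by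
    simp [UU, Matrix.mulVec, dotProduct, Fin.sum_univ_two]
  have e1 : (UU A *ᵥ v) 1 = conj (be A) * v 0 + conj (al A) * v 1 := by
    simp [UU, Matrix.mulVec, dotProduct, Fin.sum_univ_two]
  unfold QQ
  rw [e0, e1]
  simp only [Complex.normSq_apply, Complex.add_re, Complex.add_im, Complex.mul_re, Complex.mul_im,
    Complex.conj_re, Complex.conj_im] at h ⊢
  have h' : (al A).re * (al A).re + (al A).im * (al A).im =
    1 + ((be A).re * (be A).re + (be A).im * (be A).im) := by linarith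
  generalize (al A).re = a at *
  generalize (al A).im = b at *
  generalize (be A).re = p at *
  generalize (be A).im = q at *
  generalize (v 0).re = x at *
  generalize (v 0).im = y at *
  generalize (v 1).re = z at *
  generalize (v 1).im = t at *
  have : (a * x - b * y + (p * z - q * t)) * (a * x - b * y + (p * z - q * t)) +
      (a * y + b * x + (p * t + q * z)) * (a * y + b * x + (p * t + q * z)) -
      ((p * x - -q * y + (a * z - -b * t)) * (p * x - -q * y + (a * z - -b * t)) +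
      (p * y + -q * x + (a * t + -b * z)) * (p * y + -q * x + (a * t + -b * z))) =
      (a * a + b * b - (p * p + q * q)) * (x * x + y * y - (z * z + t * t)) := by ring
  rw [this, h]
  ring

lemma ne_of_det {M : M2} (h : M.det = 1) {v : Fin 2 → ℂ} (hv : v ≠ 0) : M *ᵥ v ≠ 0 := by
  intro h0
  have : ∃ v ≠ 0, M *ᵥ v = 0 := ⟨v, hv, h0⟩
  rw [Matrix.exists_mulVec_eq_zero_iff] at this
  rw [h] at this
  exact one_ne_zero this

lemma DD_det (w : ℂ) (hw : w ≠ 0) : (DD w).det = 1 := by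
  unfold DD
  rw [Matrix.det_fin_two]
  simp [hw]

lemma QQ_DD_gt (w : ℂ) (hw : 1 < ‖w‖) (v : Fin 2 → ℂ) (hv : v ≠ 0) : QQ v < QQ (DD w *ᵥ v) := by
  have e0 : (DD w *ᵥ v) 0 = w * v 0 := by
    simp [DD, Matrix.mulVec, dotProduct, Fin.sum_univ_two]
  have e1 : (DD w *ᵥ v) 1 = w⁻¹ * v 1 := by
    simp [DD, Matrix.mulVec, dotProduct, Fin.sum_univ_two]
  have hw2 : 1 < Complex.normSq w := by
    rw [Complex.normSq_eq_norm_sq]; nlinarith
  have hw3 : (Complex.normSq w)⁻¹ < 1 := inv_lt_one_of_one_lt₀ hw2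
  unfold QQ
  rw [e0, e1, map_mul, map_mul, map_inv₀]
  have n0 := Complex.normSq_nonneg (v 0)
  have n1 := Complex.normSq_nonneg (v 1)
  have hpos : 0 < Complex.normSq (v 0) ∨ 0 < Complex.normSq (v 1) := by
    by_contra hcon
    push Not at hcon
    apply hv
    ext i
    fin_cases i
    · exact Complex.normSq_eq_zero.mp (le_antisymm hcon.1 n0)
    · exact Complex.normSq_eq_zero.mp (le_antisymm hcon.2 n1)
  rcases hpos with hp | hp
  · nlinarith [mul_lt_mul_of_pos_right hw2 hp, mul_le_mul_of_nonneg_right hw3.le n1]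
  · nlinarith [mul_le_mul_of_nonneg_right hw2.le n0, mul_lt_mul_of_pos_right hw3 hp]

lemma QQ_DD_lt (w : ℂ) (hw0 : w ≠ 0) (hw : ‖w‖ < 1) (v : Fin 2 → ℂ) (hv : v ≠ 0) :
    QQ (DD w *ᵥ v) < QQ v := by
  have e0 : (DD w *ᵥ v) 0 = w * v 0 := by
    simp [DD, Matrix.mulVec, dotProduct, Fin.sum_univ_two]
  have e1 : (DD w *ᵥ v) 1 = w⁻¹ * v 1 := by
    simp [DD, Matrix.mulVec, dotProduct, Fin.sum_univ_two]
  have hp0 : 0 < Complex.normSq w := Complex.normSq_pos.mpr hw0
  have hw2 : Complex.normSq w < 1 := by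
    rw [Complex.normSq_eq_norm_sq]; nlinarith [norm_nonneg w]
  have hw3 : 1 < (Complex.normSq w)⁻¹ := (one_lt_inv₀ hp0).mpr hw2
  unfold QQ
  rw [e0, e1, map_mul, map_mul, map_inv₀]
  have n0 := Complex.normSq_nonneg (v 0)
  have n1 := Complex.normSq_nonneg (v 1)
  have hpos : 0 < Complex.normSq (v 0) ∨ 0 < Complex.normSq (v 1) := by
    by_contra hcon
    push Not at hcon
    apply hv
    ext i
    fin_cases i
    · exact Complex.normSq_eq_zero.mp (le_antisymm hcon.1 n0)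
    · exact Complex.normSq_eq_zero.mp (le_antisymm hcon.2 n1)
  rcases hpos with hp | hp
  · nlinarith [mul_lt_mul_of_pos_right hw2 hp, mul_le_mul_of_nonneg_right hw3.le n1]
  · nlinarith [mul_le_mul_of_nonneg_right hw2.le n0, mul_lt_mul_of_pos_right hw3 hp]

lemma step_ne (A : ℕ → SL(2, ℝ)) (w : ℂ) (hw0 : w ≠ 0) (v : Fin 2 → ℂ) (hv : v ≠ 0) (k : ℕ) :
    wp (fun j => DD w * UU (A j)) k *ᵥ v ≠ 0 := by
  induction k with
  | zero => simpa [wp] using hv
  | succ k ih =>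
    show ((DD w * UU (A k)) * wp (fun j => DD w * UU (A j)) k) *ᵥ v ≠ 0
    rw [← Matrix.mulVec_mulVec, ← Matrix.mulVec_mulVec]
    exact ne_of_det (DD_det w hw0) (ne_of_det (UU_det (A k)) ih)

lemma QQ_wp_gt (A : ℕ → SL(2, ℝ)) (w : ℂ) (hw0 : w ≠ 0) (hw : 1 < ‖w‖) (v : Fin 2 → ℂ)
    (hv : v ≠ 0) (k : ℕ) : QQ v < QQ (wp (fun j => DD w * UU (A j)) (k + 1) *ᵥ v) := by
  have key : ∀ u : Fin 2 → ℂ, u ≠ 0 → ∀ j, QQ u < QQ ((DD w * UU (A j)) *ᵥ u) := by
    intro u hu j
    rw [← Matrix.mulVec_mulVec]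
    have := QQ_DD_gt w hw (UU (A j) *ᵥ u) (ne_of_det (UU_det (A j)) hu)
    rwa [QQ_UU] at this
  induction k with
  | zero =>
    have := key v hv 0
    simpa [wp] using this
  | succ k ih =>
    have h2 := key _ (step_ne A w hw0 v hv (k + 1)) (k + 1)
    rw [Matrix.mulVec_mulVec] at h2
    exact lt_trans ih h2

lemma QQ_wp_lt (A : ℕ → SL(2, ℝ)) (w : ℂ) (hw0 : w ≠ 0) (hw : ‖w‖ < 1) (v : Fin 2 → ℂ)
    (hv : v ≠ 0) (k : ℕ) : QQ (wp (fun j => DD w * UU (A j)) (k + 1) *ᵥ v) < QQ v := by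
  have key : ∀ u : Fin 2 → ℂ, u ≠ 0 → ∀ j, QQ ((DD w * UU (A j)) *ᵥ u) < QQ u := by
    intro u hu j
    rw [← Matrix.mulVec_mulVec]
    have := QQ_DD_lt w hw0 hw (UU (A j) *ᵥ u) (ne_of_det (UU_det (A j)) hu)
    rwa [QQ_UU] at this
  induction k with
  | zero =>
    have := key v hv 0
    simpa [wp] using this
  | succ k ih =>
    have h2 := key _ (step_ne A w hw0 v hv (k + 1)) (k + 1)
    rw [Matrix.mulVec_mulVec] at h2
    exact lt_trans h2 ih

lemma wp_det (A : ℕ → SL(2, ℝ)) (w : ℂ) (hw0 : w ≠ 0) (k : ℕ) :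
    (wp (fun j => DD w * UU (A j)) k).det = 1 := by
  induction k with
  | zero => simp [wp]
  | succ k ih =>
    show ((DD w * UU (A k)) * wp (fun j => DD w * UU (A j)) k).det = 1
    rw [Matrix.det_mul, Matrix.det_mul, ih, DD_det w hw0, UU_det]
    norm_num

lemma exists_unit (c : ℝ) (hc : |c| ≤ 2) : ∃ ζ : ℂ, Complex.normSq ζ = 1 ∧ ζ ^ 2 - c * ζ + 1 = 0 := by
  have hc2 : c ^ 2 ≤ 4 := by
    have := abs_le.mp hc
    nlinarith [this.1, this.2]
  have hs : Real.sqrt (4 - c ^ 2) ^ 2 = 4 - c ^ 2 := Real.sq_sqrt (by linarith)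
  refine ⟨((c : ℂ) + (Real.sqrt (4 - c ^ 2) : ℂ) * Complex.I) / 2, ?_, ?_⟩
  · rw [Complex.normSq_apply]
    simp
    nlinarith [hs]
  · have hsC : ((Real.sqrt (4 - c ^ 2) : ℝ) : ℂ) ^ 2 = 4 - (c : ℂ) ^ 2 := by
      rw [← Complex.ofReal_pow, hs]; push_cast; ring
    have hI : Complex.I ^ 2 = -1 := Complex.I_sq
    have : (((c : ℂ) + (Real.sqrt (4 - c ^ 2) : ℂ) * Complex.I) / 2) ^ 2 -
      c * (((c : ℂ) + (Real.sqrt (4 - c ^ 2) : ℂ) * Complex.I) / 2) + 1 =
      (-(c : ℂ) ^ 2 + ((Real.sqrt (4 - c ^ 2) : ℝ) : ℂ) ^ 2 * Complex.I ^ 2) / 4 + 1 := by ring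
    rw [this, hsC, hI]
    ring

lemma root_unit (A : ℕ → SL(2, ℝ)) (m : ℕ) (hm : 0 < m) (c : ℝ) (hc : |c| ≤ 2) (w : ℂ)
    (hw : (pp A m c).eval w = 0) : ‖w‖ = 1 := by
  have hw0 : w ≠ 0 := by
    intro h
    rw [h] at hw
    exact pp_zero A m hm c hw
  rw [eval_pp, trace_NN A w hw0] at hw
  have htr : (wp (fun j => DD w * UU (A j)) m).trace = c := by
    have hwm : w ^ m ≠ 0 := pow_ne_zero _ hw0
    have : w ^ m * ((wp (fun j => DD w * UU (A j)) m).trace - c) = 0 := by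
      rw [mul_sub, mul_comm (w ^ m) (c : ℂ)]; exact hw
    rcases mul_eq_zero.mp this with h | h
    · exact absurd h hwm
    · exact sub_eq_zero.mp h
  obtain ⟨ζ, hζ1, hζ2⟩ := exists_unit c hc
  set M := wp (fun j => DD w * UU (A j)) m with hM
  have hdet : (M - ζ • (1 : M2)).det = 0 := by
    have hd := wp_det A w hw0 m
    rw [← hM] at hd
    rw [Matrix.det_fin_two] at hd ⊢
    rw [Matrix.trace_fin_two] at htr
    simp only [Matrix.sub_apply, Matrix.smul_apply, Matrix.one_apply_eq, smul_eq_mul, mul_one]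
    rw [Matrix.one_apply_ne (by decide), Matrix.one_apply_ne (by decide)]
    have : (M 0 0 - ζ) * (M 1 1 - ζ) - (M 0 1 - ζ * 0) * (M 1 0 - ζ * 0) =
      (M 0 0 * M 1 1 - M 0 1 * M 1 0) - (M 0 0 + M 1 1) * ζ + ζ ^ 2 := by ring
    rw [this, hd, htr]
    rw [← hζ2]; ring
  rw [← Matrix.exists_mulVec_eq_zero_iff] at hdet
  obtain ⟨v, hv, hv2⟩ := hdet
  have heig : M *ᵥ v = ζ • v := by
    rw [Matrix.sub_mulVec, Matrix.smul_mulVec, Matrix.one_mulVec] at hv2
    exact sub_eq_zero.mp hv2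
  have hQ : QQ (M *ᵥ v) = QQ v := by
    rw [heig]
    unfold QQ
    simp [hζ1]
  obtain ⟨k, rfl⟩ : ∃ k, m = k + 1 := ⟨m - 1, by omega⟩
  rcases lt_trichotomy ‖w‖ 1 with h | h | h
  · have := QQ_wp_lt A w hw0 h v hv k
    rw [← hM, hQ] at this
    exact absurd this (lt_irrefl _)
  · exact h
  · have := QQ_wp_gt A w hw0 h v hv k
    rw [← hM, hQ] at this
    exact absurd this (lt_irrefl _)

lemma norm_exp_sub (θ t : ℝ) : ‖Complex.exp (θ * Complex.I) - Complex.exp (t * Complex.I)‖ =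
    2 * |Real.sin ((θ - t) / 2)| := by
  have h1 : Complex.exp (θ * Complex.I) - Complex.exp (t * Complex.I) =
      Complex.exp (t * Complex.I) * (Complex.exp (Complex.I * ((θ - t : ℝ) : ℂ)) - 1) := by
    rw [mul_sub, ← Complex.exp_add, mul_one]
    congr 2
    push_cast
    ring
  rw [h1, norm_mul, Complex.norm_exp_ofReal_mul_I, one_mul, Complex.norm_exp_I_mul_ofReal_sub_one,
    Real.norm_eq_abs, abs_mul, abs_two]

theorem trace_factor (m : ℕ) (hm : 0 < m) (A : ℕ → SL(2, ℝ)) (c₁ : ℝ) (hc : |c₁| ≤ 2) :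
    ∃ (K : ℝ) (t : Fin (2 * m) → ℝ), 0 < K ∧
      ∀ θ : ℝ, |tr (wp (fun j => rot θ * A j) m) - c₁| =
        K * ∏ j, |Real.sin ((θ - t j) / 2)| := by
  set p := pp A m c₁ with hp
  have hdeg : p.natDegree = 2 * m := pp_natDegree A m hm c₁
  have hp0 : p ≠ 0 := by
    intro h
    rw [h] at hdeg
    simp at hdeg
    omega
  have hlead : p.leadingCoeff ≠ 0 := Polynomial.leadingCoeff_ne_zero.mpr hp0
  have hsplit := IsAlgClosed.splits p
  have hcard : Multiset.card p.roots = p.natDegree := by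
    first
      | exact (Polynomial.splits_iff_card_roots.mp hsplit)
      | exact hsplit.natDegree_eq_card_roots.symm
  have hfac : p = C p.leadingCoeff * (p.roots.map (fun a => X - C a)).prod :=
    (Polynomial.C_leadingCoeff_mul_prod_multiset_X_sub_C hcard).symm
  set L := p.roots.toList with hL
  have hLlen : L.length = 2 * m := by
    rw [hL, Multiset.length_toList, hcard, hdeg]
  let t : Fin (2 * m) → ℝ := fun j => Complex.arg (L.get (Fin.cast hLlen.symm j))
  refine ⟨‖p.leadingCoeff‖ * 2 ^ (2 * m), t, ?_, ?_⟩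
  · have := norm_pos_iff.mpr hlead
    positivity
  intro θ
  set w := Complex.exp (θ * Complex.I) with hw
  have hw0 : w ≠ 0 := Complex.exp_ne_zero _
  have hwn : ‖w‖ = 1 := Complex.norm_exp_ofReal_mul_I θ
  have hev : p.eval w = w ^ m * (((tr (wp (fun j => rot θ * A j) m) - c₁ : ℝ)) : ℂ) := by
    rw [hp, eval_pp, trace_NN A w hw0, Complex.ofReal_sub, tr_eq A m θ]
    ring
  have h1 : |tr (wp (fun j => rot θ * A j) m) - c₁| = ‖p.eval w‖ := by
    rw [hev, norm_mul, norm_pow, hwn, one_pow, one_mul, Complex.norm_real, Real.norm_eq_abs]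
  have h2 : p.eval w = p.leadingCoeff * (p.roots.map (fun a => w - a)).prod := by
    conv_lhs => rw [hfac]
    rw [Polynomial.eval_mul, Polynomial.eval_C, Polynomial.eval_multiset_prod, Multiset.map_map]
    congr 2
    apply Multiset.map_congr rfl
    intro a _
    simp
  have h3 : (p.roots.map (fun a => w - a)).prod =
      ∏ j : Fin (2 * m), (w - L.get (Fin.cast hLlen.symm j)) := by
    have e1 : (p.roots.map (fun a => w - a)).prod = (L.map (fun a => w - a)).prod := by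
      rw [hL, ← Multiset.prod_coe, ← Multiset.map_coe, Multiset.coe_toList]
    rw [e1]
    have e2 : (L.map (fun a => w - a)).prod = ∏ i : Fin L.length, (w - L.get i) := by
      rw [← List.prod_ofFn]
      congr 1
      apply List.ext_get
      · simp
      · intro n hn1 hn2
        simp
    rw [e2]
    exact (Fintype.prod_equiv (finCongr hLlen.symm) _ _ (fun j => rfl)).symm
  have h4 : ∀ j : Fin (2 * m), ‖w - L.get (Fin.cast hLlen.symm j)‖ =
      2 * |Real.sin ((θ - t j) / 2)| := by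
    intro j
    have hmem : L.get (Fin.cast hLlen.symm j) ∈ p.roots := by
      rw [← Multiset.mem_toList]
      exact List.get_mem _ _
    have hroot : p.eval (L.get (Fin.cast hLlen.symm j)) = 0 := by
      have := (Polynomial.mem_roots hp0).mp hmem
      exact this
    have hun : ‖L.get (Fin.cast hLlen.symm j)‖ = 1 := root_unit A m hm c₁ hc _ hroot
    have hexp : L.get (Fin.cast hLlen.symm j) = Complex.exp ((t j : ℝ) * Complex.I) := by
      have := Complex.norm_mul_exp_arg_mul_I (L.get (Fin.cast hLlen.symm j))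
      rw [hun, Complex.ofReal_one, one_mul] at this
      exact this.symm
    rw [hexp, hw, norm_exp_sub]
  rw [h1, h2, h3, norm_mul, norm_prod, Finset.prod_congr rfl (fun j _ => h4 j),
    Finset.prod_mul_distrib, Finset.prod_const, Finset.card_univ, Fintype.card_fin, mul_assoc]

end H5FBA

namespace H24FB

theorem trace_factor (m : ℕ) (hm : 0 < m) (A : ℕ → SL(2, ℝ)) (c₁ : ℝ) (hc : |c₁| ≤ 2) :
    ∃ (K : ℝ) (t : Fin (2 * m) → ℝ), 0 < K ∧
      ∀ θ : ℝ, |tr (wp (fun j => rot θ * A j) m) - c₁| =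
        K * ∏ j, |Real.sin ((θ - t j) / 2)| :=
  H5FBA.trace_factor m hm A c₁ hc

end H24FB
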