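import Pool.Agent.H24.FB.Defs

/-! Block B of the MP_fb7d21_an project: the sublevel estimate for products of sines. -/

open MeasureTheory Set

namespace H24FB

namespace BandAux

/-- The product of sines. -/
noncomputable def G {N : ℕ} (t : Fin N → ℝ) (K : ℝ) (θ : ℝ) : ℝ :=
  K * ∏ j, |Real.sin ((θ - t j) / 2)|

lemma G_cont {N : ℕ} (t : Fin N → ℝ) (K : ℝ) : Continuous (G t K) := by
  unfold G
  refine continuous_const.mul (continuous_finsetProd _ fun j _ => ?_)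
  fun_prop

lemma G_nonneg {N : ℕ} (t : Fin N → ℝ) (K : ℝ) (hK : 0 < K) (θ : ℝ) : 0 ≤ G t K θ :=
  mul_nonneg hK.le (Finset.prod_nonneg fun _ _ => abs_nonneg _)

lemma sin_mul_sin' (a b : ℝ) :
    Real.sin a * Real.sin b = Real.sin ((a + b) / 2) ^ 2 - Real.sin ((b - a) / 2) ^ 2 := by
  have h1 : Real.sin a = Real.sin ((a + b) / 2) * Real.cos ((b - a) / 2)
      - Real.cos ((a + b) / 2) * Real.sin ((b - a) / 2) := by
    rw [← Real.sin_sub]; congr 1; ring
  have h2 : Real.sin b = Real.sin ((a + b) / 2) * Real.cos ((b - a) / 2)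
      + Real.cos ((a + b) / 2) * Real.sin ((b - a) / 2) := by
    rw [← Real.sin_add]; congr 1; ring
  have e1 := Real.sin_sq_add_cos_sq ((a + b) / 2)
  have e2 := Real.sin_sq_add_cos_sq ((b - a) / 2)
  have e3 : Real.cos ((a + b) / 2) ^ 2 = 1 - Real.sin ((a + b) / 2) ^ 2 := by linarith
  have e4 : Real.cos ((b - a) / 2) ^ 2 = 1 - Real.sin ((b - a) / 2) ^ 2 := by linarith
  calc Real.sin a * Real.sin b
      = (Real.sin ((a + b) / 2) * Real.cos ((b - a) / 2)
          - Real.cos ((a + b) / 2) * Real.sin ((b - a) / 2))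
        * (Real.sin ((a + b) / 2) * Real.cos ((b - a) / 2)
          + Real.cos ((a + b) / 2) * Real.sin ((b - a) / 2)) := by rw [← h1, ← h2]
    _ = Real.sin ((a + b) / 2) ^ 2 * Real.cos ((b - a) / 2) ^ 2
        - Real.cos ((a + b) / 2) ^ 2 * Real.sin ((b - a) / 2) ^ 2 := by ring
    _ = _ := by rw [e3, e4]; ring

lemma abs_sin_mul (a b : ℝ) (hab : a ≤ b) (h : ∀ c ∈ Icc a b, Real.sin c ≠ 0) :
    |Real.sin a| * |Real.sin b|
      = Real.sin ((a + b) / 2) ^ 2 - Real.sin ((b - a) / 2) ^ 2 := by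
  rw [← abs_mul, ← sin_mul_sin', abs_of_nonneg]
  by_contra hneg
  push Not at hneg
  have hivt := intermediate_value_uIcc (a := a) (b := b) (f := Real.sin)
    Real.continuous_sin.continuousOn
  have h0 : (0 : ℝ) ∈ uIcc (Real.sin a) (Real.sin b) := by
    rw [mem_uIcc]
    rcases mul_neg_iff.1 hneg with ⟨h1, h2⟩ | ⟨h1, h2⟩
    · exact Or.inr ⟨h2.le, h1.le⟩
    · exact Or.inl ⟨h1.le, h2.le⟩
  obtain ⟨c, hc, hc0⟩ := hivt h0
  rw [uIcc_of_le hab] at hc
  exact h c hc hc0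

lemma star {N : ℕ} (t : Fin N → ℝ) (K : ℝ) (hK : 0 < K) (x y : ℝ)
    (hl : y - x ≤ 2 * Real.pi) (hx : G t K x = 0)
    (hne : ∀ θ ∈ Ioo x y, G t K θ ≠ 0) (u v : ℝ) (hu : x < u) (huv : u ≤ v) (hv : v < y) :
    G t K u * G t K v
      ≤ (1 - (v - u) ^ 2 / (Real.pi ^ 2 * (y - x) ^ 2)) * (G t K ((u + v) / 2)) ^ 2 := by
  have hpi := Real.pi_pos
  set ρ : ℝ := (v - u) ^ 2 / (Real.pi ^ 2 * (y - x) ^ 2) with hρ
  have hxy : x < y := by linarith
  -- a factor vanishing at `x`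
  have hex : ∃ j0, Real.sin ((x - t j0) / 2) = 0 := by
    unfold G at hx
    rcases mul_eq_zero.1 hx with h | h
    · exact absurd h hK.ne'
    · obtain ⟨j, _, hj⟩ := Finset.prod_eq_zero_iff.1 h
      exact ⟨j, abs_eq_zero.1 hj⟩
  obtain ⟨j0, hj0⟩ := hex
  have hfac : ∀ j, |Real.sin ((u - t j) / 2)| * |Real.sin ((v - t j) / 2)|
      = Real.sin (((u + v) / 2 - t j) / 2) ^ 2 - Real.sin ((v - u) / 4) ^ 2 := by
    intro j
    rw [abs_sin_mul _ _ (by linarith)]
    · congr 3 <;> ring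
    · intro c hc hc0
      have : G t K (2 * c + t j) = 0 := by
        unfold G
        rw [Finset.prod_eq_zero (Finset.mem_univ j), mul_zero]
        rw [show (2 * c + t j - t j) / 2 = c by ring, hc0, abs_zero]
      refine hne (2 * c + t j) ⟨?_, ?_⟩ this
      · have := hc.1; linarith
      · have := hc.2; linarith
  -- the special factor
  have hρ0 : 0 ≤ ρ := by positivity
  have hspec : ρ * Real.sin (((u + v) / 2 - t j0) / 2) ^ 2 ≤ Real.sin ((v - u) / 4) ^ 2 := by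
    have h1 : Real.sin (((u + v) / 2 - t j0) / 2) ^ 2 ≤ ((y - x) / 2) ^ 2 := by
      have e : ((u + v) / 2 - t j0) / 2 = ((u + v) / 2 - x) / 2 + (x - t j0) / 2 := by ring
      have e2 : Real.sin (((u + v) / 2 - t j0) / 2) ^ 2
          = Real.sin (((u + v) / 2 - x) / 2) ^ 2 * Real.cos ((x - t j0) / 2) ^ 2 := by
        rw [e, Real.sin_add, hj0]; ring
      rw [e2]
      have h3 : Real.cos ((x - t j0) / 2) ^ 2 ≤ 1 := Real.cos_sq_le_one _
      have h4 : Real.sin (((u + v) / 2 - x) / 2) ^ 2 ≤ (((u + v) / 2 - x) / 2) ^ 2 := by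
        rw [sq_le_sq]
        exact Real.abs_sin_le_abs
      have h5 : (((u + v) / 2 - x) / 2) ^ 2 ≤ ((y - x) / 2) ^ 2 := by
        apply pow_le_pow_left₀ <;> linarith
      have h6 : 0 ≤ Real.sin (((u + v) / 2 - x) / 2) ^ 2 := sq_nonneg _
      nlinarith
    have h2 : (v - u) / (2 * Real.pi) ≤ Real.sin ((v - u) / 4) := by
      have := Real.mul_le_sin (x := (v - u) / 4) (by linarith) (by linarith)
      calc (v - u) / (2 * Real.pi) = 2 / Real.pi * ((v - u) / 4) := by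
            field_simp; ring
        _ ≤ _ := this
    calc ρ * Real.sin (((u + v) / 2 - t j0) / 2) ^ 2
        ≤ ρ * ((y - x) / 2) ^ 2 := mul_le_mul_of_nonneg_left h1 hρ0
      _ = ((v - u) / (2 * Real.pi)) ^ 2 := by
          have : (y - x) ≠ 0 := by linarith
          rw [hρ]; field_simp
      _ ≤ _ := by
          apply pow_le_pow_left₀ _ h2
          apply div_nonneg <;> linarith
  have hprod : (∏ j, |Real.sin ((u - t j) / 2)|) * (∏ j, |Real.sin ((v - t j) / 2)|)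
      ≤ (1 - ρ) * ∏ j, Real.sin (((u + v) / 2 - t j) / 2) ^ 2 := by
    rw [← Finset.prod_mul_distrib]
    have hc : (1 - ρ) = ∏ j : Fin N, (if j = j0 then (1 - ρ) else 1) := by
      rw [Finset.prod_ite_eq']
      simp
    rw [hc, ← Finset.prod_mul_distrib]
    apply Finset.prod_le_prod
    · intro j _; positivity
    · intro j _
      rw [hfac j]
      split_ifs with h
      · rw [h]; linarith
      · have := sq_nonneg (Real.sin ((v - u) / 4))
        linarith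
  calc G t K u * G t K v
      = K ^ 2 * ((∏ j, |Real.sin ((u - t j) / 2)|) * (∏ j, |Real.sin ((v - t j) / 2)|)) := by
        unfold G; ring
    _ ≤ K ^ 2 * ((1 - ρ) * ∏ j, Real.sin (((u + v) / 2 - t j) / 2) ^ 2) :=
        mul_le_mul_of_nonneg_left hprod (sq_nonneg K)
    _ = (1 - ρ) * (G t K ((u + v) / 2)) ^ 2 := by
        unfold G
        rw [mul_pow, ← Finset.prod_pow]
        simp only [sq_abs]
        ring

lemma quasi {N : ℕ} (t : Fin N → ℝ) (K : ℝ) (hK : 0 < K) (x y : ℝ)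
    (hl : y - x ≤ 2 * Real.pi) (hx : G t K x = 0)
    (hne : ∀ θ ∈ Ioo x y, G t K θ ≠ 0) (a w b : ℝ) (ha : x < a) (haw : a ≤ w)
    (hwb : w ≤ b) (hb : b < y) : min (G t K a) (G t K b) ≤ G t K w := by
  have hab : a ≤ b := haw.trans hwb
  obtain ⟨w0, hw0, hmin⟩ := isCompact_Icc.exists_isMinOn (nonempty_Icc.2 hab)
    (G_cont t K).continuousOn
  have hm : ∀ z ∈ Icc a b, G t K w0 ≤ G t K z := fun z hz => hmin hz
  have hw : G t K w0 ≤ G t K w := hm w ⟨haw, hwb⟩
  rcases eq_or_lt_of_le hw0.1 with h1 | h1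
  · rw [← h1] at hw
    exact (min_le_left _ _).trans hw
  rcases eq_or_lt_of_le hw0.2 with h2 | h2
  · rw [h2] at hw
    exact (min_le_right _ _).trans hw
  exfalso
  set h : ℝ := min (w0 - a) (b - w0) with hh
  have hpos : 0 < h := lt_min (by linarith) (by linarith)
  have hle1 : h ≤ w0 - a := min_le_left _ _
  have hle2 : h ≤ b - w0 := min_le_right _ _
  have hs := star t K hK x y hl hx hne (w0 - h) (w0 + h) (by linarith) (by linarith)
    (by linarith)
  have e : (w0 - h + (w0 + h)) / 2 = w0 := by ring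
  rw [e] at hs
  have hpi := Real.pi_pos
  have hxy : 0 < y - x := by linarith
  have hρ : 0 < (w0 + h - (w0 - h)) ^ 2 / (Real.pi ^ 2 * (y - x) ^ 2) := by
    have : 0 < w0 + h - (w0 - h) := by linarith
    positivity
  have hp : 0 < G t K w0 := lt_of_le_of_ne (G_nonneg t K hK w0)
    (Ne.symm (hne w0 ⟨by linarith, by linarith⟩))
  have h3 := hm (w0 - h) ⟨by linarith, by linarith⟩
  have h4 := hm (w0 + h) ⟨by linarith, by linarith⟩
  have h5 : G t K w0 * G t K w0 ≤ G t K (w0 - h) * G t K (w0 + h) :=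
    mul_le_mul h3 h4 hp.le (hp.le.trans h3)
  have h6 : 0 < (w0 + h - (w0 - h)) ^ 2 / (Real.pi ^ 2 * (y - x) ^ 2) * (G t K w0) ^ 2 := by
    positivity
  nlinarith

/-- Two points of the band, on the same side of the maximum, are close. -/
lemma close {N : ℕ} (t : Fin N → ℝ) (K κ δ : ℝ) (hK : 0 < K) (hκ : 0 < κ) (hδ0 : 0 ≤ δ)
    (hδ1 : δ < 1) (x y : ℝ) (hl : y - x ≤ 2 * Real.pi) (hx : G t K x = 0)
    (hne : ∀ θ ∈ Ioo x y, G t K θ ≠ 0) (u v : ℝ) (hu : x < u) (huv : u ≤ v) (hv : v < y)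
    (h1 : |G t K u - κ| ≤ δ * κ) (h2 : |G t K v - κ| ≤ δ * κ)
    (h3 : G t K ((u + v) / 2) ≤ (1 + δ) * κ) :
    v - u ≤ 2 * Real.pi * √δ * (y - x) := by
  have hpi := Real.pi_pos
  have hxy : 0 < y - x := by linarith
  have hs := star t K hK x y hl hx hne u v hu huv hv
  set ρ : ℝ := (v - u) ^ 2 / (Real.pi ^ 2 * (y - x) ^ 2) with hρ
  have hρ1 : ρ ≤ 1 := by
    rw [hρ, div_le_one (by positivity)]
    have e1 : (v - u) ^ 2 ≤ (y - x) ^ 2 := by
      apply pow_le_pow_left₀ <;> linarith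
    have e2 : (1 : ℝ) ≤ Real.pi ^ 2 := by
      have := Real.pi_gt_three; nlinarith
    nlinarith [sq_nonneg (y - x)]
  rw [abs_le] at h1 h2
  have g1 : (1 - δ) * κ ≤ G t K u := by linarith
  have g2 : (1 - δ) * κ ≤ G t K v := by linarith
  have g0 : 0 ≤ (1 - δ) * κ := mul_nonneg (by linarith) hκ.le
  have g3 : ((1 - δ) * κ) * ((1 - δ) * κ) ≤ G t K u * G t K v :=
    mul_le_mul g1 g2 g0 (g0.trans g1)
  have g4 : (G t K ((u + v) / 2)) ^ 2 ≤ ((1 + δ) * κ) ^ 2 :=
    pow_le_pow_left₀ (G_nonneg t K hK _) h3 2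
  have g5 : (1 - ρ) * (G t K ((u + v) / 2)) ^ 2 ≤ (1 - ρ) * ((1 + δ) * κ) ^ 2 :=
    mul_le_mul_of_nonneg_left g4 (by linarith)
  have g6 : (1 - δ) ^ 2 * κ ^ 2 ≤ (1 - ρ) * (1 + δ) ^ 2 * κ ^ 2 := by nlinarith
  have g7 : (1 - δ) ^ 2 ≤ (1 - ρ) * (1 + δ) ^ 2 :=
    le_of_mul_le_mul_right g6 (by positivity)
  have hρ0 : 0 ≤ ρ := by positivity
  have g8 : ρ ≤ 4 * δ := by nlinarith [mul_nonneg hρ0 hδ0, mul_nonneg hρ0 (mul_nonneg hδ0 hδ0)]
  rw [hρ, div_le_iff₀ (by positivity)] at g8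
  have g9 : (v - u) ^ 2 ≤ (2 * Real.pi * √δ * (y - x)) ^ 2 := by
    calc (v - u) ^ 2 ≤ 4 * δ * (Real.pi ^ 2 * (y - x) ^ 2) := g8
      _ = (2 * Real.pi * √δ * (y - x)) ^ 2 := by
        rw [mul_pow, mul_pow, mul_pow, Real.sq_sqrt hδ0]; ring
  exact (pow_le_pow_iff_left₀ (by linarith) (by positivity) two_ne_zero).1 g9

lemma gap {N : ℕ} (t : Fin N → ℝ) (K κ δ : ℝ) (hK : 0 < K) (hκ : 0 < κ) (hδ0 : 0 ≤ δ)
    (hδ1 : δ < 1) (x y : ℝ) (hxy : x < y) (hl : y - x ≤ 2 * Real.pi) (hx : G t K x = 0)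
    (hy : G t K y = 0) (hne : ∀ θ ∈ Ioo x y, G t K θ ≠ 0) :
    volume ({θ | |G t K θ - κ| ≤ δ * κ} ∩ Icc x y)
      ≤ ENNReal.ofReal (4 * Real.pi * √δ * (y - x)) := by
  have hpi := Real.pi_pos
  obtain ⟨M, hM, hmax⟩ := isCompact_Icc.exists_isMaxOn (nonempty_Icc.2 hxy.le)
    (G_cont t K).continuousOn
  have hm : ∀ z ∈ Icc x y, G t K z ≤ G t K M := fun z hz => hmax hz
  have hpos : ∀ θ ∈ Ioo x y, 0 < G t K θ := fun θ hθ =>
    lt_of_le_of_ne (G_nonneg t K hK θ) (Ne.symm (hne θ hθ))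
  have hMp : 0 < G t K M := (hpos ((x + y) / 2) ⟨by linarith, by linarith⟩).trans_le
    (hm _ ⟨by linarith, by linarith⟩)
  have hMx : x < M := by
    rcases eq_or_lt_of_le hM.1 with h | h
    · rw [← h, hx] at hMp; exact absurd hMp (lt_irrefl _)
    · exact h
  have hMy : M < y := by
    rcases eq_or_lt_of_le hM.2 with h | h
    · rw [h, hy] at hMp; exact absurd hMp (lt_irrefl _)
    · exact h
  have hδκ : δ * κ < κ := by nlinarith
  have hband0 : ∀ θ, |G t K θ - κ| ≤ δ * κ → G t K θ ≠ 0 := by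
    intro θ hθ h0
    rw [h0, zero_sub, abs_neg, abs_of_pos hκ] at hθ
    linarith
  have hd0 : 0 ≤ 2 * Real.pi * √δ * (y - x) := by
    have : 0 ≤ y - x := by linarith
    positivity
  -- left part
  have hL : ∀ u v, u ∈ Icc x M → v ∈ Icc x M → u ≤ v → |G t K u - κ| ≤ δ * κ →
      |G t K v - κ| ≤ δ * κ → v - u ≤ 2 * Real.pi * √δ * (y - x) := by
    intro u v hu hv huv h1 h2
    have hux : x < u := by
      rcases eq_or_lt_of_le hu.1 with h | h
      · exact absurd (h ▸ hx) (hband0 u h1)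
      · exact h
    have hvy : v < y := hv.2.trans_lt hMy
    refine close t K κ δ hK hκ hδ0 hδ1 x y hl hx hne u v hux huv hvy h1 h2 ?_
    have hq := quasi t K hK x y hl hx hne ((u + v) / 2) v M (by linarith) (by linarith)
      hv.2 hMy
    have hmm := hm ((u + v) / 2) ⟨by linarith, by linarith⟩
    rw [min_eq_left hmm] at hq
    rw [abs_le] at h2
    linarith
  have hR : ∀ u v, u ∈ Icc M y → v ∈ Icc M y → u ≤ v → |G t K u - κ| ≤ δ * κ →
      |G t K v - κ| ≤ δ * κ → v - u ≤ 2 * Real.pi * √δ * (y - x) := by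
    intro u v hu hv huv h1 h2
    have hvy : v < y := by
      rcases eq_or_lt_of_le hv.2 with h | h
      · exact absurd (h ▸ hy) (hband0 v h2)
      · exact h
    have hux : x < u := hMx.trans_le hu.1
    refine close t K κ δ hK hκ hδ0 hδ1 x y hl hx hne u v hux huv hvy h1 h2 ?_
    have hq := quasi t K hK x y hl hx hne M u ((u + v) / 2) hMx hu.1 (by linarith)
      (by linarith)
    have hmm := hm ((u + v) / 2) ⟨by linarith, by linarith⟩
    rw [min_eq_right hmm] at hq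
    rw [abs_le] at h1
    linarith
  have hvol : ∀ S : Set ℝ, (∀ u ∈ S, ∀ v ∈ S, u ≤ v → v - u ≤ 2 * Real.pi * √δ * (y - x)) →
      volume S ≤ ENNReal.ofReal (2 * Real.pi * √δ * (y - x)) := by
    intro S hS
    refine (Real.volume_le_diam S).trans (Metric.ediam_le ?_)
    intro u hu v hv
    rw [edist_dist, Real.dist_eq]
    apply ENNReal.ofReal_le_ofReal
    rcases le_total u v with h | h
    · rw [abs_sub_comm, abs_of_nonneg (by linarith)]
      exact hS u hu v hv h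
    · rw [abs_of_nonneg (by linarith)]
      exact hS v hv u hu h
  have hsub : ({θ | |G t K θ - κ| ≤ δ * κ} ∩ Icc x y)
      ⊆ ({θ | |G t K θ - κ| ≤ δ * κ} ∩ Icc x M) ∪ ({θ | |G t K θ - κ| ≤ δ * κ} ∩ Icc M y) := by
    rintro θ ⟨h1, h2⟩
    rcases le_total θ M with h | h
    · exact Or.inl ⟨h1, h2.1, h⟩
    · exact Or.inr ⟨h1, h, h2.2⟩
  calc volume ({θ | |G t K θ - κ| ≤ δ * κ} ∩ Icc x y)
      ≤ volume (({θ | |G t K θ - κ| ≤ δ * κ} ∩ Icc x M)
          ∪ ({θ | |G t K θ - κ| ≤ δ * κ} ∩ Icc M y)) := measure_mono hsub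
    _ ≤ _ := measure_union_le _ _
    _ ≤ ENNReal.ofReal (2 * Real.pi * √δ * (y - x))
        + ENNReal.ofReal (2 * Real.pi * √δ * (y - x)) := by
        apply add_le_add
        · exact hvol _ fun u hu v hv huv => hL u v hu.2 hv.2 huv hu.1 hv.1
        · exact hvol _ fun u hu v hv huv => hR u v hu.2 hv.2 huv hu.1 hv.1
    _ = _ := by
        rw [← ENNReal.ofReal_add hd0 hd0]; congr 1; ring

lemma G_periodic {N : ℕ} (t : Fin N → ℝ) (K : ℝ) (x : ℝ) :
    G t K (x + 2 * Real.pi) = G t K x := by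
  unfold G
  congr 1
  refine Finset.prod_congr rfl fun j _ => ?_
  rw [show (x + 2 * Real.pi - t j) / 2 = (x - t j) / 2 + Real.pi by ring, Real.sin_add_pi,
    abs_neg]

lemma induct {N : ℕ} (t : Fin N → ℝ) (K κ δ : ℝ) (hK : 0 < K) (hκ : 0 < κ) (hδ0 : 0 ≤ δ)
    (hδ1 : δ < 1) (s : Finset ℝ) : ∀ x y : ℝ, x < y → G t K x = 0 → G t K y = 0 →
    (∀ θ ∈ Ioo x y, G t K θ = 0 → θ ∈ s) →
    volume ({θ | |G t K θ - κ| ≤ δ * κ} ∩ Icc x y)
      ≤ ENNReal.ofReal (4 * Real.pi * √δ * (y - x)) := by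
  have hpi := Real.pi_pos
  induction s using Finset.induction_on with
  | empty =>
    intro x y hxy hx hy h
    refine gap t K κ δ hK hκ hδ0 hδ1 x y hxy ?_ hx hy fun θ hθ h0 =>
      absurd (h θ hθ h0) (Finset.notMem_empty θ)
    by_contra hlt
    push Not at hlt
    refine absurd (h (x + 2 * Real.pi) ⟨by linarith, by linarith⟩ ?_) (Finset.notMem_empty _)
    rw [G_periodic, hx]
  | insert a s ha ih =>
    intro x y hxy hx hy h
    by_cases hmem : a ∈ Ioo x y ∧ G t K a = 0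
    · obtain ⟨⟨ha1, ha2⟩, ha0⟩ := hmem
      have h1 := ih x a ha1 hx ha0 (by
        intro θ hθ h0
        rcases Finset.mem_insert.1 (h θ ⟨hθ.1, hθ.2.trans ha2⟩ h0) with h' | h'
        · exact absurd h' hθ.2.ne
        · exact h')
      have h2 := ih a y ha2 ha0 hy (by
        intro θ hθ h0
        rcases Finset.mem_insert.1 (h θ ⟨ha1.trans hθ.1, hθ.2⟩ h0) with h' | h'
        · exact absurd h' hθ.1.ne'
        · exact h')
      have hsub : ({θ | |G t K θ - κ| ≤ δ * κ} ∩ Icc x y)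
          ⊆ ({θ | |G t K θ - κ| ≤ δ * κ} ∩ Icc x a)
            ∪ ({θ | |G t K θ - κ| ≤ δ * κ} ∩ Icc a y) := by
        rintro θ ⟨h1, h2⟩
        rcases le_total θ a with h | h
        · exact Or.inl ⟨h1, h2.1, h⟩
        · exact Or.inr ⟨h1, h, h2.2⟩
      have e1 : 0 ≤ 4 * Real.pi * √δ * (a - x) := by
        have : 0 ≤ a - x := by linarith
        positivity
      have e2 : 0 ≤ 4 * Real.pi * √δ * (y - a) := by
        have : 0 ≤ y - a := by linarith
        positivity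
      calc volume ({θ | |G t K θ - κ| ≤ δ * κ} ∩ Icc x y)
          ≤ volume (({θ | |G t K θ - κ| ≤ δ * κ} ∩ Icc x a)
              ∪ ({θ | |G t K θ - κ| ≤ δ * κ} ∩ Icc a y)) := measure_mono hsub
        _ ≤ _ := measure_union_le _ _
        _ ≤ _ := add_le_add h1 h2
        _ = _ := by rw [← ENNReal.ofReal_add e1 e2]; congr 1; ring
    · refine ih x y hxy hx hy fun θ hθ h0 => ?_
      rcases Finset.mem_insert.1 (h θ hθ h0) with h' | h'
      · exact absurd ⟨h' ▸ hθ, h' ▸ h0⟩ hmem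
      · exact h'

/-- The zeros in a bounded interval form a finite set. -/
lemma zeros_finite {N : ℕ} (t : Fin N → ℝ) (K : ℝ) (hK : 0 < K) (x y : ℝ) :
    {θ | θ ∈ Ioo x y ∧ G t K θ = 0}.Finite := by
  have hpi := Real.pi_pos
  have : {θ | θ ∈ Ioo x y ∧ G t K θ = 0}
      ⊆ ⋃ j : Fin N, (fun k : ℤ => t j + 2 * Real.pi * k) ''
          (Icc ⌊(x - t j) / (2 * Real.pi)⌋ ⌈(y - t j) / (2 * Real.pi)⌉) := by
    rintro θ ⟨hθ, h0⟩
    unfold G at h0
    rcases mul_eq_zero.1 h0 with h | h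
    · exact absurd h hK.ne'
    obtain ⟨j, _, hj⟩ := Finset.prod_eq_zero_iff.1 h
    have hj' := abs_eq_zero.1 hj
    obtain ⟨k, hk⟩ := Real.sin_eq_zero_iff.1 hj'
    have hk' : θ = t j + 2 * Real.pi * k := by linarith
    have hkd : (k : ℝ) = (θ - t j) / (2 * Real.pi) := by
      rw [hk']; field_simp; ring
    rw [mem_iUnion]
    refine ⟨j, k, ⟨?_, ?_⟩, hk'.symm⟩
    · have : ((⌊(x - t j) / (2 * Real.pi)⌋ : ℤ) : ℝ) ≤ (k : ℝ) := by
        refine (Int.floor_le _).trans ?_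
        rw [hkd]
        have := hθ.1
        gcongr
      exact_mod_cast this
    · have : (k : ℝ) ≤ ((⌈(y - t j) / (2 * Real.pi)⌉ : ℤ) : ℝ) := by
        refine le_trans ?_ (Int.le_ceil _)
        rw [hkd]
        have := hθ.2
        gcongr
      exact_mod_cast this
  exact (finite_iUnion fun j => (finite_Icc _ _).image _).subset this

end BandAux

open BandAux in
theorem band (N : ℕ) (hN : 0 < N) (t : Fin N → ℝ) (K κ δ : ℝ) (hK : 0 < K) (hκ : 0 < κ)
    (hδ : 0 ≤ δ) :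
    volume {θ : ℝ | θ ∈ Set.Icc 0 (2 * Real.pi) ∧
      |K * ∏ j, |Real.sin ((θ - t j) / 2)| - κ| ≤ δ * κ} ≤ ENNReal.ofReal (200 * √δ) := by
  have hpi := Real.pi_pos
  have hpi2 : Real.pi < 3.15 := Real.pi_lt_d2
  rcases lt_or_ge δ 1 with hδ1 | hδ1
  · -- a zero in `[0, 2π)`
    obtain ⟨a, ha0, ha⟩ : ∃ a : ℝ, G t K a = 0 ∧ a ∈ Ico (0 : ℝ) (2 * Real.pi) := by
      let j0 : Fin N := ⟨0, hN⟩
      refine ⟨t j0 - 2 * Real.pi * ⌊t j0 / (2 * Real.pi)⌋, ?_, ?_⟩
      · unfold G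
        rw [Finset.prod_eq_zero (Finset.mem_univ j0), mul_zero]
        rw [abs_eq_zero, Real.sin_eq_zero_iff]
        refine ⟨-⌊t j0 / (2 * Real.pi)⌋, ?_⟩
        push_cast; ring
      · have h1 := Int.floor_le (t j0 / (2 * Real.pi))
        have h2 := Int.lt_floor_add_one (t j0 / (2 * Real.pi))
        rw [le_div_iff₀ (by positivity)] at h1
        rw [div_lt_iff₀ (by positivity)] at h2
        constructor <;> nlinarith
    have hx0 : G t K (a - 2 * Real.pi) = 0 := by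
      rw [← G_periodic, sub_add_cancel, ha0]
    have hy0 : G t K (a + 2 * Real.pi) = 0 := by
      rw [G_periodic, ha0]
    have hfin := zeros_finite t K hK (a - 2 * Real.pi) (a + 2 * Real.pi)
    have hI := induct t K κ δ hK hκ hδ hδ1 hfin.toFinset (a - 2 * Real.pi) (a + 2 * Real.pi)
      (by linarith) hx0 hy0 (fun θ hθ h0 => by
        rw [Set.Finite.mem_toFinset]; exact ⟨hθ, h0⟩)
    refine (measure_mono ?_).trans (hI.trans (ENNReal.ofReal_le_ofReal ?_))
    · rintro θ ⟨h1, h2⟩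
      refine ⟨h2, ?_, ?_⟩
      · have := ha.2; have := h1.1; linarith
      · have := ha.1; have := h1.2; linarith
    · have hs : 0 ≤ √δ := Real.sqrt_nonneg δ
      have : 4 * Real.pi * (a + 2 * Real.pi - (a - 2 * Real.pi)) ≤ 200 := by nlinarith
      nlinarith
  · calc volume {θ : ℝ | θ ∈ Set.Icc 0 (2 * Real.pi) ∧
          |K * ∏ j, |Real.sin ((θ - t j) / 2)| - κ| ≤ δ * κ}
        ≤ volume (Set.Icc 0 (2 * Real.pi)) := measure_mono fun θ hθ => hθ.1
      _ = ENNReal.ofReal (2 * Real.pi) := by rw [Real.volume_Icc, sub_zero]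
      _ ≤ _ := by
        apply ENNReal.ofReal_le_ofReal
        have : 1 ≤ √δ := Real.one_le_sqrt.2 hδ1
        nlinarith

end H24FB
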