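import Pool.Agent.H24.FB.Defs

/-! Block C: topology of `SL(2, ℝ)`, the sets `KR`, and the band estimate for traces. -/

open MeasureTheory Matrix Filter Topology
open scoped MatrixGroups

namespace H24FB

/-! ### Instances -/

instance instLCSL : LocallyCompactSpace SL(2, ℝ) := by
  have : LocallyCompactSpace (Matrix (Fin 2) (Fin 2) ℝ) :=
    inferInstanceAs (LocallyCompactSpace (Fin 2 → Fin 2 → ℝ))
  exact (Matrix.SpecialLinearGroup.isClosedEmbedding_val (n := Fin 2) (R := ℝ)).locallyCompactSpace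

instance instSCSL : SecondCountableTopology SL(2, ℝ) := by
  have : SecondCountableTopology (Matrix (Fin 2) (Fin 2) ℝ) :=
    inferInstanceAs (SecondCountableTopology (Fin 2 → Fin 2 → ℝ))
  exact (Matrix.SpecialLinearGroup.isClosedEmbedding_val (n := Fin 2)
    (R := ℝ)).isEmbedding.secondCountableTopology

instance instT2SL : T2Space SL(2, ℝ) :=
  (Matrix.SpecialLinearGroup.isClosedEmbedding_val (n := Fin 2) (R := ℝ)).isEmbedding.t2Space

instance instClosedCenter : IsClosed ((Subgroup.center SL(2, ℝ) : Subgroup SL(2, ℝ)) :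
    Set SL(2, ℝ)) := by
  have h := Set.isClosed_centralizer (Set.univ : Set SL(2, ℝ))
  rwa [Set.centralizer_univ, ← Subgroup.coe_center] at h

instance instT2PSL : T2Space PSL(2, ℝ) := inferInstance

instance instSCPSL : SecondCountableTopology PSL(2, ℝ) := inferInstance

instance instLCPSL : LocallyCompactSpace PSL(2, ℝ) := inferInstance

/-! ### Continuity -/

theorem continuous_coe : Continuous (fun g : SL(2, ℝ) => (g : Matrix (Fin 2) (Fin 2) ℝ)) :=
  continuous_subtype_val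

theorem continuous_entry (i j : Fin 2) :
    Continuous (fun g : SL(2, ℝ) => (g : Matrix (Fin 2) (Fin 2) ℝ) i j) :=
  continuous_coe.matrix_elem i j

theorem continuous_tr : Continuous tr :=
  continuous_coe.matrix_trace

theorem coe_rot (θ : ℝ) : ((rot θ : SL(2, ℝ)) : Matrix (Fin 2) (Fin 2) ℝ) =
    !![Real.cos θ, -Real.sin θ; Real.sin θ, Real.cos θ] := rfl

theorem continuous_rot : Continuous rot := by
  refine continuous_induced_rng.mpr ?_
  refine continuous_matrix fun i j => ?_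
  fin_cases i <;> fin_cases j <;> simp <;> fun_prop

theorem continuous_wp {X : Type*} [TopologicalSpace X] {B : X → ℕ → SL(2, ℝ)}
    (hB : ∀ j, Continuous fun x => B x j) (m : ℕ) : Continuous fun x => wp (B x) m := by
  induction m with
  | zero => exact continuous_const
  | succ k ih => exact (hB k).mul ih

/-! ### The sets `KR` -/

/-- One factor of `KR`. -/
def K1 (R : ℝ) : Set SL(2, ℝ) :=
  {g | ∑ i, ∑ j, ((g : Matrix (Fin 2) (Fin 2) ℝ) i j) ^ 2 ≤ R}

theorem isCompact_mat (R : ℝ) :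
    IsCompact {M : Matrix (Fin 2) (Fin 2) ℝ | ∑ i, ∑ j, (M i j) ^ 2 ≤ R} := by
  have hK : IsCompact (Set.univ.pi (fun _ : Fin 2 => Set.univ.pi
      (fun _ : Fin 2 => Set.Icc (-(R + 1)) (R + 1))) : Set (Fin 2 → Fin 2 → ℝ)) :=
    isCompact_univ_pi fun _ => isCompact_univ_pi fun _ => isCompact_Icc
  refine IsCompact.of_isClosed_subset (X := Matrix (Fin 2) (Fin 2) ℝ) hK ?_ ?_
  · refine isClosed_le ?_ continuous_const
    refine continuous_finsetSum _ fun i _ => continuous_finsetSum _ fun j _ => ?_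
    exact (continuous_id.matrix_elem i j).pow 2
  · intro M hM i _ j _
    have h1 : (M i j) ^ 2 ≤ R := by
      refine le_trans ?_ (show ∑ i, ∑ j, (M i j) ^ 2 ≤ R from hM)
      refine le_trans ?_ (Finset.single_le_sum (f := fun i => ∑ j, (M i j) ^ 2)
        (fun i _ => Finset.sum_nonneg fun j _ => sq_nonneg _) (Finset.mem_univ i))
      exact Finset.single_le_sum (f := fun j => (M i j) ^ 2)
        (fun j _ => sq_nonneg _) (Finset.mem_univ j)
    constructor <;> nlinarith [sq_nonneg (M i j - 1), sq_nonneg (M i j + 1)]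

theorem isCompact_K1 (R : ℝ) : IsCompact (K1 R) :=
  (Matrix.SpecialLinearGroup.isClosedEmbedding_val (n := Fin 2)
    (R := ℝ)).isCompact_preimage (isCompact_mat R)

theorem KR_eq_pi (n : ℕ) (R : ℝ) : KR n R = Set.univ.pi fun _ : Fin n => K1 R := by
  ext h
  simp [KR, K1]

theorem isCompact_KR (n : ℕ) (R : ℝ) : IsCompact (KR n R) := by
  rw [KR_eq_pi]
  exact isCompact_univ_pi fun _ => isCompact_K1 R

theorem isClosed_KR (n : ℕ) (R : ℝ) : IsClosed (KR n R) := (isCompact_KR n R).isClosed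

theorem measurableSet_KR (n : ℕ) (R : ℝ) : MeasurableSet (KR n R) :=
  (isClosed_KR n R).measurableSet

theorem KR_mono {n : ℕ} {R R' : ℝ} (h : R ≤ R') : KR n R ⊆ KR n R' :=
  fun _ hx k => (hx k).trans h

theorem iUnion_KR (n : ℕ) : ⋃ R : ℕ, KR n (R : ℝ) = Set.univ := by
  refine Set.eq_univ_of_forall fun h => ?_
  obtain ⟨N, hN⟩ := exists_nat_ge (∑ k, ∑ i, ∑ j, ((h k : Matrix (Fin 2) (Fin 2) ℝ) i j) ^ 2)
  refine Set.mem_iUnion.mpr ⟨N, fun k => le_trans ?_ hN⟩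
  exact Finset.single_le_sum
    (f := fun k => ∑ i, ∑ j, ((h k : Matrix (Fin 2) (Fin 2) ℝ) i j) ^ 2)
    (fun k _ => Finset.sum_nonneg fun i _ => Finset.sum_nonneg fun j _ => sq_nonneg _)
    (Finset.mem_univ k)

theorem rot_mul_zero (θ : ℝ) (g : SL(2, ℝ)) (j : Fin 2) :
    ((rot θ * g : SL(2, ℝ)) : Matrix (Fin 2) (Fin 2) ℝ) 0 j =
      Real.cos θ * (g : Matrix (Fin 2) (Fin 2) ℝ) 0 j -
        Real.sin θ * (g : Matrix (Fin 2) (Fin 2) ℝ) 1 j := by
  rw [Matrix.SpecialLinearGroup.coe_mul, Matrix.mul_apply, coe_rot, Fin.sum_univ_two]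
  simp [sub_eq_add_neg]

theorem rot_mul_one (θ : ℝ) (g : SL(2, ℝ)) (j : Fin 2) :
    ((rot θ * g : SL(2, ℝ)) : Matrix (Fin 2) (Fin 2) ℝ) 1 j =
      Real.sin θ * (g : Matrix (Fin 2) (Fin 2) ℝ) 0 j +
        Real.cos θ * (g : Matrix (Fin 2) (Fin 2) ℝ) 1 j := by
  rw [Matrix.SpecialLinearGroup.coe_mul, Matrix.mul_apply, coe_rot, Fin.sum_univ_two]
  simp

theorem rot_mul_frob (θ : ℝ) (g : SL(2, ℝ)) :
    ∑ i, ∑ j, ((rot θ * g : SL(2, ℝ)) : Matrix (Fin 2) (Fin 2) ℝ) i j ^ 2 =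
      ∑ i, ∑ j, (g : Matrix (Fin 2) (Fin 2) ℝ) i j ^ 2 := by
  simp only [Fin.sum_univ_two, rot_mul_zero, rot_mul_one]
  have h := Real.sin_sq_add_cos_sq θ
  linear_combination ((g : Matrix (Fin 2) (Fin 2) ℝ) 0 0 ^ 2 +
    (g : Matrix (Fin 2) (Fin 2) ℝ) 0 1 ^ 2 + (g : Matrix (Fin 2) (Fin 2) ℝ) 1 0 ^ 2 +
    (g : Matrix (Fin 2) (Fin 2) ℝ) 1 1 ^ 2) * h

theorem rot_mul_mem_KR {n : ℕ} {R : ℝ} (θ : ℝ) (h : Fin n → SL(2, ℝ)) :
    (fun k => rot θ * h k) ∈ KR n R ↔ h ∈ KR n R := by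
  constructor
  · intro hh k
    have := hh k
    rwa [rot_mul_frob] at this
  · intro hh k
    have := hh k
    rwa [← rot_mul_frob θ] at this

/-! ### The band estimates -/

/-- Statement of block A. -/
def TraceFactor : Prop :=
  ∀ (m : ℕ) (_ : 0 < m) (A : ℕ → SL(2, ℝ)) (c₁ : ℝ) (_ : |c₁| ≤ 2),
    ∃ (K : ℝ) (t : Fin (2 * m) → ℝ), 0 < K ∧
      ∀ θ : ℝ, |tr (wp (fun j => rot θ * A j) m) - c₁| = K * ∏ j, |Real.sin ((θ - t j) / 2)|

/-- Statement of block B. -/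
def Band : Prop :=
  ∀ (N : ℕ) (_ : 0 < N) (t : Fin N → ℝ) (K κ δ : ℝ) (_ : 0 < K) (_ : 0 < κ) (_ : 0 ≤ δ),
    volume {θ : ℝ | θ ∈ Set.Icc 0 (2 * Real.pi) ∧
      |K * ∏ j, |Real.sin ((θ - t j) / 2)| - κ| ≤ δ * κ} ≤ ENNReal.ofReal (200 * √δ)

theorem trace_band_of (hA : TraceFactor) (hB : Band) (m : ℕ) (hm : 0 < m) (A : ℕ → SL(2, ℝ))
    (c δ : ℝ) (hδ : 0 ≤ δ) :
    volume {θ : ℝ | θ ∈ Set.Icc 0 (2 * Real.pi) ∧
      |tr (wp (fun j => rot θ * A j) m) - c| ≤ δ * (1 + |c|)} ≤ ENNReal.ofReal (200 * √δ) := by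
  obtain ⟨c₁, hc₁, hκ⟩ : ∃ c₁ : ℝ, |c₁| ≤ 2 ∧ |c - c₁| = |c| + 2 := by
    rcases le_or_gt 0 c with h | h
    · refine ⟨-2, by norm_num, ?_⟩
      rw [abs_of_nonneg h, abs_of_nonneg (by linarith)]
      ring
    · refine ⟨2, by norm_num, ?_⟩
      rw [abs_of_neg h, abs_of_neg (by linarith)]
      ring
  obtain ⟨K, t, hK, hfac⟩ := hA m hm A c₁ hc₁
  have hκ0 : 0 < |c - c₁| := by
    rw [hκ]
    positivity
  refine le_trans (measure_mono ?_) (hB (2 * m) (by omega) t K |c - c₁| δ hK hκ0 hδ)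
  rintro θ ⟨hθ, h⟩
  refine ⟨hθ, ?_⟩
  rw [← hfac θ]
  have h1 : |(|tr (wp (fun j => rot θ * A j) m) - c₁| - |c - c₁|)| ≤
      |tr (wp (fun j => rot θ * A j) m) - c| := by
    have h2 := abs_abs_sub_abs_le (tr (wp (fun j => rot θ * A j) m) - c₁) (c - c₁)
    have h3 : tr (wp (fun j => rot θ * A j) m) - c₁ - (c - c₁) =
        tr (wp (fun j => rot θ * A j) m) - c := by ring
    rwa [h3] at h2
  refine h1.trans (h.trans ?_)
  refine mul_le_mul_of_nonneg_left ?_ hδ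
  rw [hκ]
  linarith

theorem haar_band_of (hA : TraceFactor) (hB : Band) {n : ℕ}
    (μ : Measure (Fin n → SL(2, ℝ))) [μ.IsMulLeftInvariant] [SFinite μ] (R : ℝ)
    (w : ℕ → Fin n) (m : ℕ) (hm : 0 < m) (c δ : ℝ) (hδ : 0 ≤ δ) :
    μ {h | h ∈ KR n R ∧ |tr (wp (fun j => h (w j)) m) - c| ≤ δ * (1 + |c|)} ≤
      ENNReal.ofReal (40 * √δ) * μ (KR n R) := by
  set S : Set (Fin n → SL(2, ℝ)) :=
    {h | h ∈ KR n R ∧ |tr (wp (fun j => h (w j)) m) - c| ≤ δ * (1 + |c|)} with hS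
  set Φ : ℝ × (Fin n → SL(2, ℝ)) → (Fin n → SL(2, ℝ)) := fun p => (fun _ => rot p.1) * p.2 with hΦ
  have hSc : IsClosed S := by
    have hc : Continuous fun h : Fin n → SL(2, ℝ) => |tr (wp (fun j => h (w j)) m) - c| :=
      ((continuous_tr.comp (continuous_wp (fun j => continuous_apply (w j)) m)).sub
        continuous_const).abs
    have h2 : IsClosed {h : Fin n → SL(2, ℝ) |
        |tr (wp (fun j => h (w j)) m) - c| ≤ δ * (1 + |c|)} := isClosed_le hc continuous_const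
    exact (isClosed_KR n R).inter h2
  have hΦc : Continuous Φ := by
    refine Continuous.mul ?_ continuous_snd
    exact continuous_pi fun _ => continuous_rot.comp continuous_fst
  have hT : MeasurableSet (Φ ⁻¹' S) := (hSc.preimage hΦc).measurableSet
  have hI : (volume.restrict (Set.Icc (0 : ℝ) (2 * Real.pi))) Set.univ =
      ENNReal.ofReal (2 * Real.pi) := by
    rw [Measure.restrict_apply_univ, Real.volume_Icc, sub_zero]
  have h1 : ((volume.restrict (Set.Icc (0 : ℝ) (2 * Real.pi))).prod μ) (Φ ⁻¹' S) =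
      ENNReal.ofReal (2 * Real.pi) * μ S := by
    rw [Measure.prod_apply hT]
    have h2 : ∀ θ : ℝ, μ (Prod.mk θ ⁻¹' (Φ ⁻¹' S)) = μ S := by
      intro θ
      exact measure_preimage_mul μ (fun _ => rot θ) S
    simp_rw [h2]
    rw [lintegral_const, hI, mul_comm]
  have h3 : ((volume.restrict (Set.Icc (0 : ℝ) (2 * Real.pi))).prod μ) (Φ ⁻¹' S) ≤
      ENNReal.ofReal (200 * √δ) * μ (KR n R) := by
    rw [Measure.prod_apply_symm hT, ← lintegral_indicator_const (measurableSet_KR n R)]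
    refine lintegral_mono fun h => ?_
    by_cases hh : h ∈ KR n R
    · rw [Set.indicator_of_mem hh, Measure.restrict_apply' measurableSet_Icc]
      refine le_trans (measure_mono ?_) (trace_band_of hA hB m hm (fun j => h (w j)) c δ hδ)
      rintro θ ⟨hθ, hθI⟩
      exact ⟨hθI, hθ.2⟩
    · have he : (fun x : ℝ => (x, h)) ⁻¹' (Φ ⁻¹' S) = ∅ := by
        refine Set.eq_empty_of_forall_notMem fun θ hθ => hh ?_
        exact (rot_mul_mem_KR θ h).mp hθ.1
      rw [he, measure_empty]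
      exact zero_le
  have h5 : ENNReal.ofReal 5 * μ S ≤ ENNReal.ofReal 5 * (ENNReal.ofReal (40 * √δ) * μ (KR n R)) := by
    calc ENNReal.ofReal 5 * μ S ≤ ENNReal.ofReal (2 * Real.pi) * μ S := by
          gcongr
          linarith [Real.pi_gt_three]
      _ ≤ ENNReal.ofReal (200 * √δ) * μ (KR n R) := h1 ▸ h3
      _ = ENNReal.ofReal 5 * (ENNReal.ofReal (40 * √δ) * μ (KR n R)) := by
          rw [← mul_assoc, ← ENNReal.ofReal_mul (by norm_num)]
          congr 2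
          ring
  exact (ENNReal.mul_le_mul_iff_right (by norm_num) ENNReal.ofReal_ne_top).mp h5

end H24FB
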