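import Pool.Agent.H24.FB.Defs3
import Pool.Agent.H24.FB.BlockC

/-! Block C2: the Haar measure of the set where the trace of a word is small relative to its
norm, from the one-parameter estimate of block J. -/

open MeasureTheory Matrix Filter Topology
open scoped MatrixGroups

namespace H24FB

/-- Averaging over the rotations: a closed set `S ⊆ KR n R` whose rotation slices have length at
most `2 π b` has measure at most `b μ (KR n R)`. -/
theorem haar_rot_avg {n : ℕ} (μ : Measure (Fin n → SL(2, ℝ))) [μ.IsMulLeftInvariant] [SFinite μ]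
    (R : ℝ) (S : Set (Fin n → SL(2, ℝ))) (hSc : IsClosed S) (hSK : S ⊆ KR n R) (b : ℝ)
    (hb : ∀ h : Fin n → SL(2, ℝ), volume {θ : ℝ | θ ∈ Set.Icc 0 (2 * Real.pi) ∧
      (fun i => rot θ * h i) ∈ S} ≤ ENNReal.ofReal (2 * Real.pi * b)) :
    μ S ≤ ENNReal.ofReal b * μ (KR n R) := by
  set Φ : ℝ × (Fin n → SL(2, ℝ)) → (Fin n → SL(2, ℝ)) := fun p => (fun _ => rot p.1) * p.2 with hΦ
  have hΦc : Continuous Φ := by
    refine Continuous.mul ?_ continuous_snd
    exact continuous_pi fun _ => continuous_rot.comp continuous_fst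
  have hT : MeasurableSet (Φ ⁻¹' S) := (hSc.preimage hΦc).measurableSet
  have hI : (volume.restrict (Set.Icc (0 : ℝ) (2 * Real.pi))) Set.univ =
      ENNReal.ofReal (2 * Real.pi) := by
    rw [Measure.restrict_apply_univ, Real.volume_Icc, sub_zero]
  have h1 : ((volume.restrict (Set.Icc (0 : ℝ) (2 * Real.pi))).prod μ) (Φ ⁻¹' S) =
      ENNReal.ofReal (2 * Real.pi) * μ S := by
    rw [Measure.prod_apply hT]
    have h2 : ∀ θ : ℝ, μ (Prod.mk θ ⁻¹' (Φ ⁻¹' S)) = μ S := by
      intro θ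
      exact measure_preimage_mul μ (fun _ => rot θ) S
    simp_rw [h2]
    rw [lintegral_const, hI, mul_comm]
  have h3 : ((volume.restrict (Set.Icc (0 : ℝ) (2 * Real.pi))).prod μ) (Φ ⁻¹' S) ≤
      ENNReal.ofReal (2 * Real.pi * b) * μ (KR n R) := by
    rw [Measure.prod_apply_symm hT, ← lintegral_indicator_const (measurableSet_KR n R)]
    refine lintegral_mono fun h => ?_
    by_cases hh : h ∈ KR n R
    · rw [Set.indicator_of_mem hh, Measure.restrict_apply' measurableSet_Icc]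
      refine le_trans (measure_mono ?_) (hb h)
      rintro θ ⟨hθ, hθI⟩
      exact ⟨hθI, hθ⟩
    · have he : (fun x : ℝ => (x, h)) ⁻¹' (Φ ⁻¹' S) = ∅ := by
        refine Set.eq_empty_of_forall_notMem fun θ hθ => hh ?_
        exact (rot_mul_mem_KR θ h).mp (hSK hθ)
      rw [he, measure_empty]
      exact zero_le
  have h2π : (0 : ℝ) < 2 * Real.pi := by positivity
  have h5 : ENNReal.ofReal (2 * Real.pi) * μ S ≤
      ENNReal.ofReal (2 * Real.pi) * (ENNReal.ofReal b * μ (KR n R)) := by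
    calc ENNReal.ofReal (2 * Real.pi) * μ S ≤ ENNReal.ofReal (2 * Real.pi * b) * μ (KR n R) :=
          h1 ▸ h3
      _ = ENNReal.ofReal (2 * Real.pi) * (ENNReal.ofReal b * μ (KR n R)) := by
          rw [← mul_assoc, ← ENNReal.ofReal_mul h2π.le]
  refine (ENNReal.mul_le_mul_iff_right ?_ ENNReal.ofReal_ne_top).mp h5
  exact (ENNReal.ofReal_pos.mpr h2π).ne'

/-- The statement of block J. -/
def TraceNorm : Prop :=
  ∀ (m : ℕ), 0 < m → ∀ (A : ℕ → SL(2, ℝ)) (κ : ℝ), 0 < κ → κ < 1 →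
    volume {θ : ℝ | θ ∈ Set.Icc 0 (2 * Real.pi) ∧
      |tr (wp (fun j => rot θ * A j) m)| ≤ κ * frob (wp (fun j => rot θ * A j) m)} ≤
      ENNReal.ofReal (2 * Real.pi * Real.log 2 / Real.log (1 / κ))

theorem haar_norm_of (hJ : TraceNorm) {n : ℕ} (μ : Measure (Fin n → SL(2, ℝ)))
    [μ.IsMulLeftInvariant] [SFinite μ] (R : ℝ) (w : ℕ → Fin n) (m : ℕ) (hm : 0 < m) (κ : ℝ)
    (hκ : 0 < κ) (hκ1 : κ < 1) :
    μ {h | h ∈ KR n R ∧ |tr (wp (fun j => h (w j)) m)| ≤ κ * frob (wp (fun j => h (w j)) m)} ≤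
      ENNReal.ofReal (Real.log 2 / Real.log (1 / κ)) * μ (KR n R) := by
  refine haar_rot_avg μ R _ ?_ (fun h hh => hh.1) _ ?_
  · have hw : Continuous fun h : Fin n → SL(2, ℝ) => wp (fun j => h (w j)) m :=
      continuous_wp (fun j => continuous_apply (w j)) m
    exact (isClosed_KR n R).inter (isClosed_le (continuous_tr.comp hw).abs
      (continuous_const.mul (continuous_frob.comp hw)))
  · intro h
    have := hJ m hm (fun j => h (w j)) κ hκ hκ1
    rw [mul_div_assoc] at this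
    refine le_trans (measure_mono ?_) this
    rintro θ ⟨hθ, hθS⟩
    exact ⟨hθ, hθS.2⟩

end H24FB
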