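import Pool.Agent.H24.FB.BlockJ
import Pool.Agent.H24.FB.BlockC2

/-! Block C3: `haar_norm` without hypotheses. -/

open MeasureTheory Matrix Filter Topology
open scoped MatrixGroups

namespace H24FB

theorem traceNorm : TraceNorm := fun m hm A κ h h1 => trace_norm m hm A κ h h1

theorem haar_norm {n : ℕ} (μ : Measure (Fin n → SL(2, ℝ))) [μ.IsMulLeftInvariant] [SFinite μ]
    (R : ℝ) (w : ℕ → Fin n) (m : ℕ) (hm : 0 < m) (κ : ℝ) (hκ : 0 < κ) (hκ1 : κ < 1) :
    μ {h | h ∈ KR n R ∧ |tr (wp (fun j => h (w j)) m)| ≤ κ * frob (wp (fun j => h (w j)) m)} ≤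
      ENNReal.ofReal (Real.log 2 / Real.log (1 / κ)) * μ (KR n R) :=
  haar_norm_of traceNorm μ R w m hm κ hκ hκ1

end H24FB
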