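import Mathlib

/-! Definitions shared by the blocks of the MP_fb7d21_an project. -/

open MeasureTheory Matrix Filter Topology
open scoped MatrixGroups

namespace H24FB

/-- `wp B m = B (m-1) * ... * B 1 * B 0`. -/
def wp {G : Type*} [Monoid G] (B : ℕ → G) : ℕ → G
  | 0 => 1
  | m + 1 => B m * wp B m

/-- Rotation by the angle `θ`. -/
noncomputable def rot (θ : ℝ) : SL(2, ℝ) :=
  ⟨!![Real.cos θ, -Real.sin θ; Real.sin θ, Real.cos θ], by
    rw [Matrix.det_fin_two_of]; nlinarith [Real.sin_sq_add_cos_sq θ]⟩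

/-- The trace of an element of `SL(2, ℝ)`. -/
def tr (A : SL(2, ℝ)) : ℝ := (A : Matrix (Fin 2) (Fin 2) ℝ).trace

/-- `E` is entrywise within `δ` of the identity. -/
def near (δ : ℝ) (E : SL(2, ℝ)) : Prop :=
  ∀ i j, |(E : Matrix (Fin 2) (Fin 2) ℝ) i j - (1 : Matrix (Fin 2) (Fin 2) ℝ) i j| ≤ δ

/-- Tuples all of whose entries have Frobenius norm squared at most `R`. -/
def KR (n : ℕ) (R : ℝ) : Set (Fin n → SL(2, ℝ)) :=
  {h | ∀ k, ∑ i, ∑ j, ((h k : Matrix (Fin 2) (Fin 2) ℝ) i j) ^ 2 ≤ R}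

instance : MeasurableSpace SL(2, ℝ) := borel _
instance : BorelSpace SL(2, ℝ) := ⟨rfl⟩

/-- Word rigidity along the times `q k`. -/
def WordRigid {X : Type*} [MeasurableSpace X] (μ : Measure X) {n : ℕ} (T : X → X)
    (ι : X → Fin n) (q : ℕ → ℕ) : Prop :=
  Tendsto (fun k => μ {x | ∃ i < 2 * q k, ι (T^[i + q k] x) ≠ ι (T^[i] x)}) atTop (𝓝 0)

/-- Rigidity along the times `q k`. -/
def Rigid {X : Type*} [MeasurableSpace X] (μ : Measure X) (T : X → X) (q : ℕ → ℕ) : Prop :=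
  ∀ E : Set X, MeasurableSet E →
    Tendsto (fun k => μ (E \ (T^[q k]) ⁻¹' E)) atTop (𝓝 0)

/-- Badly non-Diophantine numbers: `q * dist (q α) ℤ` gets arbitrarily small. -/
def Good (α : ℝ) : Prop :=
  ∀ ε > 0, ∃ᶠ q : ℕ in atTop, |(q : ℝ) * α - round ((q : ℝ) * α)| * q < ε

/-- The point of the simplex with first coordinates `v`. -/
def simplexPt {m : ℕ} (v : Fin (m + 1) → ℝ) : Fin (m + 2) → ℝ :=
  Fin.snoc v (1 - ∑ i, v i)

/-- Left end point of the `k`-th interval. -/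
def leftEnd {n : ℕ} (lam : Fin n → ℝ) (k : Fin n) : ℝ :=
  ∑ i ∈ Finset.univ.filter (fun i => i < k), lam i

/-- Left end point of the image of the `k`-th interval. -/
def leftEndImg {n : ℕ} (lam : Fin n → ℝ) (π : Equiv.Perm (Fin n)) (k : Fin n) : ℝ :=
  ∑ i ∈ Finset.univ.filter (fun i => π i < π k), lam i

open Classical in
/-- The index of the interval containing `x` (and `0` when `x` is in no interval). -/
noncomputable def idx {m : ℕ} (lam : Fin (m + 2) → ℝ) (x : ℝ) : Fin (m + 2) :=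
  if h : ∃ k, x ∈ Set.Ico (leftEnd lam k) (leftEnd lam k + lam k) then h.choose else 0

/-- The interval exchange transformation with data `(lam, π)`. -/
noncomputable def iet {m : ℕ} (lam : Fin (m + 2) → ℝ) (π : Equiv.Perm (Fin (m + 2)))
    (x : ℝ) : ℝ :=
  x - leftEnd lam (idx lam x) + leftEndImg lam π (idx lam x)

end H24FB
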