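import Mathlib
import Pool.Agent.H24.FB.Defs

open MeasureTheory Measure Filter Topology

namespace H24FB

theorem null_transfer {H L Q : Type*} [Group H] [TopologicalSpace H] [IsTopologicalGroup H]
    [LocallyCompactSpace H] [SecondCountableTopology H] [T2Space H] [MeasurableSpace H]
    [BorelSpace H] [Group L] [TopologicalSpace L] [IsTopologicalGroup L]
    [LocallyCompactSpace L] [SecondCountableTopology L] [T2Space L] [MeasurableSpace L]
    [BorelSpace L] [Group Q] [TopologicalSpace Q] [IsTopologicalGroup Q] [MeasurableSpace Q]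
    [BorelSpace Q] (ν : Measure H) [ν.IsHaarMeasure] (μ : Measure L) [μ.IsHaarMeasure]
    (ρ : H →* Q) (hρ : Continuous ρ) (p : L →* Q) (hp : Continuous p)
    (hps : Function.Surjective p) (hρs : Function.Surjective ρ)
    (N : Set Q) (hN : MeasurableSet N) (h0 : μ (p ⁻¹' N) = 0) : ν (ρ ⁻¹' N) = 0 := by
  classical
  have hΦ : Continuous (fun z : L × H => ρ z.2 * (p z.1)⁻¹) := by fun_prop
  have hS : MeasurableSet ((fun z : L × H => ρ z.2 * (p z.1)⁻¹) ⁻¹' N) := hΦ.measurable hN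
  have hprod : (μ.prod ν) ((fun z : L × H => ρ z.2 * (p z.1)⁻¹) ⁻¹' N) = 0 := by
    rw [Measure.prod_apply_symm hS]
    have hz : ∀ x : H, μ ((fun y => (y, x)) ⁻¹' ((fun z : L × H => ρ z.2 * (p z.1)⁻¹) ⁻¹' N)) = 0 := by
      intro x
      obtain ⟨s, hs⟩ := hps (ρ x)
      have hset : ((fun y => (y, x)) ⁻¹' ((fun z : L × H => ρ z.2 * (p z.1)⁻¹) ⁻¹' N))
          = ((fun y => s * y) ⁻¹' (p ⁻¹' N))⁻¹ := by
        ext y
        simp [← hs, map_mul, map_inv]
      rw [hset, measure_inv_null, measure_preimage_mul]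
      exact h0
    simp [hz]
  have hae := Measure.measure_ae_null_of_prod_null hprod
  obtain ⟨y, hy⟩ := hae.exists
  obtain ⟨z, hz⟩ := hρs (p y)
  have hset : (Prod.mk y ⁻¹' ((fun z : L × H => ρ z.2 * (p z.1)⁻¹) ⁻¹' N))
      = (fun x => x * z⁻¹) ⁻¹' (ρ ⁻¹' N) := by
    ext x
    simp [← hz, map_mul, map_inv]
  have hy' : ν (Prod.mk y ⁻¹' ((fun z : L × H => ρ z.2 * (p z.1)⁻¹) ⁻¹' N)) = 0 := hy
  rw [hset] at hy'
  exact (measure_mul_right_null ν z⁻¹).1 hy'

end H24FB
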