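import Pool.Agent.H24.FB.Defs3
import Pool.Agent.H24.FB.BlockG

/-! The circle quotient: words along first return times, for every probability preserving map.
Everything here except the last section is independent of the return time blocks. -/

open MeasureTheory Measure Filter Topology
open scoped ENNReal

namespace H24FB

namespace Circ

noncomputable instance instMSCircle : MeasurableSpace Circle := borel _
instance instBSCircle : BorelSpace Circle := ⟨rfl⟩

theorem surj_exp : Function.Surjective (Circle.exp : ℝ → Circle) := fun z =>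
  ⟨(z : ℂ).arg, Circle.exp_arg z⟩

instance instConn : ConnectedSpace Circle :=
  surj_exp.connectedSpace Circle.exp.continuous

instance instNontriv : Nontrivial Circle := by
  refine ⟨1, Circle.exp Real.pi, ?_⟩
  intro h
  have h2 := congrArg (fun z : Circle => (z : ℂ)) h
  simp [Circle.coe_exp, Complex.exp_pi_mul_I] at h2
  norm_num at h2

theorem wp_mul {Q : Type*} [CommMonoid Q] (a b : ℕ → Q) (m : ℕ) :
    wp (fun i => a i * b i) m = wp a m * wp b m := by
  induction m with
  | zero => simp [wp]
  | succ m ih => simp only [wp]; rw [ih]; exact mul_mul_mul_comm _ _ _ _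

theorem wp_one {Q : Type*} [Monoid Q] (m : ℕ) : wp (fun _ => (1 : Q)) m = 1 := by
  induction m with
  | zero => rfl
  | succ m ih => simp [wp, ih]

theorem wp_const {Q : Type*} [Monoid Q] (ζ : Q) (m : ℕ) : wp (fun _ => ζ) m = ζ ^ m := by
  induction m with
  | zero => simp [wp]
  | succ m ih => rw [wp, ih, pow_succ']

/-- The character of `Circle ^ n` given by a word. -/
noncomputable def chi {n : ℕ} (w : ℕ → Fin n) (m : ℕ) : (Fin n → Circle) →* Circle where
  toFun d := wp (fun i => d (w i)) m
  map_one' := wp_one m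
  map_mul' a b := wp_mul _ _ m

theorem continuous_wpQ {Q : Type*} [Monoid Q] [TopologicalSpace Q] [ContinuousMul Q]
    {X : Type*} [TopologicalSpace X] {B : X → ℕ → Q}
    (hB : ∀ j, Continuous fun x => B x j) (m : ℕ) : Continuous fun x => wp (B x) m := by
  induction m with
  | zero => exact continuous_const
  | succ k ih => exact (hB k).mul ih

theorem continuous_chi {n : ℕ} (w : ℕ → Fin n) (m : ℕ) : Continuous (chi w m) :=
  continuous_wpQ (fun j => continuous_apply (w j)) m

theorem exp_pow (s : ℝ) (m : ℕ) : (Circle.exp s) ^ m = Circle.exp (m * s) := by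
  induction m with
  | zero => simp
  | succ m ih =>
    rw [pow_succ, ih, ← Circle.exp_add]
    congr 1
    push_cast
    ring

theorem surjective_chi {n : ℕ} (w : ℕ → Fin n) (m : ℕ) (hm : 0 < m) :
    Function.Surjective (chi w m) := by
  intro z
  obtain ⟨t, rfl⟩ := surj_exp z
  refine ⟨fun _ => Circle.exp (t / m), ?_⟩
  change wp (fun _ => Circle.exp (t / m)) m = _
  rw [wp_const, exp_pow]
  congr 1
  field_simp

/-- The Haar probability measure of `Circle ^ n`. -/
noncomputable def lamn (n : ℕ) : Measure (Fin n → Circle) := haarMeasure ⊤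

/-- The Haar probability measure of the circle. -/
noncomputable def lam1 : Measure Circle := haarMeasure ⊤

instance instHaarn (n : ℕ) : (lamn n).IsHaarMeasure := isHaarMeasure_haarMeasure _
instance instHaar1 : lam1.IsHaarMeasure := isHaarMeasure_haarMeasure _

theorem lamn_univ (n : ℕ) : lamn n Set.univ = 1 := by
  have := haarMeasure_self (K₀ := (⊤ : TopologicalSpace.PositiveCompacts (Fin n → Circle)))
  simpa [lamn] using this

theorem lam1_univ : lam1 Set.univ = 1 := by
  have := haarMeasure_self (K₀ := (⊤ : TopologicalSpace.PositiveCompacts Circle))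
  simpa [lam1] using this

instance instProbn (n : ℕ) : IsProbabilityMeasure (lamn n) := ⟨lamn_univ n⟩
instance instProb1 : IsProbabilityMeasure lam1 := ⟨lam1_univ⟩

theorem chi_preserving {n : ℕ} (w : ℕ → Fin n) (m : ℕ) (hm : 0 < m) :
    MeasurePreserving (chi w m) (lamn n) lam1 :=
  MonoidHom.measurePreserving (continuous_chi w m) (surjective_chi w m hm)
    (by rw [lamn_univ, lam1_univ])

/-- The measure of the `δ`-neighbourhood of `1`. -/
noncomputable def cδ (j : ℕ) : ℝ≥0∞ := lam1 {z | dist z 1 ≤ 1 / ((j : ℝ) + 1)}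

theorem tendsto_cδ : Tendsto cδ atTop (𝓝 0) := by
  have hcl : ∀ j : ℕ, IsClosed {z : Circle | dist z 1 ≤ 1 / ((j : ℝ) + 1)} := fun j =>
    isClosed_le (continuous_id.dist continuous_const) continuous_const
  have hanti : Antitone fun j : ℕ => {z : Circle | dist z 1 ≤ 1 / ((j : ℝ) + 1)} := by
    intro i j hij z hz
    have hz' : dist z 1 ≤ 1 / ((j : ℝ) + 1) := hz
    change dist z 1 ≤ 1 / ((i : ℝ) + 1)
    refine le_trans hz' ?_
    have : (i : ℝ) ≤ j := by exact_mod_cast hij
    exact one_div_le_one_div_of_le (by positivity) (by linarith)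
  have h := tendsto_measure_iInter_atTop (μ := lam1)
    (fun j => (hcl j).measurableSet.nullMeasurableSet) hanti ⟨0, measure_ne_top _ _⟩
  have hint : (⋂ j : ℕ, {z : Circle | dist z 1 ≤ 1 / ((j : ℝ) + 1)}) = {1} := by
    ext z
    simp only [Set.mem_iInter, Set.mem_ofPred_eq, Set.mem_singleton_iff]
    constructor
    · intro hz
      rw [← dist_le_zero]
      refine le_of_tendsto_of_tendsto' tendsto_const_nhds
        tendsto_one_div_add_atTop_nhds_zero_nat hz
    · rintro rfl j
      rw [dist_self]
      positivity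
  rw [hint] at h
  have hz : lam1 {(1 : Circle)} = 0 := by
    have _ : NullSingletonClass lam1 := IsHaarMeasure.nullSingletonClass _
    exact measure_singleton _
  rw [hz] at h
  exact h

theorem chi_band {n : ℕ} (w : ℕ → Fin n) (m : ℕ) (hm : 0 < m) (j : ℕ) :
    lamn n {d | dist (wp (fun i => d (w i)) m) 1 ≤ 1 / ((j : ℝ) + 1)} = cδ j := by
  have hcl : IsClosed {z : Circle | dist z 1 ≤ 1 / ((j : ℝ) + 1)} :=
    isClosed_le (continuous_id.dist continuous_const) continuous_const
  exact (chi_preserving w m hm).measure_preimage hcl.measurableSet.nullMeasurableSet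

/-! ### The bad set -/

variable {X : Type*} [MeasurableSpace X]

/-- The value of the word of length `r x` along the orbit of `x`. -/
noncomputable def W {n : ℕ} (T : X → X) (ι : X → Fin n) (r : X → ℕ) (d : Fin n → Circle) (x : X) : Circle :=
  wp (fun i => d (ι (T^[i] x))) (r x)

theorem measurable_W {n : ℕ} {T : X → X} (hT : Measurable T) {ι : X → Fin n}
    (hι : Measurable ι) {r : X → ℕ} (hr : Measurable r) :
    Measurable fun z : (Fin n → Circle) × X => W T ι r z.1 z.2 := by
  have h1 : ∀ m : ℕ, Measurable fun z : (Fin n → Circle) × X =>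
      wp (fun i => z.1 (ι (T^[i] z.2))) m := by
    intro m
    induction m with
    | zero => exact measurable_const
    | succ m ih =>
      refine Measurable.mul ?_ ih
      have he : Measurable fun q : (Fin n → Circle) × Fin n => q.1 q.2 := by
        refine measurable_from_prod_countable_left fun y => ?_
        exact measurable_pi_apply y
      exact he.comp (measurable_fst.prodMk (hι.comp ((hT.iterate m).comp measurable_snd)))
  have h2 : Measurable fun q : ℕ × ((Fin n → Circle) × X) =>
      wp (fun i => q.2.1 (ι (T^[i] q.2.2))) q.1 :=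
    measurable_from_prod_countable_right fun m => h1 m
  exact h2.comp ((hr.comp measurable_snd).prodMk measurable_id)

/-- Words along the times `r k` tend to `1` in measure. -/
def BadW {n : ℕ} (μ : Measure X) (T : X → X) (ι : X → Fin n) (r : ℕ → X → ℕ) :
    Set (Fin n → Circle) :=
  {d | ∀ j : ℕ, Tendsto (fun k => μ {x | ¬ dist (W T ι (r k) d x) 1 ≤ 1 / ((j : ℝ) + 1)})
    atTop (𝓝 0)}

theorem measurableSet_good {n : ℕ} {T : X → X} (hT : Measurable T) {ι : X → Fin n}
    (hι : Measurable ι) {r : X → ℕ} (hr : Measurable r) (j : ℕ) :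
    MeasurableSet {z : (Fin n → Circle) × X | dist (W T ι r z.1 z.2) 1 ≤ 1 / ((j : ℝ) + 1)} :=
  measurableSet_le ((measurable_W hT hι hr).dist measurable_const) measurable_const

theorem badW_meas {n : ℕ} (μ : Measure X) [IsProbabilityMeasure μ] {T : X → X}
    (hT : Measurable T) {ι : X → Fin n} (hι : Measurable ι) {r : ℕ → X → ℕ}
    (hr : ∀ k, Measurable (r k)) : MeasurableSet (BadW μ T ι r) := by
  have : BadW μ T ι r = ⋂ j : ℕ, {d | Tendsto (fun k =>
      μ {x | ¬ dist (W T ι (r k) d x) 1 ≤ 1 / ((j : ℝ) + 1)}) atTop (𝓝 0)} := by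
    ext d; simp [BadW]
  rw [this]
  refine MeasurableSet.iInter fun j => ?_
  refine measurableSet_tendsto _ fun k => ?_
  exact measurable_measure_prodMk_left (measurableSet_good hT hι (hr k) j).compl

theorem badW_null {n : ℕ} (μ : Measure X) [IsProbabilityMeasure μ] {T : X → X}
    (hT : Measurable T) {ι : X → Fin n} (hι : Measurable ι) {r : ℕ → X → ℕ}
    (hr : ∀ k, Measurable (r k)) (hpos : ∀ k, ∀ᵐ x ∂μ, 1 ≤ r k x) :
    lamn n (BadW μ T ι r) = 0 := by
  have key : ∀ j : ℕ, lamn n (BadW μ T ι r) ≤ cδ j := by
    intro j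
    set D : ℕ → (Fin n → Circle) → ℝ≥0∞ := fun k d =>
      μ {x | dist (W T ι (r k) d x) 1 ≤ 1 / ((j : ℝ) + 1)} with hD
    have hDm : ∀ k, Measurable (D k) := fun k =>
      measurable_measure_prodMk_left (measurableSet_good hT hι (hr k) j)
    have hsec : ∀ k d, MeasurableSet {x | dist (W T ι (r k) d x) 1 ≤ 1 / ((j : ℝ) + 1)} :=
      fun k d => measurable_prodMk_left (measurableSet_good hT hι (hr k) j)
    have hint : ∀ k, ∫⁻ d, D k d ∂(lamn n) ≤ cδ j := by
      intro k
      have h1 : ∫⁻ d, D k d ∂(lamn n) =
          ((lamn n).prod μ) {z | dist (W T ι (r k) z.1 z.2) 1 ≤ 1 / ((j : ℝ) + 1)} := by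
        rw [Measure.prod_apply (measurableSet_good hT hι (hr k) j)]
        rfl
      rw [h1, Measure.prod_apply_symm (measurableSet_good hT hι (hr k) j)]
      calc ∫⁻ x, lamn n ((fun d => (d, x)) ⁻¹' {z : (Fin n → Circle) × X |
            dist (W T ι (r k) z.1 z.2) 1 ≤ 1 / ((j : ℝ) + 1)}) ∂μ
          ≤ ∫⁻ _, cδ j ∂μ := by
            refine lintegral_mono_ae ?_
            filter_upwards [hpos k] with x hx
            exact (chi_band (fun i => ι (T^[i] x)) (r k x) hx j).le
        _ = cδ j := by simp
    have hlim : ∀ d ∈ BadW μ T ι r, 1 ≤ liminf (fun k => D k d) atTop := by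
      intro d hd
      have h1 := hd j
      have h2 : Tendsto (fun k => D k d) atTop (𝓝 1) := by
        have h3 : ∀ k, D k d = 1 - μ {x | ¬ dist (W T ι (r k) d x) 1 ≤ 1 / ((j : ℝ) + 1)} := by
          intro k
          have h4 := prob_compl_eq_one_sub (μ := μ) (hsec k d).compl
          rw [compl_compl] at h4
          exact h4
        simp_rw [h3]
        have h5 := ENNReal.Tendsto.sub (tendsto_const_nhds (x := (1 : ℝ≥0∞)) (f := atTop)) h1
          (Or.inl ENNReal.one_ne_top)
        simpa using h5
      exact h2.liminf_eq.ge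
    calc lamn n (BadW μ T ι r) = ∫⁻ d, (BadW μ T ι r).indicator 1 d ∂(lamn n) := by
          rw [lintegral_indicator_one (badW_meas μ hT hι hr)]
      _ ≤ ∫⁻ d, liminf (fun k => D k d) atTop ∂(lamn n) := by
          refine lintegral_mono fun d => ?_
          by_cases hd : d ∈ BadW μ T ι r
          · rw [Set.indicator_of_mem hd]
            exact hlim d hd
          · rw [Set.indicator_of_notMem hd]
            exact zero_le
      _ ≤ liminf (fun k => ∫⁻ d, D k d ∂(lamn n)) atTop := lintegral_liminf_le hDm
      _ ≤ liminf (fun _ : ℕ => cδ j) atTop := liminf_le_liminf (Eventually.of_forall hint)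
      _ = cδ j := liminf_const _
  have := ge_of_tendsto' tendsto_cδ key
  exact le_antisymm this (zero_le)

end Circ

end H24FB
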