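import Pool.Agent.H24.FB.BlockR

/-! Block L of the MP_fb7d21_an project: the return maps to the cells of a generating
sequence of partitions are asymptotically rigid. -/

open MeasureTheory Filter Topology MeasurableSpace

namespace H24FB

theorem lab_succ {X : Type*} [MeasurableSpace X] [CountablyGenerated X] (k : ℕ) (x : X) :
    lab (k + 1) x = lab k x
      + (open Classical in if x ∈ natGeneratingSequence X k then 2 ^ k else 0) := by
  unfold lab
  rw [Finset.sum_range_succ]

theorem lab_lt {X : Type*} [MeasurableSpace X] [CountablyGenerated X] (k : ℕ) (x : X) :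
    lab k x < 2 ^ k := by
  induction k with
  | zero => simp [lab]
  | succ k ih =>
    rw [lab_succ, pow_succ]
    split_ifs <;> omega

theorem lab_inj {X : Type*} [MeasurableSpace X] [CountablyGenerated X] (k : ℕ) (x y : X)
    (h : lab k x = lab k y) (i : ℕ) (hi : i < k) :
    x ∈ natGeneratingSequence X i ↔ y ∈ natGeneratingSequence X i := by
  induction k with
  | zero => exact absurd hi (Nat.not_lt_zero i)
  | succ k ih =>
    have hx := lab_lt k x
    have hy := lab_lt k y
    rw [lab_succ, lab_succ] at h
    by_cases h1 : x ∈ natGeneratingSequence X k <;>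
      by_cases h2 : y ∈ natGeneratingSequence X k
    · simp only [h1, h2, if_true] at h
      rcases Nat.lt_succ_iff_lt_or_eq.1 hi with h3 | h3
      · exact ih (by omega) h3
      · subst h3; exact iff_of_true h1 h2
    · simp only [h1, h2, if_true, if_false] at h
      omega
    · simp only [h1, h2, if_true, if_false] at h
      omega
    · simp only [h1, h2, if_false] at h
      rcases Nat.lt_succ_iff_lt_or_eq.1 hi with h3 | h3
      · exact ih (by omega) h3
      · subst h3; exact iff_of_false h1 h2

theorem measurable_lab {X : Type*} [MeasurableSpace X] [CountablyGenerated X] (k : ℕ) :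
    Measurable (lab (X := X) k) := by
  unfold lab
  refine Finset.measurable_sum _ fun i _ => ?_
  exact Measurable.ite (measurableSet_natGeneratingSequence i) measurable_const
    measurable_const

/-- Abstract form: maps `S k` that contract the measure and preserve the `i`-th generator
for `k > i` are asymptotically rigid. -/
theorem rigid_of_gen {X : Type*} [MeasurableSpace X] [CountablyGenerated X] (μ : Measure X)
    [IsFiniteMeasure μ] (S : ℕ → X → X)
    (hle : ∀ k, ∀ E : Set X, MeasurableSet E → μ (S k ⁻¹' E) ≤ μ E)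
    (hgen : ∀ i k, i < k → ∀ x, x ∈ natGeneratingSequence X i ↔
      S k x ∈ natGeneratingSequence X i) (E : Set X) (hE : MeasurableSet E) :
    Tendsto (fun k => μ (E \ (S k) ⁻¹' E)) atTop (𝓝 0) := by
  have key : MeasurableSet E ∧ Tendsto (fun k => μ (E \ (S k) ⁻¹' E)) atTop (𝓝 0) ∧
      Tendsto (fun k => μ ((S k) ⁻¹' E \ E)) atTop (𝓝 0) := by
    have hE' : MeasurableSet[generateFrom (Set.range (natGeneratingSequence X))] E := by
      rw [generateFrom_natGeneratingSequence]; exact hE
    refine generateFrom_induction (Set.range (natGeneratingSequence X))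
      (fun E _ => MeasurableSet E ∧ Tendsto (fun k => μ (E \ (S k) ⁻¹' E)) atTop (𝓝 0) ∧
        Tendsto (fun k => μ ((S k) ⁻¹' E \ E)) atTop (𝓝 0)) ?_ ?_ ?_ ?_ E hE'
    · rintro _ ⟨i, rfl⟩ _
      refine ⟨measurableSet_natGeneratingSequence i, ?_, ?_⟩
      · refine tendsto_const_nhds.congr' ?_
        filter_upwards [eventually_gt_atTop i] with k hk
        have : natGeneratingSequence X i \ (S k) ⁻¹' natGeneratingSequence X i = ∅ := by
          ext x
          simp only [Set.mem_sdiff, Set.mem_preimage, Set.mem_empty_iff_false, iff_false, not_and,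
            not_not]
          exact (hgen i k hk x).1
        rw [this, measure_empty]
      · refine tendsto_const_nhds.congr' ?_
        filter_upwards [eventually_gt_atTop i] with k hk
        have : (S k) ⁻¹' natGeneratingSequence X i \ natGeneratingSequence X i = ∅ := by
          ext x
          simp only [Set.mem_sdiff, Set.mem_preimage, Set.mem_empty_iff_false, iff_false, not_and,
            not_not]
          exact (hgen i k hk x).2
        rw [this, measure_empty]
    · refine ⟨MeasurableSet.empty, ?_, ?_⟩ <;> simp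
    · rintro t _ ⟨h0, h1, h2⟩
      refine ⟨h0.compl, ?_, ?_⟩
      · refine h2.congr fun k => ?_
        congr 1
        ext x; simp [and_comm]
      · refine h1.congr fun k => ?_
        congr 1
        ext x; simp [and_comm]
    · intro s _ hs
      have hm : ∀ n, MeasurableSet (s n) := fun n => (hs n).1
      have hU : MeasurableSet (⋃ i, s i) := MeasurableSet.iUnion hm
      -- tails
      have htail : Tendsto (fun N => μ ((⋃ i, s i) \ ⋃ i ∈ Finset.range N, s i)) atTop
          (𝓝 0) := by
        have h := tendsto_measure_iInter_atTop (μ := μ)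
          (s := fun N => (⋃ i, s i) \ ⋃ i ∈ Finset.range N, s i)
          (fun N => (hU.diff (Finset.measurableSet_biUnion _ fun i _ => hm i)).nullMeasurableSet)
          (by
            intro a b hab
            refine Set.sdiff_subset_sdiff_right ?_
            intro x hx
            simp only [Set.mem_iUnion, Finset.mem_range, exists_prop] at hx ⊢
            obtain ⟨i, hi, hx⟩ := hx
            exact ⟨i, hi.trans_le hab, hx⟩)
          ⟨0, measure_ne_top _ _⟩
        have he : (⋂ N, (⋃ i, s i) \ ⋃ i ∈ Finset.range N, s i) = ∅ := by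
          ext x
          simp only [Set.mem_iInter, Set.mem_sdiff, Set.mem_iUnion, Finset.mem_range, exists_prop,
            Set.mem_empty_iff_false, iff_false, not_forall]
          by_cases hx : ∃ i, x ∈ s i
          · obtain ⟨i, hi⟩ := hx
            refine ⟨i + 1, ?_⟩
            rintro ⟨_, h⟩
            exact h ⟨i, Nat.lt_succ_self i, hi⟩
          · exact ⟨0, fun h => hx h.1⟩
        rw [he, measure_empty] at h
        exact h
      refine ⟨hU, ?_, ?_⟩
      · rw [ENNReal.tendsto_nhds_zero]
        intro ε hε
        obtain ⟨N, hN⟩ := ((ENNReal.tendsto_nhds_zero.1 htail) (ε / 2)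
          (ENNReal.half_pos hε.ne')).exists
        have hsum : Tendsto (fun k => ∑ i ∈ Finset.range N, μ (s i \ (S k) ⁻¹' (s i))) atTop
            (𝓝 0) := by
          have := tendsto_finsetSum (Finset.range N) fun i _ => (hs i).2.1
          simpa using this
        filter_upwards [(ENNReal.tendsto_nhds_zero.1 hsum) (ε / 2)
          (ENNReal.half_pos hε.ne')] with k hk
        have hsub : (⋃ i, s i) \ (S k) ⁻¹' (⋃ i, s i)
            ⊆ (⋃ i ∈ Finset.range N, (s i \ (S k) ⁻¹' (s i)))
              ∪ ((⋃ i, s i) \ ⋃ i ∈ Finset.range N, s i) := by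
          rintro x ⟨hx1, hx2⟩
          by_cases hx : x ∈ ⋃ i ∈ Finset.range N, s i
          · left
            simp only [Set.mem_iUnion, exists_prop] at hx ⊢
            obtain ⟨i, hi, hxi⟩ := hx
            refine ⟨i, hi, hxi, fun h => hx2 ?_⟩
            exact Set.mem_iUnion.2 ⟨i, h⟩
          · exact Or.inr ⟨hx1, hx⟩
        calc μ ((⋃ i, s i) \ (S k) ⁻¹' (⋃ i, s i))
            ≤ μ ((⋃ i ∈ Finset.range N, (s i \ (S k) ⁻¹' (s i)))
              ∪ ((⋃ i, s i) \ ⋃ i ∈ Finset.range N, s i)) := measure_mono hsub
          _ ≤ μ (⋃ i ∈ Finset.range N, (s i \ (S k) ⁻¹' (s i)))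
              + μ ((⋃ i, s i) \ ⋃ i ∈ Finset.range N, s i) := measure_union_le _ _
          _ ≤ ε / 2 + ε / 2 := add_le_add ((measure_biUnion_finset_le _ _).trans hk) hN
          _ = ε := ENNReal.add_halves ε
      · rw [ENNReal.tendsto_nhds_zero]
        intro ε hε
        obtain ⟨N, hN⟩ := ((ENNReal.tendsto_nhds_zero.1 htail) (ε / 2)
          (ENNReal.half_pos hε.ne')).exists
        have hsum : Tendsto (fun k => ∑ i ∈ Finset.range N, μ ((S k) ⁻¹' (s i) \ s i)) atTop
            (𝓝 0) := by
          have := tendsto_finsetSum (Finset.range N) fun i _ => (hs i).2.2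
          simpa using this
        filter_upwards [(ENNReal.tendsto_nhds_zero.1 hsum) (ε / 2)
          (ENNReal.half_pos hε.ne')] with k hk
        have hsub : (S k) ⁻¹' (⋃ i, s i) \ (⋃ i, s i)
            ⊆ (⋃ i ∈ Finset.range N, ((S k) ⁻¹' (s i) \ s i))
              ∪ (S k) ⁻¹' ((⋃ i, s i) \ ⋃ i ∈ Finset.range N, s i) := by
          rintro x ⟨hx1, hx2⟩
          by_cases hx : S k x ∈ ⋃ i ∈ Finset.range N, s i
          · left
            simp only [Set.mem_iUnion, exists_prop] at hx ⊢
            obtain ⟨i, hi, hxi⟩ := hx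
            exact ⟨i, hi, hxi, fun h => hx2 (Set.mem_iUnion.2 ⟨i, h⟩)⟩
          · exact Or.inr ⟨hx1, hx⟩
        calc μ ((S k) ⁻¹' (⋃ i, s i) \ (⋃ i, s i))
            ≤ μ ((⋃ i ∈ Finset.range N, ((S k) ⁻¹' (s i) \ s i))
              ∪ (S k) ⁻¹' ((⋃ i, s i) \ ⋃ i ∈ Finset.range N, s i)) := measure_mono hsub
          _ ≤ μ (⋃ i ∈ Finset.range N, ((S k) ⁻¹' (s i) \ s i))
              + μ ((S k) ⁻¹' ((⋃ i, s i) \ ⋃ i ∈ Finset.range N, s i)) := measure_union_le _ _
          _ ≤ ε / 2 + ε / 2 := add_le_add ((measure_biUnion_finset_le _ _).trans hk)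
              ((hle k _ (hU.diff (Finset.measurableSet_biUnion _ fun i _ => hm i))).trans hN)
          _ = ε := ENNReal.add_halves ε
  exact key.2.1

theorem lab_cell {X : Type*} (T : X → X) (c : X → ℕ) (x : X) : c (retMap T c x) = c x := by
  unfold retMap ret
  rcases Set.eq_empty_or_nonempty {r | 1 ≤ r ∧ c (T^[r] x) = c x} with h | h
  · rw [h, Nat.sInf_empty]; rfl
  · exact (Nat.sInf_mem h).2

/-- `lab_rigid` from the contraction property of the return maps (block R). -/
theorem lab_rigid_of {X : Type*} [MeasurableSpace X] [CountablyGenerated X] (μ : Measure X)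
    [IsFiniteMeasure μ] (T : X → X)
    (hle : ∀ k, ∀ E : Set X, MeasurableSet E → μ (retMap T (lab k) ⁻¹' E) ≤ μ E)
    (E : Set X) (hE : MeasurableSet E) :
    Tendsto (fun k => μ (E \ (retMap T (lab k)) ⁻¹' E)) atTop (𝓝 0) := by
  refine rigid_of_gen μ (fun k => retMap T (lab k)) hle ?_ E hE
  intro i k hik x
  exact (lab_inj k (retMap T (lab k) x) x (lab_cell T (lab k) x) i hik).symm

theorem lab_rigid {X : Type*} [MeasurableSpace X] [CountablyGenerated X] (μ : Measure X)
    [IsFiniteMeasure μ] (T : X → X) (hT : MeasurePreserving T μ μ)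
    (E : Set X) (hE : MeasurableSet E) :
    Tendsto (fun k => μ (E \ (retMap T (lab k)) ⁻¹' E)) atTop (𝓝 0) :=
  lab_rigid_of μ T (fun k E hE => retMap_le μ T hT (lab k) (measurable_lab k) E hE) E hE

end H24FB
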