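import Pool.Agent.H24.FB.BlockCirc
import Pool.Agent.H24.FB.BlockL

/-! The circle quotient, second part: a transfer function forces the words along the first
return times to tend to `1` in measure. -/

open MeasureTheory Measure Filter Topology
open scoped ENNReal

namespace H24FB

namespace Circ

theorem dist_mul_inv_one (a b : Circle) : dist (a * b⁻¹) 1 = dist a b := by
  have h1 : ∀ x y : Circle, dist x y = ‖(x : ℂ) - (y : ℂ)‖ := fun x y => by
    rw [← dist_eq_norm]; rfl
  rw [h1, h1]
  have hb : (b : ℂ) ≠ 0 := Circle.coe_ne_zero b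
  have e : ((a * b⁻¹ : Circle) : ℂ) - ((1 : Circle) : ℂ) = ((a : ℂ) - b) * (b : ℂ)⁻¹ := by
    push_cast
    field_simp
  rw [e, norm_mul, norm_inv, Circle.norm_coe, inv_one, mul_one]

variable {X : Type*} [MeasurableSpace X] [MeasurableSpace.CountablyGenerated X]

theorem rigid_circle (μ : Measure X) [IsFiniteMeasure μ] (T : X → X)
    (hT : MeasurePreserving T μ μ) (u : X → Circle) (hu : Measurable u) (δ : ℝ) (hδ : 0 < δ) :
    Tendsto (fun k => μ {x | ¬ dist (u (retMap T (lab k) x)) (u x) ≤ δ}) atTop (𝓝 0) := by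
  obtain ⟨t, _, htf, htc⟩ := (isCompact_univ (X := Circle)).finite_cover_balls (half_pos hδ)
  set E : Circle → Set X := fun c => u ⁻¹' Metric.ball c (δ / 2) with hE
  have hEm : ∀ c, MeasurableSet (E c) := fun c => hu Metric.isOpen_ball.measurableSet
  have hsum : Tendsto (fun k => ∑ c ∈ htf.toFinset, μ (E c \ (retMap T (lab k)) ⁻¹' E c)) atTop
      (𝓝 0) := by
    have h := tendsto_finsetSum htf.toFinset (fun c _ => lab_rigid μ T hT (E c) (hEm c))
    simpa using h
  refine tendsto_of_tendsto_of_tendsto_of_le_of_le tendsto_const_nhds hsum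
    (fun _ => zero_le) fun k => ?_
  refine le_trans (measure_mono ?_) (measure_biUnion_finset_le htf.toFinset _)
  intro x hx
  have hx' : ¬ dist (u (retMap T (lab k) x)) (u x) ≤ δ := hx
  obtain ⟨c, hct, hc⟩ := Set.mem_iUnion₂.1 (htc (Set.mem_univ (u x)))
  refine Set.mem_biUnion (htf.mem_toFinset.2 hct) ⟨hc, ?_⟩
  intro hS
  apply hx'
  have h1 : dist (u (retMap T (lab k) x)) c < δ / 2 := hS
  have h2 : dist (u x) c < δ / 2 := hc
  have h3 := dist_triangle_right (u (retMap T (lab k) x)) (u x) c
  linarith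

theorem iterate_cob {n : ℕ} (μ : Measure X) (T : X → X) (hT : MeasurePreserving T μ μ)
    (ι : X → Fin n) (u : X → Circle) (d : Fin n → Circle)
    (h : ∀ᵐ x ∂μ, u (T x) = d (ι x) * u x) :
    ∀ᵐ x ∂μ, ∀ m, u (T^[m] x) = wp (fun i => d (ι (T^[i] x))) m * u x := by
  have h1 : ∀ i : ℕ, ∀ᵐ x ∂μ, u (T (T^[i] x)) = d (ι (T^[i] x)) * u (T^[i] x) := fun i =>
    (hT.iterate i).quasiMeasurePreserving.ae h
  have h2 := ae_all_iff.2 h1
  filter_upwards [h2] with x hx m
  induction m with
  | zero => simp [wp]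
  | succ m ih =>
    rw [Function.iterate_succ_apply', hx m, ih]
    simp only [wp]
    rw [mul_assoc]

theorem mem_badW {n : ℕ} (μ : Measure X) [IsProbabilityMeasure μ] (T : X → X)
    (hT : MeasurePreserving T μ μ) (ι : X → Fin n) (u : X → Circle) (hu : Measurable u)
    (d : Fin n → Circle) (h : ∀ᵐ x ∂μ, u (T x) = d (ι x) * u x) :
    d ∈ BadW μ T ι (fun k => ret T (lab k)) := by
  intro j
  have hr := rigid_circle μ T hT u hu (1 / ((j : ℝ) + 1)) (by positivity)
  refine hr.congr fun k => measure_congr ?_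
  filter_upwards [iterate_cob μ T hT ι u d h] with x hx
  have hW : W T ι (ret T (lab k)) d x = u (retMap T (lab k) x) * (u x)⁻¹ := by
    have := hx (ret T (lab k) x)
    unfold W retMap
    rw [this, mul_assoc, mul_inv_cancel, mul_one]
  apply propext
  change ¬ dist (u (retMap T (lab k) x)) (u x) ≤ 1 / ((j : ℝ) + 1) ↔
    ¬ dist (W T ι (ret T (lab k)) d x) 1 ≤ 1 / ((j : ℝ) + 1)
  rw [hW, dist_mul_inv_one]

/-- The homomorphism `(g, h) ↦ (χ (h k) χ (g k)⁻¹)`. -/
noncomputable def Dhom {G : Type*} [Group G] (χ : G →* Circle) (n : ℕ) :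
    (Fin n → G) × (Fin n → G) →* (Fin n → Circle) where
  toFun p := fun k => χ (p.2 k) * (χ (p.1 k))⁻¹
  map_one' := by
    funext k
    simp
  map_mul' p q := by
    funext k
    simp only [Prod.fst_mul, Prod.snd_mul, Pi.mul_apply, map_mul, mul_inv]
    exact mul_mul_mul_comm _ _ _ _

end Circ

/-- Circle quotient: for every probability preserving map of a countably generated space. -/
theorem circle_main {X : Type*} [MeasurableSpace X] [MeasurableSpace.CountablyGenerated X]
    (μ : Measure X) [IsProbabilityMeasure μ]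
    {n : ℕ} (T : X → X) (hT : MeasurePreserving T μ μ) (ι : X → Fin n) (hι : Measurable ι)
    {G : Type*} [Group G] [TopologicalSpace G] [IsTopologicalGroup G]
    [LocallyCompactSpace G] [SecondCountableTopology G] [T2Space G] [MeasurableSpace G]
    [BorelSpace G] (haar : Measure G) [haar.IsHaarMeasure]
    (χ : G →* Circle) (hχ : Continuous χ) (hsurj : Function.Surjective χ) :
    ∀ᵐ p : (Fin n → G) × (Fin n → G)
      ∂((Measure.pi fun _ => haar).prod (Measure.pi fun _ => haar)),
      ¬ ∃ f : X → G, Measurable f ∧ ∀ᵐ x ∂μ, f (T x) * p.1 (ι x) = p.2 (ι x) * f x := by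
  have hcont : Continuous (Circ.Dhom χ n) := by
    refine continuous_pi fun k => ?_
    exact (hχ.comp ((continuous_apply k).comp continuous_snd)).mul
      (hχ.comp ((continuous_apply k).comp continuous_fst)).inv
  have hs : Function.Surjective (Circ.Dhom χ n) := by
    intro y
    choose g hg using fun k => hsurj (y k)
    refine ⟨(1, g), ?_⟩
    funext k
    change χ (g k) * (χ ((1 : Fin n → G) k))⁻¹ = y k
    rw [hg]
    simp
  have hmr : ∀ k, Measurable (ret T (lab (X := X) k)) := fun k =>
    measurable_ret T hT.measurable (lab k) (measurable_lab k)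
  have hnull : ((Measure.pi fun _ : Fin n => haar).prod (Measure.pi fun _ : Fin n => haar))
      ((Circ.Dhom χ n) ⁻¹' (Circ.BadW μ T ι (fun k => ret T (lab k)))) = 0 := by
    refine null_transfer _ (Circ.lamn n) (Circ.Dhom χ n) hcont (MonoidHom.id _) continuous_id
      Function.surjective_id hs _ (Circ.badW_meas μ hT.measurable hι hmr) ?_
    exact Circ.badW_null μ hT.measurable hι hmr
      (fun k => ret_pos_ae μ T hT (lab k) (measurable_lab k))
  rw [ae_iff]
  refine measure_mono_null ?_ hnull
  intro p hp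
  simp only [Set.mem_ofPred_eq, not_not] at hp
  obtain ⟨f, hf, hae⟩ := hp
  refine Circ.mem_badW μ T hT ι (fun x => χ (f x)) (hχ.measurable.comp hf) _ ?_
  filter_upwards [hae] with x hx
  have h1 := congrArg χ hx
  rw [map_mul, map_mul] at h1
  change χ (f (T x)) = χ (p.2 (ι x)) * (χ (p.1 (ι x)))⁻¹ * χ (f x)
  rw [mul_right_comm, ← h1, mul_inv_cancel_right]

end H24FB
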