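import Pool.Agent.H24.FB.Defs2

open MeasureTheory Matrix Filter Topology
open scoped MatrixGroups

namespace H24FB

/-- The final estimate, with the entries of `N` abstract. -/
theorem trace_fin (a b c d τ η n11 n12 n21 n22 : ℝ) (hη0 : 0 ≤ η) (hτ : τ = a + d)
    (h4 : τ ^ 2 - 4 = (a - d) ^ 2 + 4 * (b * c))
    (b11 : |n11| ≤ η) (b12 : |n12| ≤ η) (b21 : |n21| ≤ η) (b22 : |n22| ≤ η)
    (c1 : n12 * c = n21 * b) (c2 : n12 * (a - d) = (n11 - n22) * b)
    (_c3 : n21 * (a - d) = (n11 - n22) * c) :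
    |n11 * a + n12 * c + n21 * b + n22 * d| ≤ 4 * η * (1 + |τ|) := by
  have disc : (2 * (n11 * a + n12 * c + n21 * b + n22 * d) - (n11 + n22) * τ) ^ 2
      = ((n11 - n22) ^ 2 + 4 * n12 * n21) * (τ ^ 2 - 4) := by
    rw [h4]
    have h5 : 2 * (n11 * a + n12 * c + n21 * b + n22 * d) - (n11 + n22) * τ
        = (n11 - n22) * (a - d) + 2 * (n12 * c + n21 * b) := by
      rw [hτ]; ring
    rw [h5]
    linear_combination (4 * (n12 * c - n21 * b)) * c1
      - 4 * (n21 * (a - d) - (n11 - n22) * c) * c2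
  set U := 2 * (n11 * a + n12 * c + n21 * b + n22 * d) with hU
  have habs4 : |τ ^ 2 - 4| ≤ (|τ| + 2) ^ 2 := by
    have h6 : |τ ^ 2 - 4| ≤ |τ ^ 2| + |(4:ℝ)| := abs_sub _ _
    rw [abs_pow] at h6
    norm_num at h6
    have := sq_abs τ
    nlinarith [abs_nonneg τ]
  have hP : |n11 - n22| ≤ 2 * η := by
    calc |n11 - n22| ≤ |n11| + |n22| := abs_sub _ _
      _ ≤ 2 * η := by linarith
  have hP2 : (n11 - n22) ^ 2 ≤ (2 * η) ^ 2 := by
    rw [← sq_abs (n11 - n22)]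
    exact pow_le_pow_left₀ (abs_nonneg _) hP 2
  have hYZ : |4 * n12 * n21| ≤ 4 * η ^ 2 := by
    rw [abs_mul, abs_mul]
    have : |n12| * |n21| ≤ η * η := mul_le_mul b12 b21 (abs_nonneg _) hη0
    rw [abs_of_pos (by norm_num : (0:ℝ) < 4)]
    nlinarith
  have h7 : |(n11 - n22) ^ 2 + 4 * n12 * n21| ≤ 8 * η ^ 2 := by
    calc |(n11 - n22) ^ 2 + 4 * n12 * n21| ≤ |(n11 - n22) ^ 2| + |4 * n12 * n21| :=
          abs_add_le _ _
      _ ≤ (2 * η) ^ 2 + 4 * η ^ 2 := by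
          rw [abs_of_nonneg (sq_nonneg (n11 - n22))]; linarith
      _ = 8 * η ^ 2 := by ring
  have hUV : |U - (n11 + n22) * τ| ≤ 4 * η * (|τ| + 2) := by
    apply abs_le_of_sq_le_sq _ (by positivity)
    rw [disc]
    calc ((n11 - n22) ^ 2 + 4 * n12 * n21) * (τ ^ 2 - 4)
        ≤ |((n11 - n22) ^ 2 + 4 * n12 * n21) * (τ ^ 2 - 4)| := le_abs_self _
      _ = |(n11 - n22) ^ 2 + 4 * n12 * n21| * |τ ^ 2 - 4| := abs_mul _ _
      _ ≤ (8 * η ^ 2) * (|τ| + 2) ^ 2 := mul_le_mul h7 habs4 (abs_nonneg _) (by positivity)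
      _ ≤ (4 * η * (|τ| + 2)) ^ 2 := by
        have : 0 ≤ η ^ 2 * (|τ| + 2) ^ 2 := by positivity
        nlinarith
  have hV : |(n11 + n22) * τ| ≤ 2 * η * |τ| := by
    rw [abs_mul]
    have : |n11 + n22| ≤ 2 * η := by
      calc |n11 + n22| ≤ |n11| + |n22| := abs_add_le _ _
        _ ≤ 2 * η := by linarith
    exact mul_le_mul_of_nonneg_right this (abs_nonneg _)
  have hUa : |U| ≤ 8 * η * (1 + |τ|) := by
    have : U = (U - (n11 + n22) * τ) + (n11 + n22) * τ := by ring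
    rw [this]
    calc |(U - (n11 + n22) * τ) + (n11 + n22) * τ|
        ≤ |U - (n11 + n22) * τ| + |(n11 + n22) * τ| := abs_add_le _ _
      _ ≤ 4 * η * (|τ| + 2) + 2 * η * |τ| := by linarith
      _ ≤ 8 * η * (1 + |τ|) := by
        have := mul_nonneg hη0 (abs_nonneg τ)
        nlinarith
  rw [hU, abs_mul] at hUa
  rw [abs_of_pos (by norm_num : (0:ℝ) < 2)] at hUa
  linarith

/-- Entry-level form of the trace comparison. -/
theorem trace_entry (a b c d x y z w δ : ℝ) (hdet : a * d - b * c = 1)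
    (hx : |x| ≤ δ) (hy : |y| ≤ δ) (hz : |z| ≤ δ) (hw : |w| ≤ δ)
    (p11 : |(a * x + b * z) * d - (a * y + b * w) * c| ≤ 3 * δ)
    (p12 : |-(a * x + b * z) * b + (a * y + b * w) * a| ≤ 3 * δ)
    (p21 : |(c * x + d * z) * d - (c * y + d * w) * c| ≤ 3 * δ)
    (p22 : |-(c * x + d * z) * b + (c * y + d * w) * a| ≤ 3 * δ)
    (q11 : |(d * x - b * z) * a + (d * y - b * w) * c| ≤ δ)
    (q12 : |(d * x - b * z) * b + (d * y - b * w) * d| ≤ δ)
    (q21 : |(-c * x + a * z) * a + (-c * y + a * w) * c| ≤ δ)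
    (q22 : |(-c * x + a * z) * b + (-c * y + a * w) * d| ≤ δ) :
    |(a + d) ^ 2 - 4| * |x * a + y * c + z * b + w * d|
      ≤ 24 * δ * (1 + |a + d|) * (1 + |(a + d) ^ 2 - 4|) := by
  have hδ : 0 ≤ δ := le_trans (abs_nonneg _) hx
  set τ := a + d with hτ
  set η := 6 * δ * (1 + |τ ^ 2 - 4|) with hη
  have hη0 : 0 ≤ η := by positivity
  -- bound of `(τ^2-2) * entry`
  have h2 : |τ ^ 2 - 2| ≤ |τ ^ 2 - 4| + 2 := by
    have : τ ^ 2 - 2 = (τ ^ 2 - 4) + 2 := by ring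
    rw [this]
    exact (abs_add_le _ _).trans (by norm_num)
  have key : ∀ p q e : ℝ, |p| ≤ 3 * δ → |q| ≤ δ → |e| ≤ δ →
      |p + q - (τ ^ 2 - 2) * e| ≤ η := by
    intro p q e hp hq he
    have h3 : |(τ ^ 2 - 2) * e| ≤ (|τ ^ 2 - 4| + 2) * δ := by
      rw [abs_mul]
      exact mul_le_mul h2 he (abs_nonneg _) (by positivity)
    calc |p + q - (τ ^ 2 - 2) * e| ≤ |p + q| + |(τ ^ 2 - 2) * e| := abs_sub _ _
      _ ≤ |p| + |q| + |(τ ^ 2 - 2) * e| := by gcongr; exact abs_add_le _ _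
      _ ≤ 3 * δ + δ + (|τ ^ 2 - 4| + 2) * δ := by gcongr
      _ ≤ η := by
        rw [hη]
        nlinarith [abs_nonneg (τ ^ 2 - 4), mul_nonneg hδ (abs_nonneg (τ ^ 2 - 4))]
  set n11 := ((a * x + b * z) * d - (a * y + b * w) * c)
    + ((d * x - b * z) * a + (d * y - b * w) * c) - (τ ^ 2 - 2) * x with hn11
  set n12 := (-(a * x + b * z) * b + (a * y + b * w) * a)
    + ((d * x - b * z) * b + (d * y - b * w) * d) - (τ ^ 2 - 2) * y with hn12
  set n21 := ((c * x + d * z) * d - (c * y + d * w) * c)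
    + ((-c * x + a * z) * a + (-c * y + a * w) * c) - (τ ^ 2 - 2) * z with hn21
  set n22 := (-(c * x + d * z) * b + (c * y + d * w) * a)
    + ((-c * x + a * z) * b + (-c * y + a * w) * d) - (τ ^ 2 - 2) * w with hn22
  have b11 : |n11| ≤ η := key _ _ _ p11 q11 hx
  have b12 : |n12| ≤ η := key _ _ _ p12 q12 hy
  have b21 : |n21| ≤ η := key _ _ _ p21 q21 hz
  have b22 : |n22| ≤ η := key _ _ _ p22 q22 hw
  -- trace identities
  have t1 : n11 * a + n12 * c + n21 * b + n22 * d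
      = (4 - τ ^ 2) * (x * a + y * c + z * b + w * d) := by
    simp only [hn11, hn12, hn21, hn22, hτ]
    linear_combination (2 * a * x + 2 * d * w + 2 * c * y + 2 * b * z) * hdet
  -- commutation relations
  have c1 : n12 * c = n21 * b := by
    simp only [hn12, hn21, hτ]
    linear_combination (2 * b * z - 2 * c * y) * hdet
  have c2 : n12 * (a - d) = (n11 - n22) * b := by
    simp only [hn11, hn12, hn22, hτ]
    linear_combination (2 * (x * b - w * b - y * (a - d))) * hdet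
  have c3 : n21 * (a - d) = (n11 - n22) * c := by
    simp only [hn11, hn21, hn22, hτ]
    linear_combination (2 * (x * c - w * c - z * (a - d))) * hdet
  have h4 : τ ^ 2 - 4 = (a - d) ^ 2 + 4 * (b * c) := by
    rw [hτ]; linear_combination 4 * hdet
  have fin := trace_fin a b c d τ η n11 n12 n21 n22 hη0 hτ h4 b11 b12 b21 b22 c1 c2 c3
  rw [t1, abs_mul, abs_sub_comm 4] at fin
  have h9 : 4 * η * (1 + |τ|) = 24 * δ * (1 + |τ|) * (1 + |τ ^ 2 - 4|) := by
    rw [hη]; ring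
  linarith

theorem tr_eq (A : SL(2, ℝ)) : tr A = A 0 0 + A 1 1 := by
  rw [tr, Matrix.trace_fin_two]

theorem tr_neg (A : SL(2, ℝ)) : tr (-A) = -tr A := by
  simp [tr]

theorem mul_app (E F : SL(2, ℝ)) (i j : Fin 2) :
    (E * F) i j = E i 0 * F 0 j + E i 1 * F 1 j := by
  have : (E * F) i j = (E.1 * F.1) i j := rfl
  rw [this, Matrix.mul_apply, Fin.sum_univ_two]

theorem inv00 (B : SL(2, ℝ)) : B⁻¹ 0 0 = B 1 1 := by
  rw [SpecialLinearGroup.SL2_inv_expl]; rfl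
theorem inv01 (B : SL(2, ℝ)) : B⁻¹ 0 1 = -B 0 1 := by
  rw [SpecialLinearGroup.SL2_inv_expl]; rfl
theorem inv10 (B : SL(2, ℝ)) : B⁻¹ 1 0 = -B 1 0 := by
  rw [SpecialLinearGroup.SL2_inv_expl]; rfl
theorem inv11 (B : SL(2, ℝ)) : B⁻¹ 1 1 = B 0 0 := by
  rw [SpecialLinearGroup.SL2_inv_expl]; rfl

theorem near_iff (δ : ℝ) (E : SL(2, ℝ)) :
    near δ E ↔ |E 0 0 - 1| ≤ δ ∧ |E 0 1| ≤ δ ∧ |E 1 0| ≤ δ ∧ |E 1 1 - 1| ≤ δ := by
  constructor
  · intro h
    have h00 := h 0 0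
    have h01 := h 0 1
    have h10 := h 1 0
    have h11 := h 1 1
    simp at h00 h01 h10 h11
    exact ⟨h00, h01, h10, h11⟩
  · rintro ⟨h00, h01, h10, h11⟩ i j
    fin_cases i <;> fin_cases j <;> simpa

theorem near_inv {δ : ℝ} {E : SL(2, ℝ)} (h : near δ E) : near δ E⁻¹ := by
  rw [near_iff] at h ⊢
  obtain ⟨h00, h01, h10, h11⟩ := h
  rw [SpecialLinearGroup.SL2_inv_expl]
  simp
  exact ⟨h11, h01, h10, h00⟩

theorem near_mul {δ δ' : ℝ} {E F : SL(2, ℝ)} (h : near δ E) (h' : near δ' F) :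
    near (δ + δ' + 2 * δ * δ') (E * F) := by
  rw [near_iff] at h h' ⊢
  obtain ⟨h00, h01, h10, h11⟩ := h
  obtain ⟨k00, k01, k10, k11⟩ := h'
  have hδ : 0 ≤ δ := le_trans (abs_nonneg _) h00
  have hδ' : 0 ≤ δ' := le_trans (abs_nonneg _) k00
  have mm : ∀ a b : ℝ, |a| ≤ δ → |b| ≤ δ' → |a * b| ≤ δ * δ' := by
    intro a b ha hb
    rw [abs_mul]
    exact mul_le_mul ha hb (abs_nonneg _) hδ
  simp only [mul_app]
  refine ⟨?_, ?_, ?_, ?_⟩
  · have e : E 0 0 * F 0 0 + E 0 1 * F 1 0 - 1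
        = (E 0 0 - 1) * (F 0 0 - 1) + E 0 1 * F 1 0 + (E 0 0 - 1) + (F 0 0 - 1) := by ring
    rw [e]
    have := mm _ _ h00 k00
    have := mm _ _ h01 k10
    rw [abs_le] at *
    constructor <;> linarith
  · have e : E 0 0 * F 0 1 + E 0 1 * F 1 1
        = (E 0 0 - 1) * F 0 1 + E 0 1 * (F 1 1 - 1) + F 0 1 + E 0 1 := by ring
    rw [e]
    have := mm _ _ h00 k01
    have := mm _ _ h01 k11
    rw [abs_le] at *
    constructor <;> linarith
  · have e : E 1 0 * F 0 0 + E 1 1 * F 1 0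
        = E 1 0 * (F 0 0 - 1) + (E 1 1 - 1) * F 1 0 + E 1 0 + F 1 0 := by ring
    rw [e]
    have := mm _ _ h10 k00
    have := mm _ _ h11 k10
    rw [abs_le] at *
    constructor <;> linarith
  · have e : E 1 0 * F 0 1 + E 1 1 * F 1 1 - 1
        = E 1 0 * F 0 1 + (E 1 1 - 1) * (F 1 1 - 1) + (E 1 1 - 1) + (F 1 1 - 1) := by ring
    rw [e]
    have := mm _ _ h10 k01
    have := mm _ _ h11 k11
    rw [abs_le] at *
    constructor <;> linarith

theorem near_mono {δ δ' : ℝ} {E : SL(2, ℝ)} (h : near δ E) (hle : δ ≤ δ') : near δ' E :=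
  fun i j => (h i j).trans hle

/-- A matrix near the identity is not conjugate to minus a matrix near the identity. -/
theorem sign_pos {δ δ' : ℝ} {B E F : SL(2, ℝ)} (h : near δ E) (h' : near δ' F)
    (hd : δ + δ' < 2) (he : B * E * B⁻¹ = F ∨ B * E * B⁻¹ = -F) : B * E * B⁻¹ = F := by
  rcases he with he | he
  · exact he
  · exfalso
    have h1 : tr (B * E * B⁻¹) = tr E := by
      rw [tr_mul_comm, ← mul_assoc, inv_mul_cancel, one_mul]
    rw [he, tr_neg, tr_eq, tr_eq] at h1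
    rw [near_iff] at h h'
    obtain ⟨h00, h01, h10, h11⟩ := h
    obtain ⟨k00, k01, k10, k11⟩ := h'
    rw [abs_le] at *
    linarith [h00.1, h11.1, k00.1, k11.1]

theorem trace_close (δ : ℝ) (hδ0 : 0 ≤ δ) (hδ : δ ≤ 1 / 10) (A B E₂ E₃ E₀ : SL(2, ℝ))
    (h₂ : near δ E₂) (h₃ : near δ E₃) (h₀ : near δ E₀)
    (hA : A = E₂ * B ∨ A = -(E₂ * B))
    (hA2 : A * A = E₃ * (B * B) ∨ A * A = -(E₃ * (B * B)))
    (hA0 : A⁻¹ = E₀ * B⁻¹ ∨ A⁻¹ = -(E₀ * B⁻¹)) :
    |(tr B) ^ 2 - 4| * abs (|tr A| - |tr B|)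
      ≤ 24 * δ * (1 + |tr B|) * (1 + |(tr B) ^ 2 - 4|) := by
  -- reduce to `A = E₂ * B`
  have hA2' : (E₂ * B) * (E₂ * B) = E₃ * (B * B) ∨ (E₂ * B) * (E₂ * B) = -(E₃ * (B * B)) := by
    rcases hA with hA | hA
    · rw [← hA]; exact hA2
    · rw [hA, neg_mul_neg] at hA2; exact hA2
  have hA0' : (E₂ * B)⁻¹ = E₀ * B⁻¹ ∨ (E₂ * B)⁻¹ = -(E₀ * B⁻¹) := by
    rcases hA with hA | hA
    · rw [← hA]; exact hA0
    · have hneg : A⁻¹ = -(E₂ * B)⁻¹ := by
        rw [hA]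
        apply inv_eq_of_mul_eq_one_left
        rw [neg_mul_neg, inv_mul_cancel]
      rw [hneg] at hA0
      rcases hA0 with h | h
      · right; rw [← h, neg_neg]
      · left; exact neg_inj.mp h
  have htr : |tr A| = |tr (E₂ * B)| := by
    rcases hA with hA | hA
    · rw [hA]
    · rw [hA, tr_neg, abs_neg]
  -- conjugates of `E₂`
  have hD1 : B * E₂ * B⁻¹ = E₂⁻¹ * E₃ := by
    have hn : near (3 * δ) (E₂⁻¹ * E₃) := by
      refine near_mono (near_mul (near_inv h₂) h₃) ?_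
      nlinarith
    refine sign_pos h₂ hn (by linarith) ?_
    rcases hA2' with h | h
    · left
      have : E₂⁻¹ * (E₂ * B * (E₂ * B)) * B⁻¹ * B⁻¹ = E₂⁻¹ * (E₃ * (B * B)) * B⁻¹ * B⁻¹ := by
        rw [h]
      simpa [mul_assoc] using this
    · right
      have : E₂⁻¹ * (E₂ * B * (E₂ * B)) * B⁻¹ * B⁻¹ = E₂⁻¹ * (-(E₃ * (B * B))) * B⁻¹ * B⁻¹ := by
        rw [h]
      simpa [mul_assoc, neg_mul, mul_neg] using this
  have hD2 : B⁻¹ * E₂ * B = E₀⁻¹ := by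
    have hn : near δ E₀⁻¹ := near_inv h₀
    have := sign_pos (B := B⁻¹) h₂ hn (by linarith) (by
      rw [inv_inv]
      rcases hA0' with h | h
      · left
        have : ((E₂ * B)⁻¹ * B)⁻¹ = (E₀ * B⁻¹ * B)⁻¹ := by rw [h]
        simpa [mul_assoc] using this
      · right
        have h' : ((E₂ * B)⁻¹ * B)⁻¹ = (-(E₀ * B⁻¹) * B)⁻¹ := by rw [h]
        have h'' : (-(E₀ * B⁻¹) * B)⁻¹ = -E₀⁻¹ := by
          apply inv_eq_of_mul_eq_one_left
          simp [mul_assoc]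
        rw [h''] at h'
        simpa [mul_assoc] using h')
    rwa [inv_inv] at this
  have n1 : near (3 * δ) (B * E₂ * B⁻¹) := by
    rw [hD1]
    refine near_mono (near_mul (near_inv h₂) h₃) ?_
    nlinarith
  have n2 : near δ (B⁻¹ * E₂ * B) := by rw [hD2]; exact near_inv h₀
  have hdet : B 0 0 * B 1 1 - B 0 1 * B 1 0 = 1 := by
    have := B.det_coe
    rwa [Matrix.det_fin_two] at this
  rw [near_iff] at h₂ n1 n2
  obtain ⟨e00, e01, e10, e11⟩ := h₂
  obtain ⟨p00, p01, p10, p11⟩ := n1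
  obtain ⟨q00, q01, q10, q11⟩ := n2
  simp only [mul_app, inv00, inv01, inv10, inv11] at p00 p01 p10 p11 q00 q01 q10 q11
  have main := trace_entry (B 0 0) (B 0 1) (B 1 0) (B 1 1) (E₂ 0 0 - 1) (E₂ 0 1) (E₂ 1 0)
    (E₂ 1 1 - 1) δ hdet e00 e01 e10 e11
    (by convert p00 using 2; linear_combination -hdet)
    (by convert p01 using 2; ring)
    (by convert p10 using 2; ring)
    (by convert p11 using 2; linear_combination -hdet)
    (by convert q00 using 2; linear_combination -hdet)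
    (by convert q01 using 2; ring)
    (by convert q10 using 2; ring)
    (by convert q11 using 2; linear_combination -hdet)
  have htB : tr B = B 0 0 + B 1 1 := tr_eq B
  have hdiff : abs (|tr A| - |tr B|)
      ≤ |(E₂ 0 0 - 1) * B 0 0 + E₂ 0 1 * B 1 0 + E₂ 1 0 * B 0 1 + (E₂ 1 1 - 1) * B 1 1| := by
    rw [htr]
    refine (abs_abs_sub_abs_le _ _).trans (le_of_eq ?_)
    congr 1
    rw [tr_eq, tr_eq]
    simp only [mul_app]
    ring
  rw [← htB] at main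
  exact (mul_le_mul_of_nonneg_left hdiff (abs_nonneg _)).trans main

end H24FB
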