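import Pool.Agent.H24.FB.Defs2
import Pool.Agent.H24.FB.BlockD

open MeasureTheory Measure Filter Topology Set Matrix
open scoped MatrixGroups

namespace H24FB

theorem close_measure {X : Type*} [MeasurableSpace X] (μ : Measure X) [IsProbabilityMeasure μ]
    (T : X → X) (q : ℕ → ℕ) (hr : Rigid μ T q) {G : Type*} [Group G] [TopologicalSpace G]
    [IsTopologicalGroup G] [SecondCountableTopology G] [MeasurableSpace G] [BorelSpace G]
    (f : X → G) (hf : Measurable f) (V : Set G) (hV : V ∈ 𝓝 (1 : G)) :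
    Tendsto (fun k => μ {x | f (T^[q k] x) * (f x)⁻¹ ∉ V}) atTop (𝓝 0) := by
  classical
  obtain ⟨V', hV', hVV⟩ := exists_nhds_split_inv hV
  -- the cover
  have hnh : ∀ y : G, {z : G | z * y⁻¹ ∈ interior V'} ∈ 𝓝 y := by
    intro y
    have hc : Continuous (fun z : G => z * y⁻¹) := by fun_prop
    refine (isOpen_interior.preimage hc).mem_nhds ?_
    simp only [Set.mem_preimage, mul_inv_cancel]
    exact mem_interior_iff_mem_nhds.2 hV'
  obtain ⟨s, hsc, hsu⟩ := TopologicalSpace.countable_cover_nhds hnh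
  have hsne : s.Nonempty := by
    by_contra hne
    rw [Set.not_nonempty_iff_eq_empty] at hne
    rw [hne] at hsu
    have h1 : (1 : G) ∈ (Set.univ : Set G) := Set.mem_univ _
    rw [← hsu] at h1
    simp at h1
  obtain ⟨y, hy⟩ := hsc.exists_eq_range hsne
  set U : ℕ → Set G := fun i => {z : G | z * (y i)⁻¹ ∈ interior V'} with hU
  have hUo : ∀ i, IsOpen (U i) := by
    intro i
    have hc : Continuous (fun z : G => z * (y i)⁻¹) := by fun_prop
    exact isOpen_interior.preimage hc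
  have hUc : ⋃ i, U i = Set.univ := by
    rw [← hsu, hy]
    ext z; simp [hU]
  -- the disjoint pieces
  set A : ℕ → Set X := fun i => f ⁻¹' (U i) with hA
  have hAm : ∀ i, MeasurableSet (A i) := fun i => hf (hUo i).measurableSet
  set E : ℕ → Set X := disjointed A with hE
  have hEm : ∀ i, MeasurableSet (E i) := fun i => MeasurableSet.disjointed hAm i
  set R : ℕ → Set X := fun M => (⋃ i ∈ Finset.range M, A i)ᶜ with hR
  have hRm : ∀ M, MeasurableSet (R M) := fun M =>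
    (Finset.measurableSet_biUnion _ (fun i _ => hAm i)).compl
  have hRanti : Antitone R := by
    intro a b hab
    simp only [hR]
    apply Set.compl_subset_compl.2
    exact Set.biUnion_subset_biUnion_left (fun i hi => by
      simp only [Finset.coe_range, Set.mem_Iio] at hi ⊢
      omega)
  have hRinter : ⋂ M, R M = ∅ := by
    rw [Set.eq_empty_iff_forall_notMem]
    intro x hx
    have : f x ∈ ⋃ i, U i := by rw [hUc]; trivial
    obtain ⟨i, hi⟩ := Set.mem_iUnion.1 this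
    have h2 := Set.mem_iInter.1 hx (i + 1)
    simp only [hR, Set.mem_compl_iff, Set.mem_iUnion, not_exists] at h2
    exact h2 i (by simp) hi
  have hR0 : Tendsto (fun M => μ (R M)) atTop (𝓝 0) := by
    have := tendsto_measure_iInter_atTop (μ := μ) (s := R)
      (fun M => (hRm M).nullMeasurableSet) hRanti ⟨0, measure_ne_top _ _⟩
    rwa [hRinter, measure_empty] at this
  -- the key inclusion
  have hincl : ∀ k M, {x | f (T^[q k] x) * (f x)⁻¹ ∉ V} ⊆
      (⋃ i ∈ Finset.range M, (E i \ (T^[q k]) ⁻¹' (E i))) ∪ R M := by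
    intro k M x hx
    by_cases hxR : x ∈ R M
    · exact Or.inr hxR
    · left
      simp only [hR, Set.mem_compl_iff, not_not] at hxR
      have hxE : x ∈ ⋃ i ∈ Finset.range M, E i := by
        have hx2 : ∃ i, x ∈ A i := by
          obtain ⟨i, hi⟩ := Set.mem_iUnion.1 hxR
          obtain ⟨_, h3⟩ := Set.mem_iUnion.1 hi
          exact ⟨i, h3⟩
        have hlt : Nat.find hx2 < M := by
          obtain ⟨i, hi⟩ := Set.mem_iUnion.1 hxR
          obtain ⟨h4, h3⟩ := Set.mem_iUnion.1 hi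
          exact lt_of_le_of_lt (Nat.find_min' hx2 h3) (by simpa using h4)
        refine Set.mem_biUnion (x := Nat.find hx2) (by simpa using hlt) ?_
        rw [hE, disjointed_eq_inter_compl]
        refine ⟨Nat.find_spec hx2, ?_⟩
        simp only [Set.mem_iInter, Set.mem_compl_iff]
        intro j hj
        exact Nat.find_min hx2 hj
      obtain ⟨i, hi⟩ := Set.mem_iUnion.1 hxE
      obtain ⟨hiM, hxi⟩ := Set.mem_iUnion.1 hi
      refine Set.mem_biUnion hiM ⟨hxi, ?_⟩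
      intro hTx
      apply hx
      have e1 : f x ∈ U i := disjointed_subset A i hxi
      have e2 : f (T^[q k] x) ∈ U i := disjointed_subset A i hTx
      have e3 := hVV _ (interior_subset e2) _ (interior_subset e1)
      rw [div_eq_mul_inv] at e3
      simpa [mul_assoc] using e3
  rw [ENNReal.tendsto_nhds_zero]
  intro ε hε
  have hε2 : (0 : ENNReal) < ε / 2 := ENNReal.half_pos hε.ne'
  obtain ⟨M, hM⟩ := ((ENNReal.tendsto_nhds_zero.1 hR0) (ε / 2) hε2).exists
  have hsum : Tendsto (fun k => ∑ i ∈ Finset.range M, μ (E i \ (T^[q k]) ⁻¹' (E i))) atTop (𝓝 0) := by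
    have := tendsto_finsetSum (Finset.range M) (fun i _ => hr (E i) (hEm i))
    simpa using this
  filter_upwards [(ENNReal.tendsto_nhds_zero.1 hsum) (ε / 2) hε2] with k hk
  calc μ {x | f (T^[q k] x) * (f x)⁻¹ ∉ V}
      ≤ μ ((⋃ i ∈ Finset.range M, (E i \ (T^[q k]) ⁻¹' (E i))) ∪ R M) := measure_mono (hincl k M)
    _ ≤ μ (⋃ i ∈ Finset.range M, (E i \ (T^[q k]) ⁻¹' (E i))) + μ (R M) := measure_union_le _ _
    _ ≤ (∑ i ∈ Finset.range M, μ (E i \ (T^[q k]) ⁻¹' (E i))) + μ (R M) := by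
        gcongr
        exact measure_biUnion_finset_le _ _
    _ ≤ ε / 2 + ε / 2 := add_le_add hk hM
    _ = ε := ENNReal.add_halves ε

lemma psl_eq {A B : SL(2, ℝ)} (h : (QuotientGroup.mk A : PSL(2, ℝ)) = QuotientGroup.mk B) :
    A = B ∨ A = -B := by
  rw [QuotientGroup.eq, Matrix.SpecialLinearGroup.mem_center_iff] at h
  obtain ⟨r, hr, hr2⟩ := h
  have hr1 : r = 1 ∨ r = -1 := by
    have h3 : r ^ 2 = 1 := by simpa using hr
    have h4 : (r - 1) * (r + 1) = 0 := by linear_combination h3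
    rcases mul_eq_zero.1 h4 with h5 | h5
    · left; linarith
    · right; linarith
  have hB : B = A * (A⁻¹ * B) := by group
  rcases hr1 with rfl | rfl
  · left
    have : A⁻¹ * B = 1 := by
      apply Subtype.ext
      rw [← hr2]
      ext i j
      fin_cases i <;> fin_cases j <;> simp
    rw [hB, this, mul_one]
  · right
    have : A⁻¹ * B = -1 := by
      apply Subtype.ext
      rw [← hr2]
      ext i j
      fin_cases i <;> fin_cases j <;> simp
    rw [hB, this]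
    simp

lemma wp_congr {G : Type*} [Monoid G] (B B' : ℕ → G) (m : ℕ) (h : ∀ i < m, B i = B' i) :
    wp B m = wp B' m := by
  induction m with
  | zero => rfl
  | succ m ih =>
    simp only [wp]
    rw [ih (fun i hi => h i (by omega)), h m (by omega)]

lemma coh_iter {X G : Type*} [Group G] {n : ℕ} (T : X → X) (ι : X → Fin n) (g h : Fin n → G)
    (f : X → G) (x : X) (hx : ∀ i, f (T (T^[i] x)) * g (ι (T^[i] x)) = h (ι (T^[i] x)) * f (T^[i] x))
    (m : ℕ) : f (T^[m] x) * wp (fun i => g (ι (T^[i] x))) m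
      = wp (fun i => h (ι (T^[i] x))) m * f x := by
  induction m with
  | zero => simp [wp]
  | succ m ih =>
    simp only [wp, Function.iterate_succ_apply']
    rw [← mul_assoc, hx m, mul_assoc, ih, mul_assoc]

lemma near_nhds (δ : ℝ) (hδ : 0 < δ) : {E : SL(2, ℝ) | near δ E} ∈ 𝓝 (1 : SL(2, ℝ)) := by
  have hopen : IsOpen {E : SL(2, ℝ) | ∀ i j, |(E : Matrix (Fin 2) (Fin 2) ℝ) i j - (1 : Matrix (Fin 2) (Fin 2) ℝ) i j| < δ} := by
    simp only [Set.ofPred_forall]
    refine isOpen_iInter_of_finite fun i => isOpen_iInter_of_finite fun j => ?_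
    refine isOpen_lt ?_ continuous_const
    have : Continuous (fun E : SL(2, ℝ) => (E : Matrix (Fin 2) (Fin 2) ℝ) i j) :=
      (continuous_subtype_val).matrix_elem i j
    fun_prop
  refine Filter.mem_of_superset (hopen.mem_nhds ?_) ?_
  · intro i j
    simpa using hδ
  · intro E hE i j
    exact (hE i j).le


lemma tr_conj (P W : SL(2, ℝ)) : tr (P * W * P⁻¹) = tr W := by
  unfold tr
  rw [Matrix.SpecialLinearGroup.coe_mul, Matrix.trace_mul_comm, ← Matrix.SpecialLinearGroup.coe_mul,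
    ← mul_assoc, inv_mul_cancel, one_mul]

/-- The algebraic core. -/
lemma close_core {G : Type*} [Group G] (ρ : G →* PSL(2, ℝ)) (δ : ℝ) (hδ : 0 < δ)
    (hδ' : δ ≤ 1 / 10) (V₀ : Set G)
    (hV₀ : ∀ v ∈ V₀, ∃ E : SL(2, ℝ), near δ E ∧ (QuotientGroup.mk E : PSL(2, ℝ)) = ρ v)
    (wg wh f0 f1 f2 f3 : G) (h1 : f1 * wg = wh * f0) (h2 : f2 * wg = wh * f1)
    (h3 : f3 * wg = wh * f2) (c0 : (f1 * f0⁻¹)⁻¹ ∈ V₀) (c1 : f2 * f1⁻¹ ∈ V₀)
    (c2 : (f3 * f2⁻¹) * (f2 * f1⁻¹) ∈ V₀) :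
    Close δ (absTr (ρ wh)) (absTr (ρ wg)) := by
  obtain ⟨E₂, hE₂, e₂⟩ := hV₀ _ c1
  obtain ⟨E₃, hE₃, e₃⟩ := hV₀ _ c2
  obtain ⟨E₀, hE₀, e₀⟩ := hV₀ _ c0
  obtain ⟨A, hA⟩ := QuotientGroup.mk_surjective (ρ wh)
  obtain ⟨W, hW⟩ := QuotientGroup.mk_surjective (ρ wg)
  obtain ⟨P, hP⟩ := QuotientGroup.mk_surjective (ρ f1)
  have hB : (QuotientGroup.mk (P * W * P⁻¹) : PSL(2, ℝ)) = ρ (f1 * wg * f1⁻¹) := by
    rw [QuotientGroup.mk_mul, QuotientGroup.mk_mul, QuotientGroup.mk_inv, hP, hW, map_mul, map_mul,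
      map_inv]
  have k1 : wh = (f2 * f1⁻¹) * (f1 * wg * f1⁻¹) := by
    have : wh = f2 * wg * f1⁻¹ := by rw [h2]; group
    rw [this]; group
  have k2 : wh * wh = ((f3 * f2⁻¹) * (f2 * f1⁻¹)) * ((f1 * wg * f1⁻¹) * (f1 * wg * f1⁻¹)) := by
    have t1 : wh = f2 * wg * f1⁻¹ := by rw [h2]; group
    have t2 : wh = f3 * wg * f2⁻¹ := by rw [h3]; group
    calc wh * wh = (f3 * wg * f2⁻¹) * (f2 * wg * f1⁻¹) := by rw [← t1, ← t2]
      _ = _ := by group
  have k3 : wh⁻¹ = (f1 * f0⁻¹)⁻¹ * (f1 * wg * f1⁻¹)⁻¹ := by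
    have t0 : wh = f1 * wg * f0⁻¹ := by rw [h1]; group
    rw [t0]; group
  have m1 : A = E₂ * (P * W * P⁻¹) ∨ A = -(E₂ * (P * W * P⁻¹)) := by
    apply psl_eq
    rw [hA, QuotientGroup.mk_mul, e₂, hB, ← map_mul, ← k1]
  have m2 : A * A = E₃ * ((P * W * P⁻¹) * (P * W * P⁻¹)) ∨
      A * A = -(E₃ * ((P * W * P⁻¹) * (P * W * P⁻¹))) := by
    apply psl_eq
    rw [QuotientGroup.mk_mul, hA, QuotientGroup.mk_mul, e₃, QuotientGroup.mk_mul, hB, ← map_mul,
      ← map_mul, ← map_mul, ← k2]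
  have m3 : A⁻¹ = E₀ * (P * W * P⁻¹)⁻¹ ∨ A⁻¹ = -(E₀ * (P * W * P⁻¹)⁻¹) := by
    apply psl_eq
    rw [QuotientGroup.mk_inv, hA, QuotientGroup.mk_mul, e₀, QuotientGroup.mk_inv, hB, ← map_inv,
      ← map_inv, ← map_mul, ← k3]
  have key := trace_close δ hδ.le hδ' A (P * W * P⁻¹) E₂ E₃ E₀ hE₂ hE₃ hE₀ m1 m2 m3
  rw [tr_conj] at key
  unfold Close
  rw [← hA, ← hW, absTr_mk, absTr_mk, sq_abs]
  exact key

theorem coh_close {X : Type*} [MeasurableSpace X] (μ : Measure X) [IsProbabilityMeasure μ]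
    {n : ℕ} (T : X → X) (hT : MeasurePreserving T μ μ) (ι : X → Fin n) (q : ℕ → ℕ)
    (hw : WordRigid μ T ι q) (hr : Rigid μ T q) {G : Type*} [Group G] [TopologicalSpace G]
    [IsTopologicalGroup G] [SecondCountableTopology G] [MeasurableSpace G] [BorelSpace G]
    (ρ : G →* PSL(2, ℝ)) (hρ : Continuous ρ) (g h : Fin n → G) (f : X → G) (hf : Measurable f)
    (hcoh : ∀ᵐ x ∂μ, f (T x) * g (ι x) = h (ι x) * f x) (δ : ℝ) (hδ : 0 < δ)
    (hδ' : δ ≤ 1 / 10) :
    Tendsto (fun k => μ {x | ¬ Close δ (absTr (wp (fun i => ρ (h (ι (T^[i] x)))) (q k)))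
      (absTr (wp (fun i => ρ (g (ι (T^[i] x)))) (q k)))}) atTop (𝓝 0) := by
  classical
  set U : Set PSL(2, ℝ) := (QuotientGroup.mk : SL(2, ℝ) → PSL(2, ℝ)) '' {E | near δ E} with hU
  have hU1 : U ∈ 𝓝 (1 : PSL(2, ℝ)) := by
    have := (QuotientGroup.isOpenMap_coe (N := Subgroup.center SL(2, ℝ))).image_mem_nhds
      (near_nhds δ hδ)
    simpa using this
  set V₀ : Set G := ρ ⁻¹' U with hV₀
  have hV₀1 : V₀ ∈ 𝓝 (1 : G) := by
    apply hρ.continuousAt
    rw [map_one]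
    exact hU1
  obtain ⟨V₁, hV₁, hVV⟩ := exists_nhds_one_split hV₀1
  set V : Set G := interior (V₁ ∩ (V₀ ∩ V₀⁻¹)) with hV
  have hVn : V ∈ 𝓝 (1 : G) := by
    rw [hV, interior_mem_nhds]
    exact Filter.inter_mem hV₁ (Filter.inter_mem hV₀1 (inv_mem_nhds_one G hV₀1))
  have hVo : IsOpen V := isOpen_interior
  have hlift : ∀ v ∈ V₀, ∃ E : SL(2, ℝ), near δ E ∧ (QuotientGroup.mk E : PSL(2, ℝ)) = ρ v := by
    intro v hv
    obtain ⟨E, hE, hE2⟩ := hv
    exact ⟨E, hE, hE2⟩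
  have hcm := close_measure μ T q hr f hf V hVn
  -- full-measure set where the cohomology holds along the orbit
  have hall : ∀ᵐ x ∂μ, ∀ i : ℕ, f (T (T^[i] x)) * g (ι (T^[i] x)) = h (ι (T^[i] x)) * f (T^[i] x) := by
    rw [ae_all_iff]
    intro i
    exact (hT.iterate i).quasiMeasurePreserving.ae hcoh
  have hTm : ∀ k, Measurable (T^[k]) := fun k => (hT.iterate k).measurable
  have hcm' : ∀ j k : ℕ, μ {x | f (T^[q k] (T^[j] x)) * (f (T^[j] x))⁻¹ ∉ V}
      = μ {x | f (T^[q k] x) * (f x)⁻¹ ∉ V} := by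
    intro j k
    have hm : MeasurableSet {x | f (T^[q k] x) * (f x)⁻¹ ∉ V} := by
      have h1 : Measurable (fun x => f (T^[q k] x) * (f x)⁻¹) :=
        (hf.comp (hTm (q k))).mul hf.inv
      exact (h1 hVo.measurableSet).compl
    exact (hT.iterate j).measure_preimage hm.nullMeasurableSet
  have hlim : Tendsto (fun k => μ {x | f (T^[q k] x) * (f x)⁻¹ ∉ V}
      + μ {x | f (T^[q k] x) * (f x)⁻¹ ∉ V} + μ {x | f (T^[q k] x) * (f x)⁻¹ ∉ V}
      + μ {x | ∃ i < 2 * q k, ι (T^[i + q k] x) ≠ ι (T^[i] x)}) atTop (𝓝 0) := by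
    have := ((hcm.add hcm).add hcm).add hw
    simpa using this
  have hnull : μ {x | ¬ ∀ i : ℕ, f (T (T^[i] x)) * g (ι (T^[i] x))
      = h (ι (T^[i] x)) * f (T^[i] x)} = 0 := ae_iff.1 hall
  refine tendsto_of_tendsto_of_tendsto_of_le_of_le tendsto_const_nhds hlim
    (fun _ => by simp) ?_
  intro k
  have hsub : {x | ¬ Close δ (absTr (wp (fun i => ρ (h (ι (T^[i] x)))) (q k)))
      (absTr (wp (fun i => ρ (g (ι (T^[i] x)))) (q k)))} ⊆
      ((({x | f (T^[q k] (T^[0] x)) * (f (T^[0] x))⁻¹ ∉ V}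
        ∪ {x | f (T^[q k] (T^[q k] x)) * (f (T^[q k] x))⁻¹ ∉ V})
        ∪ {x | f (T^[q k] (T^[2 * q k] x)) * (f (T^[2 * q k] x))⁻¹ ∉ V})
        ∪ {x | ∃ i < 2 * q k, ι (T^[i + q k] x) ≠ ι (T^[i] x)})
        ∪ {x | ¬ ∀ i : ℕ, f (T (T^[i] x)) * g (ι (T^[i] x)) = h (ι (T^[i] x)) * f (T^[i] x)} := by
    intro x hbad
    by_contra hgood
    apply hbad
    simp only [Set.mem_union, not_or, Set.mem_ofPred_eq, not_not] at hgood
    obtain ⟨⟨⟨⟨g0, g1⟩, g2⟩, g3⟩, hx⟩ := hgood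
    push Not at g3
    have hVsub : V ⊆ V₁ ∩ (V₀ ∩ V₀⁻¹) := interior_subset
    have hit : ∀ a b : ℕ, T^[a] (T^[b] x) = T^[a + b] x := fun a b =>
      (Function.iterate_add_apply T a b x).symm
    have hw1 : ∀ (c : Fin n → G), wp (fun i => c (ι (T^[i] (T^[q k] x)))) (q k)
        = wp (fun i => c (ι (T^[i] x))) (q k) := by
      intro c
      apply wp_congr
      intro i hi
      rw [hit, g3 i (by omega)]
    have hw2 : ∀ (c : Fin n → G), wp (fun i => c (ι (T^[i] (T^[2 * q k] x)))) (q k)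
        = wp (fun i => c (ι (T^[i] x))) (q k) := by
      intro c
      apply wp_congr
      intro i hi
      rw [hit, show i + 2 * q k = (i + q k) + q k by ring, g3 (i + q k) (by omega),
        g3 i (by omega)]
    have c1 := coh_iter T ι g h f x hx (q k)
    have c2 := coh_iter T ι g h f (T^[q k] x) (fun i => by
      rw [hit]; exact hx (i + q k)) (q k)
    have c3 := coh_iter T ι g h f (T^[2 * q k] x) (fun i => by
      rw [hit]; exact hx (i + 2 * q k)) (q k)
    rw [hw1, hw1, hit] at c2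
    rw [hw2, hw2, hit] at c3
    rw [show T^[0] x = x from rfl] at g0
    rw [hit] at g1
    rw [hit] at g2
    rw [show q k + q k = 2 * q k by ring] at c2 g1
    have hfin := close_core ρ δ hδ hδ' V₀ hlift _ _ _ _ _ _ c1 c2 c3
      ((hVsub g0).2.2) ((hVsub g1).2.1) (hVV _ (hVsub g2).1 _ (hVsub g1).1)
    rw [map_wp, map_wp] at hfin
    exact hfin
  refine (measure_mono hsub).trans ?_
  refine (measure_union_le _ _).trans ?_
  rw [hnull, add_zero]
  refine (measure_union_le _ _).trans (add_le_add ?_ le_rfl)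
  refine (measure_union_le _ _).trans (add_le_add ?_ (hcm' (2 * q k) k).le)
  exact (measure_union_le _ _).trans (add_le_add (hcm' 0 k).le (hcm' (q k) k).le)

end H24FB
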