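import Pool.Agent.H24.FB.Defs2
import Pool.Agent.H24.FB.BlockA
import Pool.Agent.H24.FB.BlockB

/-! Block F, part (b): the set of pairs of tuples with `Close` absolute traces is small. -/

open MeasureTheory Matrix Filter Topology
open scoped MatrixGroups

namespace H24FB

theorem haar_band {n : ℕ} (μ : Measure (Fin n → SL(2, ℝ))) [μ.IsMulLeftInvariant] [SFinite μ]
    (R : ℝ) (w : ℕ → Fin n) (m : ℕ) (hm : 0 < m) (c δ : ℝ) (hδ : 0 ≤ δ) :
    μ {h | h ∈ KR n R ∧ |tr (wp (fun j => h (w j)) m) - c| ≤ δ * (1 + |c|)} ≤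
      ENNReal.ofReal (40 * √δ) * μ (KR n R) :=
  haar_band_of trace_factor band μ R w m hm c δ hδ

theorem continuous_trw {n : ℕ} (w : ℕ → Fin n) (m : ℕ) :
    Continuous fun h : Fin n → SL(2, ℝ) => tr (wp (fun j => h (w j)) m) :=
  continuous_tr.comp (continuous_wp (fun j => continuous_apply (w j)) m)

/-- The elementary implication behind the estimate. -/
theorem close_cases {δ a b : ℝ} (hδ : 0 < δ) (hδ1 : δ ≤ 1 / 11) (hb : 0 ≤ b)
    (h : Close δ a b) : |a - b| ≤ 48 * √δ * (1 + b) ∨ |b - 2| ≤ √δ * (1 + 2) := by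
  have hs : 0 < √δ := Real.sqrt_pos.2 hδ
  have hss : √δ * √δ = δ := Real.mul_self_sqrt hδ.le
  have hs1 : √δ ≤ 1 := by
    rw [Real.sqrt_le_one]
    linarith
  rcases le_or_gt (√δ) |b ^ 2 - 4| with h1 | h1
  · left
    unfold Close at h
    have hpos : 0 < |b ^ 2 - 4| := lt_of_lt_of_le hs h1
    -- 24 δ (1 + b) (1 + z) ≤ z * (48 √δ (1 + b))
    have key : 24 * δ * (1 + b) * (1 + |b ^ 2 - 4|) ≤
        |b ^ 2 - 4| * (48 * √δ * (1 + b)) := by
      have hb1 : 0 ≤ 1 + b := by linarith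
      have e1 : δ * (1 + |b ^ 2 - 4|) ≤ |b ^ 2 - 4| * (2 * √δ) := by
        have e2 : δ ≤ √δ * |b ^ 2 - 4| := by
          calc δ = √δ * √δ := hss.symm
            _ ≤ √δ * |b ^ 2 - 4| := mul_le_mul_of_nonneg_left h1 hs.le
        have e3 : δ * |b ^ 2 - 4| ≤ √δ * |b ^ 2 - 4| := by
          refine mul_le_mul_of_nonneg_right ?_ hpos.le
          nlinarith
        nlinarith
      nlinarith [mul_le_mul_of_nonneg_right e1 hb1]
    have h2 := h.trans key
    exact le_of_mul_le_mul_left h2 hpos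
  · right
    have e : |b ^ 2 - 4| = |b - 2| * (b + 2) := by
      rw [show b ^ 2 - 4 = (b - 2) * (b + 2) by ring, abs_mul, abs_of_nonneg (by linarith : 0 ≤ b + 2)]
    rw [e] at h1
    have h3 : 0 ≤ |b - 2| := abs_nonneg _
    nlinarith

/-- Fubini bound, the band being around a function of the first variable. -/
theorem prod_band {n : ℕ} (μ : Measure (Fin n → SL(2, ℝ))) [μ.IsMulLeftInvariant] [SFinite μ]
    (R : ℝ) (w : ℕ → Fin n) (m : ℕ) (hm : 0 < m) (c : (Fin n → SL(2, ℝ)) → ℝ)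
    (hc : Continuous c) (δ : ℝ) (hδ : 0 ≤ δ) :
    (μ.prod μ) {p | (p.1 ∈ KR n R ∧ p.2 ∈ KR n R) ∧
      |tr (wp (fun i => p.2 (w i)) m) - c p.1| ≤ δ * (1 + |c p.1|)} ≤
      ENNReal.ofReal (40 * √δ) * μ (KR n R) * μ (KR n R) := by
  have hcl : IsClosed {p : (Fin n → SL(2, ℝ)) × (Fin n → SL(2, ℝ)) |
      (p.1 ∈ KR n R ∧ p.2 ∈ KR n R) ∧
      |tr (wp (fun i => p.2 (w i)) m) - c p.1| ≤ δ * (1 + |c p.1|)} := by
    have h2 : IsClosed {p : (Fin n → SL(2, ℝ)) × (Fin n → SL(2, ℝ)) |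
        |tr (wp (fun i => p.2 (w i)) m) - c p.1| ≤ δ * (1 + |c p.1|)} :=
      isClosed_le (((continuous_trw w m).comp continuous_snd).sub (hc.comp continuous_fst)).abs
        (continuous_const.mul (continuous_const.add (hc.comp continuous_fst).abs))
    exact (((isClosed_KR n R).preimage continuous_fst).inter
      ((isClosed_KR n R).preimage continuous_snd)).inter h2
  rw [Measure.prod_apply hcl.measurableSet]
  calc ∫⁻ x, μ (Prod.mk x ⁻¹' {p : (Fin n → SL(2, ℝ)) × (Fin n → SL(2, ℝ)) |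
      (p.1 ∈ KR n R ∧ p.2 ∈ KR n R) ∧
      |tr (wp (fun i => p.2 (w i)) m) - c p.1| ≤ δ * (1 + |c p.1|)}) ∂μ
      ≤ ∫⁻ x, (KR n R).indicator (fun _ => ENNReal.ofReal (40 * √δ) * μ (KR n R)) x ∂μ := by
        refine lintegral_mono fun x => ?_
        by_cases hx : x ∈ KR n R
        · rw [Set.indicator_of_mem hx]
          refine le_trans (measure_mono ?_) (haar_band μ R w m hm (c x) δ hδ)
          intro y hy
          exact ⟨hy.1.2, hy.2⟩
        · rw [Set.indicator_of_notMem hx]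
          have : (Prod.mk x ⁻¹' {p : (Fin n → SL(2, ℝ)) × (Fin n → SL(2, ℝ)) |
              (p.1 ∈ KR n R ∧ p.2 ∈ KR n R) ∧
              |tr (wp (fun i => p.2 (w i)) m) - c p.1| ≤ δ * (1 + |c p.1|)}) = ∅ := by
            ext y
            simp only [Set.mem_preimage, Set.mem_ofPred_eq, Set.mem_empty_iff_false, iff_false]
            rintro ⟨⟨h1, _⟩, _⟩
            exact hx h1
          rw [this]
          simp
    _ = ENNReal.ofReal (40 * √δ) * μ (KR n R) * μ (KR n R) := by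
        rw [lintegral_indicator (measurableSet_KR n R), lintegral_const,
          Measure.restrict_apply_univ]

/-- The same with a constant and the band in the first variable. -/
theorem prod_band_fst {n : ℕ} (μ : Measure (Fin n → SL(2, ℝ))) [μ.IsMulLeftInvariant] [SFinite μ]
    (R : ℝ) (w : ℕ → Fin n) (m : ℕ) (hm : 0 < m) (c : ℝ) (δ : ℝ) (hδ : 0 ≤ δ) :
    (μ.prod μ) {p | (p.1 ∈ KR n R ∧ p.2 ∈ KR n R) ∧
      |tr (wp (fun i => p.1 (w i)) m) - c| ≤ δ * (1 + |c|)} ≤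
      ENNReal.ofReal (40 * √δ) * μ (KR n R) * μ (KR n R) := by
  have hsub : {p : (Fin n → SL(2, ℝ)) × (Fin n → SL(2, ℝ)) |
      (p.1 ∈ KR n R ∧ p.2 ∈ KR n R) ∧ |tr (wp (fun i => p.1 (w i)) m) - c| ≤ δ * (1 + |c|)} ⊆
      {h | h ∈ KR n R ∧ |tr (wp (fun j => h (w j)) m) - c| ≤ δ * (1 + |c|)} ×ˢ KR n R := by
    rintro ⟨x, y⟩ ⟨⟨h1, h2⟩, h3⟩
    exact ⟨⟨h1, h3⟩, h2⟩
  refine (measure_mono hsub).trans ?_
  rw [Measure.prod_prod]
  exact mul_le_mul_left (haar_band μ R w m hm c δ hδ) _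

theorem close_band {n : ℕ} (ν : Measure SL(2, ℝ)) [ν.IsHaarMeasure] (w : ℕ → Fin n) (m : ℕ)
    (hm : 1 ≤ m) (R : ℝ) (δ : ℝ) (hδ : 0 < δ) (hδ1 : δ ≤ 1 / 11) :
    ((Measure.pi fun _ : Fin n => ν).prod (Measure.pi fun _ : Fin n => ν))
      {p | (p.1 ∈ KR n R ∧ p.2 ∈ KR n R) ∧
        Close δ |tr (wp (fun i => p.2 (w i)) m)| |tr (wp (fun i => p.1 (w i)) m)|} ≤
      ENNReal.ofReal (700 * √√δ) * (Measure.pi fun _ : Fin n => ν) (KR n R) *
        (Measure.pi fun _ : Fin n => ν) (KR n R) := by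
  set M : Measure (Fin n → SL(2, ℝ)) := Measure.pi fun _ : Fin n => ν with hM
  set t : (Fin n → SL(2, ℝ)) → ℝ := fun h => tr (wp (fun i => h (w i)) m) with ht
  have htc : Continuous t := continuous_trw w m
  have hs : 0 < √δ := Real.sqrt_pos.2 hδ
  set S1 := {p : (Fin n → SL(2, ℝ)) × (Fin n → SL(2, ℝ)) | (p.1 ∈ KR n R ∧ p.2 ∈ KR n R) ∧
      |tr (wp (fun i => p.2 (w i)) m) - abs (t p.1)| ≤ (48 * √δ) * (1 + abs (abs (t p.1)))} with hS1
  set S2 := {p : (Fin n → SL(2, ℝ)) × (Fin n → SL(2, ℝ)) | (p.1 ∈ KR n R ∧ p.2 ∈ KR n R) ∧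
      |tr (wp (fun i => p.2 (w i)) m) - -abs (t p.1)| ≤ (48 * √δ) * (1 + abs (-abs (t p.1)))} with hS2
  set S3 := {p : (Fin n → SL(2, ℝ)) × (Fin n → SL(2, ℝ)) | (p.1 ∈ KR n R ∧ p.2 ∈ KR n R) ∧
      |tr (wp (fun i => p.1 (w i)) m) - 2| ≤ √δ * (1 + |(2 : ℝ)|)} with hS3
  set S4 := {p : (Fin n → SL(2, ℝ)) × (Fin n → SL(2, ℝ)) | (p.1 ∈ KR n R ∧ p.2 ∈ KR n R) ∧
      |tr (wp (fun i => p.1 (w i)) m) - -2| ≤ √δ * (1 + |(-2 : ℝ)|)} with hS4
  have b1 := prod_band M R w m hm (fun h => |t h|) htc.abs (48 * √δ) (by positivity)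
  have b2 := prod_band M R w m hm (fun h => -|t h|) htc.abs.neg (48 * √δ) (by positivity)
  have b3 := prod_band_fst M R w m hm 2 (√δ) hs.le
  have b4 := prod_band_fst M R w m hm (-2) (√δ) hs.le
  have hsub : {p : (Fin n → SL(2, ℝ)) × (Fin n → SL(2, ℝ)) | (p.1 ∈ KR n R ∧ p.2 ∈ KR n R) ∧
        Close δ |tr (wp (fun i => p.2 (w i)) m)| |tr (wp (fun i => p.1 (w i)) m)|} ⊆
      (S1 ∪ S2) ∪ (S3 ∪ S4) := by
    rintro p ⟨hK, hC⟩
    rcases close_cases hδ hδ1 (abs_nonneg _) hC with h | h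
    · left
      rcases abs_cases (tr (wp (fun i => p.2 (w i)) m)) with ⟨ha, _⟩ | ⟨ha, _⟩
      · left
        refine ⟨hK, ?_⟩
        rw [abs_abs]
        rw [ha] at h
        exact h
      · right
        refine ⟨hK, ?_⟩
        rw [abs_neg, abs_abs]
        rw [ha] at h
        have e : |tr (wp (fun i => p.2 (w i)) m) - -abs (t p.1)| =
            |-tr (wp (fun i => p.2 (w i)) m) - abs (t p.1)| := by
          rw [← abs_neg]
          congr 1
          ring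
        rw [e]
        exact h
    · right
      rcases abs_cases (tr (wp (fun i => p.1 (w i)) m)) with ⟨ha, _⟩ | ⟨ha, _⟩
      · left
        refine ⟨hK, ?_⟩
        rw [ha] at h
        rw [abs_of_pos (by norm_num : (0 : ℝ) < 2)]
        exact h
      · right
        refine ⟨hK, ?_⟩
        rw [ha] at h
        rw [abs_neg, abs_of_pos (by norm_num : (0 : ℝ) < 2)]
        have e : |tr (wp (fun i => p.1 (w i)) m) - -2| =
            |-tr (wp (fun i => p.1 (w i)) m) - 2| := by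
          rw [← abs_neg]
          congr 1
          ring
        rw [e]
        exact h
  refine (measure_mono hsub).trans ?_
  have hu : (M.prod M) ((S1 ∪ S2) ∪ (S3 ∪ S4)) ≤
      ((M.prod M) S1 + (M.prod M) S2) + ((M.prod M) S3 + (M.prod M) S4) :=
    (measure_union_le _ _).trans (add_le_add (measure_union_le _ _) (measure_union_le _ _))
  refine hu.trans ((add_le_add (add_le_add b1 b2) (add_le_add b3 b4)).trans ?_)
  have hcomb : ∀ x y : ENNReal, ∀ A : ENNReal,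
      (x * A * A + x * A * A) + (y * A * A + y * A * A) = ((x + x) + (y + y)) * A * A := by
    intro x y A
    ring
  rw [hcomb]
  refine mul_le_mul_left (mul_le_mul_left ?_ _) _
  have hn1 : 0 ≤ 40 * √(48 * √δ) := by positivity
  have hn2 : 0 ≤ 40 * √√δ := by positivity
  rw [← ENNReal.ofReal_add hn1 hn1, ← ENNReal.ofReal_add hn2 hn2,
    ← ENNReal.ofReal_add (by positivity) (by positivity)]
  refine ENNReal.ofReal_le_ofReal ?_
  have h48 : √(48 : ℝ) ≤ 7 := by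
    rw [Real.sqrt_le_left (by norm_num)]
    norm_num
  have hsp : √(48 * √δ) = √48 * √√δ := Real.sqrt_mul (by norm_num) _
  rw [hsp]
  have h0 : 0 ≤ √√δ := Real.sqrt_nonneg _
  nlinarith [mul_le_mul_of_nonneg_right h48 h0]

end H24FB
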