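import Pool.Agent.H24.FB.Defs3
import Pool.Agent.H24.FB.BlockFb

/-! Block F, new part (b): the set of pairs of tuples with `CloseN` words is small. -/

open MeasureTheory Matrix Filter Topology
open scoped MatrixGroups

namespace H24FB

/-- Fubini bound, the norm condition being on the first variable. -/
theorem prod_norm_fst {n : ℕ} (μ : Measure (Fin n → SL(2, ℝ))) [SFinite μ]
    (R : ℝ) (w : ℕ → Fin n) (m : ℕ) (κ : ℝ) (C : ENNReal)
    (hN : μ {h | h ∈ KR n R ∧ |tr (wp (fun j => h (w j)) m)| ≤ κ * frob (wp (fun j => h (w j)) m)}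
      ≤ C * μ (KR n R)) :
    (μ.prod μ) {p | (p.1 ∈ KR n R ∧ p.2 ∈ KR n R) ∧
      |tr (wp (fun i => p.1 (w i)) m)| ≤ κ * frob (wp (fun i => p.1 (w i)) m)} ≤
      C * μ (KR n R) * μ (KR n R) := by
  have hsub : {p : (Fin n → SL(2, ℝ)) × (Fin n → SL(2, ℝ)) |
      (p.1 ∈ KR n R ∧ p.2 ∈ KR n R) ∧
      |tr (wp (fun i => p.1 (w i)) m)| ≤ κ * frob (wp (fun i => p.1 (w i)) m)} ⊆
      {h | h ∈ KR n R ∧ |tr (wp (fun j => h (w j)) m)| ≤
        κ * frob (wp (fun j => h (w j)) m)} ×ˢ KR n R := by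
    rintro ⟨x, y⟩ ⟨⟨h1, h2⟩, h3⟩
    exact ⟨⟨h1, h3⟩, h2⟩
  refine (measure_mono hsub).trans ?_
  rw [Measure.prod_prod]
  exact mul_le_mul_left hN _

/-- New lemma (b) of block F, with the norm estimate `haar_norm` as hypothesis. -/
theorem closeN_band_of {n : ℕ} (M : Measure (Fin n → SL(2, ℝ))) [M.IsMulLeftInvariant]
    [SFinite M] (w : ℕ → Fin n) (m : ℕ) (hm : 0 < m) (R : ℝ) (δ : ℝ) (hδ : 0 < δ) (hδ1 : δ < 1)
    (hN : M {h | h ∈ KR n R ∧
        |tr (wp (fun j => h (w j)) m)| ≤ √δ * frob (wp (fun j => h (w j)) m)} ≤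
      ENNReal.ofReal (Real.log 2 / Real.log (1 / √δ)) * M (KR n R)) :
    (M.prod M)
      {p | (p.1 ∈ KR n R ∧ p.2 ∈ KR n R) ∧
        |(|tr (wp (fun i => p.2 (w i)) m)|) - (|tr (wp (fun i => p.1 (w i)) m)|)| ≤
          δ * frob (wp (fun i => p.1 (w i)) m)} ≤
      ENNReal.ofReal (80 * √√δ + Real.log 2 / Real.log (1 / √δ)) * M (KR n R) * M (KR n R) := by
  set t : (Fin n → SL(2, ℝ)) → ℝ := fun h => tr (wp (fun i => h (w i)) m) with ht
  have htc : Continuous t := continuous_trw w m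
  have hs : 0 < √δ := Real.sqrt_pos.2 hδ
  have hss : √δ * √δ = δ := Real.mul_self_sqrt hδ.le
  have hs1 : √δ < 1 := by
    rw [Real.sqrt_lt' one_pos]
    linarith
  set S1 := {p : (Fin n → SL(2, ℝ)) × (Fin n → SL(2, ℝ)) | (p.1 ∈ KR n R ∧ p.2 ∈ KR n R) ∧
      |tr (wp (fun i => p.2 (w i)) m) - abs (t p.1)| ≤ √δ * (1 + abs (abs (t p.1)))} with hS1
  set S2 := {p : (Fin n → SL(2, ℝ)) × (Fin n → SL(2, ℝ)) | (p.1 ∈ KR n R ∧ p.2 ∈ KR n R) ∧
      |tr (wp (fun i => p.2 (w i)) m) - -abs (t p.1)| ≤ √δ * (1 + abs (-abs (t p.1)))} with hS2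
  set S3 := {p : (Fin n → SL(2, ℝ)) × (Fin n → SL(2, ℝ)) | (p.1 ∈ KR n R ∧ p.2 ∈ KR n R) ∧
      |tr (wp (fun i => p.1 (w i)) m)| ≤ √δ * frob (wp (fun i => p.1 (w i)) m)} with hS3
  have b1 := prod_band M R w m hm (fun h => |t h|) htc.abs (√δ) hs.le
  have b2 := prod_band M R w m hm (fun h => -|t h|) htc.abs.neg (√δ) hs.le
  have b3 := prod_norm_fst M R w m (√δ) _ hN
  have hsub : {p : (Fin n → SL(2, ℝ)) × (Fin n → SL(2, ℝ)) | (p.1 ∈ KR n R ∧ p.2 ∈ KR n R) ∧
        |(|tr (wp (fun i => p.2 (w i)) m)|) - (|tr (wp (fun i => p.1 (w i)) m)|)| ≤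
          δ * frob (wp (fun i => p.1 (w i)) m)} ⊆ (S1 ∪ S2) ∪ S3 := by
    rintro p ⟨hK, hC⟩
    rcases le_or_gt (|tr (wp (fun i => p.1 (w i)) m)|)
        (√δ * frob (wp (fun i => p.1 (w i)) m)) with h | h
    · right
      exact ⟨hK, h⟩
    · left
      have hlt : |(|tr (wp (fun i => p.2 (w i)) m)|) - (|tr (wp (fun i => p.1 (w i)) m)|)| ≤
          √δ * (1 + |tr (wp (fun i => p.1 (w i)) m)|) := by
        calc |(|tr (wp (fun i => p.2 (w i)) m)|) - (|tr (wp (fun i => p.1 (w i)) m)|)|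
            ≤ δ * frob (wp (fun i => p.1 (w i)) m) := hC
          _ = √δ * (√δ * frob (wp (fun i => p.1 (w i)) m)) := by rw [← mul_assoc, hss]
          _ ≤ √δ * |tr (wp (fun i => p.1 (w i)) m)| := mul_le_mul_of_nonneg_left h.le hs.le
          _ ≤ √δ * (1 + |tr (wp (fun i => p.1 (w i)) m)|) :=
            mul_le_mul_of_nonneg_left (by linarith) hs.le
      rcases abs_cases (tr (wp (fun i => p.2 (w i)) m)) with ⟨ha, _⟩ | ⟨ha, _⟩
      · left
        refine ⟨hK, ?_⟩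
        rw [abs_abs]
        rw [ha] at hlt
        exact hlt
      · right
        refine ⟨hK, ?_⟩
        rw [abs_neg, abs_abs]
        rw [ha] at hlt
        have e : |tr (wp (fun i => p.2 (w i)) m) - -abs (t p.1)| =
            |-tr (wp (fun i => p.2 (w i)) m) - abs (t p.1)| := by
          rw [← abs_neg]
          congr 1
          ring
        rw [e]
        exact hlt
  refine (measure_mono hsub).trans ?_
  have hu : (M.prod M) ((S1 ∪ S2) ∪ S3) ≤
      ((M.prod M) S1 + (M.prod M) S2) + (M.prod M) S3 :=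
    (measure_union_le _ _).trans (add_le_add (measure_union_le _ _) le_rfl)
  refine hu.trans ((add_le_add (add_le_add b1 b2) b3).trans ?_)
  have hcomb : ∀ x y : ENNReal, ∀ A : ENNReal,
      (x * A * A + x * A * A) + y * A * A = ((x + x) + y) * A * A := by
    intro x y A
    ring
  rw [hcomb]
  refine mul_le_mul_left (mul_le_mul_left ?_ _) _
  have hn2 : 0 ≤ 40 * √√δ := by positivity
  have hlog : 0 ≤ Real.log 2 / Real.log (1 / √δ) := by
    refine div_nonneg (Real.log_nonneg (by norm_num)) (Real.log_nonneg ?_)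
    rw [le_div_iff₀ hs]
    linarith
  rw [← ENNReal.ofReal_add hn2 hn2, ← ENNReal.ofReal_add (by positivity) hlog]
  refine ENNReal.ofReal_le_ofReal ?_
  linarith

end H24FB
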