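import Pool.Agent.H24.FB.Defs2

open MeasureTheory Matrix Filter Topology
open scoped MatrixGroups

namespace H24FB

/-- Frobenius norm. -/
noncomputable def frob (A : SL(2, ℝ)) : ℝ :=
  √(∑ i, ∑ j, ((A : Matrix (Fin 2) (Fin 2) ℝ) i j) ^ 2)

theorem frob_neg (A : SL(2, ℝ)) : frob (-A) = frob A := by
  unfold frob
  congr 1
  refine Finset.sum_congr rfl fun i _ => Finset.sum_congr rfl fun j _ => ?_
  have : ((-A : SL(2, ℝ)) : Matrix (Fin 2) (Fin 2) ℝ) i j
      = -((A : Matrix (Fin 2) (Fin 2) ℝ) i j) := rfl
  rw [this, neg_sq]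

theorem continuous_frob : Continuous frob := by
  unfold frob
  refine Real.continuous_sqrt.comp ?_
  exact continuous_finsetSum _ fun i _ => continuous_finsetSum _ fun j _ =>
    (continuous_entry i j).pow 2

/-- The Frobenius norm on `PSL(2, ℝ)`. -/
noncomputable def pfrob (a : PSL(2, ℝ)) : ℝ :=
  Quotient.liftOn' a frob (by
    intro A B h
    rw [QuotientGroup.leftRel_apply, center_iff] at h
    have hB : B = A * (A⁻¹ * B) := by simp
    rcases h with h | h
    · rw [h, mul_one] at hB; rw [hB]
    · rw [h] at hB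
      have : B = -A := by rw [hB]; simp
      rw [this, frob_neg])

theorem pfrob_mk (A : SL(2, ℝ)) : pfrob (A : PSL(2, ℝ)) = frob A := rfl

theorem continuous_pfrob : Continuous pfrob := continuous_frob.quotient_liftOn' _

/-- `a` and `b` have absolute traces that are close relative to the norm of `b`. -/
def CloseN (δ : ℝ) (a b : PSL(2, ℝ)) : Prop := |absTr a - absTr b| ≤ δ * pfrob b

/-- First return time of `x` to its own cell of the labelling `c` (`0` if there is none). -/
noncomputable def ret {X : Type*} (T : X → X) (c : X → ℕ) (x : X) : ℕ :=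
  sInf {r | 1 ≤ r ∧ c (T^[r] x) = c x}

/-- First return map to the cells of the labelling `c`. -/
noncomputable def retMap {X : Type*} (T : X → X) (c : X → ℕ) (x : X) : X :=
  T^[ret T c x] x

open Classical in
/-- The labelling by the first `k` sets of a generating sequence. -/
noncomputable def lab {X : Type*} [MeasurableSpace X] [MeasurableSpace.CountablyGenerated X]
    (k : ℕ) (x : X) : ℕ :=
  ∑ i ∈ Finset.range k, if x ∈ MeasurableSpace.natGeneratingSequence X i then 2 ^ i else 0

/-- The pairs whose words along the first return times become close. -/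
def BadN {X : Type*} [MeasurableSpace X] [MeasurableSpace.CountablyGenerated X] (μ : Measure X)
    {n : ℕ} (T : X → X) (ι : X → Fin n) : Set ((Fin n → PSL(2, ℝ)) × (Fin n → PSL(2, ℝ))) :=
  {p | ∀ j : ℕ, Tendsto (fun k => μ {x | ¬ CloseN (1 / (j + 1))
    (wp (fun i => p.2 (ι (T^[i] x))) (ret T (lab k) x))
    (wp (fun i => p.1 (ι (T^[i] x))) (ret T (lab k) x))}) atTop (𝓝 0)}

end H24FB
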