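import Pool.Agent.H24.FB.BlockA
import Pool.Agent.H24.FB.Defs3

/-! Block J of the MP_fb7d21_an project: the trace of a rotated product is comparable to its
norm, in measure. -/

open MeasureTheory Matrix Filter Topology Polynomial
open scoped MatrixGroups ComplexConjugate

namespace H5FBJ

open H24FB H5FBA

lemma frob_sq (A : SL(2, ℝ)) : frob A ^ 2 =
    2 * (Complex.normSq (al A) + Complex.normSq (be A)) := by
  unfold frob
  rw [Real.sq_sqrt (by positivity)]
  simp only [Fin.sum_univ_two]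
  unfold al be
  rw [Complex.normSq_apply, Complex.normSq_apply]
  simp
  ring

lemma frob_le (A : SL(2, ℝ)) : frob A ≤ 2 * ‖al A‖ := by
  have h1 := frob_sq A
  have h2 := normSq_al_be A
  have h3 : Complex.normSq (al A) = ‖al A‖ ^ 2 := Complex.normSq_eq_norm_sq _
  have h4 := norm_nonneg (al A)
  refine le_of_sq_le_sq ?_ (by positivity)
  nlinarith

lemma one_le_al (A : SL(2, ℝ)) : 1 ≤ ‖al A‖ := by
  have h2 := normSq_al_be A
  have h3 : Complex.normSq (al A) = ‖al A‖ ^ 2 := Complex.normSq_eq_norm_sq _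
  have h5 := Complex.normSq_nonneg (be A)
  have h4 := norm_nonneg (al A)
  nlinarith

lemma tr_al (A : SL(2, ℝ)) : tr A = 2 * (al A).re := by
  unfold tr al
  rw [Matrix.trace_fin_two]
  simp
  ring

lemma abs_tr_le (A : SL(2, ℝ)) : |tr A| ≤ 2 * ‖al A‖ := by
  rw [tr_al, abs_mul, abs_two]
  have := Complex.abs_re_le_norm (al A)
  linarith

/-- the polynomial of the diagonal coefficient -/
noncomputable def qq (A : ℕ → SL(2, ℝ)) (m : ℕ) : ℂ[X] := wp (PP A) m 0 0

lemma eval_qq (A : ℕ → SL(2, ℝ)) (m : ℕ) (w : ℂ) : (qq A m).eval w = wp (NN A w) m 0 0 := by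
  rw [← eval_wp]
  rfl

lemma qq_eq (A : ℕ → SL(2, ℝ)) (m : ℕ) (w : ℂ) (hw : w ≠ 0) :
    (qq A m).eval w = w ^ m * wp (fun j => DD w * UU (A j)) m 0 0 := by
  have : NN A w = fun j => w • (DD w * UU (A j)) := funext (NN_eq A w hw)
  rw [eval_qq, this, wp_smul]
  rfl

lemma UU_wp (A : ℕ → SL(2, ℝ)) (m : ℕ) (θ : ℝ) :
    UU (wp (fun j => rot θ * A j) m) =
      wp (fun j => DD (Complex.exp (θ * Complex.I)) * UU (A j)) m := by
  have h := wp_hom UUhom (fun j => rot θ * A j) m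
  have h2 : ∀ j, UUhom (rot θ * A j) = DD (Complex.exp (θ * Complex.I)) * UU (A j) := by
    intro j
    rw [map_mul]
    show UU (rot θ) * UU (A j) = _
    rw [UU_rot]
  have h3 : (fun j => UUhom (rot θ * A j)) =
    fun j => DD (Complex.exp (θ * Complex.I)) * UU (A j) := funext h2
  rw [h3] at h
  exact h

lemma norm_qq (A : ℕ → SL(2, ℝ)) (m : ℕ) (θ : ℝ) :
    ‖(qq A m).eval (Complex.exp (θ * Complex.I))‖ = ‖al (wp (fun j => rot θ * A j) m)‖ := by
  have hw0 : Complex.exp (θ * Complex.I) ≠ 0 := Complex.exp_ne_zero _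
  have hwn : ‖Complex.exp (θ * Complex.I)‖ = 1 := Complex.norm_exp_ofReal_mul_I θ
  rw [qq_eq A m _ hw0, ← UU_wp, norm_mul, norm_pow, hwn, one_pow, one_mul]
  rfl

lemma norm_pp (A : ℕ → SL(2, ℝ)) (m : ℕ) (θ : ℝ) :
    ‖(pp A m 0).eval (Complex.exp (θ * Complex.I))‖ = |tr (wp (fun j => rot θ * A j) m)| := by
  have hw0 : Complex.exp (θ * Complex.I) ≠ 0 := Complex.exp_ne_zero _
  have hwn : ‖Complex.exp (θ * Complex.I)‖ = 1 := Complex.norm_exp_ofReal_mul_I θ
  rw [eval_pp, trace_NN A _ hw0, ← tr_eq]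
  simp only [Complex.ofReal_zero, zero_mul, sub_zero]
  rw [norm_mul, norm_pow, hwn, one_pow, one_mul, Complex.norm_real, Real.norm_eq_abs]

lemma qq_natDegree (A : ℕ → SL(2, ℝ)) (m : ℕ) : (qq A m).natDegree = 2 * m := by
  obtain ⟨h1, h2, _, _⟩ := degs A m
  apply le_antisymm
  · rw [Polynomial.natDegree_le_iff_coeff_eq_zero]
    intro n hn
    exact h1 0 0 n hn
  · apply Polynomial.le_natDegree_of_ne_zero
    unfold qq
    rw [h2]
    exact prod_al_ne A m

lemma qq_lead (A : ℕ → SL(2, ℝ)) (m : ℕ) :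
    (qq A m).leadingCoeff = ∏ j ∈ Finset.range m, al (A j) := by
  obtain ⟨_, h2, _, _⟩ := degs A m
  rw [Polynomial.leadingCoeff, qq_natDegree]
  exact h2

lemma pp_lead (A : ℕ → SL(2, ℝ)) (m : ℕ) (hm : 0 < m) (c : ℝ) :
    (pp A m c).leadingCoeff = ∏ j ∈ Finset.range m, al (A j) := by
  rw [Polynomial.leadingCoeff, pp_natDegree A m hm]
  exact pp_coeff A m hm c

lemma qq_ne (A : ℕ → SL(2, ℝ)) (m : ℕ) : qq A m ≠ 0 := by
  rw [← Polynomial.leadingCoeff_ne_zero, qq_lead]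
  exact prod_al_ne A m

lemma pp_ne (A : ℕ → SL(2, ℝ)) (m : ℕ) (hm : 0 < m) (c : ℝ) : pp A m c ≠ 0 := by
  rw [← Polynomial.leadingCoeff_ne_zero, pp_lead A m hm]
  exact prod_al_ne A m

lemma root_qq (A : ℕ → SL(2, ℝ)) (m : ℕ) (hm : 0 < m) (w : ℂ) (hw : (qq A m).eval w = 0) :
    ‖w‖ ≤ 1 := by
  by_contra hcon
  push Not at hcon
  have hw0 : w ≠ 0 := by
    intro h
    rw [h, norm_zero] at hcon
    linarith
  rw [qq_eq A m w hw0] at hw
  have h0 : wp (fun j => DD w * UU (A j)) m 0 0 = 0 := by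
    rcases mul_eq_zero.mp hw with h | h
    · exact absurd h (pow_ne_zero _ hw0)
    · exact h
  obtain ⟨k, rfl⟩ : ∃ k, m = k + 1 := ⟨m - 1, by omega⟩
  have hv : (![1, 0] : Fin 2 → ℂ) ≠ 0 := by
    intro h
    have := congrFun h 0
    simp at this
  have hQ := QQ_wp_gt A w hw0 hcon ![1, 0] hv k
  unfold QQ at hQ
  have e0 : (wp (fun j => DD w * UU (A j)) (k + 1) *ᵥ (![1, 0] : Fin 2 → ℂ)) 0 = 0 := by
    simp [Matrix.mulVec, dotProduct, Fin.sum_univ_two, h0]
  rw [e0] at hQ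
  simp only [Matrix.cons_val_zero, Matrix.cons_val_one, Matrix.cons_val_fin_one, map_one,
    map_zero, sub_zero, zero_sub] at hQ
  have := Complex.normSq_nonneg
    ((wp (fun j => DD w * UU (A j)) (k + 1) *ᵥ (![1, 0] : Fin 2 → ℂ)) 1)
  linarith

lemma logMahler_of_roots (p : ℂ[X]) (hp : p ≠ 0) (h : ∀ w, p.eval w = 0 → ‖w‖ ≤ 1) :
    p.logMahlerMeasure = Real.log ‖p.leadingCoeff‖ := by
  rw [Polynomial.logMahlerMeasure_eq_log_leadingCoeff_add_sum_log_roots]
  have : (p.roots.map (fun a => Real.posLog ‖a‖)) = p.roots.map (fun _ => (0 : ℝ)) := by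
    apply Multiset.map_congr rfl
    intro a ha
    have h1 := h a ((Polynomial.mem_roots hp).mp ha)
    rw [Real.posLog_eq_zero_iff, abs_of_nonneg (norm_nonneg _)]
    exact h1
  rw [this]
  simp

lemma integral_log (p : ℂ[X]) (hp : p ≠ 0) (h : ∀ w, p.eval w = 0 → ‖w‖ ≤ 1) :
    ∫ θ in (0 : ℝ)..(2 * Real.pi), Real.log ‖p.eval (circleMap 0 1 θ)‖ =
      2 * Real.pi * Real.log ‖p.leadingCoeff‖ := by
  have h1 := logMahler_of_roots p hp h
  rw [Polynomial.logMahlerMeasure_def, Real.circleAverage_def, smul_eq_mul] at h1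
  have hpi := Real.pi_pos
  rw [← h1]
  field_simp

lemma circ (θ : ℝ) : circleMap 0 1 θ = Complex.exp (θ * Complex.I) := by
  simp [circleMap]

theorem trace_norm (m : ℕ) (hm : 0 < m) (A : ℕ → SL(2, ℝ)) (κ : ℝ) (hκ : 0 < κ) (hκ1 : κ < 1) :
    volume {θ : ℝ | θ ∈ Set.Icc 0 (2 * Real.pi) ∧
      |tr (wp (fun j => rot θ * A j) m)| ≤ κ * frob (wp (fun j => rot θ * A j) m)} ≤
    ENNReal.ofReal (2 * Real.pi * Real.log 2 / Real.log (1 / κ)) := by
  have hpi := Real.pi_pos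
  have hlogκ : 0 < Real.log (1 / κ) := Real.log_pos (by rw [lt_div_iff₀ hκ]; linarith)
  set f : ℝ → ℝ := fun θ => Real.log ‖(qq A m).eval (circleMap 0 1 θ)‖ with hf
  set g : ℝ → ℝ := fun θ => Real.log ‖(pp A m 0).eval (circleMap 0 1 θ)‖ with hg
  set h : ℝ → ℝ := fun θ => (f θ - g θ) + Real.log 2 with hh
  have hfi : IntervalIntegrable f volume 0 (2 * Real.pi) :=
    (qq A m).intervalIntegrable_mahlerMeasure
  have hgi : IntervalIntegrable g volume 0 (2 * Real.pi) :=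
    (pp A m 0).intervalIntegrable_mahlerMeasure
  have hci : IntervalIntegrable (fun _ : ℝ => Real.log 2) volume 0 (2 * Real.pi) :=
    intervalIntegrable_const
  have hfv : ∫ θ in (0 : ℝ)..(2 * Real.pi), f θ =
      2 * Real.pi * Real.log ‖∏ j ∈ Finset.range m, al (A j)‖ := by
    rw [← qq_lead]
    exact integral_log _ (qq_ne A m) (fun w hw => root_qq A m hm w hw)
  have hgv : ∫ θ in (0 : ℝ)..(2 * Real.pi), g θ =
      2 * Real.pi * Real.log ‖∏ j ∈ Finset.range m, al (A j)‖ := by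
    rw [← pp_lead A m hm 0]
    exact integral_log _ (pp_ne A m hm 0)
      (fun w hw => (root_unit A m hm 0 (by simp) w hw).le)
  have hhi : IntervalIntegrable h volume 0 (2 * Real.pi) := (hfi.sub hgi).add hci
  have hhv : ∫ θ in (0 : ℝ)..(2 * Real.pi), h θ = 2 * Real.pi * Real.log 2 := by
    rw [hh]
    rw [intervalIntegral.integral_add (hfi.sub hgi) hci, intervalIntegral.integral_sub hfi hgi,
      hfv, hgv, intervalIntegral.integral_const]
    simp
  have hfe : ∀ θ, f θ = Real.log ‖al (wp (fun j => rot θ * A j) m)‖ := by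
    intro θ
    rw [hf]
    simp only
    rw [circ, norm_qq]
  have hge : ∀ θ, g θ = Real.log |tr (wp (fun j => rot θ * A j) m)| := by
    intro θ
    rw [hg]
    simp only
    rw [circ, norm_pp]
  have hh0 : ∀ θ, 0 ≤ h θ := by
    intro θ
    show 0 ≤ (f θ - g θ) + Real.log 2
    rw [hfe, hge]
    have h1 := one_le_al (wp (fun j => rot θ * A j) m)
    rcases eq_or_ne (tr (wp (fun j => rot θ * A j) m)) 0 with h0 | h0
    · rw [h0, abs_zero, Real.log_zero]
      have := Real.log_nonneg h1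
      have := Real.log_nonneg (by norm_num : (1 : ℝ) ≤ 2)
      linarith
    · have h2 : 0 < |tr (wp (fun j => rot θ * A j) m)| := abs_pos.mpr h0
      have h3 := Real.log_le_log h2 (abs_tr_le (wp (fun j => rot θ * A j) m))
      rw [Real.log_mul (by norm_num) (by positivity)] at h3
      linarith
  have hh1 : ∀ θ, tr (wp (fun j => rot θ * A j) m) ≠ 0 →
      |tr (wp (fun j => rot θ * A j) m)| ≤ κ * frob (wp (fun j => rot θ * A j) m) →
      Real.log (1 / κ) ≤ h θ := by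
    intro θ h0 h1
    show Real.log (1 / κ) ≤ (f θ - g θ) + Real.log 2
    rw [hfe, hge]
    have h2 : 0 < |tr (wp (fun j => rot θ * A j) m)| := abs_pos.mpr h0
    have h3 := one_le_al (wp (fun j => rot θ * A j) m)
    have h4 : |tr (wp (fun j => rot θ * A j) m)| ≤
        κ * (2 * ‖al (wp (fun j => rot θ * A j) m)‖) :=
      h1.trans (mul_le_mul_of_nonneg_left (frob_le _) hκ.le)
    have h5 := Real.log_le_log h2 h4
    rw [Real.log_mul hκ.ne' (by positivity), Real.log_mul (by norm_num) (by positivity)] at h5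
    rw [one_div, Real.log_inv]
    linarith
  -- Markov
  set μ := (volume : Measure ℝ).restrict (Set.Ioc 0 (2 * Real.pi)) with hμ
  have hInt : Integrable h μ := by
    have := (intervalIntegrable_iff_integrableOn_Ioc_of_le (by positivity)).mp hhi
    exact this
  have hIv : ∫ θ, h θ ∂μ = 2 * Real.pi * Real.log 2 := by
    rw [← hhv, intervalIntegral.integral_of_le (by positivity)]
  have hM := mul_meas_ge_le_integral_of_nonneg (μ := μ) (f := h)
    (Filter.Eventually.of_forall hh0) hInt (Real.log (1 / κ))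
  rw [hIv] at hM
  have hM2 : μ.real {θ | Real.log (1 / κ) ≤ h θ} ≤
      2 * Real.pi * Real.log 2 / Real.log (1 / κ) := by
    rw [le_div_iff₀ hlogκ]
    linarith
  -- the zeros
  set Z : Set ℝ := {θ | tr (wp (fun j => rot θ * A j) m) = 0} with hZ
  have hZ0 : volume Z = 0 := by
    have hsub : Z ⊆ circleMap 0 1 ⁻¹' {w | (pp A m 0).eval w = 0} := by
      intro θ hθ
      show (pp A m 0).eval (circleMap 0 1 θ) = 0
      rw [← norm_eq_zero, circ, norm_pp]
      rw [hZ, Set.mem_setOf_eq] at hθ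
      rw [hθ, abs_zero]
    have hfin : {w : ℂ | (pp A m 0).eval w = 0}.Finite := by
      refine ((pp A m 0).roots.toFinset.finite_toSet).subset ?_
      intro w hw
      rw [Finset.mem_coe, Multiset.mem_toFinset, Polynomial.mem_roots (pp_ne A m hm 0)]
      exact hw
    exact ((hfin.countable.preimage_circleMap 0 one_ne_zero).mono hsub).measure_zero _
  have hcov : {θ : ℝ | θ ∈ Set.Icc 0 (2 * Real.pi) ∧
      |tr (wp (fun j => rot θ * A j) m)| ≤ κ * frob (wp (fun j => rot θ * A j) m)} ⊆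
      ({0} ∪ Z) ∪ ({θ | Real.log (1 / κ) ≤ h θ} ∩ Set.Ioc 0 (2 * Real.pi)) := by
    rintro θ ⟨h1, h2⟩
    by_cases h3 : tr (wp (fun j => rot θ * A j) m) = 0
    · exact Or.inl (Or.inr h3)
    · rcases eq_or_lt_of_le h1.1 with h4 | h4
      · exact Or.inl (Or.inl h4.symm)
      · exact Or.inr ⟨hh1 θ h3 h2, h4, h1.2⟩
  calc volume {θ : ℝ | θ ∈ Set.Icc 0 (2 * Real.pi) ∧
      |tr (wp (fun j => rot θ * A j) m)| ≤ κ * frob (wp (fun j => rot θ * A j) m)}
      ≤ volume (({0} ∪ Z) ∪ ({θ | Real.log (1 / κ) ≤ h θ} ∩ Set.Ioc 0 (2 * Real.pi))) :=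
        measure_mono hcov
    _ ≤ volume ({0} ∪ Z) + volume ({θ | Real.log (1 / κ) ≤ h θ} ∩ Set.Ioc 0 (2 * Real.pi)) :=
        measure_union_le _ _
    _ ≤ (volume ({0} : Set ℝ) + volume Z) +
        volume ({θ | Real.log (1 / κ) ≤ h θ} ∩ Set.Ioc 0 (2 * Real.pi)) := by
        gcongr
        exact measure_union_le _ _
    _ = μ {θ | Real.log (1 / κ) ≤ h θ} := by
        rw [hZ0, Real.volume_singleton, hμ, Measure.restrict_apply' measurableSet_Ioc]
        simp
    _ = ENNReal.ofReal (μ.real {θ | Real.log (1 / κ) ≤ h θ}) := by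
        rw [ofReal_measureReal]
    _ ≤ _ := ENNReal.ofReal_le_ofReal hM2

end H5FBJ

namespace H24FB

theorem trace_norm (m : ℕ) (hm : 0 < m) (A : ℕ → SL(2, ℝ)) (κ : ℝ) (hκ : 0 < κ) (hκ1 : κ < 1) :
    volume {θ : ℝ | θ ∈ Set.Icc 0 (2 * Real.pi) ∧
      |tr (wp (fun j => rot θ * A j) m)| ≤ κ * frob (wp (fun j => rot θ * A j) m)} ≤
    ENNReal.ofReal (2 * Real.pi * Real.log 2 / Real.log (1 / κ)) :=
  H5FBJ.trace_norm m hm A κ hκ hκ1

end H24FB
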