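import Pool.Agent.H24.FB.Defs3

/-! Block R: the first return map to the cells of a countable measurable labelling. -/

open MeasureTheory Filter Topology Set

namespace H24FB

variable {X : Type*}

/-- The return set. -/
def retSet (T : X → X) (c : X → ℕ) (x : X) : Set ℕ := {r | 1 ≤ r ∧ c (T^[r] x) = c x}

theorem ret_eq (T : X → X) (c : X → ℕ) (x : X) : ret T c x = sInf (retSet T c x) := rfl

theorem ret_spec (T : X → X) (c : X → ℕ) (x : X) (h : 1 ≤ ret T c x) :
    c (T^[ret T c x] x) = c x := by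
  have hne : (retSet T c x).Nonempty := by
    by_contra hcon
    rw [Set.not_nonempty_iff_eq_empty] at hcon
    rw [ret_eq, hcon, Nat.sInf_empty] at h
    omega
  exact (Nat.sInf_mem hne).2

theorem ret_min (T : X → X) (c : X → ℕ) (x : X) {i : ℕ} (h1 : 1 ≤ i) (h2 : i < ret T c x) :
    c (T^[i] x) ≠ c x := by
  intro h
  have : ret T c x ≤ i := Nat.sInf_le ⟨h1, h⟩
  omega

/-- The return map preserves the cells. -/
theorem lab_retMap (T : X → X) (c : X → ℕ) (x : X) : c (retMap T c x) = c x := by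
  unfold retMap
  rcases Nat.eq_zero_or_pos (ret T c x) with h | h
  · rw [h]; rfl
  · exact ret_spec T c x h

theorem ret_eq_zero_iff (T : X → X) (c : X → ℕ) (x : X) :
    ret T c x = 0 ↔ ∀ r : ℕ, c (T^[r + 1] x) ≠ c x := by
  constructor
  · intro h r hr
    have hne : (retSet T c x).Nonempty := ⟨r + 1, by omega, hr⟩
    have := (Nat.sInf_mem hne).1
    rw [← ret_eq, h] at this
    omega
  · intro h
    have : retSet T c x = ∅ := by
      ext r
      simp only [retSet, mem_empty_iff_false, iff_false]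
      rintro ⟨h1, h2⟩
      obtain ⟨s, rfl⟩ : ∃ s, r = s + 1 := ⟨r - 1, by omega⟩
      exact h s h2
    rw [ret_eq, this, Nat.sInf_empty]

theorem ret_eq_succ_iff (T : X → X) (c : X → ℕ) (x : X) (r : ℕ) :
    ret T c x = r + 1 ↔ c (T^[r + 1] x) = c x ∧ ∀ i < r, c (T^[i + 1] x) ≠ c x := by
  constructor
  · intro h
    refine ⟨?_, fun i hi => ret_min T c x (by omega) (by omega)⟩
    have := ret_spec T c x (by omega)
    rwa [h] at this
  · rintro ⟨h1, h2⟩
    have hle : ret T c x ≤ r + 1 := Nat.sInf_le ⟨by omega, h1⟩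
    have hne : ret T c x ≠ 0 := by
      intro h0
      exact (ret_eq_zero_iff T c x).1 h0 r h1
    by_contra hcon
    obtain ⟨i, hi⟩ : ∃ i, ret T c x = i + 1 := ⟨ret T c x - 1, by omega⟩
    have := ret_spec T c x (by omega)
    rw [hi] at this
    exact h2 i (by omega) this

variable [MeasurableSpace X]

theorem ret_pos_ae (μ : Measure X) [IsFiniteMeasure μ] (T : X → X)
    (hT : MeasurePreserving T μ μ) (c : X → ℕ) (hc : Measurable c) :
    ∀ᵐ x ∂μ, 1 ≤ ret T c x := by
  have h1 : ∀ a : ℕ, ∀ᵐ x ∂μ, x ∈ c ⁻¹' {a} → ∃ᶠ n in atTop, T^[n] x ∈ c ⁻¹' {a} := fun a =>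
    hT.conservative.ae_mem_imp_frequently_image_mem
      (hc (measurableSet_singleton a)).nullMeasurableSet
  have h2 := ae_all_iff.2 h1
  filter_upwards [h2] with x hx
  have h3 := hx (c x) rfl
  rw [Filter.frequently_atTop] at h3
  obtain ⟨r, hr1, hr2⟩ := h3 1
  have hne : (retSet T c x).Nonempty := ⟨r, hr1, hr2⟩
  exact (Nat.sInf_mem hne).1

theorem measurableSet_lab_eq (T : X → X) (hT : Measurable T) (c : X → ℕ) (hc : Measurable c)
    (r : ℕ) : MeasurableSet {x | c (T^[r] x) = c x} := by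
  have h : Measurable (fun x => (c (T^[r] x), c x)) := (hc.comp (hT.iterate r)).prodMk hc
  exact h (t := {p : ℕ × ℕ | p.1 = p.2}) (MeasurableSet.of_discrete)

theorem measurable_ret (T : X → X) (hT : Measurable T) (c : X → ℕ) (hc : Measurable c) :
    Measurable (ret T c) := by
  apply measurable_to_countable'
  intro r
  rcases r with _ | r
  · have : ret T c ⁻¹' {0} = ⋂ r : ℕ, {x | c (T^[r + 1] x) = c x}ᶜ := by
      ext x
      simp only [mem_preimage, mem_singleton_iff, mem_iInter, mem_compl_iff]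
      exact ret_eq_zero_iff T c x
    rw [this]
    exact MeasurableSet.iInter fun r => (measurableSet_lab_eq T hT c hc (r + 1)).compl
  · have : ret T c ⁻¹' {r + 1} = {x | c (T^[r + 1] x) = c x}
        ∩ ⋂ i : ℕ, ⋂ _ : i < r, {x | c (T^[i + 1] x) = c x}ᶜ := by
      ext x
      simp only [mem_preimage, mem_singleton_iff, mem_inter_iff, mem_iInter, mem_compl_iff]
      exact ret_eq_succ_iff T c x r
    rw [this]
    exact (measurableSet_lab_eq T hT c hc (r + 1)).inter
      (MeasurableSet.iInter fun i => MeasurableSet.iInter fun _ =>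
        (measurableSet_lab_eq T hT c hc (i + 1)).compl)

theorem measurable_retMap (T : X → X) (hT : Measurable T) (c : X → ℕ) (hc : Measurable c) :
    Measurable (retMap T c) := by
  intro E hE
  have : retMap T c ⁻¹' E = ⋃ r : ℕ, (ret T c ⁻¹' {r} ∩ (T^[r]) ⁻¹' E) := by
    ext x
    simp only [mem_preimage, mem_iUnion, mem_inter_iff, mem_singleton_iff]
    constructor
    · intro h
      exact ⟨ret T c x, rfl, h⟩
    · rintro ⟨r, h1, h2⟩
      unfold retMap
      rw [h1]
      exact h2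
  rw [this]
  exact MeasurableSet.iUnion fun r => (measurable_ret T hT c hc (measurableSet_singleton r)).inter
    (hT.iterate r hE)

/-- Points that enter the cell `a` for the first time at time `r`, and then in `E`. -/
def entF (T : X → X) (c : X → ℕ) (a : ℕ) (E : Set X) (r : ℕ) : Set X :=
  {x | (∀ i < r, c (T^[i] x) ≠ a) ∧ c (T^[r] x) = a ∧ T^[r] x ∈ E}

/-- Points of the cell `a` that return for the first time at time `r + 1`, and then in `E`. -/
def retD (T : X → X) (c : X → ℕ) (a : ℕ) (E : Set X) (r : ℕ) : Set X :=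
  {x | c x = a ∧ (∀ i < r, c (T^[i + 1] x) ≠ a) ∧ c (T^[r + 1] x) = a ∧ T^[r + 1] x ∈ E}

theorem measurableSet_entF (T : X → X) (hT : Measurable T) (c : X → ℕ) (hc : Measurable c)
    (a : ℕ) (E : Set X) (hE : MeasurableSet E) (r : ℕ) : MeasurableSet (entF T c a E r) := by
  have : entF T c a E r = (⋂ i : ℕ, ⋂ _ : i < r, ((T^[i]) ⁻¹' (c ⁻¹' {a}))ᶜ)
      ∩ ((T^[r]) ⁻¹' (c ⁻¹' {a}) ∩ (T^[r]) ⁻¹' E) := by
    ext x
    simp [entF]
  rw [this]
  have h : ∀ i, MeasurableSet ((T^[i]) ⁻¹' (c ⁻¹' {a})) := fun i =>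
    hT.iterate i (hc (measurableSet_singleton a))
  exact (MeasurableSet.iInter fun i => MeasurableSet.iInter fun _ => (h i).compl).inter
    ((h r).inter (hT.iterate r hE))

omit [MeasurableSpace X] in
theorem retD_eq (T : X → X) (c : X → ℕ) (a : ℕ) (E : Set X) (r : ℕ) :
    retD T c a E r = T ⁻¹' (entF T c a E r) ∩ c ⁻¹' {a} := by
  ext x
  simp only [retD, entF, mem_inter_iff, mem_preimage, mem_singleton_iff]
  constructor
  · rintro ⟨h1, h2, h3, h4⟩
    exact ⟨⟨h2, h3, h4⟩, h1⟩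
  · rintro ⟨⟨h2, h3, h4⟩, h1⟩
    exact ⟨h1, h2, h3, h4⟩

omit [MeasurableSpace X] in
theorem entF_succ_eq (T : X → X) (c : X → ℕ) (a : ℕ) (E : Set X) (r : ℕ) :
    entF T c a E (r + 1) = T ⁻¹' (entF T c a E r) \ c ⁻¹' {a} := by
  ext x
  simp only [entF, Set.mem_sdiff, mem_preimage, mem_singleton_iff]
  constructor
  · rintro ⟨h2, h3, h4⟩
    exact ⟨⟨fun i hi => h2 (i + 1) (by omega), h3, h4⟩, h2 0 (by omega)⟩
  · rintro ⟨⟨h2, h3, h4⟩, h1⟩
    refine ⟨fun i hi => ?_, h3, h4⟩
    rcases i with _ | i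
    · exact h1
    · exact h2 i (by omega)

theorem sum_retD (μ : Measure X) (T : X → X)
    (hT : MeasurePreserving T μ μ) (c : X → ℕ) (hc : Measurable c) (a : ℕ) (E : Set X)
    (hE : MeasurableSet E) (N : ℕ) :
    ∑ r ∈ Finset.range N, μ (retD T c a E r) + μ (entF T c a E N) = μ (E ∩ c ⁻¹' {a}) := by
  induction N with
  | zero =>
    rw [Finset.sum_range_zero, zero_add]
    congr 1
    ext x
    simp [entF, and_comm]
  | succ N ih =>
    rw [Finset.sum_range_succ, add_assoc, retD_eq, entF_succ_eq,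
      measure_inter_add_sdiff _ (hc (measurableSet_singleton a)),
      hT.measure_preimage
        (measurableSet_entF T hT.measurable c hc a E hE N).nullMeasurableSet]
    exact ih

theorem retMap_le_cell (μ : Measure X) [IsFiniteMeasure μ] (T : X → X)
    (hT : MeasurePreserving T μ μ) (c : X → ℕ) (hc : Measurable c) (a : ℕ) (E : Set X)
    (hE : MeasurableSet E) : μ (retMap T c ⁻¹' E ∩ c ⁻¹' {a}) ≤ μ (E ∩ c ⁻¹' {a}) := by
  have hpos := ret_pos_ae μ T hT c hc
  have hsub : (retMap T c ⁻¹' E ∩ c ⁻¹' {a} : Set X) ≤ᵐ[μ] (⋃ r, retD T c a E r : Set X) := by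
    filter_upwards [hpos] with x hx
    rintro ⟨h1, h2⟩
    obtain ⟨r, hr⟩ : ∃ r, ret T c x = r + 1 := ⟨ret T c x - 1, by omega⟩
    have h3 := (ret_eq_succ_iff T c x r).1 hr
    have h4 : c x = a := h2
    have h5 : T^[r + 1] x ∈ E := by
      have : retMap T c x ∈ E := h1
      unfold retMap at this
      rwa [hr] at this
    rw [h4] at h3
    exact mem_iUnion.2 ⟨r, h4, h3.2, h3.1, h5⟩
  refine (measure_mono_ae hsub).trans ((measure_iUnion_le _).trans ?_)
  apply ENNReal.tsum_le_of_sum_range_le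
  intro N
  rw [← sum_retD μ T hT c hc a E hE N]
  exact le_self_add

/-- The return map does not increase measures of preimages. -/
theorem retMap_le (μ : Measure X) [IsFiniteMeasure μ] (T : X → X)
    (hT : MeasurePreserving T μ μ) (c : X → ℕ) (hc : Measurable c) (E : Set X)
    (hE : MeasurableSet E) : μ (retMap T c ⁻¹' E) ≤ μ E := by
  have h1 : retMap T c ⁻¹' E = ⋃ a : ℕ, (retMap T c ⁻¹' E ∩ c ⁻¹' {a}) := by
    ext x
    simp
  have h2 : E = ⋃ a : ℕ, (E ∩ c ⁻¹' {a}) := by
    ext x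
    simp
  have hd : Pairwise (Function.onFun Disjoint fun a : ℕ => (E ∩ c ⁻¹' {a} : Set X)) := by
    intro a b hab
    rw [Function.onFun, Set.disjoint_left]
    rintro x ⟨_, hx1⟩ ⟨_, hx2⟩
    exact hab (hx1.symm.trans hx2)
  calc μ (retMap T c ⁻¹' E) = μ (⋃ a : ℕ, (retMap T c ⁻¹' E ∩ c ⁻¹' {a})) := by rw [← h1]
    _ ≤ ∑' a : ℕ, μ (retMap T c ⁻¹' E ∩ c ⁻¹' {a}) := measure_iUnion_le _
    _ ≤ ∑' a : ℕ, μ (E ∩ c ⁻¹' {a}) :=
        ENNReal.tsum_le_tsum fun a => retMap_le_cell μ T hT c hc a E hE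
    _ = μ (⋃ a : ℕ, (E ∩ c ⁻¹' {a})) :=
        (measure_iUnion hd fun a => hE.inter (hc (measurableSet_singleton a))).symm
    _ = μ E := by rw [← h2]

end H24FB
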