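import Pool.Agent.H24.FB.Defs3
import Pool.Agent.H24.FB.BlockR
import Pool.Agent.H24.FB.BlockL
import Pool.Agent.H24.FB.BlockFb2
import Pool.Agent.H24.FB.BlockC2
import Pool.Agent.H24.FB.BlockJ

/-! Block F: measurability of `BadN` and the Fubini argument. -/

open MeasureTheory Measure Matrix Filter Topology
open scoped MatrixGroups ENNReal

namespace H24FB

namespace FAux

/-- Words read along an orbit are jointly measurable. -/
theorem measurable_word {X : Type*} [MeasurableSpace X] {n : ℕ} {T : X → X} (hT : Measurable T)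
    {ι : X → Fin n} (hι : Measurable ι) {G : Type*} [Monoid G] [MeasurableSpace G]
    [MeasurableMul₂ G] {P : Type*} [MeasurableSpace P] (π : P → Fin n → G)
    (hπ : Measurable π) (m : ℕ) :
    Measurable fun z : P × X => wp (fun i => π z.1 (ι (T^[i] z.2))) m := by
  induction m with
  | zero => exact measurable_const
  | succ m ih =>
    have h1 : Measurable fun z : P × X => π z.1 (ι (T^[m] z.2)) := by
      have h2 : Measurable fun y : P × Fin n => π y.1 y.2 :=
        measurable_from_prod_countable_left fun k => (measurable_pi_apply k).comp hπ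
      exact h2.comp (measurable_fst.prodMk ((hι.comp (hT.iterate m)).comp measurable_snd))
    exact h1.mul ih

theorem measurable_word' {X : Type*} [MeasurableSpace X] {n : ℕ} {T : X → X} (hT : Measurable T)
    {ι : X → Fin n} (hι : Measurable ι) {G : Type*} [Monoid G] [MeasurableSpace G]
    [MeasurableMul₂ G] {P : Type*} [MeasurableSpace P] (π : P → Fin n → G)
    (hπ : Measurable π) {q : X → ℕ} (hq : Measurable q) :
    Measurable fun z : P × X => wp (fun i => π z.1 (ι (T^[i] z.2))) (q z.2) := by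
  have h2 : Measurable fun y : (P × X) × ℕ => wp (fun i => π y.1.1 (ι (T^[i] y.1.2))) y.2 :=
    measurable_from_prod_countable_left fun k => measurable_word hT hι π hπ k
  exact h2.comp (measurable_id.prodMk (hq.comp measurable_snd))

/-- The relation of `CloseN` for tuples in `SL(2, ℝ)`. -/
def Rel {X : Type*} {n : ℕ} (T : X → X) (ι : X → Fin n) (δ : ℝ)
    (p : (Fin n → SL(2, ℝ)) × (Fin n → SL(2, ℝ))) (m : ℕ) (x : X) : Prop :=
  |(|tr (wp (fun i => p.2 (ι (T^[i] x))) m)|) - (|tr (wp (fun i => p.1 (ι (T^[i] x))) m)|)| ≤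
    δ * frob (wp (fun i => p.1 (ι (T^[i] x))) m)

theorem measurableSet_rel {X : Type*} [MeasurableSpace X] {n : ℕ} {T : X → X}
    (hT : Measurable T) {ι : X → Fin n} (hι : Measurable ι) (δ : ℝ) {q : X → ℕ}
    (hq : Measurable q) :
    MeasurableSet {z : ((Fin n → SL(2, ℝ)) × (Fin n → SL(2, ℝ))) × X |
      Rel T ι δ z.1 (q z.2) z.2} := by
  have h1 := measurable_word' hT hι
    (fun p : (Fin n → SL(2, ℝ)) × (Fin n → SL(2, ℝ)) => p.1) measurable_fst hq
  have h2 := measurable_word' hT hι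
    (fun p : (Fin n → SL(2, ℝ)) × (Fin n → SL(2, ℝ)) => p.2) measurable_snd hq
  have t1 := continuous_tr.measurable.comp h1
  have t2 := continuous_tr.measurable.comp h2
  have f1 := continuous_frob.measurable.comp h1
  exact measurableSet_le (((continuous_abs.measurable.comp t2).sub
    (continuous_abs.measurable.comp t1)).abs) (measurable_const.mul f1)

/-- The Fubini argument. -/
theorem null_of_band {X : Type*} [MeasurableSpace X] (μ : Measure X) [IsProbabilityMeasure μ]
    {n : ℕ} (T : X → X) (hT : Measurable T) (ι : X → Fin n) (hι : Measurable ι)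
    (q : ℕ → X → ℕ) (hq : ∀ k, Measurable (q k)) (hq1 : ∀ k, ∀ᵐ x ∂μ, 1 ≤ q k x)
    (L : Measure (Fin n → SL(2, ℝ))) [SigmaFinite L] (hfin : ∀ R : ℝ, L (KR n R) < ∞)
    (c : ℝ → ℝ≥0∞)
    (hc : ∀ (w : ℕ → Fin n) (m : ℕ), 0 < m → ∀ R δ : ℝ, 0 < δ → δ < 1 →
      (L.prod L) {p | (p.1 ∈ KR n R ∧ p.2 ∈ KR n R) ∧
        |(|tr (wp (fun i => p.2 (w i)) m)|) - (|tr (wp (fun i => p.1 (w i)) m)|)| ≤
          δ * frob (wp (fun i => p.1 (w i)) m)} ≤ c δ * L (KR n R) * L (KR n R))
    (hclim : Tendsto (fun j : ℕ => c (1 / ((j : ℝ) + 1))) atTop (𝓝 0)) :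
    (L.prod L) {p | ∀ j : ℕ, Tendsto (fun k => μ {x | ¬ Rel T ι (1 / ((j : ℝ) + 1)) p (q k x) x})
      atTop (𝓝 0)} = 0 := by
  set Bad : Set ((Fin n → SL(2, ℝ)) × (Fin n → SL(2, ℝ))) :=
    {p | ∀ j : ℕ, Tendsto (fun k => μ {x | ¬ Rel T ι (1 / ((j : ℝ) + 1)) p (q k x) x})
      atTop (𝓝 0)} with hBad
  -- it is enough to work on the compact sets
  have hR : ∀ R : ℝ, (L.prod L) (Bad ∩ (KR n R ×ˢ KR n R)) = 0 := by
    intro R
    set K : Set ((Fin n → SL(2, ℝ)) × (Fin n → SL(2, ℝ))) := KR n R ×ˢ KR n R with hK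
    have hKm : MeasurableSet K := (measurableSet_KR n R).prod (measurableSet_KR n R)
    set P := (L.prod L).restrict K with hP
    have hPK : P Set.univ = L (KR n R) * L (KR n R) := by
      rw [hP, restrict_apply_univ, hK, Measure.prod_prod]
    have hPfin : IsFiniteMeasure P := ⟨by rw [hPK]; exact ENNReal.mul_lt_top (hfin R) (hfin R)⟩
    have hj : ∀ j : ℕ, 1 ≤ j →
        P Bad ≤ c (1 / ((j : ℝ) + 1)) * (L (KR n R) * L (KR n R)) := by
      intro j hj1
      set δ : ℝ := 1 / ((j : ℝ) + 1) with hδ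
      have hj0 : (0 : ℝ) < (j : ℝ) + 1 := by positivity
      have hδ0 : 0 < δ := by rw [hδ]; positivity
      have hδ1 : δ < 1 := by
        rw [hδ, div_lt_one hj0]
        have : (1 : ℝ) ≤ (j : ℝ) := by exact_mod_cast hj1
        linarith
      have hS : ∀ k, MeasurableSet {z : ((Fin n → SL(2, ℝ)) × (Fin n → SL(2, ℝ))) × X |
          Rel T ι δ z.1 (q k z.2) z.2} := fun k => measurableSet_rel hT hι δ (hq k)
      set g : ℕ → (Fin n → SL(2, ℝ)) × (Fin n → SL(2, ℝ)) → ℝ≥0∞ :=
        fun k p => μ {x | Rel T ι δ p (q k x) x} with hg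
      have hgm : ∀ k, Measurable (g k) := fun k => measurable_measure_prodMk_left (hS k)
      have hint : ∀ k, ∫⁻ p, g k p ∂P ≤ c δ * (L (KR n R) * L (KR n R)) := by
        intro k
        have e1 : ∫⁻ p, g k p ∂P = (P.prod μ) {z | Rel T ι δ z.1 (q k z.2) z.2} := by
          rw [Measure.prod_apply (hS k)]
          rfl
        rw [e1, Measure.prod_apply_symm (hS k)]
        have e2 : ∀ᵐ x ∂μ, P ((fun p => (p, x)) ⁻¹' {z : ((Fin n → SL(2, ℝ)) ×
            (Fin n → SL(2, ℝ))) × X | Rel T ι δ z.1 (q k z.2) z.2}) ≤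
            c δ * (L (KR n R) * L (KR n R)) := by
          filter_upwards [hq1 k] with x hx
          have hm : MeasurableSet ((fun p => (p, x)) ⁻¹' {z : ((Fin n → SL(2, ℝ)) ×
            (Fin n → SL(2, ℝ))) × X | Rel T ι δ z.1 (q k z.2) z.2}) :=
            measurable_prodMk_right (hS k)
          rw [hP, restrict_apply hm]
          have := hc (fun i => ι (T^[i] x)) (q k x) hx R δ hδ0 hδ1
          rw [mul_assoc] at this
          refine (measure_mono ?_).trans this
          rintro p ⟨hp1, hp2⟩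
          exact ⟨hp2, hp1⟩
        calc ∫⁻ x, P ((fun p => (p, x)) ⁻¹' {z : ((Fin n → SL(2, ℝ)) ×
            (Fin n → SL(2, ℝ))) × X | Rel T ι δ z.1 (q k z.2) z.2}) ∂μ
            ≤ ∫⁻ _, c δ * (L (KR n R) * L (KR n R)) ∂μ := lintegral_mono_ae e2
          _ = c δ * (L (KR n R) * L (KR n R)) := by simp
      have hsub : Bad ⊆ {p | 1 ≤ liminf (fun k => g k p) atTop} := by
        intro p hp
        have h1 := hp j
        have h2 : Tendsto (fun k => g k p) atTop (𝓝 1) := by
          have h3 : ∀ k, g k p = 1 - μ {x | ¬ Rel T ι (1 / ((j : ℝ) + 1)) p (q k x) x} := by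
            intro k
            have hm : MeasurableSet {x | Rel T ι δ p (q k x) x} :=
              measurable_prodMk_left (hS k)
            have h4 := prob_compl_eq_one_sub (μ := μ) hm.compl
            rw [compl_compl] at h4
            exact h4
          have h5 : Tendsto (fun k => 1 - μ {x | ¬ Rel T ι (1 / ((j : ℝ) + 1)) p (q k x) x})
              atTop (𝓝 (1 - 0)) :=
            ENNReal.Tendsto.sub tendsto_const_nhds h1 (Or.inl ENNReal.one_ne_top)
          rw [tsub_zero] at h5
          exact h5.congr fun k => (h3 k).symm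
        simp only [Set.mem_ofPred_eq]
        rw [h2.liminf_eq]
      have h6 : P {p | 1 ≤ liminf (fun k => g k p) atTop} ≤
          ∫⁻ p, liminf (fun k => g k p) atTop ∂P := by
        have := mul_meas_ge_le_lintegral (μ := P)
          (Measurable.liminf hgm : Measurable fun p => liminf (fun k => g k p) atTop) 1
        rwa [one_mul] at this
      refine (measure_mono hsub).trans (h6.trans ((lintegral_liminf_le hgm).trans ?_))
      exact liminf_le_of_frequently_le' (Frequently.of_forall hint)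
    have h7 : Tendsto (fun j : ℕ => c (1 / ((j : ℝ) + 1)) * (L (KR n R) * L (KR n R))) atTop
        (𝓝 (0 * (L (KR n R) * L (KR n R)))) :=
      ENNReal.Tendsto.mul_const hclim (Or.inr (ENNReal.mul_lt_top (hfin R) (hfin R)).ne)
    rw [zero_mul] at h7
    have h8 : P Bad ≤ 0 := ge_of_tendsto h7 (by
      filter_upwards [eventually_ge_atTop 1] with j hj1
      exact hj j hj1)
    have h9 : P Bad = 0 := le_antisymm h8 bot_le
    rw [hP, restrict_apply' hKm] at h9
    exact h9
  have hcov : Bad ⊆ ⋃ R : ℕ, Bad ∩ (KR n (R : ℝ) ×ˢ KR n (R : ℝ)) := by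
    intro p hp
    have h1 : p.1 ∈ ⋃ R : ℕ, KR n (R : ℝ) := by rw [iUnion_KR]; trivial
    have h2 : p.2 ∈ ⋃ R : ℕ, KR n (R : ℝ) := by rw [iUnion_KR]; trivial
    obtain ⟨R1, h1⟩ := Set.mem_iUnion.1 h1
    obtain ⟨R2, h2⟩ := Set.mem_iUnion.1 h2
    refine Set.mem_iUnion.2 ⟨max R1 R2, hp, ?_, ?_⟩
    · exact KR_mono (by exact_mod_cast le_max_left R1 R2) h1
    · exact KR_mono (by exact_mod_cast le_max_right R1 R2) h2
  exact measure_mono_null hcov (measure_iUnion_null fun R => hR R)

end FAux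

/-- `BadN` is measurable. -/
theorem badN_meas {X : Type*} [MeasurableSpace X] [MeasurableSpace.CountablyGenerated X]
    (μ : Measure X) [IsProbabilityMeasure μ] {n : ℕ} (T : X → X) (hT : Measurable T)
    (ι : X → Fin n) (hι : Measurable ι) : MeasurableSet (BadN μ T ι) := by
  unfold BadN
  rw [Set.ofPred_forall]
  refine MeasurableSet.iInter fun j => ?_
  refine measurableSet_tendsto (𝓝 0) fun k => ?_
  have hq := measurable_ret T hT (lab k) (measurable_lab k)
  have h1 := FAux.measurable_word' hT hι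
    (fun p : (Fin n → PSL(2, ℝ)) × (Fin n → PSL(2, ℝ)) => p.1) measurable_fst hq
  have h2 := FAux.measurable_word' hT hι
    (fun p : (Fin n → PSL(2, ℝ)) × (Fin n → PSL(2, ℝ)) => p.2) measurable_snd hq
  have t1 := continuous_absTr.measurable.comp h1
  have t2 := continuous_absTr.measurable.comp h2
  have f1 := continuous_pfrob.measurable.comp h1
  have hS : MeasurableSet {z : ((Fin n → PSL(2, ℝ)) × (Fin n → PSL(2, ℝ))) × X |
      CloseN (1 / ((j : ℝ) + 1)) (wp (fun i => z.1.2 (ι (T^[i] z.2))) (ret T (lab k) z.2))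
        (wp (fun i => z.1.1 (ι (T^[i] z.2))) (ret T (lab k) z.2))} :=
    measurableSet_le ((t2.sub t1).abs) (measurable_const.mul f1)
  exact measurable_measure_prodMk_left hS.compl

/-- The preimage of `BadN` is null, from the estimate `haar_norm`. -/
theorem badN_null_of {X : Type*} [MeasurableSpace X] [MeasurableSpace.CountablyGenerated X]
    (μ : Measure X) [IsProbabilityMeasure μ] {n : ℕ} (T : X → X) (hT : MeasurePreserving T μ μ)
    (ι : X → Fin n) (hι : Measurable ι) (ν : Measure SL(2, ℝ)) [ν.IsHaarMeasure]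
    (hN : ∀ (w : ℕ → Fin n) (m : ℕ), 0 < m → ∀ R κ : ℝ, 0 < κ → κ < 1 →
      (Measure.pi fun _ : Fin n => ν) {h | h ∈ KR n R ∧
        |tr (wp (fun j => h (w j)) m)| ≤ κ * frob (wp (fun j => h (w j)) m)} ≤
      ENNReal.ofReal (Real.log 2 / Real.log (1 / κ)) * (Measure.pi fun _ : Fin n => ν) (KR n R)) :
    ((Measure.pi fun _ : Fin n => ν).prod (Measure.pi fun _ : Fin n => ν))
      ((fun p : (Fin n → SL(2, ℝ)) × (Fin n → SL(2, ℝ)) =>
        ((fun i => (p.1 i : PSL(2, ℝ))), (fun i => (p.2 i : PSL(2, ℝ))))) ⁻¹' BadN μ T ι) = 0 := by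
  have hmain := FAux.null_of_band μ T hT.measurable ι hι (fun k => ret T (lab k))
    (fun k => measurable_ret T hT.measurable (lab k) (measurable_lab k))
    (fun k => ret_pos_ae μ T hT (lab k) (measurable_lab k))
    (Measure.pi fun _ : Fin n => ν) (fun R => (isCompact_KR n R).measure_lt_top)
    (fun δ => ENNReal.ofReal (80 * √√δ + Real.log 2 / Real.log (1 / √δ))) ?_ ?_
  · refine Eq.trans (congrArg _ ?_) hmain
    ext p
    simp only [Set.mem_preimage, BadN, Set.mem_ofPred_eq]
    refine forall_congr' fun j => ?_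
    have e : ∀ k x, CloseN (1 / ((j : ℝ) + 1))
        (wp (fun i => ((p.2 (ι (T^[i] x)) : SL(2, ℝ)) : PSL(2, ℝ))) (ret T (lab k) x))
        (wp (fun i => ((p.1 (ι (T^[i] x)) : SL(2, ℝ)) : PSL(2, ℝ))) (ret T (lab k) x)) ↔
        FAux.Rel T ι (1 / ((j : ℝ) + 1)) p (ret T (lab k) x) x := by
      intro k x
      rw [← mk_wp, ← mk_wp, CloseN, absTr_mk, absTr_mk, pfrob_mk, FAux.Rel]
    simp only [e]
  · intro w m hm R δ hδ hδ1
    have hs : 0 < √δ := Real.sqrt_pos.2 hδ
    have hs1 : √δ < 1 := by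
      rw [Real.sqrt_lt' one_pos]
      linarith
    exact closeN_band_of _ w m hm R δ hδ hδ1 (hN w m hm R (√δ) hs hs1)
  · have hd : Tendsto (fun j : ℕ => 1 / ((j : ℝ) + 1)) atTop (𝓝 0) :=
      tendsto_one_div_add_atTop_nhds_zero_nat
    have h1 : Tendsto (fun j : ℕ => 80 * √√(1 / ((j : ℝ) + 1))) atTop (𝓝 0) := by
      have h2 : Tendsto (fun t : ℝ => 80 * √√t) (𝓝 0) (𝓝 (80 * √√0)) :=
        (by fun_prop : Continuous fun t : ℝ => 80 * √√t).tendsto 0
      have h3 := h2.comp hd
      have h0 : (80 : ℝ) * √√0 = 0 := by simp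
      rw [h0] at h3
      exact h3
    have h4 : Tendsto (fun j : ℕ => Real.log 2 / Real.log (1 / √(1 / ((j : ℝ) + 1)))) atTop
        (𝓝 0) := by
      have h5 : Tendsto (fun j : ℕ => Real.log (1 / √(1 / ((j : ℝ) + 1)))) atTop atTop := by
        have h6 : ∀ j : ℕ, 1 / √(1 / ((j : ℝ) + 1)) = √((j : ℝ) + 1) := by
          intro j
          rw [Real.sqrt_div zero_le_one, Real.sqrt_one, one_div_one_div]
        simp only [h6]
        exact Real.tendsto_log_atTop.comp (Real.tendsto_sqrt_atTop.comp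
          (tendsto_atTop_add_const_right _ 1 tendsto_natCast_atTop_atTop))
      exact h5.const_div_atTop _
    have h7 := ENNReal.tendsto_ofReal (h1.add h4)
    simpa using h7

/-- The preimage of `BadN` is null. -/
theorem badN_null {X : Type*} [MeasurableSpace X] [MeasurableSpace.CountablyGenerated X]
    (μ : Measure X) [IsProbabilityMeasure μ] {n : ℕ} (T : X → X) (hT : MeasurePreserving T μ μ)
    (ι : X → Fin n) (hι : Measurable ι) (ν : Measure SL(2, ℝ)) [ν.IsHaarMeasure] :
    ((Measure.pi fun _ : Fin n => ν).prod (Measure.pi fun _ : Fin n => ν))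
      ((fun p : (Fin n → SL(2, ℝ)) × (Fin n → SL(2, ℝ)) =>
        ((fun i => (p.1 i : PSL(2, ℝ))), (fun i => (p.2 i : PSL(2, ℝ))))) ⁻¹' BadN μ T ι) = 0 :=
  badN_null_of μ T hT ι hι ν fun w m hm R κ hκ hκ1 =>
    haar_norm_of (fun m hm A κ h h1 => trace_norm m hm A κ h h1) _ R w m hm κ hκ hκ1

end H24FB
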