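import Pool.Agent.H24.FB.BlockFb2
import Pool.Agent.H24.FB.BlockC2
import Pool.Agent.H24.FB.BlockJ

/-! `haar_norm` and `word_band` without hypotheses. -/

open MeasureTheory Matrix Filter Topology
open scoped MatrixGroups

namespace H24FB

theorem haar_norm {n : ℕ} (μ : Measure (Fin n → SL(2, ℝ)))
    [μ.IsMulLeftInvariant] [SFinite μ] (R : ℝ) (w : ℕ → Fin n) (m : ℕ) (hm : 0 < m) (κ : ℝ)
    (hκ : 0 < κ) (hκ1 : κ < 1) :
    μ {h | h ∈ KR n R ∧ |tr (wp (fun j => h (w j)) m)| ≤ κ * frob (wp (fun j => h (w j)) m)} ≤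
      ENNReal.ofReal (Real.log 2 / Real.log (1 / κ)) * μ (KR n R) :=
  haar_norm_of (fun m hm A κ h h1 => trace_norm m hm A κ h h1) μ R w m hm κ hκ hκ1

theorem word_band {n : ℕ} (μ : Measure (Fin n → SL(2, ℝ))) [μ.IsMulLeftInvariant] [SFinite μ]
    (R : ℝ) (w : ℕ → Fin n) (m : ℕ) (hm : 0 < m) (δ : ℝ) (hδ : 0 < δ) (hδ1 : δ < 1) :
    (μ.prod μ) {p | p.1 ∈ KR n R ∧ p.2 ∈ KR n R ∧
      |(|tr (wp (fun j => p.2 (w j)) m)|) - (|tr (wp (fun j => p.1 (w j)) m)|)| ≤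
        δ * frob (wp (fun j => p.1 (w j)) m)} ≤
      ENNReal.ofReal (80 * √√δ + Real.log 2 / Real.log (1 / √δ)) * μ (KR n R) * μ (KR n R) := by
  have hs : 0 < √δ := Real.sqrt_pos.2 hδ
  have hs1 : √δ < 1 := by
    rw [Real.sqrt_lt' one_pos]
    linarith
  refine le_trans (measure_mono ?_)
    (closeN_band_of μ w m hm R δ hδ hδ1 (haar_norm μ R w m hm (√δ) hs hs1))
  rintro p ⟨h1, h2, h3⟩
  exact ⟨⟨h1, h2⟩, h3⟩

end H24FB
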