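import Pool.Agent.H24.FB.Defs

/-! Block H1: almost every real number is very well approximable by the Dirichlet rate times
every small constant. -/

open MeasureTheory Filter Topology Metric

namespace H24FB

/-- The rationals with denominator `q`. -/
def ratDen (q : ℕ) : Set ℝ := Set.range fun a : ℤ => (a : ℝ) / q

theorem frequently_irrational {ξ : ℝ} (hξ : Irrational ξ) :
    ∃ᶠ q : ℕ in atTop, 0 < q ∧ |(q : ℝ) * ξ - round ((q : ℝ) * ξ)| * q < 1 := by
  rw [frequently_atTop]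
  intro N
  -- a positive lower bound for the distances with `1 ≤ k ≤ N`
  obtain ⟨δ, hδ, hmin⟩ : ∃ δ : ℝ, 0 < δ ∧ ∀ k : ℕ, 0 < k → k ≤ N →
      δ ≤ |(k : ℝ) * ξ - round ((k : ℝ) * ξ)| := by
    have hpos : ∀ k : ℕ, 0 < k → 0 < |(k : ℝ) * ξ - round ((k : ℝ) * ξ)| := by
      intro k hk
      rw [abs_pos, sub_ne_zero]
      intro h
      exact (hξ.natCast_mul hk.ne').ne_int _ h
    rcases (Finset.Icc 1 N).eq_empty_or_nonempty with he | hne
    · refine ⟨1, one_pos, ?_⟩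
      intro k hk hkN
      have : k ∈ Finset.Icc 1 N := Finset.mem_Icc.2 ⟨hk, hkN⟩
      rw [he] at this
      exact absurd this (Finset.notMem_empty _)
    · obtain ⟨k₀, hk₀, hk₀min⟩ := (Finset.Icc 1 N).exists_min_image
        (fun k : ℕ => |(k : ℝ) * ξ - round ((k : ℝ) * ξ)|) hne
      refine ⟨_, hpos k₀ (Finset.mem_Icc.1 hk₀).1, ?_⟩
      intro k hk hkN
      exact hk₀min k (Finset.mem_Icc.2 ⟨hk, hkN⟩)
  obtain ⟨n, hn⟩ := exists_nat_one_div_lt hδ
  obtain ⟨k, hk0, hkn, hk⟩ := Real.exists_nat_abs_mul_sub_round_le ξ (Nat.succ_pos n)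
  have hsucc : ((n.succ : ℕ) : ℝ) = n + 1 := by push_cast; ring
  rw [hsucc] at hk
  have hnpos : (0 : ℝ) < n + 1 := by positivity
  have hlt : |(k : ℝ) * ξ - round ((k : ℝ) * ξ)| < δ := by
    refine lt_of_le_of_lt hk (lt_trans ?_ hn)
    exact one_div_lt_one_div_of_lt hnpos (by linarith)
  refine ⟨k, ?_, hk0, ?_⟩
  · by_contra hlt'
    push Not at hlt'
    exact absurd (hmin k hk0 hlt'.le) (not_le.2 hlt)
  · have hkn' : (k : ℝ) ≤ n + 1 := by
      have := (Nat.cast_le (α := ℝ)).2 hkn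
      rwa [hsucc] at this
    have hk0' : (0 : ℝ) < k := by exact_mod_cast hk0
    calc |(k : ℝ) * ξ - round ((k : ℝ) * ξ)| * k ≤ (1 / ((n : ℝ) + 1 + 1)) * (n + 1) := by
          exact mul_le_mul hk hkn' hk0'.le (by positivity)
      _ < 1 := by
          rw [one_div, inv_mul_eq_div, div_lt_one (by positivity)]
          linarith

theorem mem_blimsup_set {s : ℕ → Set ℝ} {p : ℕ → Prop} {x : ℝ} :
    x ∈ (blimsup s atTop p : Set ℝ) ↔ ∃ᶠ q in atTop, p q ∧ x ∈ s q := by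
  rw [← Nat.cofinite_eq_atTop, cofinite.blimsup_set_eq, frequently_cofinite_iff_infinite]
  rfl

theorem tendsto_radius : Tendsto (fun q : ℕ => 1 / ((q : ℝ) ^ 2)) atTop (𝓝 0) := by
  have h := (tendsto_pow_atTop (α := ℝ) (two_ne_zero)).comp tendsto_natCast_atTop_atTop
  refine h.inv_tendsto_atTop.congr fun q => ?_
  simp [one_div]

theorem mem_blimsup_of_irrational {ξ : ℝ} (hξ : Irrational ξ) :
    ξ ∈ (blimsup (fun q : ℕ => thickening (1 / ((q : ℝ) ^ 2)) (ratDen q)) atTop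
      (fun q => 0 < q) : Set ℝ) := by
  rw [mem_blimsup_set]
  refine (frequently_irrational hξ).mono ?_
  rintro q ⟨hq, h⟩
  refine ⟨hq, ?_⟩
  have hq' : (0 : ℝ) < q := by exact_mod_cast hq
  rw [mem_thickening_iff]
  refine ⟨(round ((q : ℝ) * ξ) : ℝ) / q, ⟨_, rfl⟩, ?_⟩
  rw [Real.dist_eq, lt_div_iff₀ (by positivity)]
  have e : ξ - (round ((q : ℝ) * ξ) : ℝ) / q = ((q : ℝ) * ξ - round ((q : ℝ) * ξ)) / q := by
    field_simp
  rw [e, abs_div, abs_of_pos hq']
  calc |(q : ℝ) * ξ - round ((q : ℝ) * ξ)| / q * (q : ℝ) ^ 2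
      = |(q : ℝ) * ξ - round ((q : ℝ) * ξ)| * q := by field_simp
    _ < 1 := h

theorem good_of_mem {α : ℝ}
    (h : ∀ n : ℕ, α ∈ (blimsup (fun q : ℕ => thickening ((1 / ((n : ℝ) + 1)) * (1 / ((q : ℝ) ^ 2)))
      (ratDen q)) atTop (fun q => 0 < q) : Set ℝ)) : Good α := by
  intro ε hε
  obtain ⟨n, hn⟩ := exists_nat_one_div_lt hε
  have h' := h n
  rw [mem_blimsup_set] at h'
  refine h'.mono ?_
  rintro q ⟨hq, hmem⟩
  have hq' : (0 : ℝ) < q := by exact_mod_cast hq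
  rw [mem_thickening_iff] at hmem
  obtain ⟨_, ⟨a, rfl⟩, hd⟩ := hmem
  rw [Real.dist_eq] at hd
  have e : α - (a : ℝ) / q = ((q : ℝ) * α - a) / q := by field_simp
  simp only at hd
  rw [e, abs_div, abs_of_pos hq', div_lt_iff₀ hq'] at hd
  have h1 : |(q : ℝ) * α - round ((q : ℝ) * α)| ≤ |(q : ℝ) * α - a| := round_le _ _
  calc |(q : ℝ) * α - round ((q : ℝ) * α)| * q ≤ |(q : ℝ) * α - a| * q :=
        mul_le_mul_of_nonneg_right h1 hq'.le
    _ ≤ ((1 / ((n : ℝ) + 1)) * (1 / ((q : ℝ) ^ 2)) * q) * q :=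
        mul_le_mul_of_nonneg_right hd.le hq'.le
    _ = 1 / ((n : ℝ) + 1) := by field_simp
    _ < ε := hn

theorem ae_good : ∀ᵐ α : ℝ, Good α := by
  have hirr : ∀ᵐ α : ℝ, Irrational α := by
    have : (volume : Measure ℝ) (Set.range ((↑) : ℚ → ℝ)) = 0 :=
      (Set.countable_range _).measure_zero _
    exact measure_eq_zero_iff_ae_notMem.1 this
  have hn : ∀ n : ℕ, (blimsup (fun q : ℕ => thickening ((1 / ((n : ℝ) + 1)) * (1 / ((q : ℝ) ^ 2)))
      (ratDen q)) atTop (fun q => 0 < q) : Set ℝ) =ᵐ[volume]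
      (blimsup (fun q : ℕ => thickening (1 / ((q : ℝ) ^ 2)) (ratDen q)) atTop
      (fun q => 0 < q) : Set ℝ) := fun n =>
    blimsup_thickening_mul_ae_eq volume (fun q => 0 < q) ratDen (by positivity) _ tendsto_radius
  have hall : ∀ᵐ α : ℝ, ∀ n : ℕ, (α ∈ (blimsup (fun q : ℕ =>
      thickening ((1 / ((n : ℝ) + 1)) * (1 / ((q : ℝ) ^ 2)))
      (ratDen q)) atTop (fun q => 0 < q) : Set ℝ)) ↔
      α ∈ (blimsup (fun q : ℕ => thickening (1 / ((q : ℝ) ^ 2)) (ratDen q)) atTop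
      (fun q => 0 < q) : Set ℝ) := ae_all_iff.2 fun n => (hn n).mem_iff
  filter_upwards [hirr, hall] with α h1 h2
  exact good_of_mem fun n => (h2 n).2 (mem_blimsup_of_irrational h1)

theorem ae_good_sum (m j : ℕ) (hj : 0 < j) : ∀ᵐ v : Fin (m + 1) → ℝ,
    Good (∑ i ∈ Finset.univ.filter (fun i => i.val < j), v i) := by
  let L : (Fin (m + 1) → ℝ) →ₗ[ℝ] ℝ :=
    ∑ i ∈ Finset.univ.filter (fun i : Fin (m + 1) => i.val < j), LinearMap.proj i
  have hL : ∀ v, L v = ∑ i ∈ Finset.univ.filter (fun i : Fin (m + 1) => i.val < j), v i := by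
    intro v
    simp [L]
  have hsurj : Function.Surjective L := by
    intro y
    refine ⟨Pi.single 0 y, ?_⟩
    rw [hL, Finset.sum_eq_single (0 : Fin (m + 1))]
    · simp
    · intro b _ hb
      simp [hb]
    · intro h
      refine absurd (Finset.mem_filter.2 ⟨Finset.mem_univ _, ?_⟩) h
      simpa using hj
  have hcont : Continuous L := L.continuous_of_finiteDimensional
  obtain ⟨c, _, hc⟩ := L.exists_map_addHaar_eq_smul_addHaar volume volume hsurj
  have h1 : ∀ᵐ y ∂((volume : Measure (Fin (m + 1) → ℝ)).map L), Good y := by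
    rw [hc]
    exact (Measure.smul_absolutelyContinuous).ae_le ae_good
  have h2 := ae_of_ae_map hcont.aemeasurable h1
  filter_upwards [h2] with v hv
  rw [← hL]
  exact hv

end H24FB
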