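import Pool.Agent.H24.FB.Defs

/-! Block H2: rotations `x ↦ fract (x - s)` with `s` very well approximable are word rigid and
rigid along a sequence of times. -/

open MeasureTheory Filter Topology Set

namespace H24FB

/-- The rotation of `[0,1)` by `s` preserves Lebesgue measure. -/
theorem measurePreserving_fract_sub (s : ℝ) :
    MeasurePreserving (fun x : ℝ => Int.fract (x - s)) (volume.restrict (Set.Ico 0 1))
      (volume.restrict (Set.Ico 0 1)) := by
  have hm : Measurable (fun x : ℝ => Int.fract (x - s)) := (measurable_id.sub_const s).fract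
  refine ⟨hm, ?_⟩
  ext E hE
  rw [Measure.map_apply hm hE, Measure.restrict_apply (hm hE), Measure.restrict_apply hE]
  have hAm : MeasurableSet (Int.fract ⁻¹' E : Set ℝ) := measurable_fract hE
  have e1 : (fun x : ℝ => Int.fract (x - s)) ⁻¹' E ∩ Ico 0 1
      = (fun x : ℝ => x - s) ⁻¹' ((Int.fract ⁻¹' E : Set ℝ) ∩ Ico (-s) (-s + 1)) := by
    ext x
    simp only [mem_inter_iff, mem_preimage, mem_Ico]
    constructor
    · rintro ⟨h1, h2, h3⟩
      exact ⟨h1, by linarith, by linarith⟩
    · rintro ⟨h1, h2, h3⟩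
      exact ⟨h1, by linarith, by linarith⟩
  have hinv : ∀ g : AddSubgroup.zmultiples (1 : ℝ),
      (fun x : ℝ => g +ᵥ x) ⁻¹' (Int.fract ⁻¹' E : Set ℝ) = (Int.fract ⁻¹' E : Set ℝ) := by
    rintro ⟨g, k, rfl⟩
    ext x
    simp only [mem_preimage]
    have : ((⟨(fun n : ℤ => n • (1 : ℝ)) k, ⟨k, rfl⟩⟩ : AddSubgroup.zmultiples (1 : ℝ)) +ᵥ x : ℝ)
        = x + (k : ℤ) := by
      show ((k • (1 : ℝ)) + x : ℝ) = _
      simp [add_comm]
    rw [this, Int.fract_add_intCast]
  have e2 : ∀ t : ℝ, volume ((Int.fract ⁻¹' E : Set ℝ) ∩ Ico t (t + 1))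
      = volume ((Int.fract ⁻¹' E : Set ℝ) ∩ Ioc t (t + 1)) := by
    intro t
    exact measure_congr (ae_eq_set_inter (ae_eq_refl _) Ico_ae_eq_Ioc)
  have e3 := (isAddFundamentalDomain_Ioc one_pos (-s)).measure_set_eq
    (isAddFundamentalDomain_Ioc one_pos (0 : ℝ)) hAm hinv
  have e4 : (Int.fract ⁻¹' E : Set ℝ) ∩ Ico 0 (0 + 1) = E ∩ Ico 0 1 := by
    ext x
    simp only [mem_inter_iff, mem_preimage, mem_Ico, zero_add]
    constructor
    · rintro ⟨h1, h2, h3⟩
      rw [Int.fract_eq_self.2 ⟨h2, h3⟩] at h1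
      exact ⟨h1, h2, h3⟩
    · rintro ⟨h1, h2, h3⟩
      rw [Int.fract_eq_self.2 ⟨h2, h3⟩]
      exact ⟨h1, h2, h3⟩
  rw [e1, (measurePreserving_sub_right volume s).measure_preimage
    (hAm.inter measurableSet_Ico).nullMeasurableSet, e2, e3, ← e2, e4]

theorem iterate_fract_sub (s : ℝ) (m : ℕ) (x : ℝ) (hx : x ∈ Set.Ico (0:ℝ) 1) :
    (fun x : ℝ => Int.fract (x - s))^[m] x = Int.fract (x - m * s) := by
  induction m with
  | zero => simp [Int.fract_eq_self.2 ⟨hx.1, hx.2⟩]
  | succ m ih =>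
    rw [Function.iterate_succ_apply', ih]
    have : Int.fract (x - m * s) - s = (x - (m + 1 : ℕ) * s) - (⌊x - m * s⌋ : ℤ) := by
      rw [Int.fract]; push_cast; ring
    show Int.fract (Int.fract (x - m * s) - s) = _
    rw [this, Int.fract_sub_intCast]

theorem iterate_fract_sub' (s : ℝ) (m : ℕ) (x : ℝ) (hx : x ∈ Set.Ico (0:ℝ) 1) :
    (fun x : ℝ => Int.fract (x - s))^[m] x
      = Int.fract (x - ((m : ℝ) * s - round ((m : ℝ) * s))) := by
  rw [iterate_fract_sub s m x hx]
  have : x - ((m : ℝ) * s - round ((m : ℝ) * s)) = (x - m * s) + (round ((m : ℝ) * s) : ℤ) := by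
    ring
  rw [this, Int.fract_add_intCast]

theorem rot_rigid (s : ℝ) (hs : Good s) (n : ℕ) (ι : ℝ → Fin n) (hιm : Measurable ι)
    (D : Finset ℝ)
    (hι : ∀ x ∈ Set.Ico (0:ℝ) 1, ∀ y ∈ Set.Ico (0:ℝ) 1, x ≤ y →
      (∀ d ∈ D, ¬ (x < d ∧ d ≤ y)) → ι x = ι y) :
    ∃ q : ℕ → ℕ, (∀ k, 1 ≤ q k) ∧
      WordRigid (volume.restrict (Set.Ico 0 1)) (fun x : ℝ => Int.fract (x - s)) ι q ∧
      Rigid (volume.restrict (Set.Ico 0 1)) (fun x : ℝ => Int.fract (x - s)) q := by
  classical
  -- the times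
  have hq : ∀ k : ℕ, ∃ q : ℕ, 1 ≤ q ∧
      |(q : ℝ) * s - round ((q : ℝ) * s)| * q < 1 / ((k : ℝ) + 1) := by
    intro k
    have := hs (1 / ((k : ℝ) + 1)) (by positivity)
    rw [Filter.frequently_atTop] at this
    obtain ⟨q, hq1, hq2⟩ := this 1
    exact ⟨q, hq1, hq2⟩
  choose q hq1 hq2 using hq
  set T : ℝ → ℝ := fun x : ℝ => Int.fract (x - s) with hT
  set r : ℕ → ℝ := fun k => (q k : ℝ) * s - round ((q k : ℝ) * s) with hr
  have hrle : ∀ k, |r k| ≤ 1 / ((k : ℝ) + 1) := by
    intro k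
    have h1 : (1 : ℝ) ≤ q k := by exact_mod_cast hq1 k
    have h2 := hq2 k
    have h3 : |r k| * 1 ≤ |r k| * q k := mul_le_mul_of_nonneg_left h1 (abs_nonneg _)
    have h4 : |r k| * q k < 1 / ((k : ℝ) + 1) := h2
    linarith
  have hlim : Tendsto (fun k : ℕ => 1 / ((k : ℝ) + 1)) atTop (𝓝 0) :=
    tendsto_one_div_add_atTop_nhds_zero_nat
  have hrlim : Tendsto r atTop (𝓝 0) := by
    apply squeeze_zero_norm _ hlim
    intro k
    simpa [Real.norm_eq_abs] using hrle k
  have hTm : MeasurePreserving T (volume.restrict (Set.Ico 0 1)) (volume.restrict (Set.Ico 0 1)) :=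
    measurePreserving_fract_sub s
  refine ⟨q, hq1, ?_, ?_⟩
  · -- word rigidity
    set D' : Finset ℝ := insert 0 (insert 1 D) with hD'
    have hB : ∀ k, (volume.restrict (Set.Ico (0:ℝ) 1)) {z | ι (T^[q k] z) ≠ ι z}
        ≤ ENNReal.ofReal (D'.card * (2 * |r k|)) := by
      intro k
      rw [Measure.restrict_apply' measurableSet_Ico]
      have hsub : {z | ι (T^[q k] z) ≠ ι z} ∩ Set.Ico (0:ℝ) 1
          ⊆ ⋃ d ∈ D', Set.Icc (d - |r k|) (d + |r k|) := by
        rintro z ⟨hz, hz1⟩
        simp only [mem_ofPred_eq] at hz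
        have hit : T^[q k] z = Int.fract (z - r k) := iterate_fract_sub' s (q k) z hz1
        rw [hit] at hz
        simp only [mem_iUnion]
        by_cases h0 : z - r k < 0
        · refine ⟨0, by simp [hD'], ?_⟩
          have h1 : z < |r k| := lt_of_lt_of_le (by linarith) (le_abs_self (r k))
          constructor <;> linarith [hz1.1, abs_nonneg (r k)]
        by_cases h1 : 1 ≤ z - r k
        · refine ⟨1, by simp [hD'], ?_⟩
          have h2 : -(r k) ≤ |r k| := neg_le_abs (r k)
          constructor <;> linarith [hz1.2, abs_nonneg (r k)]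
        push Not at h0 h1
        have hfr : Int.fract (z - r k) = z - r k := Int.fract_eq_self.2 ⟨h0, h1⟩
        rw [hfr] at hz
        by_contra hcon
        push Not at hcon
        apply hz
        rcases le_or_gt 0 (r k) with hr0 | hr0
        · apply hι _ ⟨h0, h1⟩ _ hz1 (by linarith)
          rintro d hd ⟨hd1, hd2⟩
          apply hcon d (by simp [hD', hd])
          rw [abs_of_nonneg hr0]
          constructor <;> linarith
        · symm
          apply hι _ hz1 _ ⟨h0, h1⟩ (by linarith)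
          rintro d hd ⟨hd1, hd2⟩
          apply hcon d (by simp [hD', hd])
          rw [abs_of_neg hr0]
          constructor <;> linarith
      refine (measure_mono hsub).trans ((measure_biUnion_finset_le _ _).trans ?_)
      have : ∀ d ∈ D', volume (Set.Icc (d - |r k|) (d + |r k|)) = ENNReal.ofReal (2 * |r k|) := by
        intro d _
        rw [Real.volume_Icc]
        congr 1
        ring
      rw [Finset.sum_congr rfl this, Finset.sum_const, nsmul_eq_mul, ← ENNReal.ofReal_natCast,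
        ← ENNReal.ofReal_mul (by positivity)]
    have hBm : ∀ k, MeasurableSet {z | ι (T^[q k] z) ≠ ι z} := by
      intro k
      have h1 : Measurable (fun z => (ι (T^[q k] z), ι z)) :=
        (hιm.comp (hTm.measurable.iterate (q k))).prodMk hιm
      exact h1 (t := {p : Fin n × Fin n | p.1 ≠ p.2}) (MeasurableSet.of_discrete)
    have hle : ∀ k, (volume.restrict (Set.Ico (0:ℝ) 1))
        {x | ∃ i < 2 * q k, ι (T^[i + q k] x) ≠ ι (T^[i] x)}
        ≤ ENNReal.ofReal ((4 * D'.card) * (1 / ((k : ℝ) + 1))) := by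
      intro k
      have hsub : {x | ∃ i < 2 * q k, ι (T^[i + q k] x) ≠ ι (T^[i] x)}
          ⊆ ⋃ i ∈ Finset.range (2 * q k), (T^[i]) ⁻¹' {z | ι (T^[q k] z) ≠ ι z} := by
        rintro x ⟨i, hi, hx⟩
        simp only [mem_iUnion, Finset.mem_range, exists_prop]
        refine ⟨i, hi, ?_⟩
        simp only [mem_preimage, mem_ofPred_eq]
        rwa [add_comm, Function.iterate_add_apply] at hx
      refine (measure_mono hsub).trans ((measure_biUnion_finset_le _ _).trans ?_)
      have h1 : ∀ i ∈ Finset.range (2 * q k), (volume.restrict (Set.Ico (0:ℝ) 1))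
          ((T^[i]) ⁻¹' {z | ι (T^[q k] z) ≠ ι z}) ≤ ENNReal.ofReal (D'.card * (2 * |r k|)) := by
        intro i _
        rw [(hTm.iterate i).measure_preimage (hBm k).nullMeasurableSet]
        exact hB k
      refine (Finset.sum_le_sum h1).trans ?_
      rw [Finset.sum_const, Finset.card_range, nsmul_eq_mul, ← ENNReal.ofReal_natCast,
        ← ENNReal.ofReal_mul (by positivity)]
      apply ENNReal.ofReal_le_ofReal
      have h2 : |r k| * q k ≤ 1 / ((k : ℝ) + 1) := (hq2 k).le
      have h3 : (0 : ℝ) ≤ 4 * D'.card := by positivity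
      calc ((2 * q k : ℕ) : ℝ) * (D'.card * (2 * |r k|)) = (4 * D'.card) * (|r k| * q k) := by
            push_cast; ring
        _ ≤ _ := mul_le_mul_of_nonneg_left h2 h3
    refine tendsto_of_tendsto_of_tendsto_of_le_of_le tendsto_const_nhds ?_ (fun _ => zero_le) hle
    have h4 : Tendsto (fun k : ℕ => (4 * (D'.card : ℝ)) * (1 / ((k : ℝ) + 1))) atTop (𝓝 0) := by
      simpa using hlim.const_mul (4 * (D'.card : ℝ))
    simpa using ENNReal.tendsto_ofReal h4
  · -- rigidity
    intro E hE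
    set E' : Set ℝ := E ∩ Set.Ico 0 1 with hE'
    have hE'm : MeasurableSet E' := hE.inter measurableSet_Ico
    have hE'fin : volume E' ≠ ⊤ := by
      refine ((measure_mono inter_subset_right).trans_lt ?_).ne
      simp [Real.volume_Ico]
    let F : C(ℝ, C(ℝ, ℝ)) := ContinuousMap.curry ⟨fun p : ℝ × ℝ => p.2 - p.1, by fun_prop⟩
    have hF : ∀ a x, F a x = x - a := fun a x => rfl
    have hFt : Tendsto (fun k => F (r k)) atTop (𝓝 (F 0)) := (F.continuous.tendsto 0).comp hrlim
    have hFm : ∀ a, MeasurePreserving (F a) volume volume := fun a =>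
      measurePreserving_sub_right volume a
    have hlim2 := tendsto_measure_symmDiff_preimage_nhds_zero hFt
      (Eventually.of_forall fun k => hFm (r k)) (hFm 0) hE'm.nullMeasurableSet hE'fin
    refine tendsto_of_tendsto_of_tendsto_of_le_of_le tendsto_const_nhds hlim2
      (fun _ => zero_le) (fun k => ?_)
    rw [Measure.restrict_apply' measurableSet_Ico]
    apply measure_mono
    rintro z ⟨⟨hz1, hz2⟩, hz3⟩
    right
    refine ⟨?_, ?_⟩
    · simp only [mem_preimage, hF, sub_zero]
      exact ⟨hz1, hz3⟩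
    · simp only [mem_preimage, hF]
      intro hz4
      apply hz2
      simp only [mem_preimage]
      have hit : T^[q k] z = Int.fract (z - r k) := iterate_fract_sub' s (q k) z hz3
      rw [hit, Int.fract_eq_self.2 ⟨hz4.2.1, hz4.2.2⟩]
      exact hz4.1

end H24FB
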