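import Pool.Agent.H24.FB.Defs

/-! Block H3: a cyclic interval exchange is a rotation; facts on the index function. -/

open MeasureTheory Filter Topology Set

namespace H24FB

/-- Partial sums of `lam`. -/
noncomputable def pS {n : ℕ} (lam : Fin n → ℝ) (j : ℕ) : ℝ :=
  ∑ i ∈ Finset.univ.filter (fun i : Fin n => i.val < j), lam i

theorem leftEnd_eq_pS {n : ℕ} (lam : Fin n → ℝ) (k : Fin n) : leftEnd lam k = pS lam k.val := rfl

theorem pS_zero {n : ℕ} (lam : Fin n → ℝ) : pS lam 0 = 0 := by
  simp [pS]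

theorem pS_top {n : ℕ} (lam : Fin n → ℝ) : pS lam n = ∑ i, lam i := by
  unfold pS
  congr 1
  ext i
  simp

theorem pS_succ {n : ℕ} (lam : Fin n → ℝ) (k : Fin n) :
    pS lam (k.val + 1) = pS lam k.val + lam k := by
  unfold pS
  have : Finset.univ.filter (fun i : Fin n => i.val < k.val + 1)
      = insert k (Finset.univ.filter (fun i : Fin n => i.val < k.val)) := by
    ext i
    simp only [Finset.mem_filter, Finset.mem_univ, true_and, Finset.mem_insert, Fin.ext_iff]
    omega
  rw [this, Finset.sum_insert (by simp), add_comm]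

theorem pS_mono {n : ℕ} (lam : Fin n → ℝ) (hlam : ∀ i, 0 ≤ lam i) {a b : ℕ} (hab : a ≤ b) :
    pS lam a ≤ pS lam b := by
  apply Finset.sum_le_sum_of_subset_of_nonneg
  · intro i hi
    simp only [Finset.mem_filter, Finset.mem_univ, true_and] at hi ⊢
    omega
  · intro i _ _
    exact hlam i

theorem mem_Ico_iff_pS {n : ℕ} (lam : Fin n → ℝ) (k : Fin n) (x : ℝ) :
    x ∈ Set.Ico (leftEnd lam k) (leftEnd lam k + lam k)
      ↔ pS lam k.val ≤ x ∧ x < pS lam (k.val + 1) := by
  rw [pS_succ, leftEnd_eq_pS, Set.mem_Ico]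

theorem idx_unique {n : ℕ} (lam : Fin n → ℝ) (hlam : ∀ i, 0 ≤ lam i) {k l : Fin n} {x : ℝ}
    (hk : x ∈ Set.Ico (leftEnd lam k) (leftEnd lam k + lam k))
    (hl : x ∈ Set.Ico (leftEnd lam l) (leftEnd lam l + lam l)) : k = l := by
  rw [mem_Ico_iff_pS] at hk hl
  rcases lt_trichotomy k.val l.val with h | h | h
  · have := pS_mono lam hlam (show k.val + 1 ≤ l.val by omega)
    linarith [hk.2, hl.1]
  · exact Fin.ext h
  · have := pS_mono lam hlam (show l.val + 1 ≤ k.val by omega)
    linarith [hl.2, hk.1]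

theorem idx_exists {n : ℕ} (lam : Fin n → ℝ) {x : ℝ} (h0 : 0 ≤ x) (h1 : x < ∑ i, lam i) :
    ∃ k, x ∈ Set.Ico (leftEnd lam k) (leftEnd lam k + lam k) := by
  classical
  have hex : ∃ j, x < pS lam j := ⟨n, by rwa [pS_top]⟩
  set j := Nat.find hex with hj
  have hj1 : x < pS lam j := Nat.find_spec hex
  have hj0 : j ≠ 0 := by
    intro h
    rw [h, pS_zero] at hj1
    linarith
  have hjn : j ≤ n := Nat.find_min' hex (by rwa [pS_top])
  have hj2 : ¬ x < pS lam (j - 1) := Nat.find_min hex (by omega)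
  refine ⟨⟨j - 1, by omega⟩, ?_⟩
  rw [mem_Ico_iff_pS]
  refine ⟨not_lt.1 hj2, ?_⟩
  have : (⟨j - 1, by omega⟩ : Fin n).val + 1 = j := by simp; omega
  rw [this]
  exact hj1

theorem idx_eq_of_mem {m : ℕ} (lam : Fin (m + 2) → ℝ) (hlam : ∀ i, 0 ≤ lam i) {k : Fin (m + 2)}
    {x : ℝ} (hk : x ∈ Set.Ico (leftEnd lam k) (leftEnd lam k + lam k)) : idx lam x = k := by
  classical
  have hex : ∃ k, x ∈ Set.Ico (leftEnd lam k) (leftEnd lam k + lam k) := ⟨k, hk⟩
  have : idx lam x = hex.choose := by
    unfold idx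
    rw [dif_pos hex]
  rw [this]
  exact idx_unique lam hlam hex.choose_spec hk

theorem idx_mem {m : ℕ} (lam : Fin (m + 2) → ℝ) (hlam : ∀ i, 0 ≤ lam i)
    {x : ℝ} (h0 : 0 ≤ x) (h1 : x < ∑ i, lam i) :
    x ∈ Set.Ico (leftEnd lam (idx lam x)) (leftEnd lam (idx lam x) + lam (idx lam x)) := by
  obtain ⟨k, hk⟩ := idx_exists lam h0 h1
  rw [idx_eq_of_mem lam hlam hk]
  exact hk

theorem measurable_idx_of_nonneg {m : ℕ} (lam : Fin (m + 2) → ℝ) (hlam : ∀ i, 0 ≤ lam i) :
    Measurable (idx lam) := by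
  classical
  apply measurable_to_countable'
  intro k
  have hI : ∀ j, MeasurableSet (Set.Ico (leftEnd lam j) (leftEnd lam j + lam j)) := fun j =>
    measurableSet_Ico
  by_cases hk : k = 0
  · have : idx lam ⁻¹' {k} = Set.Ico (leftEnd lam k) (leftEnd lam k + lam k)
        ∪ (⋃ j, Set.Ico (leftEnd lam j) (leftEnd lam j + lam j))ᶜ := by
      ext x
      simp only [mem_preimage, mem_singleton_iff, mem_union, mem_compl_iff, mem_iUnion, not_exists]
      constructor
      · intro h
        by_cases hex : ∃ j, x ∈ Set.Ico (leftEnd lam j) (leftEnd lam j + lam j)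
        · left
          obtain ⟨j, hj⟩ := hex
          rw [idx_eq_of_mem lam hlam hj] at h
          rw [← h]
          exact hj
        · right
          intro j hj
          exact hex ⟨j, hj⟩
      · rintro (h | h)
        · exact idx_eq_of_mem lam hlam h
        · unfold idx
          rw [dif_neg (by rintro ⟨j, hj⟩; exact h j hj), hk]
    rw [this]
    exact (hI k).union (MeasurableSet.iUnion hI).compl
  · have : idx lam ⁻¹' {k} = Set.Ico (leftEnd lam k) (leftEnd lam k + lam k) := by
      ext x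
      simp only [mem_preimage, mem_singleton_iff]
      constructor
      · intro h
        by_cases hex : ∃ j, x ∈ Set.Ico (leftEnd lam j) (leftEnd lam j + lam j)
        · obtain ⟨j, hj⟩ := hex
          rw [idx_eq_of_mem lam hlam hj] at h
          rw [← h]
          exact hj
        · exfalso
          apply hk
          rw [← h]
          unfold idx
          rw [dif_neg hex]
      · intro h
        exact idx_eq_of_mem lam hlam h
    rw [this]
    exact hI k

theorem simplexPt_pos {m : ℕ} (v : Fin (m + 1) → ℝ) (hv : ∀ i, 0 < v i) (hv1 : ∑ i, v i < 1)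
    (i : Fin (m + 2)) : 0 < simplexPt v i := by
  unfold simplexPt
  refine Fin.lastCases ?_ (fun j => ?_) i
  · rw [Fin.snoc_last]; linarith
  · rw [Fin.snoc_castSucc]; exact hv j

theorem simplexPt_sum {m : ℕ} (v : Fin (m + 1) → ℝ) : ∑ i, simplexPt v i = 1 := by
  unfold simplexPt
  rw [Fin.sum_univ_castSucc]
  simp only [Fin.snoc_castSucc, Fin.snoc_last]
  ring

theorem simplexPt_filter {m : ℕ} (v : Fin (m + 1) → ℝ) (a : ℕ) (ha : a ≤ m + 1) :
    pS (simplexPt v) a = ∑ i ∈ Finset.univ.filter (fun i : Fin (m + 1) => i.val < a), v i := by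
  unfold pS simplexPt
  rw [Finset.sum_filter, Finset.sum_filter, Fin.sum_univ_castSucc]
  simp only [Fin.snoc_castSucc, Fin.snoc_last, Fin.val_castSucc, Fin.val_last]
  rw [if_neg (by omega), add_zero]

theorem measurable_idx {m : ℕ} (v : Fin (m + 1) → ℝ) (hv : ∀ i, 0 < v i) (hv1 : ∑ i, v i < 1) :
    Measurable (idx (simplexPt v)) :=
  measurable_idx_of_nonneg _ fun i => (simplexPt_pos v hv hv1 i).le

theorem idx_eq_of_no_leftEnd {m : ℕ} (v : Fin (m + 1) → ℝ) (hv : ∀ i, 0 < v i)
    (hv1 : ∑ i, v i < 1) :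
    ∀ x ∈ Set.Ico (0:ℝ) 1, ∀ y ∈ Set.Ico (0:ℝ) 1, x ≤ y →
      (∀ d ∈ Finset.univ.image (leftEnd (simplexPt v)), ¬ (x < d ∧ d ≤ y)) →
      idx (simplexPt v) x = idx (simplexPt v) y := by
  intro x hx y hy hxy hD
  have hlam : ∀ i, 0 ≤ simplexPt v i := fun i => (simplexPt_pos v hv hv1 i).le
  have hsum := simplexPt_sum v
  have hky := idx_mem (simplexPt v) hlam hy.1 (by rw [hsum]; exact hy.2)
  set k := idx (simplexPt v) y with hk
  have hd := hD (leftEnd (simplexPt v) k) (Finset.mem_image_of_mem _ (Finset.mem_univ k))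
  apply idx_eq_of_mem _ hlam
  constructor
  · by_contra hcon
    exact hd ⟨not_le.1 hcon, hky.1⟩
  · exact lt_of_le_of_lt hxy hky.2

theorem addRight_val {m : ℕ} (r i : Fin (m + 2)) :
    ((Equiv.addRight r : Equiv.Perm (Fin (m + 2))) i).val
      = if i.val < m + 2 - r.val then i.val + r.val else i.val + r.val - (m + 2) := by
  have h1 := i.isLt
  have h2 := r.isLt
  rw [Equiv.coe_addRight, Fin.val_add]
  split_ifs with h
  · exact Nat.mod_eq_of_lt (by omega)
  · rw [Nat.mod_eq_sub_mod (by omega), Nat.mod_eq_of_lt (by omega)]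

theorem iet_eq_fract {m : ℕ} (v : Fin (m + 1) → ℝ) (hv : ∀ i, 0 < v i) (hv1 : ∑ i, v i < 1)
    (r : Fin (m + 2)) (hr : r ≠ 0) (x : ℝ) (hx : x ∈ Set.Ico (0:ℝ) 1) :
    iet (simplexPt v) (Equiv.addRight r) x
      = Int.fract (x - ∑ i ∈ Finset.univ.filter (fun i => i.val < m + 2 - r.val), v i) := by
  have hr0 : 0 < r.val := by
    rcases Nat.eq_zero_or_pos r.val with h | h
    · exact absurd (Fin.ext h) hr
    · exact h
  have hrlt := r.isLt
  have hlam : ∀ i, 0 ≤ simplexPt v i := fun i => (simplexPt_pos v hv hv1 i).le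
  have hsum := simplexPt_sum v
  rw [← simplexPt_filter v (m + 2 - r.val) (by omega)]
  have hkx := idx_mem (simplexPt v) hlam hx.1 (by rw [hsum]; exact hx.2)
  set lam := simplexPt v with hl
  set S := pS lam (m + 2 - r.val) with hS
  unfold iet
  set k := idx lam x with hk
  rw [mem_Ico_iff_pS] at hkx
  have hS0 : 0 ≤ S := by
    rw [hS, ← pS_zero lam]
    exact pS_mono lam hlam (Nat.zero_le _)
  have hS1 : S ≤ 1 := by
    rw [hS, ← hsum, ← pS_top lam]
    exact pS_mono lam hlam (by omega)
  have hklt := k.isLt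
  have hSe : S = ∑ i : Fin (m + 2), if i.val < m + 2 - r.val then lam i else 0 := by
    rw [hS]; unfold pS; rw [Finset.sum_filter]
  have hLe : leftEnd lam k = ∑ i : Fin (m + 2), if i.val < k.val then lam i else 0 := by
    rw [leftEnd_eq_pS]; unfold pS; rw [Finset.sum_filter]
  have hIe : leftEndImg lam (Equiv.addRight r) k = ∑ i : Fin (m + 2),
      if ((Equiv.addRight r : Equiv.Perm (Fin (m + 2))) i).val
        < ((Equiv.addRight r : Equiv.Perm (Fin (m + 2))) k).val then lam i else 0 := by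
    unfold leftEndImg
    rw [Finset.sum_filter]
    rfl
  by_cases hkr : k.val < m + 2 - r.val
  · have e : leftEndImg lam (Equiv.addRight r) k = leftEnd lam k + (1 - S) := by
      rw [hIe, hLe, ← hsum, hSe, ← Finset.sum_sub_distrib, ← Finset.sum_add_distrib]
      apply Finset.sum_congr rfl
      intro i _
      have hi := i.isLt
      rw [addRight_val, addRight_val, if_pos hkr]
      by_cases hi1 : i.val < m + 2 - r.val
      · rw [if_pos hi1, if_pos hi1]
        by_cases hi2 : i.val < k.val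
        · rw [if_pos (by omega), if_pos hi2]; ring
        · rw [if_neg (by omega), if_neg hi2]; ring
      · rw [if_neg hi1, if_neg hi1, if_pos (by omega), if_neg (by omega)]; ring
    rw [e]
    have hxS : x < S := lt_of_lt_of_le hkx.2 (pS_mono lam hlam (by omega))
    have : Int.fract (x - S) = x - S + 1 := by
      have h1 : Int.fract (x - S + 1) = Int.fract (x - S) := Int.fract_add_one _
      rw [← h1]
      exact Int.fract_eq_self.2 ⟨by linarith [hx.1], by linarith⟩
    rw [this]; ring
  · have e : leftEndImg lam (Equiv.addRight r) k = leftEnd lam k - S := by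
      rw [hIe, hLe, hSe, ← Finset.sum_sub_distrib]
      apply Finset.sum_congr rfl
      intro i _
      have hi := i.isLt
      rw [addRight_val, addRight_val, if_neg hkr]
      by_cases hi1 : i.val < m + 2 - r.val
      · rw [if_pos hi1, if_pos hi1, if_neg (by omega), if_pos (by omega)]; ring
      · rw [if_neg hi1, if_neg hi1]
        by_cases hi2 : i.val < k.val
        · rw [if_pos (by omega), if_pos hi2]; ring
        · rw [if_neg (by omega), if_neg hi2]; ring
    rw [e]
    have hxS : S ≤ x := le_trans (pS_mono lam hlam (by omega)) hkx.1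
    have : Int.fract (x - S) = x - S := Int.fract_eq_self.2 ⟨by linarith, by linarith [hx.2]⟩
    rw [this]; ring

end H24FB
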