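import Pool.Agent.H24.FB.Defs

/-! Interval exchange transformations with an arbitrary number of intervals preserve
Lebesgue measure on `[0,1)`. -/

open MeasureTheory Set

namespace H24FB

open Classical in
/-- The index of the interval containing `x` (and `0` when `x` is in no interval). -/
noncomputable def idx' {n : ℕ} [NeZero n] (lam : Fin n → ℝ) (x : ℝ) : Fin n :=
  if h : ∃ k, x ∈ Set.Ico (leftEnd lam k) (leftEnd lam k + lam k) then h.choose else 0

/-- The interval exchange transformation with data `(lam, π)`. -/
noncomputable def iet' {n : ℕ} [NeZero n] (lam : Fin n → ℝ) (π : Equiv.Perm (Fin n))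
    (x : ℝ) : ℝ :=
  x - leftEnd lam (idx' lam x) + leftEndImg lam π (idx' lam x)

/-- The `k`-th interval. -/
def ivl {n : ℕ} (lam : Fin n → ℝ) (k : Fin n) : Set ℝ :=
  Set.Ico (leftEnd lam k) (leftEnd lam k + lam k)

lemma leftEnd_add {n : ℕ} (lam : Fin n → ℝ) (k : Fin n) :
    leftEnd lam k + lam k = ∑ i ∈ Finset.univ.filter (fun i => i ≤ k), lam i := by
  unfold leftEnd
  have : Finset.univ.filter (fun i : Fin n => i ≤ k) =
      insert k (Finset.univ.filter (fun i => i < k)) := by
    ext i
    simp [le_iff_eq_or_lt]
  rw [this, Finset.sum_insert (by simp), add_comm]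

lemma leftEnd_add_le {n : ℕ} {lam : Fin n → ℝ} (h : ∀ i, 0 < lam i) {k l : Fin n}
    (hkl : k < l) : leftEnd lam k + lam k ≤ leftEnd lam l := by
  rw [leftEnd_add]
  unfold leftEnd
  apply Finset.sum_le_sum_of_subset_of_nonneg
  · intro i hi
    simp only [Finset.mem_filter, Finset.mem_univ, true_and] at hi ⊢
    exact lt_of_le_of_lt hi hkl
  · intro i _ _
    exact (h i).le

lemma leftEnd_nonneg {n : ℕ} {lam : Fin n → ℝ} (h : ∀ i, 0 < lam i) (k : Fin n) :
    0 ≤ leftEnd lam k :=
  Finset.sum_nonneg fun i _ => (h i).le

lemma leftEnd_add_le_one {n : ℕ} {lam : Fin n → ℝ} (h : ∀ i, 0 < lam i)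
    (h1 : ∑ i, lam i = 1) (k : Fin n) : leftEnd lam k + lam k ≤ 1 := by
  rw [leftEnd_add, ← h1]
  apply Finset.sum_le_sum_of_subset_of_nonneg (Finset.filter_subset _ _)
  intro i _ _
  exact (h i).le

lemma ivl_disjoint {n : ℕ} {lam : Fin n → ℝ} (h : ∀ i, 0 < lam i) :
    Pairwise (Function.onFun Disjoint (ivl lam)) := by
  have key : ∀ k l : Fin n, k < l → Disjoint (ivl lam k) (ivl lam l) := by
    intro k l hkl
    rw [Set.disjoint_left]
    intro x hx hy
    have := leftEnd_add_le h hkl
    exact absurd (lt_of_lt_of_le hx.2 this) (not_lt.2 hy.1)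
  intro k l hkl
  rcases lt_or_gt_of_ne hkl with hlt | hlt
  · exact key k l hlt
  · exact (key l k hlt).symm

lemma ivl_iUnion {n : ℕ} {lam : Fin n → ℝ} (h : ∀ i, 0 < lam i) (h1 : ∑ i, lam i = 1) :
    ⋃ k, ivl lam k = Set.Ico 0 1 := by
  ext x
  simp only [Set.mem_iUnion]
  constructor
  · rintro ⟨k, hk⟩
    exact ⟨(leftEnd_nonneg h k).trans hk.1, hk.2.trans_le (leftEnd_add_le_one h h1 k)⟩
  · rintro ⟨hx0, hx1⟩
    by_contra hcon
    push Not at hcon
    -- by induction, x ≥ leftEnd k for all k, hence x ≥ 1
    have hall : ∀ m : ℕ, ∀ hm : m < n, leftEnd lam ⟨m, hm⟩ + lam ⟨m, hm⟩ ≤ x := by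
      intro m
      induction m with
      | zero =>
        intro hm
        have h0 : leftEnd lam ⟨0, hm⟩ = 0 := by
          unfold leftEnd
          rw [Finset.sum_eq_zero]
          intro i hi
          simp only [Finset.mem_filter, Finset.mem_univ, true_and] at hi
          exact absurd hi (by simp [Fin.lt_def])
        have := hcon ⟨0, hm⟩
        by_contra hc
        push Not at hc
        exact this ⟨by rw [h0]; exact hx0, hc⟩
      | succ m ih =>
        intro hm
        have hm' : m < n := by omega
        have h0 : leftEnd lam ⟨m + 1, hm⟩ = leftEnd lam ⟨m, hm'⟩ + lam ⟨m, hm'⟩ := by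
          rw [leftEnd_add]
          unfold leftEnd
          congr 1
          ext i
          simp only [Finset.mem_filter, Finset.mem_univ, true_and, Fin.lt_def, Fin.le_def]
          omega
        have := hcon ⟨m + 1, hm⟩
        by_contra hc
        push Not at hc
        exact this ⟨by rw [h0]; exact ih hm', hc⟩
    have hn : 0 < n := by
      rcases Nat.eq_zero_or_pos n with h0 | h0
      · subst h0
        simp at h1
      · exact h0
    have hlast := hall (n - 1) (by omega)
    rw [leftEnd_add] at hlast
    have : Finset.univ.filter (fun i : Fin n => i ≤ ⟨n - 1, by omega⟩) = Finset.univ := by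
      apply Finset.filter_true_of_mem
      intro i _
      rw [Fin.le_def]
      simp only
      omega
    rw [this, h1] at hlast
    linarith

lemma idx'_eq {n : ℕ} [NeZero n] {lam : Fin n → ℝ} (h : ∀ i, 0 < lam i) {k : Fin n} {x : ℝ}
    (hx : x ∈ ivl lam k) : idx' lam x = k := by
  have hex : ∃ k, x ∈ Set.Ico (leftEnd lam k) (leftEnd lam k + lam k) := ⟨k, hx⟩
  unfold idx'
  rw [dif_pos hex]
  by_contra hne
  exact Set.disjoint_left.1 (ivl_disjoint h hne) hex.choose_spec hx

lemma measurableSet_ivl {n : ℕ} (lam : Fin n → ℝ) (k : Fin n) : MeasurableSet (ivl lam k) :=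
  measurableSet_Ico

/-- The coding of an interval exchange transformation is measurable. -/
theorem measurable_idx' {n : ℕ} [NeZero n] {lam : Fin n → ℝ} (h : ∀ i, 0 < lam i) :
    Measurable (idx' lam) := by
  apply measurable_to_countable'
  intro k
  have hset : idx' lam ⁻¹' {k} =
      ivl lam k ∪ (if k = 0 then (⋃ l, ivl lam l)ᶜ else ∅) := by
    ext x
    simp only [Set.mem_preimage, Set.mem_singleton_iff, Set.mem_union]
    constructor
    · intro hx
      by_cases hex : ∃ l, x ∈ ivl lam l
      · obtain ⟨l, hl⟩ := hex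
        rw [idx'_eq h hl] at hx
        subst hx
        exact Or.inl hl
      · right
        have h0 : idx' lam x = 0 := by
          unfold idx'
          exact dif_neg hex
        rw [h0] at hx
        rw [if_pos hx.symm]
        simpa using hex
    · rintro (hx | hx)
      · exact idx'_eq h hx
      · split_ifs at hx with hk
        · have hex : ¬ ∃ l, x ∈ ivl lam l := by simpa using hx
          have h0 : idx' lam x = 0 := by
            unfold idx'
            exact dif_neg hex
          rw [h0, hk]
        · exact absurd hx (Set.notMem_empty x)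
  rw [hset]
  apply (measurableSet_ivl lam k).union
  split_ifs
  · exact (MeasurableSet.iUnion fun l => measurableSet_ivl lam l).compl
  · exact MeasurableSet.empty

lemma restrict_eq_sum {n : ℕ} {lam : Fin n → ℝ} (h : ∀ i, 0 < lam i) (h1 : ∑ i, lam i = 1) :
    (volume : Measure ℝ).restrict (Set.Ico 0 1) =
      Measure.sum (fun k => (volume : Measure ℝ).restrict (ivl lam k)) := by
  rw [← ivl_iUnion h h1, Measure.restrict_iUnion (ivl_disjoint h) (measurableSet_ivl lam)]

lemma leftEndImg_eq {n : ℕ} (lam : Fin n → ℝ) (π : Equiv.Perm (Fin n)) (k : Fin n) :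
    leftEndImg lam π k = leftEnd (fun j => lam (π.symm j)) (π k) := by
  unfold leftEndImg leftEnd
  apply Finset.sum_equiv π
  · intro i
    simp
  · intro i _
    simp

/-- Interval exchange transformations preserve Lebesgue measure on `[0,1)`. -/
theorem measurePreserving_iet' {n : ℕ} [NeZero n] {lam : Fin n → ℝ} (h : ∀ i, 0 < lam i)
    (h1 : ∑ i, lam i = 1) (π : Equiv.Perm (Fin n)) :
    MeasurePreserving (iet' lam π) (volume.restrict (Set.Ico (0:ℝ) 1))
      (volume.restrict (Set.Ico (0:ℝ) 1)) := by
  have hidx := measurable_idx' h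
  have hmeas : Measurable (iet' lam π) := by
    unfold iet'
    exact (measurable_id.sub ((measurable_of_finite (leftEnd lam)).comp hidx)).add
      ((measurable_of_finite (leftEndImg lam π)).comp hidx)
  refine ⟨hmeas, ?_⟩
  set lam' : Fin n → ℝ := fun j => lam (π.symm j) with hlam'
  have h' : ∀ i, 0 < lam' i := fun i => h _
  have h1' : ∑ i, lam' i = 1 := by
    rw [hlam', ← h1]
    exact Equiv.sum_comp π.symm lam
  have hpiece : ∀ k, Measure.map (iet' lam π) ((volume : Measure ℝ).restrict (ivl lam k)) =
      (volume : Measure ℝ).restrict (ivl lam' (π k)) := by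
    intro k
    set c : ℝ := leftEndImg lam π k - leftEnd lam k with hc
    have hae : iet' lam π =ᵐ[(volume : Measure ℝ).restrict (ivl lam k)] fun x => x + c := by
      filter_upwards [ae_restrict_mem (measurableSet_ivl lam k)] with x hx
      unfold iet'
      rw [idx'_eq h hx, hc]
      ring
    rw [Measure.map_congr hae]
    have hpre : (fun x : ℝ => x + c) ⁻¹' (ivl lam' (π k)) = ivl lam k := by
      ext x
      unfold ivl
      rw [Set.mem_preimage, Set.mem_Ico, Set.mem_Ico, ← leftEndImg_eq lam π k]
      have : lam' (π k) = lam k := by simp [hlam']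
      rw [this, hc]
      constructor
      · rintro ⟨a, b⟩
        constructor <;> linarith
      · rintro ⟨a, b⟩
        constructor <;> linarith
    have hmp := (measurePreserving_add_right (volume : Measure ℝ) c).restrict_preimage
      (measurableSet_ivl lam' (π k))
    rw [hpre] at hmp
    exact hmp.map_eq
  conv_lhs => rw [restrict_eq_sum h h1]
  rw [Measure.map_sum hmeas.aemeasurable]
  simp only [hpiece]
  rw [restrict_eq_sum h' h1', Measure.sum_fintype, Measure.sum_fintype]
  exact Equiv.sum_comp π (fun j => (volume : Measure ℝ).restrict (ivl lam' j))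

end H24FB
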