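import Pool.Agent.H24.FB.GenK

/-! Block K: closeness of the absolute traces relative to the norm. -/

open MeasureTheory Measure Filter Topology Set Matrix
open scoped MatrixGroups

namespace H24FB

/-- Squared Frobenius norm, expanded. -/
theorem frob_sq' (A : SL(2, ℝ)) :
    frob A ^ 2 = (A 0 0) ^ 2 + (A 0 1) ^ 2 + (A 1 0) ^ 2 + (A 1 1) ^ 2 := by
  unfold frob
  rw [Real.sq_sqrt (Finset.sum_nonneg fun i _ => Finset.sum_nonneg fun j _ => sq_nonneg _)]
  simp only [Fin.sum_univ_two]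
  ring

theorem frob_nonneg (A : SL(2, ℝ)) : 0 ≤ frob A := Real.sqrt_nonneg _

theorem mul_app' (E F : SL(2, ℝ)) (i j : Fin 2) :
    (E * F) i j = E i 0 * F 0 j + E i 1 * F 1 j := by
  show ((E * F : SL(2, ℝ)) : Matrix (Fin 2) (Fin 2) ℝ) i j = _
  rw [Matrix.SpecialLinearGroup.coe_mul, Matrix.mul_apply, Fin.sum_univ_two]

theorem frob_mul_le (A B : SL(2, ℝ)) : frob (A * B) ≤ frob A * frob B := by
  have h : frob (A * B) ^ 2 ≤ (frob A * frob B) ^ 2 := by
    rw [mul_pow, frob_sq', frob_sq', frob_sq']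
    simp only [mul_app']
    nlinarith [sq_nonneg (A 0 0 * B 1 0 - A 0 1 * B 0 0), sq_nonneg (A 0 0 * B 1 1 - A 0 1 * B 0 1),
      sq_nonneg (A 1 0 * B 1 0 - A 1 1 * B 0 0), sq_nonneg (A 1 0 * B 1 1 - A 1 1 * B 0 1)]
  exact le_of_sq_le_sq h (mul_nonneg (frob_nonneg _) (frob_nonneg _))

theorem frob_inv (A : SL(2, ℝ)) : frob A⁻¹ = frob A := by
  have h : frob A⁻¹ ^ 2 = frob A ^ 2 := by
    rw [frob_sq', frob_sq', inv00, inv01, inv10, inv11]
    ring
  have h1 := frob_nonneg A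
  have h2 := frob_nonneg A⁻¹
  exact (sq_eq_sq₀ h2 h1).1 h

theorem tr_close_near {η : ℝ} (hη : 0 ≤ η) {E : SL(2, ℝ)} (hE : near η E) (N : SL(2, ℝ)) :
    abs (|tr (E * N)| - |tr N|) ≤ 2 * η * frob N := by
  have h1 : abs (|tr (E * N)| - |tr N|) ≤ |tr (E * N) - tr N| := abs_abs_sub_abs_le _ _
  refine h1.trans ?_
  have e00 : |E 0 0 - 1| ≤ η := by simpa using hE 0 0
  have e01 : |E 0 1| ≤ η := by simpa using hE 0 1
  have e10 : |E 1 0| ≤ η := by simpa using hE 1 0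
  have e11 : |E 1 1 - 1| ≤ η := by simpa using hE 1 1
  have htr : tr (E * N) - tr N
      = (E 0 0 - 1) * N 0 0 + E 0 1 * N 1 0 + E 1 0 * N 0 1 + (E 1 1 - 1) * N 1 1 := by
    rw [tr_eq, tr_eq, mul_app', mul_app']
    ring
  have hb : ∀ {x y : ℝ}, |x| ≤ η → |x * y| ≤ η * |y| := by
    intro x y hx
    rw [abs_mul]
    exact mul_le_mul_of_nonneg_right hx (abs_nonneg _)
  have h2 : |tr (E * N) - tr N| ≤ η * (|N 0 0| + |N 1 0| + |N 0 1| + |N 1 1|) := by
    rw [htr]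
    have t1 := hb (y := N 0 0) e00
    have t2 := hb (y := N 1 0) e01
    have t3 := hb (y := N 0 1) e10
    have t4 := hb (y := N 1 1) e11
    calc |(E 0 0 - 1) * N 0 0 + E 0 1 * N 1 0 + E 1 0 * N 0 1 + (E 1 1 - 1) * N 1 1|
        ≤ |(E 0 0 - 1) * N 0 0 + E 0 1 * N 1 0 + E 1 0 * N 0 1| + |(E 1 1 - 1) * N 1 1| :=
          abs_add_le _ _
      _ ≤ |(E 0 0 - 1) * N 0 0 + E 0 1 * N 1 0| + |E 1 0 * N 0 1| + |(E 1 1 - 1) * N 1 1| := by
          gcongr; exact abs_add_le _ _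
      _ ≤ |(E 0 0 - 1) * N 0 0| + |E 0 1 * N 1 0| + |E 1 0 * N 0 1| + |(E 1 1 - 1) * N 1 1| := by
          gcongr; exact abs_add_le _ _
      _ ≤ _ := by linarith
  have h3 : |N 0 0| + |N 1 0| + |N 0 1| + |N 1 1| ≤ 2 * frob N := by
    have h4 : (|N 0 0| + |N 1 0| + |N 0 1| + |N 1 1|) ^ 2 ≤ (2 * frob N) ^ 2 := by
      rw [mul_pow, frob_sq', ← sq_abs (N 0 0), ← sq_abs (N 0 1), ← sq_abs (N 1 0),
        ← sq_abs (N 1 1)]
      nlinarith [sq_nonneg (|N 0 0| - |N 1 0|), sq_nonneg (|N 0 0| - |N 0 1|),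
        sq_nonneg (|N 0 0| - |N 1 1|), sq_nonneg (|N 1 0| - |N 0 1|),
        sq_nonneg (|N 1 0| - |N 1 1|), sq_nonneg (|N 0 1| - |N 1 1|)]
    exact le_of_sq_le_sq h4 (by have := frob_nonneg N; positivity)
  calc |tr (E * N) - tr N| ≤ η * (|N 0 0| + |N 1 0| + |N 0 1| + |N 1 1|) := h2
    _ ≤ η * (2 * frob N) := by gcongr
    _ = 2 * η * frob N := by ring

theorem closeN_conj (δ : ℝ) (hδ : 0 < δ) (C : Set PSL(2, ℝ)) (hC : IsCompact C) :
    ∃ V ∈ 𝓝 (1 : PSL(2, ℝ)), ∀ E ∈ V, ∀ F ∈ C, ∀ b : PSL(2, ℝ),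
      CloseN δ (E * (F * b * F⁻¹)) b := by
  obtain ⟨R, hR⟩ := hC.bddAbove_image continuous_pfrob.continuousOn
  set R' : ℝ := max R 1 with hR'
  have hR1 : 1 ≤ R' := le_max_right _ _
  set η : ℝ := δ / (2 * R' ^ 2) with hη
  have hη0 : 0 < η := by positivity
  refine ⟨(QuotientGroup.mk : SL(2, ℝ) → PSL(2, ℝ)) '' {E | near η E}, ?_, ?_⟩
  · have := (QuotientGroup.isOpenMap_coe (N := Subgroup.center SL(2, ℝ))).image_mem_nhds
      (near_nhds η hη0)
    simpa using this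
  · rintro E ⟨E', hE', rfl⟩ F hF b
    obtain ⟨F', rfl⟩ := QuotientGroup.mk_surjective F
    obtain ⟨B', rfl⟩ := QuotientGroup.mk_surjective b
    have hF2 : frob F' ≤ R' := by
      have : pfrob (QuotientGroup.mk F' : PSL(2, ℝ)) ≤ R := hR ⟨_, hF, rfl⟩
      exact le_trans this (le_max_left _ _)
    unfold CloseN
    rw [← QuotientGroup.mk_inv, ← QuotientGroup.mk_mul, ← QuotientGroup.mk_mul,
      ← QuotientGroup.mk_mul, absTr_mk, absTr_mk, pfrob_mk]
    have h1 := tr_close_near hη0.le hE' (F' * B' * F'⁻¹)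
    rw [tr_conj] at h1
    refine h1.trans ?_
    have h2 : frob (F' * B' * F'⁻¹) ≤ R' ^ 2 * frob B' := by
      calc frob (F' * B' * F'⁻¹) ≤ frob (F' * B') * frob F'⁻¹ := frob_mul_le _ _
        _ ≤ (frob F' * frob B') * frob F' := by
            rw [frob_inv]
            exact mul_le_mul_of_nonneg_right (frob_mul_le _ _) (frob_nonneg _)
        _ = frob F' * frob F' * frob B' := by ring
        _ ≤ R' * R' * frob B' := by
            have := frob_nonneg F'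
            have := frob_nonneg B'
            gcongr
        _ = R' ^ 2 * frob B' := by ring
    calc 2 * η * frob (F' * B' * F'⁻¹) ≤ 2 * η * (R' ^ 2 * frob B') := by gcongr
      _ = δ * frob B' := by
          rw [hη]
          field_simp

theorem coh_closeN {X : Type*} [MeasurableSpace X] [MeasurableSpace.CountablyGenerated X]
    (μ : Measure X) [IsProbabilityMeasure μ] {n : ℕ} (T : X → X) (hT : MeasurePreserving T μ μ)
    (ι : X → Fin n) {G : Type*} [Group G] [TopologicalSpace G] [IsTopologicalGroup G]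
    [SecondCountableTopology G] [MeasurableSpace G] [BorelSpace G] (ρ : G →* PSL(2, ℝ))
    (hρ : Continuous ρ) (g h : Fin n → G) (f : X → G) (hf : Measurable f)
    (hcoh : ∀ᵐ x ∂μ, f (T x) * g (ι x) = h (ι x) * f x) (δ : ℝ) (hδ : 0 < δ) :
    Tendsto (fun k => μ {x | ¬ CloseN δ (wp (fun i => ρ (h (ι (T^[i] x)))) (ret T (lab k) x))
      (wp (fun i => ρ (g (ι (T^[i] x)))) (ret T (lab k) x))}) atTop (𝓝 0) :=
  coh_rel μ T hT ι ρ hρ (fun _ => CloseN δ) (fun _ C hC => closeN_conj δ hδ C hC) g h f hf hcoh 0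

end H24FB
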