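import Pool.Agent.H24.FB.BlockH3

/-! Block M: every interval exchange transformation preserves Lebesgue measure on `[0,1)`. -/

open MeasureTheory Filter Topology

namespace H24FB

/-- `[0, Σ lam)` is cut into the intervals of `lam`. -/
theorem Ico_eq_iUnion {n : ℕ} (lam : Fin n → ℝ) (hlam : ∀ i, 0 ≤ lam i)
    (hsum : ∑ i, lam i = 1) :
    Set.Ico (0 : ℝ) 1 = ⋃ k, Set.Ico (leftEnd lam k) (leftEnd lam k + lam k) := by
  ext x
  constructor
  · intro hx
    obtain ⟨k, hk⟩ := idx_exists lam hx.1 (by rw [hsum]; exact hx.2)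
    exact Set.mem_iUnion.2 ⟨k, hk⟩
  · intro hx
    obtain ⟨k, hk⟩ := Set.mem_iUnion.1 hx
    rw [mem_Ico_iff_pS] at hk
    have h0 : 0 ≤ pS lam k.val := by
      have := pS_mono lam hlam (Nat.zero_le k.val)
      rwa [pS_zero] at this
    have h1 : pS lam (k.val + 1) ≤ 1 := by
      have := pS_mono lam hlam (show k.val + 1 ≤ n from k.isLt)
      rwa [pS_top, hsum] at this
    exact ⟨h0.trans hk.1, lt_of_lt_of_le hk.2 h1⟩

theorem pairwise_disjoint_Ico {n : ℕ} (lam : Fin n → ℝ) (hlam : ∀ i, 0 ≤ lam i) :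
    Pairwise (Function.onFun Disjoint fun k =>
      Set.Ico (leftEnd lam k) (leftEnd lam k + lam k)) := by
  intro k l hkl
  rw [Function.onFun, Set.disjoint_left]
  intro x hk hl
  exact hkl (idx_unique lam hlam hk hl)

theorem volume_inter_Ico {n : ℕ} (lam : Fin n → ℝ) (hlam : ∀ i, 0 ≤ lam i)
    (hsum : ∑ i, lam i = 1) (S : Set ℝ) (hS : MeasurableSet S) :
    volume (S ∩ Set.Ico (0 : ℝ) 1) =
      ∑ k, volume (S ∩ Set.Ico (leftEnd lam k) (leftEnd lam k + lam k)) := by
  rw [Ico_eq_iUnion lam hlam hsum, Set.inter_iUnion, measure_iUnion, tsum_fintype]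
  · intro k l hkl
    exact ((pairwise_disjoint_Ico lam hlam) hkl).mono Set.inter_subset_right
      Set.inter_subset_right
  · intro k
    exact hS.inter measurableSet_Ico

theorem leftEndImg_eq {n : ℕ} (lam : Fin n → ℝ) (π : Equiv.Perm (Fin n)) (k : Fin n) :
    leftEndImg lam π k = leftEnd (fun j => lam (π.symm j)) (π k) := by
  unfold leftEndImg leftEnd
  refine Finset.sum_bij (fun i _ => π i) ?_ ?_ ?_ ?_
  · intro i hi
    simp only [Finset.mem_filter, Finset.mem_univ, true_and] at hi ⊢
    exact hi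
  · intro a _ b _ h
    exact π.injective h
  · intro j hj
    refine ⟨π.symm j, ?_, by simp⟩
    simp only [Finset.mem_filter, Finset.mem_univ, true_and] at hj ⊢
    simpa using hj
  · intro i _
    simp

theorem measurable_iet {m : ℕ} (lam : Fin (m + 2) → ℝ) (hlam : ∀ i, 0 ≤ lam i)
    (π : Equiv.Perm (Fin (m + 2))) : Measurable (iet lam π) := by
  have hidx := measurable_idx_of_nonneg lam hlam
  have h1 : Measurable fun x => leftEnd lam (idx lam x) :=
    (measurable_of_finite (leftEnd lam)).comp hidx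
  have h2 : Measurable fun x => leftEndImg lam π (idx lam x) :=
    (measurable_of_finite (leftEndImg lam π)).comp hidx
  exact (measurable_id.sub h1).add h2

/-- Every interval exchange transformation preserves Lebesgue measure. -/
theorem measurePreserving_iet {m : ℕ} (lam : Fin (m + 2) → ℝ) (hlam : ∀ i, 0 ≤ lam i)
    (hsum : ∑ i, lam i = 1) (π : Equiv.Perm (Fin (m + 2))) :
    MeasurePreserving (iet lam π) (volume.restrict (Set.Ico (0 : ℝ) 1))
      (volume.restrict (Set.Ico (0 : ℝ) 1)) := by
  have hm := measurable_iet lam hlam π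
  refine ⟨hm, ?_⟩
  ext A hA
  rw [Measure.map_apply hm hA, Measure.restrict_apply (hm hA), Measure.restrict_apply hA]
  have hsum' : ∑ j, lam (π.symm j) = 1 := by
    rw [← hsum]
    exact Equiv.sum_comp π.symm lam
  rw [volume_inter_Ico lam hlam hsum _ (hm hA),
    volume_inter_Ico (fun j => lam (π.symm j)) (fun j => hlam _) hsum' A hA,
    ← Equiv.sum_comp π (fun j => volume (A ∩ Set.Ico (leftEnd (fun j => lam (π.symm j)) j)
      (leftEnd (fun j => lam (π.symm j)) j + lam (π.symm j))))]
  refine Finset.sum_congr rfl fun k _ => ?_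
  rw [← leftEndImg_eq, Equiv.symm_apply_apply]
  set c : ℝ := leftEndImg lam π k - leftEnd lam k with hc
  have hset : iet lam π ⁻¹' A ∩ Set.Ico (leftEnd lam k) (leftEnd lam k + lam k) =
      (fun x => x + c) ⁻¹' (A ∩ Set.Ico (leftEndImg lam π k) (leftEndImg lam π k + lam k)) := by
    ext x
    simp only [Set.mem_inter_iff, Set.mem_preimage, Set.mem_Ico]
    constructor
    · rintro ⟨hx, hx1, hx2⟩
      have hidx : idx lam x = k := idx_eq_of_mem lam hlam ⟨hx1, hx2⟩
      have hval : iet lam π x = x + c := by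
        unfold iet
        rw [hidx, hc]; ring
      rw [hval] at hx
      exact ⟨hx, by linarith, by linarith⟩
    · rintro ⟨hx, hx1, hx2⟩
      have hx1' : leftEnd lam k ≤ x := by linarith
      have hx2' : x < leftEnd lam k + lam k := by linarith
      have hidx : idx lam x = k := idx_eq_of_mem lam hlam ⟨hx1', hx2'⟩
      have hval : iet lam π x = x + c := by
        unfold iet
        rw [hidx, hc]; ring
      rw [hval]
      exact ⟨hx, hx1', hx2'⟩
  rw [hset, measure_preimage_add_right]

end H24FB
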