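import Pool.Agent.H24.FB.BlockH1
import Pool.Agent.H24.FB.BlockH2
import Pool.Agent.H24.FB.BlockH3

/-! Block N3: the permutation (3 2 1) of three intervals is the first return map of a
rotation; every irreducible permutation of three letters is covered. -/

open MeasureTheory Measure Filter Topology Set

namespace H24FB

/-- Coding of the rotation of the circle of length `1 + v 1`, scaled to length one. -/
noncomputable def iota4 (v : Fin 2 → ℝ) (u : ℝ) : Fin 4 :=
  if (1 + v 1) * u < v 0 then 0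
  else if (1 + v 1) * u < v 0 + v 1 then 1
  else if (1 + v 1) * u < 1 then 2 else 3

theorem measurable_iota4 (v : Fin 2 → ℝ) : Measurable (iota4 v) := by
  unfold iota4
  refine Measurable.ite (measurableSet_lt (by fun_prop) measurable_const) measurable_const ?_
  refine Measurable.ite (measurableSet_lt (by fun_prop) measurable_const) measurable_const ?_
  exact Measurable.ite (measurableSet_lt (by fun_prop) measurable_const) measurable_const
    measurable_const

theorem thr_iff {L t x y : ℝ} (hL : 0 < L) (hxy : x ≤ y) (h : ¬ (x < t / L ∧ t / L ≤ y)) :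
    L * x < t ↔ L * y < t := by
  constructor
  · intro hx
    by_contra hy
    apply h
    constructor
    · rw [lt_div_iff₀ hL]; linarith [mul_comm L x]
    · rw [div_le_iff₀ hL]; linarith [mul_comm L y]
  · intro hy
    nlinarith

theorem iota4_const (v : Fin 2 → ℝ) (hv : ∀ i, 0 < v i) (x y : ℝ) (hxy : x ≤ y)
    (h : ∀ d ∈ ({v 0 / (1 + v 1), (v 0 + v 1) / (1 + v 1), 1 / (1 + v 1)} : Finset ℝ),
      ¬ (x < d ∧ d ≤ y)) : iota4 v x = iota4 v y := by
  have hL : 0 < 1 + v 1 := by linarith [hv 1]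
  have h1 := thr_iff hL hxy (h _ (by simp) : ¬ (x < v 0 / (1 + v 1) ∧ v 0 / (1 + v 1) ≤ y))
  have h2 := thr_iff hL hxy
    (h _ (by simp) : ¬ (x < (v 0 + v 1) / (1 + v 1) ∧ (v 0 + v 1) / (1 + v 1) ≤ y))
  have h3 := thr_iff hL hxy (h _ (by simp) : ¬ (x < 1 / (1 + v 1) ∧ 1 / (1 + v 1) ≤ y))
  unfold iota4
  simp only [h1, h2, h3]

section values

variable (v : Fin 2 → ℝ)

theorem sP0 : simplexPt v (0 : Fin 3) = v 0 := rfl
theorem sP1 : simplexPt v (1 : Fin 3) = v 1 := rfl
theorem sP2 : simplexPt v (2 : Fin 3) = 1 - (v 0 + v 1) := by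
  have : simplexPt v (2 : Fin 3) = 1 - ∑ i, v i := rfl
  rw [this, Fin.sum_univ_two]

theorem lE0 : leftEnd (simplexPt v) (0 : Fin 3) = 0 := by
  simp [leftEnd]
theorem lE1 : leftEnd (simplexPt v) (1 : Fin 3) = v 0 := by
  unfold leftEnd
  rw [show (Finset.univ.filter (fun i : Fin 3 => i < 1)) = {0} by decide]
  rw [Finset.sum_singleton, sP0]
theorem lE2 : leftEnd (simplexPt v) (2 : Fin 3) = v 0 + v 1 := by
  unfold leftEnd
  rw [show (Finset.univ.filter (fun i : Fin 3 => i < 2)) = {0, 1} by decide]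
  rw [Finset.sum_pair (by decide), sP0, sP1]

theorem lI0 : leftEndImg (simplexPt v) (Fin.revPerm : Equiv.Perm (Fin 3)) 0 = 1 - v 0 := by
  unfold leftEndImg
  rw [show (Finset.univ.filter (fun i : Fin 3 => (Fin.revPerm i : Fin 3) < Fin.revPerm 0)) = {1, 2}
    by decide]
  rw [Finset.sum_pair (by decide), sP1, sP2]
  ring
theorem lI1 : leftEndImg (simplexPt v) (Fin.revPerm : Equiv.Perm (Fin 3)) 1
    = 1 - (v 0 + v 1) := by
  unfold leftEndImg
  rw [show (Finset.univ.filter (fun i : Fin 3 => (Fin.revPerm i : Fin 3) < Fin.revPerm 1)) = {2}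
    by decide]
  rw [Finset.sum_singleton, sP2]
theorem lI2 : leftEndImg (simplexPt v) (Fin.revPerm : Equiv.Perm (Fin 3)) 2 = 0 := by
  unfold leftEndImg
  rw [show (Finset.univ.filter (fun i : Fin 3 => (Fin.revPerm i : Fin 3) < Fin.revPerm 2)) = ∅
    by decide]
  rw [Finset.sum_empty]

variable {v} (hv : ∀ i, 0 < v i) (hv1 : ∑ i, v i < 1)
include hv hv1

omit hv in
theorem sum_lt : v 0 + v 1 < 1 := by
  rwa [Fin.sum_univ_two] at hv1

theorem idx0 {x : ℝ} (h0 : 0 ≤ x) (h1 : x < v 0) : idx (simplexPt v) x = 0 := by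
  apply idx_eq_of_mem _ (fun i => (simplexPt_pos v hv hv1 i).le)
  rw [lE0, sP0]
  exact ⟨h0, by linarith⟩
theorem idx1 {x : ℝ} (h0 : v 0 ≤ x) (h1 : x < v 0 + v 1) : idx (simplexPt v) x = 1 := by
  apply idx_eq_of_mem _ (fun i => (simplexPt_pos v hv hv1 i).le)
  rw [lE1, sP1]
  exact ⟨h0, by linarith⟩
theorem idx2 {x : ℝ} (h0 : v 0 + v 1 ≤ x) (h1 : x < 1) : idx (simplexPt v) x = 2 := by
  apply idx_eq_of_mem _ (fun i => (simplexPt_pos v hv hv1 i).le)
  rw [lE2, sP2]
  exact ⟨h0, by linarith⟩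

theorem iet0 {x : ℝ} (h0 : 0 ≤ x) (h1 : x < v 0) :
    iet (simplexPt v) (Fin.revPerm : Equiv.Perm (Fin 3)) x = x + (1 - v 0) := by
  unfold iet
  rw [idx0 hv hv1 h0 h1, lE0, lI0]
  ring
theorem iet1 {x : ℝ} (h0 : v 0 ≤ x) (h1 : x < v 0 + v 1) :
    iet (simplexPt v) (Fin.revPerm : Equiv.Perm (Fin 3)) x = x - v 0 + (1 - (v 0 + v 1)) := by
  unfold iet
  rw [idx1 hv hv1 h0 h1, lE1, lI1]
theorem iet2 {x : ℝ} (h0 : v 0 + v 1 ≤ x) (h1 : x < 1) :
    iet (simplexPt v) (Fin.revPerm : Equiv.Perm (Fin 3)) x = x - (v 0 + v 1) := by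
  unfold iet
  rw [idx2 hv hv1 h0 h1, lE2, lI2]
  ring

end values

/-- The rotation in the long coordinate. -/
theorem rot_lt (v : Fin 2 → ℝ) (hv : ∀ i, 0 < v i) (hv1 : ∑ i, v i < 1) {u : ℝ}
    (hu : u ∈ Set.Ico (0 : ℝ) 1) (h : (1 + v 1) * u < v 0 + v 1) :
    (1 + v 1) * Int.fract (u - (v 0 + v 1) / (1 + v 1)) = (1 + v 1) * u + (1 - v 0) := by
  have hL : 0 < 1 + v 1 := by linarith [hv 1]
  have hs := sum_lt hv1
  have h1 : u < (v 0 + v 1) / (1 + v 1) := by rw [lt_div_iff₀ hL]; linarith [mul_comm u (1 + v 1)]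
  have h2 : (v 0 + v 1) / (1 + v 1) < 1 := by rw [div_lt_one hL]; linarith [hv 1]
  have h3 : Int.fract (u - (v 0 + v 1) / (1 + v 1)) = u - (v 0 + v 1) / (1 + v 1) + 1 := by
    have e : u - (v 0 + v 1) / (1 + v 1) = (u - (v 0 + v 1) / (1 + v 1) + 1) + ((-1 : ℤ) : ℝ) := by
      push_cast; ring
    conv_lhs => rw [e]
    rw [Int.fract_add_intCast, Int.fract_eq_self]
    exact ⟨by linarith [hu.1], by linarith⟩
  rw [h3]
  field_simp
  ring

theorem rot_ge (v : Fin 2 → ℝ) (hv : ∀ i, 0 < v i) {u : ℝ}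
    (hu : u ∈ Set.Ico (0 : ℝ) 1) (h : ¬ (1 + v 1) * u < v 0 + v 1) :
    (1 + v 1) * Int.fract (u - (v 0 + v 1) / (1 + v 1)) = (1 + v 1) * u - (v 0 + v 1) := by
  have hL : 0 < 1 + v 1 := by linarith [hv 1]
  have h1 : (v 0 + v 1) / (1 + v 1) ≤ u := by
    rw [div_le_iff₀ hL]; linarith [mul_comm u (1 + v 1)]
  have h0 : 0 < (v 0 + v 1) / (1 + v 1) := by
    have := hv 0; have := hv 1; positivity
  have h3 : Int.fract (u - (v 0 + v 1) / (1 + v 1)) = u - (v 0 + v 1) / (1 + v 1) := by
    rw [Int.fract_eq_self]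
    exact ⟨by linarith, by linarith [hu.2]⟩
  rw [h3]
  field_simp


/-- The null set of exceptional points, in the long coordinate. -/
theorem null_affine {N : Set ℝ} (hN : volume N = 0) {L : ℝ} (hL : L ≠ 0) (c : ℝ) :
    volume {u : ℝ | L * u + c ∈ N} = 0 := by
  have h1 : volume ((fun y : ℝ => y + c) ⁻¹' N) = 0 := by
    rw [measure_preimage_add_right]; exact hN
  have h2 : {u : ℝ | L * u + c ∈ N} = (fun u => L * u) ⁻¹' ((fun y : ℝ => y + c) ⁻¹' N) := rfl
  rw [h2, Real.volume_preimage_mul_left hL, h1, mul_zero]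

/-- Merging: the letters `1` and `3` of the rotation give the letter `1` of the exchange. -/
def merge {G : Type*} [Mul G] (p : Fin 4 → G) : Fin 3 → G := ![p 0, p 3 * p 1, p 2]

/-- A transfer function over the exchange gives one over the rotation. -/
theorem transfer_up {G : Type*} [Group G] [MeasurableSpace G] [MeasurableMul G]
    (v : Fin 2 → ℝ) (hv : ∀ i, 0 < v i) (hv1 : ∑ i, v i < 1) (g h : Fin 4 → G)
    (f : ℝ → G) (hf : Measurable f)
    (hcoh : ∀ᵐ x ∂(volume.restrict (Set.Ico (0 : ℝ) 1)),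
      f (iet (simplexPt v) (Fin.revPerm : Equiv.Perm (Fin 3)) x) * merge g (idx (simplexPt v) x)
        = merge h (idx (simplexPt v) x) * f x) :
    ∃ f' : ℝ → G, Measurable f' ∧ ∀ᵐ x ∂(volume.restrict (Set.Ico (0 : ℝ) 1)),
      f' (Int.fract (x - (v 0 + v 1) / (1 + v 1))) * g (iota4 v x) = h (iota4 v x) * f' x := by
  classical
  have hL : 0 < 1 + v 1 := by linarith [hv 1]
  have hs := sum_lt hv1
  have h0 := hv 0
  have h1 := hv 1
  set L : ℝ := 1 + v 1 with hLdef
  set f' : ℝ → G := fun u => if L * u < 1 then f (L * u + 0)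
    else h 1 * f (L * u + (v 0 - 1)) * (g 1)⁻¹ with hf'
  refine ⟨f', ?_, ?_⟩
  · refine Measurable.ite (measurableSet_lt (by fun_prop) measurable_const) ?_ ?_
    · exact hf.comp (by fun_prop)
    · exact ((hf.comp (by fun_prop : Measurable fun u : ℝ => L * u + (v 0 - 1))).const_mul
        (h 1)).mul_const _
  · rw [ae_restrict_iff' measurableSet_Ico] at hcoh ⊢
    have hN := ae_iff.1 hcoh
    have n1 := null_affine hN hL.ne' 0
    have n2 := null_affine hN hL.ne' (v 0 - 1)
    have a1 : ∀ᵐ u : ℝ, L * u + 0 ∉ {x | ¬ (x ∈ Set.Ico (0 : ℝ) 1 →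
      f (iet (simplexPt v) (Fin.revPerm : Equiv.Perm (Fin 3)) x) * merge g (idx (simplexPt v) x)
        = merge h (idx (simplexPt v) x) * f x)} := by
      rw [ae_iff]; simpa only [not_not] using n1
    have a2 : ∀ᵐ u : ℝ, L * u + (v 0 - 1) ∉ {x | ¬ (x ∈ Set.Ico (0 : ℝ) 1 →
      f (iet (simplexPt v) (Fin.revPerm : Equiv.Perm (Fin 3)) x) * merge g (idx (simplexPt v) x)
        = merge h (idx (simplexPt v) x) * f x)} := by
      rw [ae_iff]; simpa only [not_not] using n2
    filter_upwards [a1, a2] with u hu1 hu2 hu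
    simp only [not_not] at hu1 hu2
    have hu0 : 0 ≤ L * u := mul_nonneg hL.le hu.1
    have huL : L * u < L := by nlinarith [hu.2]
    by_cases c1 : L * u < v 0 + v 1
    · have hR := rot_lt v hv hv1 hu c1
      rw [← hLdef] at hR
      by_cases c0 : L * u < v 0
      · -- first interval
        have hi : iota4 v u = 0 := by unfold iota4; rw [if_pos c0]
        have e1 : f' (Int.fract (u - (v 0 + v 1) / L)) = f (L * u + (1 - v 0)) := by
          simp only [hf']
          rw [hR, if_pos (by linarith), add_zero]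
        have e2 : f' u = f (L * u) := by
          simp only [hf']
          rw [if_pos (by linarith), add_zero]
        have := hu1 ⟨by linarith, by linarith⟩
        rw [add_zero, iet0 hv hv1 hu0 c0, idx0 hv hv1 hu0 c0] at this
        rw [e1, e2, hi]
        exact this
      · have hi : iota4 v u = 1 := by unfold iota4; rw [if_neg c0, if_pos c1]
        have e1 : f' (Int.fract (u - (v 0 + v 1) / L)) = h 1 * f (L * u) * (g 1)⁻¹ := by
          simp only [hf']
          rw [hR, if_neg (by linarith), show L * u + (1 - v 0) + (v 0 - 1) = L * u by ring]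
        have e2 : f' u = f (L * u) := by
          simp only [hf']
          rw [if_pos (by linarith), add_zero]
        rw [e1, e2, hi]
        group
    · have hR := rot_ge v hv hu c1
      rw [← hLdef] at hR
      have c0 : ¬ L * u < v 0 := by linarith
      have e1 : f' (Int.fract (u - (v 0 + v 1) / L)) = f (L * u - (v 0 + v 1)) := by
        simp only [hf']
        rw [hR, if_pos (by linarith), add_zero]
      by_cases c2 : L * u < 1
      · have hi : iota4 v u = 2 := by unfold iota4; rw [if_neg c0, if_neg c1, if_pos c2]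
        have e2 : f' u = f (L * u) := by
          simp only [hf']
          rw [if_pos c2, add_zero]
        have := hu1 ⟨by linarith, by linarith⟩
        rw [add_zero, iet2 hv hv1 (by linarith) c2, idx2 hv hv1 (by linarith) c2] at this
        rw [e1, e2, hi]
        exact this
      · have hi : iota4 v u = 3 := by unfold iota4; rw [if_neg c0, if_neg c1, if_neg c2]
        have e2 : f' u = h 1 * f (L * u + (v 0 - 1)) * (g 1)⁻¹ := by
          simp only [hf']
          rw [if_neg c2]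
        have := hu2 ⟨by linarith, by linarith⟩
        rw [iet1 hv hv1 (by linarith) (by linarith), idx1 hv hv1 (by linarith) (by linarith)] at this
        rw [show L * u + (v 0 - 1) - v 0 + (1 - (v 0 + v 1)) = L * u - (v 0 + v 1) by ring] at this
        have t2 : f (L * u - (v 0 + v 1)) * (g 3 * g 1) = h 3 * h 1 * f (L * u + (v 0 - 1)) := this
        rw [e1, e2, hi]
        have t3 : f (L * u - (v 0 + v 1)) * g 3
            = h 3 * h 1 * f (L * u + (v 0 - 1)) * (g 1)⁻¹ := by
          rw [← t2]; group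
        rw [t3]; group

/-- From an almost sure property of merged four letter tuples to three letter tuples. -/
theorem merge_ae {G : Type*} [Group G] [TopologicalSpace G] [IsTopologicalGroup G]
    [LocallyCompactSpace G] [SecondCountableTopology G] [T2Space G] [MeasurableSpace G]
    [BorelSpace G] (haar : Measure G) [haar.IsHaarMeasure]
    (P : (Fin 3 → G) → (Fin 3 → G) → Prop)
    (h : ∀ᵐ p : (Fin 4 → G) × (Fin 4 → G)
      ∂((Measure.pi fun _ => haar).prod (Measure.pi fun _ => haar)), P (merge p.1) (merge p.2)) :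
    ∀ᵐ p : (Fin 3 → G) × (Fin 3 → G)
      ∂((Measure.pi fun _ => haar).prod (Measure.pi fun _ => haar)), P p.1 p.2 := by
  classical
  set Q : Measure (Fin 3 → G) := Measure.pi fun _ => haar with hQ
  -- split off the last letter
  have hsplit := (measurePreserving_piFinSuccAbove (fun _ : Fin 4 => haar) (Fin.last 3)).symm
  set e := (MeasurableEquiv.piFinSuccAbove (fun _ : Fin 4 => G) (Fin.last 3)).symm with he
  have hval : ∀ (a : G) (r : Fin 3 → G), merge (e (a, r)) = ![1, a, 1] * r := by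
    intro a r
    have h0 : e (a, r) 0 = r 0 :=
      Fin.insertNth_apply_succAbove (α := fun _ : Fin 4 => G) (Fin.last 3) a r 0
    have h1 : e (a, r) 1 = r 1 :=
      Fin.insertNth_apply_succAbove (α := fun _ : Fin 4 => G) (Fin.last 3) a r 1
    have h2 : e (a, r) 2 = r 2 :=
      Fin.insertNth_apply_succAbove (α := fun _ : Fin 4 => G) (Fin.last 3) a r 2
    have h3 : e (a, r) 3 = a :=
      Fin.insertNth_apply_same (α := fun _ : Fin 4 => G) (Fin.last 3) a r
    ext i
    fin_cases i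
    · simp [merge, h0]
    · simp [merge, h1, h3]
    · simp [merge, h2]
  have h1 : ∀ᵐ z : (G × (Fin 3 → G)) × (G × (Fin 3 → G)) ∂((haar.prod Q).prod (haar.prod Q)),
      P (![1, z.1.1, 1] * z.1.2) (![1, z.2.1, 1] * z.2.2) := by
    have hmp := (hsplit.prod hsplit).quasiMeasurePreserving.ae h
    filter_upwards [hmp] with z hz
    have a1 := hval z.1.1 z.1.2
    have a2 := hval z.2.1 z.2.2
    rw [← a1, ← a2]
    exact hz
  -- choose the first extra letter
  have h2 : ∀ᵐ w : G × ((Fin 3 → G) × (G × (Fin 3 → G))) ∂(haar.prod (Q.prod (haar.prod Q))),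
      P (![1, w.1, 1] * w.2.1) (![1, w.2.2.1, 1] * w.2.2.2) :=
    ((measurePreserving_prodAssoc haar Q (haar.prod Q)).symm).quasiMeasurePreserving.ae h1
  obtain ⟨a, ha⟩ := (Measure.ae_ae_of_ae_prod h2).exists
  -- choose the second extra letter
  have h3 : ∀ᵐ w : (G × (Fin 3 → G)) × (Fin 3 → G) ∂((haar.prod Q).prod Q),
      P (![1, a, 1] * w.2) (![1, w.1.1, 1] * w.1.2) :=
    (Measure.measurePreserving_swap (μ := haar.prod Q) (ν := Q)).quasiMeasurePreserving.ae ha
  have h4 : ∀ᵐ w : G × ((Fin 3 → G) × (Fin 3 → G)) ∂(haar.prod (Q.prod Q)),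
      P (![1, a, 1] * w.2.2) (![1, w.1, 1] * w.2.1) :=
    ((measurePreserving_prodAssoc haar Q Q).symm).quasiMeasurePreserving.ae h3
  obtain ⟨b, hb⟩ := (Measure.ae_ae_of_ae_prod h4).exists
  -- translate back
  have hma : MeasurePreserving (fun r : Fin 3 → G => ![1, a, 1]⁻¹ * r) Q Q :=
    measurePreserving_mul_left Q _
  have hmb : MeasurePreserving (fun r : Fin 3 → G => ![1, b, 1]⁻¹ * r) Q Q :=
    measurePreserving_mul_left Q _
  have h5 : ∀ᵐ w : (Fin 3 → G) × (Fin 3 → G) ∂(Q.prod Q), P w.2 w.1 := by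
    have := (hmb.prod hma).quasiMeasurePreserving.ae hb
    filter_upwards [this] with w hw
    simpa using hw
  exact (Measure.measurePreserving_swap (μ := Q) (ν := Q)).quasiMeasurePreserving.ae h5

/-- The rotation number is good for almost every length vector. -/
theorem ae_good_rev : ∀ᵐ v : Fin 2 → ℝ, (∀ i, 0 < v i) → Good ((v 0 + v 1) / (1 + v 1)) := by
  have hN : volume (toMeasurable volume {α : ℝ | ¬ Good α}) = 0 := by
    rw [measure_toMeasurable]
    exact ae_iff.1 ae_good
  set N := toMeasurable volume {α : ℝ | ¬ Good α} with hNdef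
  have hNm : MeasurableSet N := measurableSet_toMeasurable _ _
  have hNsub : ∀ α, ¬ Good α → α ∈ N := fun α hα => subset_toMeasurable _ _ hα
  -- the statement on the plane
  have hplane : ∀ᵐ z : ℝ × ℝ, ¬ (0 < z.1 ∧ (z.2 + z.1) / (1 + z.1) ∈ N) := by
    rw [ae_iff]
    simp only [not_not]
    have hm : MeasurableSet {z : ℝ × ℝ | 0 < z.1 ∧ (z.2 + z.1) / (1 + z.1) ∈ N} := by
      refine (measurableSet_lt measurable_const measurable_fst).inter ?_
      have : Measurable (fun z : ℝ × ℝ => (z.2 + z.1) / (1 + z.1)) := by fun_prop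
      exact this hNm
    rw [Measure.volume_eq_prod, Measure.measure_prod_null hm]
    filter_upwards with y
    by_cases hy : 0 < y
    · have hL : (1 + y)⁻¹ ≠ 0 := by positivity
      have hz : volume {x : ℝ | (1 + y)⁻¹ * x + y * (1 + y)⁻¹ ∈ N} = 0 := by
        have h1 : volume ((fun t : ℝ => t + y * (1 + y)⁻¹) ⁻¹' N) = 0 := by
          rw [measure_preimage_add_right]; exact hN
        have h2 : {x : ℝ | (1 + y)⁻¹ * x + y * (1 + y)⁻¹ ∈ N}
            = (fun u => (1 + y)⁻¹ * u) ⁻¹' ((fun t : ℝ => t + y * (1 + y)⁻¹) ⁻¹' N) := rfl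
        rw [h2, Real.volume_preimage_mul_left hL, h1, mul_zero]
      refine measure_mono_null ?_ hz
      intro x hx
      have hx2 : (x + y) / (1 + y) ∈ N := hx.2
      have : (1 + y)⁻¹ * x + y * (1 + y)⁻¹ = (x + y) / (1 + y) := by
        field_simp
      show (1 + y)⁻¹ * x + y * (1 + y)⁻¹ ∈ N
      rw [this]
      exact hx2
    · refine measure_mono_null ?_ (measure_empty (μ := (volume : Measure ℝ)))
      intro x hx
      exact absurd hx.1 hy
  have hswap : ∀ᵐ z : ℝ × ℝ, ¬ (0 < z.2 ∧ (z.1 + z.2) / (1 + z.2) ∈ N) := by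
    have := (Measure.measurePreserving_swap (μ := (volume : Measure ℝ))
      (ν := (volume : Measure ℝ))).quasiMeasurePreserving.ae hplane
    exact this
  have hfin := (volume_preserving_finTwoArrow ℝ).quasiMeasurePreserving.ae hswap
  filter_upwards [hfin] with v hv hpos
  by_contra hbad
  exact hv ⟨hpos 1, hNsub _ hbad⟩

/-- The irreducible permutations of three letters. -/
theorem irr_three (π : Equiv.Perm (Fin 3))
    (h : ∀ k : Fin 3, 0 < k → ∃ i : Fin 3, i < k ∧ k ≤ π i) :
    π = Equiv.addRight 1 ∨ π = Equiv.addRight 2 ∨ π = Fin.revPerm := by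
  revert π
  decide

/-- The irreducible permutations of two letters. -/
theorem irr_two (π : Equiv.Perm (Fin 2))
    (h : ∀ k : Fin 2, 0 < k → ∃ i : Fin 2, i < k ∧ k ≤ π i) :
    π = Equiv.addRight 1 := by
  revert π
  decide

/-- The permutation (3 2 1), from the theorem on rotations with four letters. -/
theorem n3_rev_of {G : Type*} [Group G] [TopologicalSpace G] [IsTopologicalGroup G]
    [LocallyCompactSpace G] [SecondCountableTopology G] [T2Space G] [MeasurableSpace G]
    [BorelSpace G] (haar : Measure G) [haar.IsHaarMeasure]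
    (hmain : ∀ s : ℝ, Good s → ∀ ι : ℝ → Fin 4, Measurable ι → ∀ D : Finset ℝ,
      (∀ x ∈ Set.Ico (0:ℝ) 1, ∀ y ∈ Set.Ico (0:ℝ) 1, x ≤ y →
        (∀ d ∈ D, ¬ (x < d ∧ d ≤ y)) → ι x = ι y) →
      ∀ᵐ p : (Fin 4 → G) × (Fin 4 → G)
        ∂((Measure.pi fun _ => haar).prod (Measure.pi fun _ => haar)),
        ¬ ∃ f : ℝ → G, Measurable f ∧ ∀ᵐ x ∂(volume.restrict (Set.Ico (0 : ℝ) 1)),
          f (Int.fract (x - s)) * p.1 (ι x) = p.2 (ι x) * f x) :
    ∀ᵐ v : Fin 2 → ℝ, (∀ i, 0 < v i) → ∑ i, v i < 1 →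
      ∀ᵐ p : (Fin 3 → G) × (Fin 3 → G)
        ∂((Measure.pi fun _ => haar).prod (Measure.pi fun _ => haar)),
        ¬ ∃ f : ℝ → G, Measurable f ∧ ∀ᵐ x ∂(volume.restrict (Set.Ico (0 : ℝ) 1)),
          f (iet (simplexPt v) (Fin.revPerm : Equiv.Perm (Fin 3)) x) * p.1 (idx (simplexPt v) x)
            = p.2 (idx (simplexPt v) x) * f x := by
  filter_upwards [ae_good_rev] with v hgood hv hv1
  have h4 := hmain _ (hgood hv) (iota4 v) (measurable_iota4 v)
    {v 0 / (1 + v 1), (v 0 + v 1) / (1 + v 1), 1 / (1 + v 1)}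
    (fun x _ y _ hxy hd => iota4_const v hv x y hxy hd)
  refine merge_ae haar (fun g h => ¬ ∃ f : ℝ → G, Measurable f ∧
    ∀ᵐ x ∂(volume.restrict (Set.Ico (0 : ℝ) 1)),
      f (iet (simplexPt v) (Fin.revPerm : Equiv.Perm (Fin 3)) x) * g (idx (simplexPt v) x)
        = h (idx (simplexPt v) x) * f x) ?_
  filter_upwards [h4] with p hp
  rintro ⟨f, hf, hcoh⟩
  exact hp (transfer_up v hv hv1 p.1 p.2 f hf hcoh)

end H24FB
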