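import Pool.Agent.H24.FB.BlockG

/-! Block R of the MP_fb7d21_an project: groups with a real quotient. -/

open MeasureTheory Measure Filter Topology

namespace H24FB

namespace RealAux

lemma clamp_sub_le (M a b : ℝ) :
    |max (-M) (min M a) - max (-M) (min M b)| ≤ |a - b| := by
  have h1 : |max (-M) (min M a) - max (-M) (min M b)| ≤ |min M a - min M b| := by
    rw [max_comm (-M) (min M a), max_comm (-M) (min M b)]
    exact abs_max_sub_max_le_abs _ _ _
  have h2 : |min M a - min M b| ≤ |a - b| := by
    rcases le_total M a with h | h <;> rcases le_total M b with h' | h' <;>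
      simp only [min_eq_left, min_eq_right, h, h'] <;>
      rw [abs_le] <;> constructor <;>
      [skip; skip; skip; skip; skip; skip; skip; skip] <;>
      cases abs_cases (a - b) <;> linarith
  exact h1.trans h2

/-- A bounded measurable coboundary has integral zero. -/
lemma coboundary {X : Type*} [MeasurableSpace X] (μ : Measure X) [IsProbabilityMeasure μ]
    (T : X → X) (hT : MeasurePreserving T μ μ) (F : X → ℝ) (hF : Measurable F) (u : X → ℝ)
    (C : ℝ) (hC : ∀ x, |u x| ≤ C) (h : ∀ᵐ x ∂μ, F (T x) - F x = u x) :
    ∫ x, u x ∂μ = 0 := by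
  set FM : ℕ → X → ℝ := fun M x => max (-(M : ℝ)) (min (M : ℝ) (F x)) with hFM
  have hm : ∀ M, Measurable (FM M) := fun M =>
    measurable_const.max (measurable_const.min hF)
  have hb : ∀ M x, ‖FM M x‖ ≤ M := by
    intro M x
    have hM : (0 : ℝ) ≤ M := Nat.cast_nonneg M
    rw [Real.norm_eq_abs, abs_le]
    constructor
    · exact le_max_left _ _
    · exact max_le (by linarith) (min_le_left _ _)
  have hint : ∀ M, Integrable (FM M) μ := fun M =>
    Integrable.of_bound (hm M).aestronglyMeasurable M (ae_of_all _ (hb M))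
  have hintT : ∀ M, Integrable (fun x => FM M (T x)) μ := fun M =>
    Integrable.of_bound ((hm M).comp hT.measurable).aestronglyMeasurable M
      (ae_of_all _ fun x => hb M (T x))
  have h0 : ∀ M, ∫ x, (FM M (T x) - FM M x) ∂μ = 0 := by
    intro M
    rw [integral_sub (hintT M) (hint M)]
    have e := integral_map (μ := μ) hT.measurable.aemeasurable (f := FM M)
      (hm M).aestronglyMeasurable
    rw [hT.map_eq] at e
    rw [← e, sub_self]
  have hconv : ∀ x, Tendsto (fun M : ℕ => FM M x) atTop (𝓝 (F x)) := by
    intro x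
    refine tendsto_const_nhds.congr' ?_
    obtain ⟨N, hN⟩ := exists_nat_ge |F x|
    filter_upwards [eventually_ge_atTop N] with M hM
    have hM' : |F x| ≤ (M : ℝ) := hN.trans (by exact_mod_cast hM)
    rw [abs_le] at hM'
    simp only [hFM]
    rw [min_eq_right hM'.2, max_eq_right hM'.1]
  have hlim : Tendsto (fun M : ℕ => ∫ x, (FM M (T x) - FM M x) ∂μ) atTop
      (𝓝 (∫ x, u x ∂μ)) := by
    refine tendsto_integral_of_dominated_convergence (fun _ => C) ?_ (integrable_const C) ?_ ?_
    · intro M
      exact (((hm M).comp hT.measurable).sub (hm M)).aestronglyMeasurable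
    · intro M
      filter_upwards [h] with x hx
      rw [Real.norm_eq_abs]
      refine (clamp_sub_le _ _ _).trans ?_
      rw [hx]; exact hC x
    · filter_upwards [h] with x hx
      rw [← hx]
      exact (hconv (T x)).sub (hconv x)
  simp only [h0] at hlim
  exact (tendsto_nhds_unique hlim tendsto_const_nhds)

/-- The weighted difference homomorphism. -/
noncomputable def Psi {G : Type*} [Group G] (χ : G →* Multiplicative ℝ) {n : ℕ}
    (w : Fin n → ℝ) : ((Fin n → G) × (Fin n → G)) →* Multiplicative ℝ where
  toFun p := Multiplicative.ofAdd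
    (∑ k, w k * ((χ (p.2 k)).toAdd - (χ (p.1 k)).toAdd))
  map_one' := by simp
  map_mul' := by
    intro a b
    rw [← ofAdd_add, ← Finset.sum_add_distrib]
    congr 1
    refine Finset.sum_congr rfl fun k _ => ?_
    simp only [Prod.snd_mul, Prod.fst_mul, Pi.mul_apply, map_mul, toAdd_mul]
    ring

end RealAux

open RealAux in
theorem real_main {X : Type*} [MeasurableSpace X] (μ : Measure X) [IsProbabilityMeasure μ]
    {n : ℕ} (T : X → X) (hT : MeasurePreserving T μ μ) (ι : X → Fin n) (hι : Measurable ι)
    {G : Type*} [Group G] [TopologicalSpace G] [IsTopologicalGroup G]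
    [LocallyCompactSpace G] [SecondCountableTopology G] [T2Space G] [MeasurableSpace G]
    [BorelSpace G] (haar : Measure G) [haar.IsHaarMeasure]
    (χ : G →* Multiplicative ℝ) (hχ : Continuous χ) (hsurj : Function.Surjective χ) :
    ∀ᵐ p : (Fin n → G) × (Fin n → G)
      ∂((Measure.pi fun _ => haar).prod (Measure.pi fun _ => haar)),
      ¬ ∃ f : X → G, Measurable f ∧ ∀ᵐ x ∂μ, f (T x) * p.1 (ι x) = p.2 (ι x) * f x := by
  classical
  let _ : MeasurableSpace (Multiplicative ℝ) := borel _
  have _ : BorelSpace (Multiplicative ℝ) := ⟨rfl⟩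
  have hne : (𝓝[≠] (1 : Multiplicative ℝ)).NeBot := inferInstanceAs (𝓝[≠] (0 : ℝ)).NeBot
  set w : Fin n → ℝ := fun k => (μ (ι ⁻¹' {k})).toReal with hw
  have hcont : Continuous (Psi χ w) := by
    have h1 : ∀ k : Fin n, Continuous fun p : (Fin n → G) × (Fin n → G) =>
        (χ (p.2 k)).toAdd := fun k =>
      continuous_toAdd.comp (hχ.comp ((continuous_apply k).comp continuous_snd))
    have h2 : ∀ k : Fin n, Continuous fun p : (Fin n → G) × (Fin n → G) =>
        (χ (p.1 k)).toAdd := fun k =>
      continuous_toAdd.comp (hχ.comp ((continuous_apply k).comp continuous_fst))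
    exact continuous_ofAdd.comp (continuous_finsetSum _ fun k _ =>
      continuous_const.mul ((h1 k).sub (h2 k)))
  -- some letter has positive measure
  obtain ⟨k0, hk0⟩ : ∃ k, w k ≠ 0 := by
    by_contra hall
    push Not at hall
    have h1 : μ Set.univ = 0 := by
      have : (Set.univ : Set X) = ⋃ k, ι ⁻¹' {k} := by
        ext x; simp
      rw [this, measure_iUnion_null_iff]
      intro k
      have := hall k
      simp only [hw, ENNReal.toReal_eq_zero_iff, measure_ne_top, or_false] at this
      exact this
    simp at h1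
  have hΨs : Function.Surjective (Psi χ w) := by
    intro y
    obtain ⟨g, hg⟩ := hsurj (Multiplicative.ofAdd (y.toAdd / w k0))
    refine ⟨(1, Pi.mulSingle k0 g), ?_⟩
    apply Multiplicative.toAdd.injective
    change (∑ k, w k * ((χ ((Pi.mulSingle k0 g : Fin n → G) k)).toAdd
      - (χ ((1 : Fin n → G) k)).toAdd)) = y.toAdd
    rw [Finset.sum_eq_single k0]
    · rw [Pi.mulSingle_eq_same, hg]
      simp
      field_simp
    · intro k _ hk
      rw [Pi.mulSingle_eq_of_ne hk]
      simp
    · intro h; exact absurd (Finset.mem_univ _) h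
  have hnull : ((Measure.pi fun _ : Fin n => haar).prod (Measure.pi fun _ : Fin n => haar))
      ((Psi χ w) ⁻¹' {1}) = 0 := by
    have _ : NullSingletonClass (Measure.haar (G := Multiplicative ℝ)) :=
      IsHaarMeasure.nullSingletonClass _
    refine null_transfer _ (Measure.haar (G := Multiplicative ℝ)) (Psi χ w) hcont
      (MonoidHom.id _) continuous_id Function.surjective_id hΨs {1}
      (measurableSet_singleton _) ?_
    change Measure.haar ({1} : Set (Multiplicative ℝ)) = 0
    exact measure_singleton _
  rw [ae_iff]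
  refine measure_mono_null ?_ hnull
  intro p hp
  simp only [Set.mem_ofPred_eq, not_not] at hp
  obtain ⟨f, hf, hae⟩ := hp
  set u : X → ℝ := fun x => (χ (p.2 (ι x))).toAdd - (χ (p.1 (ι x))).toAdd with hu
  have hF : Measurable fun x => (χ (f x)).toAdd :=
    (continuous_toAdd.comp hχ).measurable.comp hf
  have hint : ∫ x, u x ∂μ = 0 := by
    refine coboundary μ T hT (fun x => (χ (f x)).toAdd) hF u
      (∑ k, |(χ (p.2 k)).toAdd - (χ (p.1 k)).toAdd|) ?_ ?_
    · intro x
      exact Finset.single_le_sum (f := fun k => |(χ (p.2 k)).toAdd - (χ (p.1 k)).toAdd|)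
        (fun k _ => abs_nonneg _) (Finset.mem_univ (ι x))
    · filter_upwards [hae] with x hx
      have h1 := congrArg (fun g => (χ g).toAdd) hx
      simp only [map_mul, toAdd_mul] at h1
      simp only [hu]
      linarith
  have hsum : ∫ x, u x ∂μ = ∑ k, w k * ((χ (p.2 k)).toAdd - (χ (p.1 k)).toAdd) := by
    have e : u = fun x => ∑ k, (ι ⁻¹' {k}).indicator
        (fun _ => (χ (p.2 k)).toAdd - (χ (p.1 k)).toAdd) x := by
      funext x
      rw [Finset.sum_eq_single (ι x)]
      · simp [hu]
      · intro k _ hk
        rw [Set.indicator_of_notMem]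
        simp only [Set.mem_preimage, Set.mem_singleton_iff]
        exact fun h => hk h.symm
      · intro h; exact absurd (Finset.mem_univ _) h
    rw [e, integral_finsetSum]
    · refine Finset.sum_congr rfl fun k _ => ?_
      rw [integral_indicator_const _ (hι (measurableSet_singleton k))]
      simp [hw, Measure.real]
    · intro k _
      exact (integrable_const _).indicator (hι (measurableSet_singleton k))
  have h1 : (Psi χ w) p = Multiplicative.ofAdd (0 : ℝ) := by
    change Multiplicative.ofAdd (∑ k, w k * ((χ (p.2 k)).toAdd - (χ (p.1 k)).toAdd)) = _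
    rw [← hsum, hint]
  simpa using h1

end H24FB
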