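import Pool.Agent.H24.FB.Inst

open MeasureTheory Matrix Filter Topology
open scoped MatrixGroups

namespace H24FB

theorem center_iff (A : SL(2, ℝ)) :
    A ∈ Subgroup.center (SL(2, ℝ)) ↔ A = 1 ∨ A = -1 := by
  rw [Matrix.SpecialLinearGroup.mem_center_iff]
  constructor
  · rintro ⟨r, hr, hA⟩
    simp only [Fintype.card_fin] at hr
    have h1 : r = 1 ∨ r = -1 := by
      have : (r - 1) * (r + 1) = 0 := by linear_combination hr
      rcases mul_eq_zero.mp this with h | h
      · left; linarith
      · right; linarith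
    rcases h1 with rfl | rfl
    · left
      ext i j
      rw [← hA]; simp
    · right
      ext i j
      rw [← hA]
      fin_cases i <;> fin_cases j <;> simp
  · rintro (rfl | rfl)
    · exact ⟨1, by simp, by simp⟩
    · refine ⟨-1, by simp, ?_⟩
      ext i j
      fin_cases i <;> fin_cases j <;> simp

theorem mk_eq_iff (A B : SL(2, ℝ)) :
    ((A : SL(2, ℝ)) : PSL(2, ℝ)) = ((B : SL(2, ℝ)) : PSL(2, ℝ)) ↔ A = B ∨ A = -B := by
  rw [QuotientGroup.eq, center_iff]
  constructor
  · rintro (h | h)
    · left; exact (inv_mul_eq_one.mp h)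
    · right
      have : B = A * (-1) := by rw [← h]; simp
      rw [this]; simp
  · rintro (rfl | rfl)
    · left; simp
    · right
      have h1 : (-B : SL(2, ℝ)) * (-B⁻¹) = 1 := by rw [neg_mul_neg]; simp
      have h2 : (-B : SL(2, ℝ))⁻¹ = -B⁻¹ := inv_eq_of_mul_eq_one_right h1
      rw [h2]; simp

theorem tr_mul_comm (A B : SL(2, ℝ)) : tr (A * B) = tr (B * A) :=
  Matrix.trace_mul_comm A.1 B.1

/-- The absolute value of the trace on `PSL(2, ℝ)`. -/
noncomputable def absTr (a : PSL(2, ℝ)) : ℝ :=
  Quotient.liftOn' a (fun A : SL(2, ℝ) => |tr A|) (by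
    intro A B h
    rw [QuotientGroup.leftRel_apply, center_iff] at h
    have hB : B = A * (A⁻¹ * B) := by simp
    rcases h with h | h
    · rw [h, mul_one] at hB; rw [hB]
    · rw [h] at hB
      have : B = -A := by rw [hB]; simp
      rw [this]
      simp [tr])

theorem absTr_mk (A : SL(2, ℝ)) : absTr (A : PSL(2, ℝ)) = |tr A| := rfl

theorem absTr_nonneg (a : PSL(2, ℝ)) : 0 ≤ absTr a := by
  induction a using QuotientGroup.induction_on with
  | _ A => rw [absTr_mk]; exact abs_nonneg _

theorem absTr_conj (a b : PSL(2, ℝ)) : absTr (a * b * a⁻¹) = absTr b := by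
  induction a using QuotientGroup.induction_on with
  | _ A =>
    induction b using QuotientGroup.induction_on with
    | _ B =>
      rw [← QuotientGroup.mk_inv, ← QuotientGroup.mk_mul, ← QuotientGroup.mk_mul, absTr_mk,
        absTr_mk]
      congr 1
      rw [tr_mul_comm, ← mul_assoc, inv_mul_cancel, one_mul]

theorem continuous_absTr : Continuous absTr := by
  exact continuous_tr.abs.quotient_liftOn' _

/-- The relation between the absolute traces of the two cocycles along a rigidity time. -/
def Close (δ a b : ℝ) : Prop :=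
  |b ^ 2 - 4| * |a - b| ≤ 24 * δ * (1 + b) * (1 + |b ^ 2 - 4|)

theorem map_wp {G H : Type*} [Monoid G] [Monoid H] (ρ : G →* H) (B : ℕ → G) (m : ℕ) :
    ρ (wp B m) = wp (fun i => ρ (B i)) m := by
  induction m with
  | zero => simp [wp]
  | succ m ih => simp [wp, ih]

theorem mk_wp (B : ℕ → SL(2, ℝ)) (m : ℕ) :
    ((wp B m : SL(2, ℝ)) : PSL(2, ℝ)) = wp (fun i => ((B i : SL(2, ℝ)) : PSL(2, ℝ))) m :=
  map_wp (QuotientGroup.mk' (Subgroup.center SL(2, ℝ))) B m

end H24FB
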