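import Mathlib

/-! The homomorphism induced on pairs of tuples. -/

open Topology

namespace H24FB

/-- Apply a homomorphism to all coordinates of a pair. -/
def pairHom {G Q : Type*} [Group G] [Group Q] (n : ℕ) (ρ : G →* Q) :
    (Fin n → G) × (Fin n → G) →* (Fin n → Q) × (Fin n → Q) where
  toFun p := (fun i => ρ (p.1 i), fun i => ρ (p.2 i))
  map_one' := by ext i <;> simp
  map_mul' g h := by ext i <;> simp

theorem continuous_pairHom {G Q : Type*} [Group G] [Group Q] [TopologicalSpace G]
    [TopologicalSpace Q] (n : ℕ) (ρ : G →* Q) (hρ : Continuous ρ) :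
    Continuous (pairHom n ρ) := by
  show Continuous fun p : (Fin n → G) × (Fin n → G) =>
    ((fun i => ρ (p.1 i), fun i => ρ (p.2 i)) : (Fin n → Q) × (Fin n → Q))
  refine Continuous.prodMk ?_ ?_
  · exact continuous_pi fun i => hρ.comp ((continuous_apply i).comp continuous_fst)
  · exact continuous_pi fun i => hρ.comp ((continuous_apply i).comp continuous_snd)

theorem surjective_pairHom {G Q : Type*} [Group G] [Group Q] (n : ℕ) (ρ : G →* Q)
    (hρ : Function.Surjective ρ) : Function.Surjective (pairHom n ρ) := by
  rintro ⟨a, b⟩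
  choose s hs using hρ
  exact ⟨(fun i => s (a i), fun i => s (b i)), by
    show ((fun i => ρ (s (a i)), fun i => ρ (s (b i))) : (Fin n → Q) × (Fin n → Q)) = (a, b)
    simp [hs]⟩

end H24FB
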