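import Pool.Agent.H24.FB.Defs3
import Pool.Agent.H24.FB.BlockG
import Pool.Agent.H24.FB.BlockM
import Pool.Agent.H24.FB.PairHom
import Pool.Agent.H24.FB.BlockF
import Pool.Agent.H24.FB.BlockK

open MeasureTheory Matrix Filter Topology
open scoped MatrixGroups

namespace H24FB

/-- Main theorem: for every probability preserving `T`, every measurable coding `ι` with finitely
many letters and every group `G` with a continuous surjection onto `PSL(2, ℝ)`, almost no pair of
simple cocycles is measurably cohomologous. -/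
theorem main {X : Type*} [MeasurableSpace X] [MeasurableSpace.CountablyGenerated X]
    (μ : Measure X) [IsProbabilityMeasure μ] {n : ℕ} (T : X → X) (hT : MeasurePreserving T μ μ)
    (ι : X → Fin n) (hι : Measurable ι) {G : Type*} [Group G] [TopologicalSpace G]
    [IsTopologicalGroup G] [LocallyCompactSpace G] [SecondCountableTopology G] [T2Space G]
    [MeasurableSpace G] [BorelSpace G] (haar : Measure G) [haar.IsHaarMeasure]
    (ρ : G →* PSL(2, ℝ)) (hρ : Continuous ρ) (hsurj : Function.Surjective ρ) :
    ∀ᵐ p : (Fin n → G) × (Fin n → G)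
      ∂((Measure.pi fun _ => haar).prod (Measure.pi fun _ => haar)),
      ¬ ∃ f : X → G, Measurable f ∧ ∀ᵐ x ∂μ, f (T x) * p.1 (ι x) = p.2 (ι x) * f x := by
  have hnull : ((Measure.pi fun _ : Fin n => haar).prod (Measure.pi fun _ : Fin n => haar))
      ((pairHom n ρ) ⁻¹' BadN μ T ι) = 0 := by
    have hmk : Continuous (QuotientGroup.mk' (Subgroup.center SL(2, ℝ))) :=
      QuotientGroup.continuous_mk
    have h0 := badN_null μ T hT ι hι (Measure.haar : Measure SL(2, ℝ))
    exact null_transfer (L := (Fin n → SL(2, ℝ)) × (Fin n → SL(2, ℝ)))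
      ((Measure.pi fun _ : Fin n => haar).prod (Measure.pi fun _ : Fin n => haar))
      ((Measure.pi fun _ : Fin n => (Measure.haar : Measure SL(2, ℝ))).prod
        (Measure.pi fun _ : Fin n => (Measure.haar : Measure SL(2, ℝ))))
      (pairHom n ρ) (continuous_pairHom n ρ hρ)
      (pairHom n (QuotientGroup.mk' (Subgroup.center SL(2, ℝ))))
      (continuous_pairHom n _ hmk)
      (surjective_pairHom n _ (QuotientGroup.mk'_surjective _))
      (surjective_pairHom n ρ hsurj)
      (BadN μ T ι) (badN_meas μ T hT.measurable ι hι) h0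
  rw [ae_iff]
  refine measure_mono_null ?_ hnull
  intro p hp
  simp only [not_not, Set.mem_ofPred_eq] at hp
  obtain ⟨f, hf, hcoh⟩ := hp
  show pairHom n ρ p ∈ BadN μ T ι
  intro j
  have hj : (0 : ℝ) < 1 / ((j : ℝ) + 1) := by positivity
  exact coh_closeN μ T hT ι ρ hρ p.1 p.2 f hf hcoh _ hj

/-- The special case of interval exchange transformations: every permutation, every length
vector. -/
theorem iet_all {G : Type*} [Group G] [TopologicalSpace G] [IsTopologicalGroup G]
    [LocallyCompactSpace G] [SecondCountableTopology G] [T2Space G] [MeasurableSpace G]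
    [BorelSpace G] (haar : Measure G) [haar.IsHaarMeasure] (ρ : G →* PSL(2, ℝ))
    (hρ : Continuous ρ) (hsurj : Function.Surjective ρ) {m : ℕ} (lam : Fin (m + 2) → ℝ)
    (hlam : ∀ i, 0 < lam i) (hsum : ∑ i, lam i = 1) (π : Equiv.Perm (Fin (m + 2))) :
    ∀ᵐ p : (Fin (m + 2) → G) × (Fin (m + 2) → G)
      ∂((Measure.pi fun _ => haar).prod (Measure.pi fun _ => haar)),
      ¬ ∃ f : ℝ → G, Measurable f ∧ ∀ᵐ x ∂(volume.restrict (Set.Ico (0 : ℝ) 1)),
        f (iet lam π x) * p.1 (idx lam x) = p.2 (idx lam x) * f x := by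
  have : IsProbabilityMeasure (volume.restrict (Set.Ico (0 : ℝ) 1)) :=
    ⟨by rw [Measure.restrict_apply_univ, Real.volume_Ico]; simp⟩
  exact main (volume.restrict (Set.Ico (0 : ℝ) 1)) (iet lam π)
    (measurePreserving_iet lam (fun i => (hlam i).le) hsum π) (idx lam)
    (measurable_idx_of_nonneg lam (fun i => (hlam i).le)) haar ρ hρ hsurj

end H24FB
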