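import Pool.Agent.H24.FB.GenDefs

open MeasureTheory Matrix Filter Topology

namespace H24FB

variable {d : ℕ}

/-! ## The Hermitian form -/

/-- The sesquilinear form with diagonal `σ`. -/
noncomputable def Hf (σ : Fin d → ℝ) (u v : Fin d → ℂ) : ℂ :=
  ∑ i, (σ i : ℂ) * (star (u i) * v i)

theorem Hf_self (σ : Fin d → ℝ) (v : Fin d → ℂ) : Hf σ v v = (Qf σ v : ℂ) := by
  simp only [Hf, Qf, Complex.ofReal_sum, Complex.ofReal_mul, Complex.ofReal_pow]
  refine Finset.sum_congr rfl fun i _ => ?_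
  congr 1
  rw [Complex.star_def, Complex.conj_mul']

theorem Hf_eq_dot (σ : Fin d → ℝ) (u v : Fin d → ℂ) :
    Hf σ u v = star u ⬝ᵥ (Matrix.diagonal (fun i => (σ i : ℂ)) *ᵥ v) := by
  simp only [Hf, dotProduct, Matrix.mulVec_diagonal, Pi.star_apply]
  refine Finset.sum_congr rfl fun i _ => ?_
  ring

theorem Hf_mulVec (σ : Fin d → ℝ) {A : Matrix (Fin d) (Fin d) ℂ} (hA : Pres σ A)
    (u v : Fin d → ℂ) : Hf σ (A *ᵥ u) (A *ᵥ v) = Hf σ u v := by
  rw [Hf_eq_dot, Hf_eq_dot, Matrix.star_mulVec, Matrix.mulVec_mulVec, ← Matrix.dotProduct_mulVec,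
    Matrix.mulVec_mulVec, ← Matrix.mul_assoc, hA]

theorem Qf_mulVec (σ : Fin d → ℝ) {A : Matrix (Fin d) (Fin d) ℂ} (hA : Pres σ A)
    (v : Fin d → ℂ) : Qf σ (A *ᵥ v) = Qf σ v := by
  have h := Hf_mulVec σ hA v v
  rw [Hf_self, Hf_self] at h
  exact_mod_cast h

theorem Hf_conj (σ : Fin d → ℝ) (u v : Fin d → ℂ) : star (Hf σ u v) = Hf σ v u := by
  simp only [Hf, star_sum, star_mul', star_star]
  refine Finset.sum_congr rfl fun i _ => ?_
  rw [Complex.star_def, Complex.conj_ofReal]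
  ring

theorem Hf_add_right (σ : Fin d → ℝ) (u v w : Fin d → ℂ) :
    Hf σ u (v + w) = Hf σ u v + Hf σ u w := by
  simp only [Hf, Pi.add_apply, mul_add, Finset.sum_add_distrib]

theorem Hf_sub_left (σ : Fin d → ℝ) (u v w : Fin d → ℂ) :
    Hf σ (u - v) w = Hf σ u w - Hf σ v w := by
  simp only [Hf, Pi.sub_apply, star_sub, sub_mul, mul_sub, Finset.sum_sub_distrib]

theorem Hf_smul_smul (σ : Fin d → ℝ) (c : ℂ) (hc : ‖c‖ = 1) (u v : Fin d → ℂ) :
    Hf σ (c • u) (c • v) = Hf σ u v := by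
  simp only [Hf, Pi.smul_apply, smul_eq_mul, star_mul']
  refine Finset.sum_congr rfl fun i _ => ?_
  have : star c * c = 1 := by
    rw [Complex.star_def, Complex.conj_mul', hc]; simp
  calc (σ i : ℂ) * (star c * star (u i) * (c * v i))
      = (star c * c) * ((σ i : ℂ) * (star (u i) * v i)) := by ring
    _ = _ := by rw [this, one_mul]

theorem Qf_smul (σ : Fin d → ℝ) (c : ℂ) (hc : ‖c‖ = 1) (v : Fin d → ℂ) :
    Qf σ (c • v) = Qf σ v := by
  have h := Hf_smul_smul σ c hc v v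
  rw [Hf_self, Hf_self] at h
  exact_mod_cast h

/-- `Re <x - y, x + y> = Q x - Q y`. -/
theorem re_Hf_sub_add (σ : Fin d → ℝ) (x y : Fin d → ℂ) :
    (Hf σ (x - y) (x + y)).re = Qf σ x - Qf σ y := by
  rw [Hf_add_right, Hf_sub_left, Hf_sub_left, Hf_self, Hf_self]
  have h : (Hf σ x y).re = (Hf σ y x).re := by
    rw [← Hf_conj σ x y, Complex.star_def, Complex.conj_re]
  simp only [Complex.add_re, Complex.sub_re, Complex.ofReal_re]
  linarith

theorem Pres.mulVec_ne {σ : Fin d → ℝ} (hσ : ∀ i, σ i = 1 ∨ σ i = -1)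
    {A : Matrix (Fin d) (Fin d) ℂ} (hA : Pres σ A) {v : Fin d → ℂ} (hv : v ≠ 0) :
    A *ᵥ v ≠ 0 := by
  intro h
  apply hv
  have h1 : Matrix.diagonal (fun i => (σ i : ℂ)) *ᵥ v = 0 := by
    rw [← hA, Matrix.mul_assoc, ← Matrix.mulVec_mulVec, ← Matrix.mulVec_mulVec, h]
    simp
  ext i
  have h2 := congrFun h1 i
  rw [Matrix.mulVec_diagonal] at h2
  rcases hσ i with h3 | h3 <;> simpa [h3] using h2

/-! ## The diagonal matrices -/

theorem Qf_Dm (σ : Fin d → ℝ) (z : Fin d → ℤ) (w : ℂ) (v : Fin d → ℂ) :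
    Qf σ (Dm z w *ᵥ v) - Qf σ v = ∑ i, σ i * ((‖w‖ ^ z i) ^ 2 - 1) * ‖v i‖ ^ 2 := by
  simp only [Qf, Dm, Matrix.mulVec_diagonal, ← Finset.sum_sub_distrib]
  refine Finset.sum_congr rfl fun i _ => ?_
  rw [norm_mul, norm_zpow]
  ring

theorem Dm_term_pos {s : ℝ} (hs : s = 1 ∨ s = -1) {k : ℤ} (hk : 1 ≤ s * (k : ℝ)) {r : ℝ}
    (hr : 1 < r) : 0 < s * ((r ^ k) ^ 2 - 1) := by
  rcases hs with rfl | rfl
  · have hk' : 0 < k := by
      have : (1 : ℝ) ≤ (k : ℝ) := by linarith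
      exact_mod_cast lt_of_lt_of_le one_pos this
    have h1 : 1 < r ^ k := one_lt_zpow₀ hr hk'
    nlinarith
  · have hk' : k < 0 := by
      have : (k : ℝ) ≤ -1 := by linarith
      have : (k : ℝ) < 0 := by linarith
      exact_mod_cast this
    have h1 : r ^ k < 1 := zpow_lt_one_of_neg₀ hr hk'
    have h2 : 0 < r ^ k := zpow_pos (by linarith) k
    nlinarith

theorem Dm_term_neg {s : ℝ} (hs : s = 1 ∨ s = -1) {k : ℤ} (hk : 1 ≤ s * (k : ℝ)) {r : ℝ}
    (hr0 : 0 < r) (hr : r < 1) : s * ((r ^ k) ^ 2 - 1) < 0 := by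
  have h1 : 1 < r⁻¹ := (one_lt_inv₀ hr0).mpr hr
  have h2 := Dm_term_pos hs hk h1
  have h3 : 0 < r ^ k := zpow_pos hr0 k
  have h4 : (r⁻¹ ^ k) = (r ^ k)⁻¹ := inv_zpow r k
  rw [h4] at h2
  have h5 : s * (((r ^ k)⁻¹) ^ 2 - 1) * (r ^ k) ^ 2 = - (s * ((r ^ k) ^ 2 - 1)) := by
    field_simp
    ring
  have h6 : 0 < s * (((r ^ k)⁻¹) ^ 2 - 1) * (r ^ k) ^ 2 := mul_pos h2 (by positivity)
  linarith

section
variable (σ : Fin d → ℝ) (hσ : ∀ i, σ i = 1 ∨ σ i = -1) (z : Fin d → ℤ)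
  (hz : ∀ i, 1 ≤ σ i * (z i : ℝ)) (A : ℕ → Matrix (Fin d) (Fin d) ℂ) (hA : ∀ j, Pres σ (A j))
include hσ hz

theorem Qf_Dm_gt {w : ℂ} (hw : 1 < ‖w‖) {v : Fin d → ℂ} (hv : v ≠ 0) :
    Qf σ v < Qf σ (Dm z w *ᵥ v) := by
  have h := Qf_Dm σ z w v
  obtain ⟨i, hi⟩ := Function.ne_iff.mp hv
  have : 0 < ∑ i, σ i * ((‖w‖ ^ z i) ^ 2 - 1) * ‖v i‖ ^ 2 := by
    refine Finset.sum_pos' (fun j _ => ?_) ⟨i, Finset.mem_univ i, ?_⟩
    · exact mul_nonneg (Dm_term_pos (hσ j) (hz j) hw).le (by positivity)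
    · exact mul_pos (Dm_term_pos (hσ i) (hz i) hw) (by
        have : 0 < ‖v i‖ := norm_pos_iff.mpr hi
        positivity)
  linarith

theorem Qf_Dm_ge {w : ℂ} (hw : 1 < ‖w‖) (v : Fin d → ℂ) :
    Qf σ v ≤ Qf σ (Dm z w *ᵥ v) := by
  by_cases hv : v = 0
  · subst hv; simp
  · exact (Qf_Dm_gt σ hσ z hz hw hv).le

theorem Qf_Dm_lt {w : ℂ} (hw0 : w ≠ 0) (hw : ‖w‖ < 1) {v : Fin d → ℂ} (hv : v ≠ 0) :
    Qf σ (Dm z w *ᵥ v) < Qf σ v := by
  have h := Qf_Dm σ z w v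
  have hw0' : 0 < ‖w‖ := norm_pos_iff.mpr hw0
  obtain ⟨i, hi⟩ := Function.ne_iff.mp hv
  have : 0 < ∑ i, - (σ i * ((‖w‖ ^ z i) ^ 2 - 1) * ‖v i‖ ^ 2) := by
    refine Finset.sum_pos' (fun j _ => ?_) ⟨i, Finset.mem_univ i, ?_⟩
    · have h1 := Dm_term_neg (hσ j) (hz j) hw0' hw
      have h2 : 0 ≤ ‖v j‖ ^ 2 := by positivity
      nlinarith
    · have h1 := Dm_term_neg (hσ i) (hz i) hw0' hw
      have h2 : 0 < ‖v i‖ ^ 2 := by
        have : 0 < ‖v i‖ := norm_pos_iff.mpr hi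
        positivity
      nlinarith
  rw [Finset.sum_neg_distrib] at this
  linarith

theorem Qf_Dm_le {w : ℂ} (hw0 : w ≠ 0) (hw : ‖w‖ < 1) (v : Fin d → ℂ) :
    Qf σ (Dm z w *ᵥ v) ≤ Qf σ v := by
  by_cases hv : v = 0
  · subst hv; simp
  · exact (Qf_Dm_lt σ hσ z hz hw0 hw hv).le

include hA

theorem Qf_wp_gt {w : ℂ} (hw : 1 < ‖w‖) {v : Fin d → ℂ} (hv : v ≠ 0) (m : ℕ) (hm : 0 < m) :
    Qf σ v < Qf σ (wp (fun j => Dm z w * A j) m *ᵥ v) := by
  induction m, hm using Nat.le_induction with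
  | base =>
    have h1 : wp (fun j => Dm z w * A j) 1 = Dm z w * A 0 := by simp [wp]
    change Qf σ v < Qf σ (wp (fun j => Dm z w * A j) 1 *ᵥ v)
    rw [h1, ← Matrix.mulVec_mulVec]
    calc Qf σ v = Qf σ (A 0 *ᵥ v) := (Qf_mulVec σ (hA 0) v).symm
      _ < _ := Qf_Dm_gt σ hσ z hz hw ((hA 0).mulVec_ne hσ hv)
  | succ m hm ih =>
    refine lt_of_lt_of_le ih ?_
    change _ ≤ Qf σ (((Dm z w * A m) * wp (fun j => Dm z w * A j) m) *ᵥ v)
    rw [← Matrix.mulVec_mulVec, ← Matrix.mulVec_mulVec]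
    calc _ = Qf σ (A m *ᵥ (wp (fun j => Dm z w * A j) m *ᵥ v)) := (Qf_mulVec σ (hA m) _).symm
      _ ≤ _ := Qf_Dm_ge σ hσ z hz hw _

theorem Qf_wp_lt {w : ℂ} (hw0 : w ≠ 0) (hw : ‖w‖ < 1) {v : Fin d → ℂ} (hv : v ≠ 0) (m : ℕ)
    (hm : 0 < m) : Qf σ (wp (fun j => Dm z w * A j) m *ᵥ v) < Qf σ v := by
  induction m, hm using Nat.le_induction with
  | base =>
    have h1 : wp (fun j => Dm z w * A j) 1 = Dm z w * A 0 := by simp [wp]
    change Qf σ (wp (fun j => Dm z w * A j) 1 *ᵥ v) < Qf σ v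
    rw [h1, ← Matrix.mulVec_mulVec]
    calc _ < Qf σ (A 0 *ᵥ v) := Qf_Dm_lt σ hσ z hz hw0 hw ((hA 0).mulVec_ne hσ hv)
      _ = Qf σ v := Qf_mulVec σ (hA 0) v
  | succ m hm ih =>
    refine lt_of_le_of_lt ?_ ih
    change Qf σ (((Dm z w * A m) * wp (fun j => Dm z w * A j) m) *ᵥ v) ≤ _
    rw [← Matrix.mulVec_mulVec, ← Matrix.mulVec_mulVec]
    calc _ ≤ Qf σ (A m *ᵥ (wp (fun j => Dm z w * A j) m *ᵥ v)) := Qf_Dm_le σ hσ z hz hw0 hw _
      _ = _ := Qf_mulVec σ (hA m) _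

/-- Off the circle a unimodular number is no eigenvalue of the word. -/
theorem gen_det_ne (m : ℕ) (hm : 0 < m) (ζ : ℂ) (hζ : ‖ζ‖ = 1) (w : ℂ) (hw0 : w ≠ 0)
    (hw : ‖w‖ ≠ 1) :
    (wp (fun j => Dm z w * A j) m - ζ • (1 : Matrix (Fin d) (Fin d) ℂ)).det ≠ 0 := by
  intro hdet
  obtain ⟨v, hv, hMv⟩ := Matrix.exists_mulVec_eq_zero_iff.mpr hdet
  rw [Matrix.sub_mulVec, Matrix.smul_mulVec, Matrix.one_mulVec, sub_eq_zero] at hMv
  have h1 : Qf σ (wp (fun j => Dm z w * A j) m *ᵥ v) = Qf σ v := by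
    rw [hMv, Qf_smul σ ζ hζ]
  rcases lt_or_gt_of_ne hw with h | h
  · exact absurd h1 (Qf_wp_lt σ hσ z hz A hA hw0 h hv m hm).ne
  · exact absurd h1 (Qf_wp_gt σ hσ z hz A hA h hv m hm).ne'

end

/-! ## Analyticity -/

/-- Entrywise differentiability at a point. -/
def ED (N : ℂ → Matrix (Fin d) (Fin d) ℂ) (w : ℂ) : Prop :=
  ∀ i j, DifferentiableAt ℂ (fun w => N w i j) w

theorem ED.const (B : Matrix (Fin d) (Fin d) ℂ) (w : ℂ) : ED (fun _ => B) w :=
  fun _ _ => differentiableAt_const _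

theorem ED.mul {N P : ℂ → Matrix (Fin d) (Fin d) ℂ} {w : ℂ} (hN : ED N w) (hP : ED P w) :
    ED (fun w => N w * P w) w := by
  intro i j
  simp only [Matrix.mul_apply]
  exact DifferentiableAt.fun_sum fun k _ => (hN i k).mul (hP k j)

theorem ED.sub {N P : ℂ → Matrix (Fin d) (Fin d) ℂ} {w : ℂ} (hN : ED N w) (hP : ED P w) :
    ED (fun w => N w - P w) w := by
  intro i j
  simp only [Matrix.sub_apply]
  exact (hN i j).sub (hP i j)

theorem ED.Dm (z : Fin d → ℤ) {w : ℂ} (hw : w ≠ 0) : ED (fun w => H24FB.Dm z w) w := by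
  intro i j
  simp only [H24FB.Dm, Matrix.diagonal_apply]
  by_cases h : i = j
  · simp only [h, if_true]
    exact differentiableAt_zpow.mpr (Or.inl hw)
  · simp only [h, if_false]
    exact differentiableAt_const _

theorem ED.wp (z : Fin d → ℤ) (A : ℕ → Matrix (Fin d) (Fin d) ℂ) {w : ℂ} (hw : w ≠ 0) (m : ℕ) :
    ED (fun w => H24FB.wp (fun j => H24FB.Dm z w * A j) m) w := by
  induction m with
  | zero => exact ED.const 1 w
  | succ m ih => exact ((ED.Dm z hw).mul (ED.const (A m) w)).mul ih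

theorem ED.det {N : ℂ → Matrix (Fin d) (Fin d) ℂ} {w : ℂ} (hN : ED N w) :
    DifferentiableAt ℂ (fun w => (N w).det) w := by
  simp only [Matrix.det_apply]
  refine DifferentiableAt.fun_sum fun τ _ => ?_
  have h1 : DifferentiableAt ℂ (fun w => ∏ i, N w (τ i) i) w :=
    DifferentiableAt.fun_finsetProd fun i _ => hN (τ i) i
  simpa [Units.smul_def, zsmul_eq_mul] using h1.const_mul ((Equiv.Perm.sign τ : ℤ) : ℂ)

theorem ED.adjugate {N : ℂ → Matrix (Fin d) (Fin d) ℂ} {w : ℂ} (hN : ED N w) :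
    ED (fun w => (N w).adjugate) w := by
  intro i j
  simp only [Matrix.adjugate_apply]
  refine ED.det (N := fun w => (N w).updateRow j (Pi.single i 1)) ?_
  intro k l
  by_cases h : k = j
  · subst h
    simp only [Matrix.updateRow_self]
    exact differentiableAt_const _
  · simp only [Matrix.updateRow_ne h]
    exact hN k l

theorem Hf_smul_right (σ : Fin d → ℝ) (c : ℂ) (u v : Fin d → ℂ) :
    Hf σ u (c • v) = c * Hf σ u v := by
  simp only [Hf, Pi.smul_apply, smul_eq_mul, Finset.mul_sum]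
  refine Finset.sum_congr rfl fun i _ => ?_
  ring

theorem circle_mean_eq (s : ℂ → ℂ) (hd : ∀ w, w ≠ 0 → DifferentiableAt ℂ s w) :
    ∫ θ in (0 : ℝ)..(2 * Real.pi), s (circleMap 0 2 θ)
      = ∫ θ in (0 : ℝ)..(2 * Real.pi), s (circleMap 0 (1 / 2) θ) := by
  have h := Complex.circleIntegral_sub_center_inv_smul_eq_of_differentiable_on_annulus_off_countable
    (c := 0) (r := 1 / 2) (R := 2) (by norm_num) (by norm_num) (f := s) (s := ∅)
    Set.countable_empty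
    (by
      rintro w ⟨_, hw⟩
      have hw0 : w ≠ 0 := by
        rintro rfl
        simp at hw
      exact (hd w hw0).continuousAt.continuousWithinAt)
    (by
      rintro w ⟨⟨_, hw⟩, _⟩
      have hw0 : w ≠ 0 := by
        rintro rfl
        simp at hw
      exact hd w hw0)
  have key : ∀ ρ : ℝ, 0 < ρ → (∮ z in C(0, ρ), (z - 0)⁻¹ • s z)
      = Complex.I * ∫ θ in (0 : ℝ)..(2 * Real.pi), s (circleMap 0 ρ θ) := by
    intro ρ hρ
    rw [circleIntegral, ← intervalIntegral.integral_const_mul]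
    congr 1
    ext θ
    have hne : circleMap 0 ρ θ ≠ 0 := by
      simpa using circleMap_ne_center (c := 0) (θ := θ) hρ.ne'
    rw [deriv_circleMap, sub_zero, smul_eq_mul, smul_eq_mul]
    field_simp
  rw [key 2 (by norm_num), key (1 / 2) (by norm_num)] at h
  exact mul_left_cancel₀ Complex.I_ne_zero h

section
variable (σ : Fin d → ℝ) (hσ : ∀ i, σ i = 1 ∨ σ i = -1) (z : Fin d → ℤ)
  (hz : ∀ i, 1 ≤ σ i * (z i : ℝ)) (A : ℕ → Matrix (Fin d) (Fin d) ℂ) (hA : ∀ j, Pres σ (A j))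
include hσ hz hA

/-- Some point of the circle has the eigenvalue `ζ`. -/
theorem gen_exists_root (hd : 0 < d) (m : ℕ) (hm : 0 < m) (ζ : ℂ) (hζ : ‖ζ‖ = 1) :
    ∃ θ : ℝ,
      (wp (fun j => Dm z (eC θ) * A j) m - ζ • (1 : Matrix (Fin d) (Fin d) ℂ)).det = 0 := by
  by_contra hcon
  push Not at hcon
  set M : ℂ → Matrix (Fin d) (Fin d) ℂ := fun w => wp (fun j => Dm z w * A j) m with hM
  set N : ℂ → Matrix (Fin d) (Fin d) ℂ := fun w => M w - ζ • (1 : Matrix (Fin d) (Fin d) ℂ)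
    with hN
  have hdet : ∀ w, w ≠ 0 → (N w).det ≠ 0 := by
    intro w hw0
    by_cases hw : ‖w‖ = 1
    · have h1 : w = eC (Complex.arg w) := by
        have := Complex.norm_mul_exp_arg_mul_I w
        rw [hw] at this
        simpa [eC] using this.symm
      rw [h1]
      exact hcon _
    · exact gen_det_ne σ hσ z hz A hA m hm ζ hζ w hw0 hw
  set u : Fin d → ℂ := Pi.single ⟨0, hd⟩ 1 with hu
  have hu0 : u ≠ 0 := by
    intro h
    have := congrFun h ⟨0, hd⟩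
    simp [hu] at this
  set v : ℂ → Fin d → ℂ := fun w => ((N w).det)⁻¹ • ((N w).adjugate *ᵥ u) with hv
  have hNv : ∀ w, w ≠ 0 → N w *ᵥ v w = u := by
    intro w hw
    simp only [hv]
    rw [Matrix.mulVec_smul, Matrix.mulVec_mulVec, Matrix.mul_adjugate, Matrix.smul_mulVec,
      Matrix.one_mulVec, smul_smul, inv_mul_cancel₀ (hdet w hw), one_smul]
  have hv0 : ∀ w, w ≠ 0 → v w ≠ 0 := by
    intro w hw h
    apply hu0
    rw [← hNv w hw, h, Matrix.mulVec_zero]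
  set h : ℂ → ℂ := fun w => Hf σ u (u + (2 * ζ) • v w) with hh
  have hre : ∀ w, w ≠ 0 → (h w).re = Qf σ (M w *ᵥ v w) - Qf σ (v w) := by
    intro w hw
    have h1 : u = M w *ᵥ v w - ζ • v w := by
      conv_lhs => rw [← hNv w hw]
      simp only [hN]
      rw [Matrix.sub_mulVec, Matrix.smul_mulVec, Matrix.one_mulVec]
    have h2 : u + (2 * ζ) • v w = M w *ᵥ v w + ζ • v w := by
      rw [h1, two_mul, add_smul]; abel
    simp only [hh]
    rw [h2]
    conv_lhs => rw [h1]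
    rw [re_Hf_sub_add, Qf_smul σ ζ hζ]
  have hdiff : ∀ w, w ≠ 0 → DifferentiableAt ℂ h w := by
    intro w hw
    have hNd : ED N w := (ED.wp z A hw m).sub (ED.const _ w)
    have hadj := hNd.adjugate
    have hvd : ∀ i, DifferentiableAt ℂ (fun w => v w i) w := by
      intro i
      simp only [hv, Pi.smul_apply, smul_eq_mul, Matrix.mulVec, dotProduct]
      exact (hNd.det.inv (hdet w hw)).mul
        (DifferentiableAt.fun_sum fun j _ => (hadj i j).mul_const _)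
    simp only [hh, Hf, Pi.add_apply, Pi.smul_apply, smul_eq_mul]
    exact DifferentiableAt.fun_sum fun i _ =>
      (((hvd i).const_mul _).const_add _ |>.const_mul _).const_mul _
  have hcirc : ∀ ρ : ℝ, 0 < ρ → ∀ θ, circleMap 0 ρ θ ≠ 0 := by
    intro ρ hρ θ
    simpa using circleMap_ne_center (c := 0) (θ := θ) hρ.ne'
  have hcont : ∀ ρ : ℝ, 0 < ρ → Continuous (fun θ => h (circleMap 0 ρ θ)) := by
    intro ρ hρ
    rw [continuous_iff_continuousAt]
    intro θ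
    exact ContinuousAt.comp (f := circleMap 0 ρ) (hdiff _ (hcirc ρ hρ θ)).continuousAt
      (continuous_circleMap 0 ρ).continuousAt
  have hmean := circle_mean_eq h hdiff
  have hreint : ∀ ρ : ℝ, 0 < ρ → (∫ θ in (0 : ℝ)..(2 * Real.pi), h (circleMap 0 ρ θ)).re
      = ∫ θ in (0 : ℝ)..(2 * Real.pi), (h (circleMap 0 ρ θ)).re := by
    intro ρ hρ
    have := ContinuousLinearMap.intervalIntegral_comp_comm Complex.reCLM
      ((hcont ρ hρ).intervalIntegrable (0 : ℝ) (2 * Real.pi) (μ := volume))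
    exact this.symm
  have hpos : 0 < ∫ θ in (0 : ℝ)..(2 * Real.pi), (h (circleMap 0 2 θ)).re := by
    refine intervalIntegral.intervalIntegral_pos_of_pos
      ((Complex.continuous_re.comp (hcont 2 (by norm_num))).intervalIntegrable _ _) ?_
      Real.two_pi_pos
    intro θ
    have hw := hcirc 2 (by norm_num) θ
    rw [hre _ hw]
    have hn : 1 < ‖circleMap 0 2 θ‖ := by
      rw [norm_circleMap_zero]; norm_num
    have := Qf_wp_gt σ hσ z hz A hA hn (hv0 _ hw) m hm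
    simp only [hM]
    linarith
  have hneg : 0 < ∫ θ in (0 : ℝ)..(2 * Real.pi), -(h (circleMap 0 (1 / 2) θ)).re := by
    refine intervalIntegral.intervalIntegral_pos_of_pos
      ((Complex.continuous_re.comp (hcont (1 / 2) (by norm_num))).neg.intervalIntegrable _ _) ?_
      Real.two_pi_pos
    intro θ
    have hw := hcirc (1 / 2) (by norm_num) θ
    rw [hre _ hw]
    have hn : ‖circleMap 0 (1 / 2) θ‖ < 1 := by
      rw [norm_circleMap_zero, abs_of_pos] <;> norm_num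
    have := Qf_wp_lt σ hσ z hz A hA hw hn (hv0 _ hw) m hm
    simp only [hM]
    linarith
  rw [intervalIntegral.integral_neg, ← hreint (1 / 2) (by norm_num)] at hneg
  rw [← hreint 2 (by norm_num), hmean] at hpos
  linarith

end

end H24FB
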