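import Pool.Agent.H24.FB.GenDefs

/-! Block G6 of the MP_fb7d21_an project: closeness of `phi` under small perturbations of
conjugates, invariance of `phi` and `gam` under scalars, and continuity. -/

open MeasureTheory Matrix Filter Topology
open scoped MatrixGroups

namespace H24FB

variable {d : ℕ}

/-! ### Continuity -/

lemma phi_continuous (k : ℕ) : Continuous (fun A : Matrix (Fin d) (Fin d) ℂ => phi k A) := by
  unfold phi
  refine continuous_finsetProd _ fun c _ => ?_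
  exact (Continuous.matrix_det (continuous_id.sub continuous_const)).norm

lemma gam_continuous (k : ℕ) (Λ : ℝ) :
    Continuous (fun A : Matrix (Fin d) (Fin d) ℂ => gam k Λ A) := by
  unfold gam
  refine continuous_finsetSum _ fun c _ => continuous_finsetSum _ fun i _ =>
    continuous_finsetSum _ fun j _ => ?_
  refine continuous_const.max ?_
  have h : Continuous fun A : Matrix (Fin d) (Fin d) ℂ =>
      A - c • (1 : Matrix (Fin d) (Fin d) ℂ) := continuous_id.sub continuous_const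
  exact ((Continuous.matrix_elem (Continuous.matrix_adjugate h) i j).norm).sub
    (continuous_const.mul (Continuous.matrix_det h).norm)

lemma fro_continuous : Continuous (fun A : Matrix (Fin d) (Fin d) ℂ => fro A) := by
  unfold fro
  refine continuous_finsetSum _ fun i _ => continuous_finsetSum _ fun j _ => ?_
  exact ((Continuous.matrix_elem continuous_id i j).norm).pow 2

lemma continuous_phi (k : ℕ) : Continuous (phi (d := d) k) := phi_continuous k

lemma continuous_gam (k : ℕ) (Λ : ℝ) : Continuous (gam (d := d) k Λ) := gam_continuous k Λ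

/-! ### Scalars -/

lemma norm_root {k : ℕ} (hk : 0 < k) {c : ℂ} (hc : c ^ k = 1) : ‖c‖ = 1 :=
  (IsOfFinOrder.norm_eq_one (isOfFinOrder_iff_pow_eq_one.2 ⟨k, hk, hc⟩))

lemma sum_roots_mul {M : Type*} [AddCommMonoid M] {k : ℕ} (hk : 0 < k) {c : ℂ} (hc : c ^ k = 1)
    (f : ℂ → M) :
    ∑ a ∈ Polynomial.nthRootsFinset k (1 : ℂ), f (c⁻¹ * a)
      = ∑ a ∈ Polynomial.nthRootsFinset k (1 : ℂ), f a := by
  have hc0 : c ≠ 0 := by
    rintro rfl
    rw [zero_pow hk.ne'] at hc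
    exact zero_ne_one hc
  refine Finset.sum_bij' (fun a _ => c⁻¹ * a) (fun a _ => c * a) ?_ ?_ ?_ ?_ ?_
  · intro a ha
    rw [Polynomial.mem_nthRootsFinset hk] at ha ⊢
    rw [mul_pow, inv_pow, hc, ha]; simp
  · intro a ha
    rw [Polynomial.mem_nthRootsFinset hk] at ha ⊢
    rw [mul_pow, hc, ha]; simp
  · intro a _
    rw [← mul_assoc, mul_inv_cancel₀ hc0, one_mul]
  · intro a _
    rw [← mul_assoc, inv_mul_cancel₀ hc0, one_mul]
  · intro a _; rfl

lemma prod_roots_mul {M : Type*} [CommMonoid M] {k : ℕ} (hk : 0 < k) {c : ℂ} (hc : c ^ k = 1)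
    (f : ℂ → M) :
    ∏ a ∈ Polynomial.nthRootsFinset k (1 : ℂ), f (c⁻¹ * a)
      = ∏ a ∈ Polynomial.nthRootsFinset k (1 : ℂ), f a :=
  sum_roots_mul (M := Additive M) hk hc f

lemma smul_sub_smul_one {k : ℕ} (hk : 0 < k) {c : ℂ} (hc : c ^ k = 1)
    (A : Matrix (Fin d) (Fin d) ℂ) (a : ℂ) :
    c • A - a • (1 : Matrix (Fin d) (Fin d) ℂ)
      = c • (A - (c⁻¹ * a) • (1 : Matrix (Fin d) (Fin d) ℂ)) := by
  have hc0 : c ≠ 0 := by
    rintro rfl
    rw [zero_pow hk.ne'] at hc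
    exact zero_ne_one hc
  rw [smul_sub, smul_smul, ← mul_assoc, mul_inv_cancel₀ hc0, one_mul]

lemma phi_smul (k : ℕ) (hk : 0 < k) (c : ℂ) (hc : c ^ k = 1) (A : Matrix (Fin d) (Fin d) ℂ) :
    phi k (c • A) = phi k A := by
  unfold phi
  rw [← prod_roots_mul hk hc
    (fun a => ‖(A - a • (1 : Matrix (Fin d) (Fin d) ℂ)).det‖)]
  refine Finset.prod_congr rfl fun a _ => ?_
  rw [smul_sub_smul_one hk hc, Matrix.det_smul, norm_mul, norm_pow, norm_root hk hc, one_pow,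
    one_mul]

lemma gam_smul (k : ℕ) (hk : 0 < k) (Λ : ℝ) (c : ℂ) (hc : c ^ k = 1)
    (A : Matrix (Fin d) (Fin d) ℂ) :
    gam k Λ (c • A) = gam k Λ A := by
  unfold gam
  rw [← sum_roots_mul hk hc (fun a => ∑ i, ∑ j,
    max 0 (‖(A - a • (1 : Matrix (Fin d) (Fin d) ℂ)).adjugate i j‖
      - Λ * ‖(A - a • (1 : Matrix (Fin d) (Fin d) ℂ)).det‖))]
  refine Finset.sum_congr rfl fun a _ => Finset.sum_congr rfl fun i _ =>
    Finset.sum_congr rfl fun j _ => ?_
  rw [smul_sub_smul_one hk hc, Matrix.det_smul, norm_mul, norm_pow, norm_root hk hc, one_pow,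
    one_mul, Matrix.adjugate_smul, Matrix.smul_apply, norm_smul, norm_pow, norm_root hk hc,
    one_pow, one_mul]

lemma fro_root_smul {k : ℕ} (hk : 0 < k) {c : ℂ} (hc : c ^ k = 1) (A : Matrix (Fin d) (Fin d) ℂ) :
    fro (c • A) = fro A := by
  unfold fro
  refine Finset.sum_congr rfl fun i _ => Finset.sum_congr rfl fun j _ => ?_
  rw [Matrix.smul_apply, norm_smul, norm_root hk hc, one_mul]

lemma phi_nonneg (k : ℕ) (A : Matrix (Fin d) (Fin d) ℂ) : 0 ≤ phi k A :=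
  Finset.prod_nonneg fun _ _ => norm_nonneg _

lemma gam_nonneg (k : ℕ) (Λ : ℝ) (A : Matrix (Fin d) (Fin d) ℂ) : 0 ≤ gam k Λ A :=
  Finset.sum_nonneg fun _ _ => Finset.sum_nonneg fun _ _ => Finset.sum_nonneg fun _ _ =>
    le_max_left _ _

lemma norm_entry_le_fro (A : Matrix (Fin d) (Fin d) ℂ) (i j : Fin d) :
    ‖A i j‖ ^ 2 ≤ fro A := by
  unfold fro
  refine le_trans ?_ (Finset.single_le_sum (f := fun i => ∑ j, ‖A i j‖ ^ 2)
    (fun i _ => Finset.sum_nonneg fun j _ => sq_nonneg _) (Finset.mem_univ i))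
  exact Finset.single_le_sum (f := fun j => ‖A i j‖ ^ 2)
    (fun j _ => sq_nonneg _) (Finset.mem_univ j)

lemma norm_mul_entry_le {A B : Matrix (Fin d) (Fin d) ℂ} {a b : ℝ}
    (hA : ∀ i j, ‖A i j‖ ≤ a) (hB : ∀ i j, ‖B i j‖ ≤ b) (i j : Fin d) :
    ‖(A * B) i j‖ ≤ d * (a * b) := by
  rw [Matrix.mul_apply]
  refine (norm_sum_le _ _).trans ?_
  have : ∀ l ∈ (Finset.univ : Finset (Fin d)), ‖A i l * B l j‖ ≤ a * b := by
    intro l _
    rw [norm_mul]
    exact mul_le_mul (hA i l) (hB l j) (norm_nonneg _) ((norm_nonneg _).trans (hA i l))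
  refine (Finset.sum_le_card_nsmul _ _ _ this).trans ?_
  simp

/-- The entries of the inverse of `B - c` are at most `Λ` when `gam` vanishes. -/
lemma inv_entry_le {k : ℕ} {Λ : ℝ} {B : Matrix (Fin d) (Fin d) ℂ} (hg : gam k Λ B = 0)
    (hp : phi k B ≠ 0) {c : ℂ} (hc : c ∈ Polynomial.nthRootsFinset k (1 : ℂ)) :
    (B - c • (1 : Matrix (Fin d) (Fin d) ℂ)).det ≠ 0 ∧
    ∀ i j, ‖((B - c • (1 : Matrix (Fin d) (Fin d) ℂ))⁻¹) i j‖ ≤ Λ := by
  have hdet : (B - c • (1 : Matrix (Fin d) (Fin d) ℂ)).det ≠ 0 := by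
    intro h0
    exact hp (Finset.prod_eq_zero hc (by rw [h0, norm_zero]))
  refine ⟨hdet, fun i j => ?_⟩
  have h1 : max 0 (‖(B - c • (1 : Matrix (Fin d) (Fin d) ℂ)).adjugate i j‖
      - Λ * ‖(B - c • (1 : Matrix (Fin d) (Fin d) ℂ)).det‖) = 0 := by
    have h2 := (Finset.sum_eq_zero_iff_of_nonneg (fun c _ => Finset.sum_nonneg fun i _ =>
      Finset.sum_nonneg fun j _ => le_max_left 0
        (‖(B - c • (1 : Matrix (Fin d) (Fin d) ℂ)).adjugate i j‖
      - Λ * ‖(B - c • (1 : Matrix (Fin d) (Fin d) ℂ)).det‖))).1 hg c hc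
    have h3 := (Finset.sum_eq_zero_iff_of_nonneg (fun i _ =>
      Finset.sum_nonneg fun j _ => le_max_left 0
        (‖(B - c • (1 : Matrix (Fin d) (Fin d) ℂ)).adjugate i j‖
      - Λ * ‖(B - c • (1 : Matrix (Fin d) (Fin d) ℂ)).det‖))).1 h2 i (Finset.mem_univ i)
    exact (Finset.sum_eq_zero_iff_of_nonneg (fun j _ => le_max_left 0
        (‖(B - c • (1 : Matrix (Fin d) (Fin d) ℂ)).adjugate i j‖
      - Λ * ‖(B - c • (1 : Matrix (Fin d) (Fin d) ℂ)).det‖))).1 h3 j (Finset.mem_univ j)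
  have h2 : ‖(B - c • (1 : Matrix (Fin d) (Fin d) ℂ)).adjugate i j‖
      ≤ Λ * ‖(B - c • (1 : Matrix (Fin d) (Fin d) ℂ)).det‖ := by
    have := le_max_right 0 (‖(B - c • (1 : Matrix (Fin d) (Fin d) ℂ)).adjugate i j‖
      - Λ * ‖(B - c • (1 : Matrix (Fin d) (Fin d) ℂ)).det‖)
    linarith
  rw [Matrix.inv_def, Matrix.smul_apply, norm_smul, Ring.inverse_eq_inv', norm_inv,
    inv_mul_le_iff₀ (norm_pos_iff.2 hdet)]
  linarith

/-- The product of the determinants is close to `1` near the identity. -/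
lemma det_close (s : Finset ℂ) (δ : ℝ) (hδ : 0 < δ) :
    ∃ r > 0, ∀ N : ℂ → Matrix (Fin d) (Fin d) ℂ, (∀ c ∈ s, ∀ i j, ‖N c i j‖ ≤ r) →
      |∏ c ∈ s, ‖(1 + N c).det‖ - 1| ≤ δ := by
  have hcont : Continuous (fun N : (s → Fin d → Fin d → ℂ) =>
      ∏ c : s, ‖((1 : Matrix (Fin d) (Fin d) ℂ) + Matrix.of (N c)).det‖) := by
    refine continuous_finsetProd _ fun c _ => (Continuous.matrix_det ?_).norm
    refine continuous_const.add ?_
    exact continuous_apply c
  have h0 := Metric.continuousAt_iff.1 (hcont.continuousAt (x := 0)) δ hδ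
  obtain ⟨r, hr, H⟩ := h0
  refine ⟨r / 2, by positivity, fun N hN => ?_⟩
  have hd : dist (fun c : s => (fun i j => N c i j : Fin d → Fin d → ℂ)) 0 < r := by
    refine lt_of_le_of_lt ?_ (half_lt_self hr)
    rw [dist_pi_le_iff (by positivity)]
    intro c
    rw [dist_pi_le_iff (by positivity)]
    intro i
    rw [dist_pi_le_iff (by positivity)]
    intro j
    simpa using hN c c.2 i j
  have h1 := H hd
  rw [Real.dist_eq] at h1
  have h2 : (∏ c : s, ‖((1 : Matrix (Fin d) (Fin d) ℂ) + Matrix.of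
      ((0 : s → Fin d → Fin d → ℂ) c)).det‖) = 1 := by
    refine Finset.prod_eq_one fun c _ => ?_
    have : (Matrix.of ((0 : s → Fin d → Fin d → ℂ) c) : Matrix (Fin d) (Fin d) ℂ) = 0 := rfl
    rw [this, add_zero, Matrix.det_one, norm_one]
  rw [h2] at h1
  have h3 : (∏ c : s, ‖((1 : Matrix (Fin d) (Fin d) ℂ) + Matrix.of
      (fun i j => N c i j : Fin d → Fin d → ℂ)).det‖) = ∏ c ∈ s, ‖(1 + N c).det‖ := by
    rw [← Finset.prod_coe_sort s (fun c => ‖(1 + N c).det‖)]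
    rfl
  rw [h3] at h1
  exact h1.le

/-- **Block G6.** -/
theorem gen_close (k : ℕ) (_hk : 0 < k) (R Λ δ : ℝ) (hR : 0 < R) (hΛ : 0 < Λ) (hδ : 0 < δ) :
    ∃ ε > 0, ∀ (E B : Matrix (Fin d) (Fin d) ℂ) (F : GL (Fin d) ℂ),
      (∀ i j, ‖(E - 1) i j‖ ≤ ε) → fro (F : Matrix (Fin d) (Fin d) ℂ) ≤ R →
      fro ((F⁻¹ : GL (Fin d) ℂ) : Matrix (Fin d) (Fin d) ℂ) ≤ R → gam k Λ B = 0 → phi k B ≠ 0 →
      |phi k (E * ((F : Matrix (Fin d) (Fin d) ℂ) * B *
        ((F⁻¹ : GL (Fin d) ℂ) : Matrix (Fin d) (Fin d) ℂ))) - phi k B| ≤ δ * phi k B := by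
  obtain ⟨r, hr, H⟩ := det_close (d := d) (Polynomial.nthRootsFinset k (1 : ℂ)) δ hδ
  set C : ℝ := d * (d * (d * (1 * (R + 1)) * (1 + Λ)) * (R + 1)) + 1 with hC
  have hC0 : 0 < C := by positivity
  refine ⟨r / C, by positivity, ?_⟩
  intro E B F hE hF hF' hg hp
  have hentry : ∀ M : Matrix (Fin d) (Fin d) ℂ, fro M ≤ R → ∀ i j, ‖M i j‖ ≤ R + 1 := by
    intro M hM i j
    have h1 := (norm_entry_le_fro M i j).trans hM
    nlinarith [norm_nonneg (M i j), sq_nonneg (‖M i j‖ - 1)]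
  set F' : Matrix (Fin d) (Fin d) ℂ := ((F⁻¹ : GL (Fin d) ℂ) : Matrix (Fin d) (Fin d) ℂ) with hF'def
  have hFF' : (F : Matrix (Fin d) (Fin d) ℂ) * F' = 1 := by
    rw [hF'def, ← Units.val_mul]; simp
  have hF'F : F' * (F : Matrix (Fin d) (Fin d) ℂ) = 1 := by
    rw [hF'def, ← Units.val_mul]; simp
  set N : ℂ → Matrix (Fin d) (Fin d) ℂ := fun c =>
    (E - 1) * (F : Matrix (Fin d) (Fin d) ℂ) *
      (1 + c • (B - c • (1 : Matrix (Fin d) (Fin d) ℂ))⁻¹) * F' with hN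
  have hkey : ∀ c ∈ Polynomial.nthRootsFinset k (1 : ℂ),
      ‖(E * ((F : Matrix (Fin d) (Fin d) ℂ) * B * F') -
        c • (1 : Matrix (Fin d) (Fin d) ℂ)).det‖
      = ‖(1 + N c).det‖ * ‖(B - c • (1 : Matrix (Fin d) (Fin d) ℂ)).det‖ := by
    intro c hc
    obtain ⟨hdet, -⟩ := inv_entry_le hg hp hc
    have hu : IsUnit (B - c • (1 : Matrix (Fin d) (Fin d) ℂ)).det := isUnit_iff_ne_zero.2 hdet
    set D := B - c • (1 : Matrix (Fin d) (Fin d) ℂ) with hD
    have hDD : D⁻¹ * D = 1 := Matrix.nonsing_inv_mul D hu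
    have h1 : E * ((F : Matrix (Fin d) (Fin d) ℂ) * B * F') -
        c • (1 : Matrix (Fin d) (Fin d) ℂ)
        = (1 + N c) * ((F : Matrix (Fin d) (Fin d) ℂ) * D * F') := by
      have hB : B = D + c • (1 : Matrix (Fin d) (Fin d) ℂ) := by rw [hD]; abel
      have h2 : N c * ((F : Matrix (Fin d) (Fin d) ℂ) * D * F')
          = (E - 1) * ((F : Matrix (Fin d) (Fin d) ℂ) * B * F') := by
        simp only [hN]
        calc (E - 1) * (F : Matrix (Fin d) (Fin d) ℂ) * (1 + c • D⁻¹) * F' *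
              ((F : Matrix (Fin d) (Fin d) ℂ) * D * F')
            = (E - 1) * (F : Matrix (Fin d) (Fin d) ℂ) * (1 + c • D⁻¹) *
              (F' * (F : Matrix (Fin d) (Fin d) ℂ)) * D * F' := by
              simp only [Matrix.mul_assoc]
          _ = (E - 1) * (F : Matrix (Fin d) (Fin d) ℂ) * ((1 + c • D⁻¹) * D) * F' := by
              rw [hF'F]; simp only [Matrix.mul_one, Matrix.mul_assoc]
          _ = (E - 1) * (F : Matrix (Fin d) (Fin d) ℂ) * B * F' := by
              rw [Matrix.add_mul, Matrix.one_mul, Matrix.smul_mul, hDD, ← hB]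
          _ = _ := by simp only [Matrix.mul_assoc]
      rw [Matrix.add_mul, Matrix.one_mul, h2]
      have h3 : (F : Matrix (Fin d) (Fin d) ℂ) * D * F'
          = (F : Matrix (Fin d) (Fin d) ℂ) * B * F' - c • (1 : Matrix (Fin d) (Fin d) ℂ) := by
        rw [hD, Matrix.mul_sub, Matrix.sub_mul, Matrix.mul_smul, Matrix.mul_one,
          Matrix.smul_mul, hFF']
      rw [h3, Matrix.sub_mul, Matrix.one_mul]
      abel
    rw [h1, Matrix.det_mul, norm_mul]
    congr 1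
    rw [Matrix.det_mul, Matrix.det_mul]
    have h4 : (F : Matrix (Fin d) (Fin d) ℂ).det * F'.det = 1 := by
      rw [← Matrix.det_mul, hFF', Matrix.det_one]
    have h5 : (F : Matrix (Fin d) (Fin d) ℂ).det * D.det * F'.det = D.det := by
      linear_combination D.det * h4
    rw [h5]
  have hNb : ∀ c ∈ Polynomial.nthRootsFinset k (1 : ℂ), ∀ i j, ‖N c i j‖ ≤ r := by
    intro c hc i j
    obtain ⟨hdet, hinv⟩ := inv_entry_le hg hp hc
    have hk : 0 < k := by
      rcases Nat.eq_zero_or_pos k with rfl | h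
      · simp at hc
      · exact h
    have hcn : ‖c‖ = 1 := norm_root hk ((Polynomial.mem_nthRootsFinset hk 1).1 hc)
    have h1 : ∀ i j, ‖((1 : Matrix (Fin d) (Fin d) ℂ) +
        c • (B - c • (1 : Matrix (Fin d) (Fin d) ℂ))⁻¹) i j‖ ≤ 1 + Λ := by
      intro i j
      rw [Matrix.add_apply, Matrix.smul_apply]
      refine (norm_add_le _ _).trans (add_le_add ?_ ?_)
      · rw [Matrix.one_apply]
        split_ifs <;> simp
      · rw [norm_smul, hcn, one_mul]
        exact hinv i j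
    have h2 := norm_mul_entry_le hE (hentry _ hF)
    have h3 := norm_mul_entry_le h2 h1
    have h4 := norm_mul_entry_le h3 (hentry _ hF') i j
    refine h4.trans ?_
    have h5 : (d : ℝ) * (d * (d * (r / C * (R + 1)) * (1 + Λ)) * (R + 1)) = r * ((C - 1) / C) := by
      rw [hC]; field_simp; ring
    rw [h5]
    have h6 : (C - 1) / C ≤ 1 := by
      rw [div_le_one hC0]; linarith
    nlinarith
  have hphi : phi k (E * ((F : Matrix (Fin d) (Fin d) ℂ) * B * F'))
      = (∏ c ∈ Polynomial.nthRootsFinset k (1 : ℂ), ‖(1 + N c).det‖) * phi k B := by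
    unfold phi
    rw [← Finset.prod_mul_distrib]
    exact Finset.prod_congr rfl hkey
  rw [hphi]
  have h1 := H N hNb
  have h2 := phi_nonneg k B
  rw [show (∏ c ∈ Polynomial.nthRootsFinset k (1 : ℂ), ‖(1 + N c).det‖) * phi k B - phi k B
    = ((∏ c ∈ Polynomial.nthRootsFinset k (1 : ℂ), ‖(1 + N c).det‖) - 1) * phi k B by ring,
    abs_mul, abs_of_nonneg h2]
  exact mul_le_mul_of_nonneg_right h1 h2

end H24FB
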