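import Pool.Agent.H24.FB.Defs3

open MeasureTheory Matrix Filter Topology

namespace H24FB

/-! ## Generic relation -/

/-- The pairs whose words along the first return times become `Rel j`-related for every `j`. -/
def BadG {X : Type*} [MeasurableSpace X] [MeasurableSpace.CountablyGenerated X] (μ : Measure X)
    {Q : Type*} [Group Q] {n : ℕ} (T : X → X) (ι : X → Fin n) (Rel : ℕ → Q → Q → Prop) :
    Set ((Fin n → Q) × (Fin n → Q)) :=
  {p | ∀ j : ℕ, Tendsto (fun k => μ {x | ¬ Rel j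
    (wp (fun i => p.2 (ι (T^[i] x))) (ret T (lab k) x))
    (wp (fun i => p.1 (ι (T^[i] x))) (ret T (lab k) x))}) atTop (𝓝 0)}

/-! ## Form-preserving matrices -/

/-- `A` preserves the Hermitian form with diagonal matrix `σ`. -/
def Pres {d : ℕ} (σ : Fin d → ℝ) (A : Matrix (Fin d) (Fin d) ℂ) : Prop :=
  Aᴴ * Matrix.diagonal (fun i => (σ i : ℂ)) * A = Matrix.diagonal (fun i => (σ i : ℂ))

/-- The quadratic form. -/
noncomputable def Qf {d : ℕ} (σ : Fin d → ℝ) (v : Fin d → ℂ) : ℝ := ∑ i, σ i * ‖v i‖ ^ 2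

/-- The diagonal matrix `diag (w ^ z i)`. -/
noncomputable def Dm {d : ℕ} (z : Fin d → ℤ) (w : ℂ) : Matrix (Fin d) (Fin d) ℂ :=
  Matrix.diagonal (fun i => w ^ z i)

/-- The point of the circle with angle `θ`. -/
noncomputable def eC (θ : ℝ) : ℂ := Complex.exp (θ * Complex.I)

/-- The product over the `k`-th roots of unity `c` of `|det (A - c)|`. -/
noncomputable def phi {d : ℕ} (k : ℕ) (A : Matrix (Fin d) (Fin d) ℂ) : ℝ :=
  ∏ c ∈ Polynomial.nthRootsFinset k (1 : ℂ), ‖(A - c • (1 : Matrix (Fin d) (Fin d) ℂ)).det‖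

/-- Vanishes exactly when `‖adj (A - c) i j‖ ≤ Λ ‖det (A - c)‖` for all `k`-th roots of unity
`c` and all `i j`. -/
noncomputable def gam {d : ℕ} (k : ℕ) (Λ : ℝ) (A : Matrix (Fin d) (Fin d) ℂ) : ℝ :=
  ∑ c ∈ Polynomial.nthRootsFinset k (1 : ℂ), ∑ i, ∑ j,
    max 0 (‖(A - c • (1 : Matrix (Fin d) (Fin d) ℂ)).adjugate i j‖
      - Λ * ‖(A - c • (1 : Matrix (Fin d) (Fin d) ℂ)).det‖)

/-- Squared Frobenius norm. -/
noncomputable def fro {d : ℕ} (A : Matrix (Fin d) (Fin d) ℂ) : ℝ := ∑ i, ∑ j, ‖A i j‖ ^ 2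

end H24FB
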