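import Pool.Agent.H24.FB.GenMain

open MeasureTheory Matrix Filter Topology

namespace H24FB

/-- `gen_main` with an embedding instead of a subgroup. -/
theorem gen_main_emb {X : Type*} [MeasurableSpace X] [MeasurableSpace.CountablyGenerated X]
    (μ : Measure X) [IsProbabilityMeasure μ] {n : ℕ} (T : X → X) (hT : MeasurePreserving T μ μ)
    (ι : X → Fin n) (hι : Measurable ι) {d : ℕ} (hd : 0 < d) (σ : Fin d → ℝ)
    (hσ : ∀ i, σ i = 1 ∨ σ i = -1) (z : Fin d → ℤ) (hz : ∀ i, 1 ≤ σ i * (z i : ℝ))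
    {L : Type*} [Group L] [TopologicalSpace L]
    (τ : L →* GL (Fin d) ℂ) (hτ : Topology.IsClosedEmbedding τ)
    (hLp : ∀ l, Pres σ (τ l : Matrix (Fin d) (Fin d) ℂ))
    (hLr : ∀ θ : ℝ, ∃ l, (τ l : Matrix (Fin d) (Fin d) ℂ) = Dm z (eC θ))
    {Q : Type*} [Group Q] [TopologicalSpace Q] [IsTopologicalGroup Q] [T2Space Q]
    (p : L →* Q) (hp : Continuous p) (hpo : IsOpenMap p) (hps : Function.Surjective p)
    (k : ℕ) (hk : 0 < k)
    (hker : ∀ l : L, p l = 1 → ∃ c : ℂ, c ^ k = 1 ∧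
      (τ l : Matrix (Fin d) (Fin d) ℂ) = c • (1 : Matrix (Fin d) (Fin d) ℂ))
    {G : Type*} [Group G] [TopologicalSpace G] [IsTopologicalGroup G] [LocallyCompactSpace G]
    [SecondCountableTopology G] [T2Space G] [MeasurableSpace G] [BorelSpace G]
    (haar : Measure G) [haar.IsHaarMeasure] (ρ : G →* Q) (hρ : Continuous ρ)
    (hsurj : Function.Surjective ρ) :
    ∀ᵐ p : (Fin n → G) × (Fin n → G)
      ∂((Measure.pi fun _ => haar).prod (Measure.pi fun _ => haar)),
      ¬ ∃ f : X → G, Measurable f ∧ ∀ᵐ x ∂μ, f (T x) * p.1 (ι x) = p.2 (ι x) * f x := by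
  set e : L ≃* τ.range := MonoidHom.ofInjective hτ.injective with he
  have hev : ∀ l : L, ((e l : τ.range) : GL (Fin d) ℂ) = τ l := fun l => rfl
  have hes : ∀ y : τ.range, τ (e.symm y) = (y : GL (Fin d) ℂ) := by
    intro y
    rw [← hev, e.apply_symm_apply]
  have hec : Continuous e := by
    refine Continuous.subtype_mk (f := fun l => τ l) hτ.continuous ?_
  have hsc : Continuous e.symm := by
    rw [hτ.isEmbedding.continuous_iff]
    have : (τ ∘ e.symm : τ.range → GL (Fin d) ℂ) = (Subtype.val : τ.range → GL (Fin d) ℂ) :=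
      funext hes
    rw [this]
    exact continuous_subtype_val
  refine gen_main μ T hT ι hι hd σ hσ z hz τ.range ?_ ?_ ?_ (p.comp e.symm.toMonoidHom)
    (hp.comp hsc) ?_ (hps.comp e.symm.surjective) k hk ?_ haar ρ hρ hsurj
  · rw [MonoidHom.coe_range]
    exact hτ.isClosed_range
  · rintro A ⟨l, rfl⟩
    exact hLp l
  · intro θ
    obtain ⟨l, hl⟩ := hLr θ
    exact ⟨τ l, ⟨l, rfl⟩, hl⟩
  · show IsOpenMap (p ∘ e.symm)
    refine hpo.comp ?_
    intro U hU
    have : e.symm '' U = e ⁻¹' U := by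
      ext l
      constructor
      · rintro ⟨y, hy, rfl⟩
        show e (e.symm y) ∈ U
        rwa [e.apply_symm_apply]
      · intro hl
        exact ⟨e l, hl, e.symm_apply_apply l⟩
    rw [this]
    exact hU.preimage hec
  · intro y hy
    obtain ⟨c, hc, hc2⟩ := hker (e.symm y) hy
    refine ⟨c, hc, ?_⟩
    rw [← hc2, hes]

/-- The form for a quotient `L ⧸ C`. -/
theorem gen_main_quot {X : Type*} [MeasurableSpace X] [MeasurableSpace.CountablyGenerated X]
    (μ : Measure X) [IsProbabilityMeasure μ] {n : ℕ} (T : X → X) (hT : MeasurePreserving T μ μ)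
    (ι : X → Fin n) (hι : Measurable ι) {d : ℕ} (hd : 0 < d) (σ : Fin d → ℝ)
    (hσ : ∀ i, σ i = 1 ∨ σ i = -1) (z : Fin d → ℤ) (hz : ∀ i, 1 ≤ σ i * (z i : ℝ))
    {L : Type*} [Group L] [TopologicalSpace L] [IsTopologicalGroup L]
    (τ : L →* GL (Fin d) ℂ) (hτ : Topology.IsClosedEmbedding τ)
    (hLp : ∀ l, Pres σ (τ l : Matrix (Fin d) (Fin d) ℂ))
    (hLr : ∀ θ : ℝ, ∃ l, (τ l : Matrix (Fin d) (Fin d) ℂ) = Dm z (eC θ))
    (C : Subgroup L) [C.Normal] (k : ℕ) (hk : 0 < k)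
    (hker : ∀ l ∈ C, ∃ c : ℂ, c ^ k = 1 ∧
      (τ l : Matrix (Fin d) (Fin d) ℂ) = c • (1 : Matrix (Fin d) (Fin d) ℂ))
    {G : Type*} [Group G] [TopologicalSpace G] [IsTopologicalGroup G] [LocallyCompactSpace G]
    [SecondCountableTopology G] [T2Space G] [MeasurableSpace G] [BorelSpace G]
    (haar : Measure G) [haar.IsHaarMeasure] (ρ : G →* L ⧸ C) (hρ : Continuous ρ)
    (hsurj : Function.Surjective ρ) :
    ∀ᵐ p : (Fin n → G) × (Fin n → G)
      ∂((Measure.pi fun _ => haar).prod (Measure.pi fun _ => haar)),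
      ¬ ∃ f : X → G, Measurable f ∧ ∀ᵐ x ∂μ, f (T x) * p.1 (ι x) = p.2 (ι x) * f x := by
  have hfinC : (C : Set L).Finite := by
    have h1 : {c : ℂ | c ^ k = 1}.Finite := by
      refine (Polynomial.nthRootsFinset k (1 : ℂ)).finite_toSet.subset ?_
      intro c hc
      rw [Finset.mem_coe, Polynomial.mem_nthRootsFinset hk]
      exact hc
    have h2 := h1.image (fun c => c • (1 : Matrix (Fin d) (Fin d) ℂ))
    refine Set.Finite.of_finite_image (f := fun l => (τ l : Matrix (Fin d) (Fin d) ℂ))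
      (h2.subset ?_) ?_
    · rintro _ ⟨l, hl, rfl⟩
      obtain ⟨c, hc, hc2⟩ := hker l hl
      exact ⟨c, hc, hc2.symm⟩
    · intro a _ b _ hab
      exact hτ.injective (Units.ext hab)
  haveI : T2Space L := hτ.isEmbedding.t2Space
  haveI hCc : IsClosed (C : Set L) := hfinC.isClosed
  haveI : T2Space (L ⧸ C) := inferInstance
  refine gen_main_emb μ T hT ι hι hd σ hσ z hz τ hτ hLp hLr (QuotientGroup.mk' C)
    QuotientGroup.continuous_mk QuotientGroup.isOpenMap_coe (QuotientGroup.mk'_surjective C)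
    k hk ?_ haar ρ hρ hsurj
  intro l hl
  exact hker l ((QuotientGroup.eq_one_iff l).mp hl)

end H24FB
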