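import Pool.Agent.H24.FB.GenDefs
import Pool.Agent.H24.FB.BlockF

/-! Block ABS-F: measurability of `BadG` and the generic Fubini argument. -/

open MeasureTheory Measure Matrix Filter Topology
open scoped ENNReal

namespace H24FB

/-- `BadG` is measurable. -/
theorem badG_meas {X : Type*} [MeasurableSpace X] [MeasurableSpace.CountablyGenerated X]
    (μ : Measure X) [IsProbabilityMeasure μ] {n : ℕ} (T : X → X) (hT : Measurable T)
    (ι : X → Fin n) (hι : Measurable ι) {Q : Type*} [Group Q] [TopologicalSpace Q]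
    [IsTopologicalGroup Q] [SecondCountableTopology Q] [MeasurableSpace Q] [BorelSpace Q]
    (Rel : ℕ → Q → Q → Prop) (hm : ∀ j, MeasurableSet {p : Q × Q | Rel j p.1 p.2}) :
    MeasurableSet (BadG μ T ι Rel) := by
  unfold BadG
  rw [Set.ofPred_forall]
  refine MeasurableSet.iInter fun j => ?_
  refine measurableSet_tendsto (𝓝 0) fun k => ?_
  have hq := measurable_ret T hT (lab k) (measurable_lab k)
  have h1 := FAux.measurable_word' hT hι
    (fun p : (Fin n → Q) × (Fin n → Q) => p.1) measurable_fst hq
  have h2 := FAux.measurable_word' hT hι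
    (fun p : (Fin n → Q) × (Fin n → Q) => p.2) measurable_snd hq
  have hS : MeasurableSet {z : ((Fin n → Q) × (Fin n → Q)) × X |
      Rel j (wp (fun i => z.1.2 (ι (T^[i] z.2))) (ret T (lab k) z.2))
        (wp (fun i => z.1.1 (ι (T^[i] z.2))) (ret T (lab k) z.2))} :=
    (h2.prodMk h1) (hm j)
  exact measurable_measure_prodMk_left hS.compl

/-- The preimage of `BadG` is null when the words of pairs are rarely related. -/
theorem badG_null {X : Type*} [MeasurableSpace X] [MeasurableSpace.CountablyGenerated X]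
    (μ : Measure X) [IsProbabilityMeasure μ] {n : ℕ} (T : X → X) (hT : MeasurePreserving T μ μ)
    (ι : X → Fin n) (hι : Measurable ι) {Q : Type*} [Group Q] [TopologicalSpace Q]
    [IsTopologicalGroup Q] [SecondCountableTopology Q] [MeasurableSpace Q] [BorelSpace Q]
    {L : Type*} [Group L] [TopologicalSpace L] [IsTopologicalGroup L]
    [SecondCountableTopology L] [LocallyCompactSpace L] [MeasurableSpace L] [BorelSpace L]
    (p : L →* Q) (hp : Continuous p) (Rel : ℕ → Q → Q → Prop)
    (hm : ∀ j, MeasurableSet {p : Q × Q | Rel j p.1 p.2}) (ν : Measure L) [ν.IsHaarMeasure]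
    (KK : ℕ → Set (Fin n → L)) (hKm : ∀ R, MeasurableSet (KK R)) (hKmono : Monotone KK)
    (hKu : ⋃ R, KK R = Set.univ) (ε : ℕ → ℕ → ℝ≥0∞) (hε : ∀ R, Tendsto (ε R) atTop (𝓝 0))
    (hw : ∀ (R j : ℕ) (w : ℕ → Fin n) (m : ℕ), 0 < m →
      ((Measure.pi fun _ : Fin n => ν).prod (Measure.pi fun _ : Fin n => ν))
        {q | (q.1 ∈ KK R ∧ q.2 ∈ KK R) ∧
          Rel j (p (wp (fun i => q.2 (w i)) m)) (p (wp (fun i => q.1 (w i)) m))} ≤ ε R j) :
    ((Measure.pi fun _ : Fin n => ν).prod (Measure.pi fun _ : Fin n => ν))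
      ((fun q : (Fin n → L) × (Fin n → L) =>
        ((fun i => p (q.1 i)), (fun i => p (q.2 i)))) ⁻¹' BadG μ T ι Rel) = 0 := by
  set M : Measure (Fin n → L) := Measure.pi fun _ : Fin n => ν with hM
  set Bad : Set ((Fin n → L) × (Fin n → L)) :=
    (fun q : (Fin n → L) × (Fin n → L) =>
        ((fun i => p (q.1 i)), (fun i => p (q.2 i)))) ⁻¹' BadG μ T ι Rel with hBad
  have hR : ∀ R : ℕ, (M.prod M) (Bad ∩ (KK R ×ˢ KK R)) = 0 := by
    intro R
    set K : Set ((Fin n → L) × (Fin n → L)) := KK R ×ˢ KK R with hK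
    have hKm' : MeasurableSet K := (hKm R).prod (hKm R)
    set P := (M.prod M).restrict K with hP
    have hj : ∀ j : ℕ, P Bad ≤ ε R j := by
      intro j
      set W : ℕ → ((Fin n → L) × (Fin n → L)) → X → Prop := fun k q x =>
        Rel j (p (wp (fun i => q.2 (ι (T^[i] x))) (ret T (lab k) x)))
          (p (wp (fun i => q.1 (ι (T^[i] x))) (ret T (lab k) x))) with hW
      have hS : ∀ k, MeasurableSet {z : ((Fin n → L) × (Fin n → L)) × X | W k z.1 z.2} := by
        intro k
        have hq := measurable_ret T hT.measurable (lab k) (measurable_lab k)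
        have h1 := hp.measurable.comp (FAux.measurable_word' hT.measurable hι
          (fun p : (Fin n → L) × (Fin n → L) => p.1) measurable_fst hq)
        have h2 := hp.measurable.comp (FAux.measurable_word' hT.measurable hι
          (fun p : (Fin n → L) × (Fin n → L) => p.2) measurable_snd hq)
        exact (h2.prodMk h1) (hm j)
      set g : ℕ → (Fin n → L) × (Fin n → L) → ℝ≥0∞ := fun k q => μ {x | W k q x} with hg
      have hgm : ∀ k, Measurable (g k) := fun k => measurable_measure_prodMk_left (hS k)
      have hint : ∀ k, ∫⁻ q, g k q ∂P ≤ ε R j := by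
        intro k
        have e1 : ∫⁻ q, g k q ∂P = (P.prod μ) {z | W k z.1 z.2} := by
          rw [Measure.prod_apply (hS k)]
          rfl
        rw [e1, Measure.prod_apply_symm (hS k)]
        have e2 : ∀ᵐ x ∂μ, P ((fun q => (q, x)) ⁻¹' {z : ((Fin n → L) × (Fin n → L)) × X |
            W k z.1 z.2}) ≤ ε R j := by
          filter_upwards [ret_pos_ae μ T hT (lab k) (measurable_lab k)] with x hx
          have hmx : MeasurableSet ((fun q => (q, x)) ⁻¹' {z : ((Fin n → L) × (Fin n → L)) × X |
            W k z.1 z.2}) := measurable_prodMk_right (hS k)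
          rw [hP, restrict_apply hmx]
          refine (measure_mono ?_).trans (hw R j (fun i => ι (T^[i] x)) (ret T (lab k) x) hx)
          rintro q ⟨hq1, hq2⟩
          exact ⟨hq2, hq1⟩
        calc ∫⁻ x, P ((fun q => (q, x)) ⁻¹' {z : ((Fin n → L) × (Fin n → L)) × X |
              W k z.1 z.2}) ∂μ
            ≤ ∫⁻ _, ε R j ∂μ := lintegral_mono_ae e2
          _ = ε R j := by simp
      have hsub : Bad ⊆ {q | 1 ≤ liminf (fun k => g k q) atTop} := by
        intro q hq
        have h1 := hq j
        have hmap : ∀ k x, (¬ Rel j (wp (fun i => p (q.2 (ι (T^[i] x)))) (ret T (lab k) x))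
            (wp (fun i => p (q.1 (ι (T^[i] x)))) (ret T (lab k) x))) ↔ ¬ W k q x := by
          intro k x
          rw [hW]
          simp only [map_wp]
        simp only [hmap] at h1
        have h2 : Tendsto (fun k => g k q) atTop (𝓝 1) := by
          have h3 : ∀ k, g k q = 1 - μ {x | ¬ W k q x} := by
            intro k
            have hmx : MeasurableSet {x | W k q x} := measurable_prodMk_left (hS k)
            have h4 := prob_compl_eq_one_sub (μ := μ) hmx.compl
            rw [compl_compl] at h4
            exact h4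
          have h5 : Tendsto (fun k => 1 - μ {x | ¬ W k q x}) atTop (𝓝 (1 - 0)) :=
            ENNReal.Tendsto.sub tendsto_const_nhds h1 (Or.inl ENNReal.one_ne_top)
          rw [tsub_zero] at h5
          exact h5.congr fun k => (h3 k).symm
        simp only [Set.mem_ofPred_eq]
        rw [h2.liminf_eq]
      have h6 : P {q | 1 ≤ liminf (fun k => g k q) atTop} ≤
          ∫⁻ q, liminf (fun k => g k q) atTop ∂P := by
        have := mul_meas_ge_le_lintegral (μ := P)
          (Measurable.liminf hgm : Measurable fun q => liminf (fun k => g k q) atTop) 1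
        rwa [one_mul] at this
      refine (measure_mono hsub).trans (h6.trans ((lintegral_liminf_le hgm).trans ?_))
      exact liminf_le_of_frequently_le' (Frequently.of_forall hint)
    have h9 : P Bad = 0 := le_antisymm (ge_of_tendsto' (hε R) hj) bot_le
    rw [hP, restrict_apply' hKm'] at h9
    exact h9
  have hcov : Bad ⊆ ⋃ R : ℕ, Bad ∩ (KK R ×ˢ KK R) := by
    intro q hq
    have h1 : q.1 ∈ ⋃ R : ℕ, KK R := by rw [hKu]; trivial
    have h2 : q.2 ∈ ⋃ R : ℕ, KK R := by rw [hKu]; trivial
    obtain ⟨R1, h1⟩ := Set.mem_iUnion.1 h1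
    obtain ⟨R2, h2⟩ := Set.mem_iUnion.1 h2
    exact Set.mem_iUnion.2 ⟨max R1 R2, hq, hKmono (le_max_left R1 R2) h1,
      hKmono (le_max_right R1 R2) h2⟩
  exact measure_mono_null hcov (measure_iUnion_null fun R => hR R)

end H24FB
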