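import Pool.Agent.H24.FB.GenA
import Pool.Agent.H24.FB.BlockA

/-! # The restriction of `phi k` to the circle is a product of sines -/

open MeasureTheory Matrix Filter Topology Polynomial

namespace H24FB

namespace GF

variable {d : ℕ}

/-- a bound for the exponents -/
def aa (z : Fin d → ℤ) : ℕ := ∑ i, (z i).natAbs

lemma aa_nonneg (z : Fin d → ℤ) (i : Fin d) : 0 ≤ (aa z : ℤ) + z i := by
  have h : (z i).natAbs ≤ aa z :=
    Finset.single_le_sum (f := fun i => (z i).natAbs) (fun _ _ => Nat.zero_le _)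
      (Finset.mem_univ i)
  omega

/-- the polynomial diagonal matrix -/
noncomputable def Dp (z : Fin d → ℤ) : Matrix (Fin d) (Fin d) ℂ[X] :=
  Matrix.diagonal (fun i => (X : ℂ[X]) ^ ((aa z : ℤ) + z i).toNat)

lemma wp_smul (s : ℂ) (B : ℕ → Matrix (Fin d) (Fin d) ℂ) (m : ℕ) :
    wp (fun j => s • B j) m = s ^ m • wp B m := by
  induction m with
  | zero => simp [wp]
  | succ m ih =>
    simp only [wp]
    rw [ih, Matrix.smul_mul, Matrix.mul_smul, smul_smul, pow_succ']

lemma eval_Dp (z : Fin d → ℤ) (w : ℂ) (hw : w ≠ 0) :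
    (Polynomial.evalRingHom w).mapMatrix (Dp z) = w ^ aa z • Dm z w := by
  unfold Dp Dm
  rw [RingHom.mapMatrix_apply, Matrix.diagonal_map (by simp)]
  ext i j
  by_cases hij : i = j
  · subst hij
    simp only [Matrix.diagonal_apply_eq, Matrix.smul_apply, smul_eq_mul, Polynomial.coe_evalRingHom,
      Polynomial.eval_pow, Polynomial.eval_X]
    rw [← zpow_natCast w (aa z), ← zpow_add₀ hw, ← zpow_natCast, Int.toNat_of_nonneg (aa_nonneg z i)]
  · simp [Matrix.diagonal_apply_ne _ hij]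

/-- the polynomial word -/
noncomputable def Mp (z : Fin d → ℤ) (A : ℕ → Matrix (Fin d) (Fin d) ℂ) (m : ℕ) :
    Matrix (Fin d) (Fin d) ℂ[X] := wp (fun j => Dp z * (A j).map C) m

lemma eval_Mp (z : Fin d → ℤ) (A : ℕ → Matrix (Fin d) (Fin d) ℂ) (m : ℕ) (w : ℂ) (hw : w ≠ 0) :
    (Polynomial.evalRingHom w).mapMatrix (Mp z A m) =
      (w ^ aa z) ^ m • wp (fun j => Dm z w * A j) m := by
  unfold Mp
  have h := map_wp ((Polynomial.evalRingHom w).mapMatrix : Matrix (Fin d) (Fin d) ℂ[X] →+*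
    Matrix (Fin d) (Fin d) ℂ).toMonoidHom (fun j => Dp z * (A j).map C) m
  have h' : (Polynomial.evalRingHom w).mapMatrix (wp (fun j => Dp z * (A j).map C) m) =
    wp (fun i => (Polynomial.evalRingHom w).mapMatrix (Dp z * (A i).map C)) m := h
  rw [h', ← wp_smul]
  congr 1
  funext j
  rw [map_mul, eval_Dp z w hw, Matrix.smul_mul]
  congr 2
  ext i k
  simp

/-- the polynomial -/
noncomputable def PP (z : Fin d → ℤ) (A : ℕ → Matrix (Fin d) (Fin d) ℂ) (m k : ℕ) : ℂ[X] :=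
  ∏ c ∈ Polynomial.nthRootsFinset k (1 : ℂ),
    (Mp z A m - (C c * (X ^ aa z) ^ m) • (1 : Matrix (Fin d) (Fin d) ℂ[X])).det

lemma eval_PP (z : Fin d → ℤ) (A : ℕ → Matrix (Fin d) (Fin d) ℂ) (m k : ℕ) (w : ℂ)
    (hw : w ≠ 0) :
    (PP z A m k).eval w = ∏ c ∈ Polynomial.nthRootsFinset k (1 : ℂ),
      (((w ^ aa z) ^ m) ^ d *
        (wp (fun j => Dm z w * A j) m - c • (1 : Matrix (Fin d) (Fin d) ℂ)).det) := by
  unfold PP
  rw [Polynomial.eval_prod]
  apply Finset.prod_congr rfl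
  intro c _
  rw [← Polynomial.coe_evalRingHom, RingHom.map_det, map_sub, eval_Mp z A m w hw]
  have h1 : (Polynomial.evalRingHom w).mapMatrix
      ((C c * (X ^ aa z) ^ m) • (1 : Matrix (Fin d) (Fin d) ℂ[X])) =
      ((w ^ aa z) ^ m) • (c • (1 : Matrix (Fin d) (Fin d) ℂ)) := by
    ext i j
    by_cases hij : i = j
    · subst hij
      simp [mul_comm]
    · simp [Matrix.one_apply_ne hij]
  rw [h1, ← smul_sub, Matrix.det_smul, Fintype.card_fin]

end GF

theorem gen_factor {d : ℕ} (hd : 0 < d) (σ : Fin d → ℝ) (hσ : ∀ i, σ i = 1 ∨ σ i = -1)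
    (z : Fin d → ℤ) (hz : ∀ i, 1 ≤ σ i * (z i : ℝ)) (A : ℕ → Matrix (Fin d) (Fin d) ℂ)
    (hA : ∀ j, Pres σ (A j)) (m : ℕ) (hm : 0 < m) (k : ℕ) (hk : 0 < k) :
    ∃ (N : ℕ) (K : ℝ) (t : Fin N → ℝ), 0 < N ∧ 0 < K ∧
      ∀ θ : ℝ, phi k (wp (fun j => Dm z (eC θ) * A j) m) =
        K * ∏ j, |Real.sin ((θ - t j) / 2)| := by
  classical
  have hroot1 : ∀ c ∈ Polynomial.nthRootsFinset k (1 : ℂ), ‖c‖ = 1 := by
    intro c hc
    exact Complex.norm_eq_one_of_pow_eq_one ((Polynomial.mem_nthRootsFinset hk (1 : ℂ)).1 hc)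
      hk.ne'
  have hone : (1 : ℂ) ∈ Polynomial.nthRootsFinset k (1 : ℂ) :=
    (Polynomial.mem_nthRootsFinset hk (1 : ℂ)).2 (one_pow k)
  obtain ⟨P, hP⟩ : ∃ P, P = GF.PP z A m k := ⟨_, rfl⟩
  -- nonvanishing off the circle
  have hoff : ∀ w : ℂ, w ≠ 0 → ‖w‖ ≠ 1 → P.eval w ≠ 0 := by
    intro w hw0 hw1
    rw [hP, GF.eval_PP z A m k w hw0]
    apply Finset.prod_ne_zero_iff.2
    intro c hc
    exact mul_ne_zero (pow_ne_zero _ (pow_ne_zero _ (pow_ne_zero _ hw0)))
      (gen_det_ne σ hσ z hz A hA m hm c (hroot1 c hc) w hw0 hw1)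
  have hP0 : P ≠ 0 := by
    intro h
    have := hoff 2 (by norm_num) (by norm_num)
    rw [h] at this
    simp at this
  -- values on the circle
  have hon : ∀ θ : ℝ, ‖P.eval (eC θ)‖ = phi k (wp (fun j => Dm z (eC θ) * A j) m) := by
    intro θ
    have hw0 : eC θ ≠ 0 := Complex.exp_ne_zero _
    have hwn : ‖eC θ‖ = 1 := Complex.norm_exp_ofReal_mul_I θ
    rw [hP, GF.eval_PP z A m k _ hw0, norm_prod]
    unfold phi
    apply Finset.prod_congr rfl
    intro c _
    rw [norm_mul, norm_pow, norm_pow, norm_pow, hwn]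
    simp
  have hcard : Multiset.card P.roots = P.natDegree := by
    exact (Polynomial.splits_iff_card_roots.mp (IsAlgClosed.splits P))
  have hfac : P = C P.leadingCoeff * (P.roots.map (fun a => X - C a)).prod :=
    (Polynomial.C_leadingCoeff_mul_prod_multiset_X_sub_C hcard).symm
  have hlead : P.leadingCoeff ≠ 0 := Polynomial.leadingCoeff_ne_zero.mpr hP0
  obtain ⟨L, hL⟩ : ∃ L, L = (P.roots.filter (fun a => a ≠ 0)).toList := ⟨_, rfl⟩
  have hLmem : ∀ a ∈ L, a ≠ 0 ∧ P.eval a = 0 := by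
    intro a ha
    rw [hL, Multiset.mem_toList, Multiset.mem_filter] at ha
    exact ⟨ha.2, (Polynomial.mem_roots hP0).mp ha.1⟩
  have hLlen : 0 < L.length := by
    obtain ⟨θ, hθ⟩ := gen_exists_root σ hσ z hz A hA hd m hm 1 (by simp)
    have hw0 : eC θ ≠ 0 := Complex.exp_ne_zero _
    have h0 : P.eval (eC θ) = 0 := by
      rw [hP, GF.eval_PP z A m k _ hw0]
      apply Finset.prod_eq_zero hone
      rw [hθ, mul_zero]
    have hmem : eC θ ∈ L := by
      rw [hL, Multiset.mem_toList, Multiset.mem_filter]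
      exact ⟨(Polynomial.mem_roots hP0).2 h0, hw0⟩
    exact List.length_pos_of_mem hmem
  refine ⟨L.length, ‖P.leadingCoeff‖ * 2 ^ L.length, fun j => Complex.arg (L.get j), hLlen, ?_, ?_⟩
  · have := norm_pos_iff.mpr hlead
    positivity
  intro θ
  obtain ⟨w, hw⟩ : ∃ w, w = eC θ := ⟨_, rfl⟩
  have hwn : ‖w‖ = 1 := by rw [hw]; exact Complex.norm_exp_ofReal_mul_I θ
  have h2 : ‖P.eval w‖ = ‖P.leadingCoeff‖ * (P.roots.map (fun a => ‖w - a‖)).prod := by
    conv_lhs => rw [hfac]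
    rw [Polynomial.eval_mul, Polynomial.eval_C, Polynomial.eval_multiset_prod, Multiset.map_map,
      norm_mul]
    congr 1
    have hn : ∀ s : Multiset ℂ, ‖s.prod‖ = (s.map (fun a => ‖a‖)).prod := by
      intro s
      exact (Multiset.prod_hom s (normHom : ℂ →*₀ ℝ)).symm
    rw [hn, Multiset.map_map]
    congr 1
    apply Multiset.map_congr rfl
    intro a _
    simp
  have h3 : (P.roots.map (fun a => ‖w - a‖)).prod = (L.map (fun a => ‖w - a‖)).prod := by
    rw [← Multiset.filter_add_not (fun a => a ≠ 0) P.roots, Multiset.map_add, Multiset.prod_add]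
    have hz1 : ((Multiset.filter (fun a => ¬ a ≠ 0) P.roots).map (fun a => ‖w - a‖)).prod = 1 := by
      apply Multiset.prod_eq_one
      intro x hx
      rw [Multiset.mem_map] at hx
      obtain ⟨a, ha, rfl⟩ := hx
      rw [Multiset.mem_filter] at ha
      have ha0 : a = 0 := not_not.1 ha.2
      rw [ha0, sub_zero, hwn]
    rw [hz1, mul_one, hL, ← Multiset.prod_coe, ← Multiset.map_coe, Multiset.coe_toList]
  have h4 : (L.map (fun a => ‖w - a‖)).prod = ∏ i : Fin L.length, ‖w - L.get i‖ := by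
    rw [← List.prod_ofFn]
    congr 1
    apply List.ext_get
    · simp
    · intro n hn1 hn2
      simp
  have h5 : ∀ j : Fin L.length, ‖w - L.get j‖ =
      2 * |Real.sin ((θ - Complex.arg (L.get j)) / 2)| := by
    intro j
    obtain ⟨h0, hr⟩ := hLmem (L.get j) (List.get_mem _ _)
    have hun : ‖L.get j‖ = 1 := by
      by_contra h
      exact hoff _ h0 h hr
    have hexp : L.get j = Complex.exp (((Complex.arg (L.get j) : ℝ) : ℂ) * Complex.I) := by
      have := Complex.norm_mul_exp_arg_mul_I (L.get j)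
      rw [hun, Complex.ofReal_one, one_mul] at this
      exact this.symm
    conv_lhs => rw [hexp]
    rw [hw]
    unfold eC
    exact H5FBA.norm_exp_sub θ _
  rw [← hon θ, ← hw, h2, h3, h4, Finset.prod_congr rfl (fun j _ => h5 j),
    Finset.prod_mul_distrib, Finset.prod_const, Finset.card_univ, Fintype.card_fin, mul_assoc]

end H24FB
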