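import Pool.Agent.H24.FB.GenDefs
import Mathlib

/-! Block G5: Haar measure averaged over the circle `diag (e^{i z_a θ})`, and the topology of
closed subgroups of `GL d` which preserve a form. -/

open MeasureTheory Matrix Filter Topology

namespace H24FB

/-- The tuples whose entries have squared Frobenius norm at most `R`. -/
def KG {L : Type*} [Group L] {d : ℕ} (τ : L →* Matrix (Fin d) (Fin d) ℂ) (n : ℕ) (R : ℝ) :
    Set (Fin n → L) := {h | ∀ k, fro (τ (h k)) ≤ R}

theorem continuous_fro {d : ℕ} : Continuous (fro : Matrix (Fin d) (Fin d) ℂ → ℝ) := by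
  unfold fro
  exact continuous_finsetSum _ fun i _ => continuous_finsetSum _ fun j _ =>
    ((continuous_id.matrix_elem i j).norm).pow 2

theorem norm_eC (θ : ℝ) : ‖eC θ‖ = 1 := by
  unfold eC
  exact Complex.norm_exp_ofReal_mul_I θ

theorem eC_ne_zero (θ : ℝ) : eC θ ≠ 0 := by
  intro h
  have := norm_eC θ
  rw [h, norm_zero] at this
  exact zero_ne_one this

theorem continuous_eC : Continuous eC := by
  unfold eC
  exact Complex.continuous_exp.comp (Complex.continuous_ofReal.mul continuous_const)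

theorem eC_mul_eC_neg (θ : ℝ) : eC θ * eC (-θ) = 1 := by
  unfold eC
  rw [← Complex.exp_add]
  have : (θ : ℂ) * Complex.I + ((-θ : ℝ) : ℂ) * Complex.I = 0 := by push_cast; ring
  rw [this, Complex.exp_zero]

theorem continuous_Dm_eC {d : ℕ} (z : Fin d → ℤ) : Continuous fun θ : ℝ => Dm z (eC θ) := by
  unfold Dm
  refine Continuous.matrix_diagonal (continuous_pi fun i => ?_)
  exact continuous_eC.zpow₀ (z i) fun θ => Or.inl (eC_ne_zero θ)

theorem Dm_mul_Dm_neg {d : ℕ} (z : Fin d → ℤ) (θ : ℝ) : Dm z (eC θ) * Dm z (eC (-θ)) = 1 := by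
  unfold Dm
  rw [Matrix.diagonal_mul_diagonal, ← Matrix.diagonal_one]
  congr 1
  funext i
  rw [← mul_zpow, eC_mul_eC_neg, _root_.one_zpow]

theorem fro_Dm_mul {d : ℕ} (z : Fin d → ℤ) (θ : ℝ) (A : Matrix (Fin d) (Fin d) ℂ) :
    fro (Dm z (eC θ) * A) = fro A := by
  unfold fro Dm
  refine Finset.sum_congr rfl fun i _ => Finset.sum_congr rfl fun j _ => ?_
  rw [Matrix.diagonal_mul, norm_mul, norm_zpow, norm_eC, _root_.one_zpow, one_mul]

theorem continuous_wp_gen {G : Type*} [Monoid G] [TopologicalSpace G] [ContinuousMul G]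
    {X : Type*} [TopologicalSpace X] {B : X → ℕ → G}
    (hB : ∀ j, Continuous fun x => B x j) (m : ℕ) : Continuous fun x => wp (B x) m := by
  induction m with
  | zero => exact continuous_const
  | succ k ih => exact (hB k).mul ih

theorem isClosed_KG {L : Type*} [Group L] [TopologicalSpace L] {d : ℕ}
    (τ : L →* Matrix (Fin d) (Fin d) ℂ) (hτ : Continuous τ) (n : ℕ) (R : ℝ) :
    IsClosed (KG τ n R) := by
  have : KG τ n R = ⋂ k, {h : Fin n → L | fro (τ (h k)) ≤ R} := by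
    ext h; simp [KG]
  rw [this]
  exact isClosed_iInter fun k => isClosed_le
    (continuous_fro.comp (hτ.comp (continuous_apply k))) continuous_const

theorem KG_mono {L : Type*} [Group L] {d : ℕ} (τ : L →* Matrix (Fin d) (Fin d) ℂ) (n : ℕ)
    {R R' : ℝ} (h : R ≤ R') : KG τ n R ⊆ KG τ n R' := fun _ hx k => (hx k).trans h

theorem iUnion_KG {L : Type*} [Group L] {d : ℕ} (τ : L →* Matrix (Fin d) (Fin d) ℂ) (n : ℕ) :
    ⋃ R : ℕ, KG τ n (R : ℝ) = Set.univ := by
  refine Set.eq_univ_of_forall fun h => ?_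
  rw [Set.mem_iUnion]
  refine ⟨⌈∑ k, fro (τ (h k))⌉₊, fun k => ?_⟩
  refine le_trans ?_ (Nat.le_ceil _)
  refine Finset.single_le_sum (f := fun k => fro (τ (h k))) (fun i _ => ?_) (Finset.mem_univ k)
  exact Finset.sum_nonneg fun _ _ => Finset.sum_nonneg fun _ _ => by positivity

theorem gen_avg {d : ℕ} (σ : Fin d → ℝ) (z : Fin d → ℤ) {L : Type*} [Group L]
    [TopologicalSpace L] [IsTopologicalGroup L]
    [SecondCountableTopology L] [MeasurableSpace L] [BorelSpace L]
    (τ : L →* Matrix (Fin d) (Fin d) ℂ) (hτ : Continuous τ) (hpres : ∀ l, Pres σ (τ l))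
    (r : ℝ → L) (hr : Continuous r) (hτr : ∀ θ, τ (r θ) = Dm z (eC θ)) {n : ℕ}
    (μ : Measure (Fin n → L)) [μ.IsMulLeftInvariant] [SFinite μ] (R : ℝ) (w : ℕ → Fin n) (m : ℕ)
    (S : Set (Matrix (Fin d) (Fin d) ℂ)) (hS : MeasurableSet (τ ⁻¹' S)) (B : ℝ) (_hB : 0 ≤ B)
    (hbd : ∀ A : ℕ → Matrix (Fin d) (Fin d) ℂ, (∀ j, Pres σ (A j)) →
      volume {θ : ℝ | θ ∈ Set.Icc 0 (2 * Real.pi) ∧ wp (fun j => Dm z (eC θ) * A j) m ∈ S} ≤
        ENNReal.ofReal B) :
    μ {h | h ∈ KG τ n R ∧ τ (wp (fun i => h (w i)) m) ∈ S} ≤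
      ENNReal.ofReal (B / (2 * Real.pi)) * μ (KG τ n R) := by
  set U : Set (Fin n → L) := {h | h ∈ KG τ n R ∧ τ (wp (fun i => h (w i)) m) ∈ S} with hU
  set Φ : ℝ × (Fin n → L) → (Fin n → L) := fun p => (fun _ => r p.1) * p.2 with hΦ
  have hUm : MeasurableSet U := by
    have hw : Measurable fun h : Fin n → L => wp (fun i => h (w i)) m :=
      (continuous_wp_gen (fun j => continuous_apply (w j)) m).measurable
    exact (isClosed_KG τ hτ n R).measurableSet.inter (hw hS)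
  have hΦc : Continuous Φ := by
    refine Continuous.mul ?_ continuous_snd
    exact continuous_pi fun _ => hr.comp continuous_fst
  have hT : MeasurableSet (Φ ⁻¹' U) := hΦc.measurable hUm
  have hI : (volume.restrict (Set.Icc (0 : ℝ) (2 * Real.pi))) Set.univ =
      ENNReal.ofReal (2 * Real.pi) := by
    rw [Measure.restrict_apply_univ, Real.volume_Icc, sub_zero]
  have hKm : MeasurableSet (KG τ n R) := (isClosed_KG τ hτ n R).measurableSet
  have h1 : ((volume.restrict (Set.Icc (0 : ℝ) (2 * Real.pi))).prod μ) (Φ ⁻¹' U) =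
      ENNReal.ofReal (2 * Real.pi) * μ U := by
    rw [Measure.prod_apply hT]
    have h2 : ∀ θ : ℝ, μ (Prod.mk θ ⁻¹' (Φ ⁻¹' U)) = μ U := by
      intro θ
      exact measure_preimage_mul μ (fun _ => r θ) U
    simp_rw [h2]
    rw [lintegral_const, hI, mul_comm]
  have h3 : ((volume.restrict (Set.Icc (0 : ℝ) (2 * Real.pi))).prod μ) (Φ ⁻¹' U) ≤
      ENNReal.ofReal B * μ (KG τ n R) := by
    rw [Measure.prod_apply_symm hT, ← lintegral_indicator_const hKm]
    refine lintegral_mono fun h => ?_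
    by_cases hh : h ∈ KG τ n R
    · rw [Set.indicator_of_mem hh, Measure.restrict_apply' measurableSet_Icc]
      refine le_trans (measure_mono ?_) (hbd (fun j => τ (h (w j))) (fun j => hpres _))
      rintro θ ⟨hθ, hθI⟩
      refine ⟨hθI, ?_⟩
      have h4 : τ (wp (fun i => (Φ (θ, h)) (w i)) m) ∈ S := hθ.2
      rw [map_wp] at h4
      have h5 : (fun i => τ ((Φ (θ, h)) (w i))) = fun j => Dm z (eC θ) * τ (h (w j)) := by
        funext i
        simp only [hΦ, Pi.mul_apply, map_mul, hτr]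
      rwa [h5] at h4
    · have he : (fun x : ℝ => (x, h)) ⁻¹' (Φ ⁻¹' U) = ∅ := by
        refine Set.eq_empty_of_forall_notMem fun θ hθ => hh fun k => ?_
        have h4 : fro (τ ((Φ (θ, h)) k)) ≤ R := hθ.1 k
        have h5 : τ ((Φ (θ, h)) k) = Dm z (eC θ) * τ (h k) := by
          simp only [hΦ, Pi.mul_apply, map_mul, hτr]
        rwa [h5, fro_Dm_mul] at h4
      rw [he, measure_empty]
      exact zero_le
  have h2π : (0 : ℝ) < 2 * Real.pi := by positivity
  have h5 : ENNReal.ofReal (2 * Real.pi) * μ U ≤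
      ENNReal.ofReal (2 * Real.pi) * (ENNReal.ofReal (B / (2 * Real.pi)) * μ (KG τ n R)) := by
    calc ENNReal.ofReal (2 * Real.pi) * μ U ≤ ENNReal.ofReal B * μ (KG τ n R) := h1 ▸ h3
      _ = ENNReal.ofReal (2 * Real.pi) *
          (ENNReal.ofReal (B / (2 * Real.pi)) * μ (KG τ n R)) := by
          rw [← mul_assoc, ← ENNReal.ofReal_mul h2π.le]
          congr 2
          field_simp
  refine (ENNReal.mul_le_mul_iff_right ?_ ENNReal.ofReal_ne_top).mp h5
  exact (ENNReal.ofReal_pos.mpr h2π).ne'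

/-! ### Closed subgroups of `GL d` preserving a form -/

/-- The inclusion of a subgroup of `GL d` in the matrices. -/
def tauL {d : ℕ} (L : Subgroup (GL (Fin d) ℂ)) : L →* Matrix (Fin d) (Fin d) ℂ :=
  (Units.coeHom (Matrix (Fin d) (Fin d) ℂ)).comp L.subtype

theorem tauL_apply {d : ℕ} (L : Subgroup (GL (Fin d) ℂ)) (l : L) :
    tauL L l = ((l : GL (Fin d) ℂ) : Matrix (Fin d) (Fin d) ℂ) := rfl

theorem continuous_tauL {d : ℕ} (L : Subgroup (GL (Fin d) ℂ)) : Continuous (tauL L) :=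
  Units.continuous_val.comp continuous_subtype_val

theorem locallyCompact_L {d : ℕ} (L : Subgroup (GL (Fin d) ℂ))
    (hL : IsClosed (L : Set (GL (Fin d) ℂ))) : LocallyCompactSpace L := by
  have h1 : LocallyCompactSpace (Matrix (Fin d) (Fin d) ℂ) :=
    inferInstanceAs (LocallyCompactSpace (Fin d → Fin d → ℂ))
  have h2 : LocallyCompactSpace (GL (Fin d) ℂ) :=
    inferInstanceAs (LocallyCompactSpace (Matrix (Fin d) (Fin d) ℂ)ˣ)
  exact hL.isClosedEmbedding_subtypeVal.locallyCompactSpace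

theorem secondCountable_GL (d : ℕ) : SecondCountableTopology (GL (Fin d) ℂ) := by
  have : SecondCountableTopology (Matrix (Fin d) (Fin d) ℂ) :=
    inferInstanceAs (SecondCountableTopology (Fin d → Fin d → ℂ))
  have : SecondCountableTopology (Matrix (Fin d) (Fin d) ℂ)ᵐᵒᵖ :=
    MulOpposite.opHomeomorph.symm.secondCountableTopology
  exact Units.isEmbedding_embedProduct.secondCountableTopology

theorem secondCountable_L {d : ℕ} (L : Subgroup (GL (Fin d) ℂ)) : SecondCountableTopology L :=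
  haveI := secondCountable_GL d
  TopologicalSpace.Subtype.secondCountableTopology _

theorem t2_L {d : ℕ} (L : Subgroup (GL (Fin d) ℂ)) : T2Space L := inferInstance

theorem isCompact_fro_le {d : ℕ} (σ : Fin d → ℝ) (R : ℝ) :
    IsCompact {A : Matrix (Fin d) (Fin d) ℂ | fro A ≤ R ∧ Pres σ A} := by
  have hcl : IsClosed {A : Matrix (Fin d) (Fin d) ℂ | fro A ≤ R ∧ Pres σ A} := by
    refine (isClosed_le continuous_fro continuous_const).inter ?_
    refine isClosed_eq ?_ continuous_const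
    exact (continuous_id.matrix_conjTranspose.matrix_mul continuous_const).matrix_mul
      continuous_id
  have hsub : {A : Matrix (Fin d) (Fin d) ℂ | fro A ≤ R ∧ Pres σ A} ⊆
      (Set.pi Set.univ fun _ : Fin d => Set.pi Set.univ fun _ : Fin d =>
        Metric.closedBall (0 : ℂ) (√R)) := by
    rintro A ⟨hA, -⟩
    intro i _ j _
    rw [Metric.mem_closedBall, dist_zero_right]
    refine Real.le_sqrt_of_sq_le (le_trans ?_ hA)
    unfold fro
    refine le_trans (Finset.single_le_sum (f := fun j => ‖A i j‖ ^ 2) (fun _ _ => by positivity)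
      (Finset.mem_univ j)) ?_
    exact Finset.single_le_sum (f := fun i => ∑ j, ‖A i j‖ ^ 2)
      (fun _ _ => Finset.sum_nonneg fun _ _ => by positivity) (Finset.mem_univ i)
  exact IsCompact.of_isClosed_subset
    (isCompact_univ_pi fun _ => isCompact_univ_pi fun _ => isCompact_closedBall _ _) hcl hsub

theorem diag_mul_diag {d : ℕ} (σ : Fin d → ℝ) (hσ : ∀ i, σ i = 1 ∨ σ i = -1) :
    Matrix.diagonal (fun i => (σ i : ℂ)) * Matrix.diagonal (fun i => (σ i : ℂ)) =
      (1 : Matrix (Fin d) (Fin d) ℂ) := by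
  rw [Matrix.diagonal_mul_diagonal, ← Matrix.diagonal_one]
  congr 1
  funext i
  rcases hσ i with h | h <;> simp [h]

/-- A form preserving matrix as an invertible matrix. -/
noncomputable def toGL {d : ℕ} (σ : Fin d → ℝ) (hσ : ∀ i, σ i = 1 ∨ σ i = -1)
    (A : {A : Matrix (Fin d) (Fin d) ℂ // Pres σ A}) : GL (Fin d) ℂ :=
  have h : (Matrix.diagonal (fun i => (σ i : ℂ)) * A.1ᴴ * Matrix.diagonal (fun i => (σ i : ℂ))) *
      A.1 = 1 := by
    have h1 : A.1ᴴ * Matrix.diagonal (fun i => (σ i : ℂ)) * A.1 =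
      Matrix.diagonal (fun i => (σ i : ℂ)) := A.2
    rw [Matrix.mul_assoc, Matrix.mul_assoc, ← Matrix.mul_assoc A.1ᴴ, h1, diag_mul_diag σ hσ]
  ⟨A.1, Matrix.diagonal (fun i => (σ i : ℂ)) * A.1ᴴ * Matrix.diagonal (fun i => (σ i : ℂ)),
    mul_eq_one_comm.mp h, h⟩

theorem continuous_toGL {d : ℕ} (σ : Fin d → ℝ) (hσ : ∀ i, σ i = 1 ∨ σ i = -1) :
    Continuous (toGL σ hσ) := by
  rw [Units.continuous_iff]
  refine ⟨continuous_subtype_val, ?_⟩
  exact (continuous_const.matrix_mul continuous_subtype_val.matrix_conjTranspose).matrix_mul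
    continuous_const

theorem isCompact_GL {d : ℕ} (σ : Fin d → ℝ) (hσ : ∀ i, σ i = 1 ∨ σ i = -1) (R : ℝ) :
    IsCompact {g : GL (Fin d) ℂ | fro (g : Matrix (Fin d) (Fin d) ℂ) ≤ R ∧
      Pres σ (g : Matrix (Fin d) (Fin d) ℂ)} := by
  have h1 : IsCompact {A : {A : Matrix (Fin d) (Fin d) ℂ // Pres σ A} | fro A.1 ≤ R} := by
    rw [Subtype.isCompact_iff]
    convert isCompact_fro_le σ R using 1
    ext A
    simp only [Set.mem_image, Set.mem_ofPred_eq, Subtype.exists, exists_and_left, exists_prop,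
      exists_eq_right_right]
  have h2 := h1.image (continuous_toGL σ hσ)
  convert h2 using 1
  ext g
  constructor
  · rintro ⟨hg, hP⟩
    exact ⟨⟨_, hP⟩, hg, Units.ext rfl⟩
  · rintro ⟨A, hA, rfl⟩
    exact ⟨hA, A.2⟩

theorem isCompact_KG {d : ℕ} (σ : Fin d → ℝ) (hσ : ∀ i, σ i = 1 ∨ σ i = -1)
    (L : Subgroup (GL (Fin d) ℂ)) (hL : IsClosed (L : Set (GL (Fin d) ℂ)))
    (hP : ∀ A ∈ L, Pres σ (A : Matrix (Fin d) (Fin d) ℂ)) (n : ℕ) (R : ℝ) :
    IsCompact (KG (tauL L) n R) := by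
  have h1 : IsCompact {l : L | fro (tauL L l) ≤ R} := by
    have h2 : IsCompact ((Subtype.val : L → GL (Fin d) ℂ) ⁻¹'
        {g : GL (Fin d) ℂ | fro (g : Matrix (Fin d) (Fin d) ℂ) ≤ R ∧
          Pres σ (g : Matrix (Fin d) (Fin d) ℂ)}) :=
      hL.isClosedEmbedding_subtypeVal.isCompact_preimage (isCompact_GL σ hσ R)
    convert h2 using 1
    ext l
    exact ⟨fun h => ⟨h, hP _ l.2⟩, fun h => h.1⟩
  have h3 : KG (tauL L) n R = Set.pi Set.univ fun _ : Fin n => {l : L | fro (tauL L l) ≤ R} := by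
    ext h
    simp [KG]
  rw [h3]
  exact isCompact_univ_pi fun _ => h1

/-- The circle in `L`. -/
noncomputable def rL {d : ℕ} (z : Fin d → ℤ) (L : Subgroup (GL (Fin d) ℂ))
    (hLr : ∀ θ : ℝ, ∃ A ∈ L, (A : Matrix (Fin d) (Fin d) ℂ) = Dm z (eC θ)) (θ : ℝ) : L :=
  ⟨(hLr θ).choose, (hLr θ).choose_spec.1⟩

theorem tauL_rL {d : ℕ} (z : Fin d → ℤ) (L : Subgroup (GL (Fin d) ℂ))
    (hLr : ∀ θ : ℝ, ∃ A ∈ L, (A : Matrix (Fin d) (Fin d) ℂ) = Dm z (eC θ)) (θ : ℝ) :
    tauL L (rL z L hLr θ) = Dm z (eC θ) := (hLr θ).choose_spec.2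

theorem continuous_rL {d : ℕ} (z : Fin d → ℤ) (L : Subgroup (GL (Fin d) ℂ))
    (hLr : ∀ θ : ℝ, ∃ A ∈ L, (A : Matrix (Fin d) (Fin d) ℂ) = Dm z (eC θ)) :
    Continuous (rL z L hLr) := by
  refine continuous_induced_rng.mpr ?_
  rw [Units.continuous_iff]
  constructor
  · have : (Units.val ∘ (Subtype.val ∘ rL z L hLr)) = fun θ => Dm z (eC θ) := by
      funext θ
      exact tauL_rL z L hLr θ
    rw [this]
    exact continuous_Dm_eC z
  · have : (fun θ => ((((Subtype.val ∘ rL z L hLr) θ)⁻¹ : GL (Fin d) ℂ) :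
        Matrix (Fin d) (Fin d) ℂ)) = fun θ => Dm z (eC (-θ)) := by
      funext θ
      refine Units.inv_eq_of_mul_eq_one_right ?_
      have : (((Subtype.val ∘ rL z L hLr) θ : GL (Fin d) ℂ) : Matrix (Fin d) (Fin d) ℂ) =
        Dm z (eC θ) := tauL_rL z L hLr θ
      rw [this]
      exact Dm_mul_Dm_neg z θ
    rw [this]
    exact (continuous_Dm_eC z).comp continuous_neg

end H24FB
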