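import Pool.Agent.H24.FB.BlockE
import Pool.Agent.H24.FB.BlockL
import Pool.Agent.H24.FB.GenDefs

/-! Block ABS-K: the relation between the words of two cohomologous cocycles along the first
return times to the cells of finer and finer labellings. -/

open MeasureTheory Measure Filter Topology Set

namespace H24FB

/-- Closeness in measure of `f (S k x)` and `f x` for an asymptotically invariant sequence. -/
theorem close_measure_seq {X : Type*} [MeasurableSpace X] (μ : Measure X) [IsProbabilityMeasure μ]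
    (S : ℕ → X → X)
    (hr : ∀ E : Set X, MeasurableSet E → Tendsto (fun k => μ (E \ (S k) ⁻¹' E)) atTop (𝓝 0))
    {G : Type*} [Group G] [TopologicalSpace G]
    [IsTopologicalGroup G] [SecondCountableTopology G] [MeasurableSpace G] [BorelSpace G]
    (f : X → G) (hf : Measurable f) (V : Set G) (hV : V ∈ 𝓝 (1 : G)) :
    Tendsto (fun k => μ {x | f (S k x) * (f x)⁻¹ ∉ V}) atTop (𝓝 0) := by
  classical
  obtain ⟨V', hV', hVV⟩ := exists_nhds_split_inv hV
  have hnh : ∀ y : G, {z : G | z * y⁻¹ ∈ interior V'} ∈ 𝓝 y := by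
    intro y
    have hc : Continuous (fun z : G => z * y⁻¹) := by fun_prop
    refine (isOpen_interior.preimage hc).mem_nhds ?_
    simp only [Set.mem_preimage, mul_inv_cancel]
    exact mem_interior_iff_mem_nhds.2 hV'
  obtain ⟨s, hsc, hsu⟩ := TopologicalSpace.countable_cover_nhds hnh
  have hsne : s.Nonempty := by
    by_contra hne
    rw [Set.not_nonempty_iff_eq_empty] at hne
    rw [hne] at hsu
    have h1 : (1 : G) ∈ (Set.univ : Set G) := Set.mem_univ _
    rw [← hsu] at h1
    simp at h1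
  obtain ⟨y, hy⟩ := hsc.exists_eq_range hsne
  set U : ℕ → Set G := fun i => {z : G | z * (y i)⁻¹ ∈ interior V'} with hU
  have hUo : ∀ i, IsOpen (U i) := by
    intro i
    have hc : Continuous (fun z : G => z * (y i)⁻¹) := by fun_prop
    exact isOpen_interior.preimage hc
  have hUc : ⋃ i, U i = Set.univ := by
    rw [← hsu, hy]
    ext z; simp [hU]
  set A : ℕ → Set X := fun i => f ⁻¹' (U i) with hA
  have hAm : ∀ i, MeasurableSet (A i) := fun i => hf (hUo i).measurableSet
  set E : ℕ → Set X := disjointed A with hE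
  have hEm : ∀ i, MeasurableSet (E i) := fun i => MeasurableSet.disjointed hAm i
  set R : ℕ → Set X := fun M => (⋃ i ∈ Finset.range M, A i)ᶜ with hR
  have hRm : ∀ M, MeasurableSet (R M) := fun M =>
    (Finset.measurableSet_biUnion _ (fun i _ => hAm i)).compl
  have hRanti : Antitone R := by
    intro a b hab
    simp only [hR]
    apply Set.compl_subset_compl.2
    exact Set.biUnion_subset_biUnion_left (fun i hi => by
      simp only [Finset.coe_range, Set.mem_Iio] at hi ⊢
      omega)
  have hRinter : ⋂ M, R M = ∅ := by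
    rw [Set.eq_empty_iff_forall_notMem]
    intro x hx
    have : f x ∈ ⋃ i, U i := by rw [hUc]; trivial
    obtain ⟨i, hi⟩ := Set.mem_iUnion.1 this
    have h2 := Set.mem_iInter.1 hx (i + 1)
    simp only [hR, Set.mem_compl_iff, Set.mem_iUnion, not_exists] at h2
    exact h2 i (by simp) hi
  have hR0 : Tendsto (fun M => μ (R M)) atTop (𝓝 0) := by
    have := tendsto_measure_iInter_atTop (μ := μ) (s := R)
      (fun M => (hRm M).nullMeasurableSet) hRanti ⟨0, measure_ne_top _ _⟩
    rwa [hRinter, measure_empty] at this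
  have hincl : ∀ k M, {x | f (S k x) * (f x)⁻¹ ∉ V} ⊆
      (⋃ i ∈ Finset.range M, (E i \ (S k) ⁻¹' (E i))) ∪ R M := by
    intro k M x hx
    by_cases hxR : x ∈ R M
    · exact Or.inr hxR
    · left
      simp only [hR, Set.mem_compl_iff, not_not] at hxR
      have hxE : x ∈ ⋃ i ∈ Finset.range M, E i := by
        have hx2 : ∃ i, x ∈ A i := by
          obtain ⟨i, hi⟩ := Set.mem_iUnion.1 hxR
          obtain ⟨_, h3⟩ := Set.mem_iUnion.1 hi
          exact ⟨i, h3⟩
        have hlt : Nat.find hx2 < M := by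
          obtain ⟨i, hi⟩ := Set.mem_iUnion.1 hxR
          obtain ⟨h4, h3⟩ := Set.mem_iUnion.1 hi
          exact lt_of_le_of_lt (Nat.find_min' hx2 h3) (by simpa using h4)
        refine Set.mem_biUnion (x := Nat.find hx2) (by simpa using hlt) ?_
        rw [hE, disjointed_eq_inter_compl]
        refine ⟨Nat.find_spec hx2, ?_⟩
        simp only [Set.mem_iInter, Set.mem_compl_iff]
        intro j hj
        exact Nat.find_min hx2 hj
      obtain ⟨i, hi⟩ := Set.mem_iUnion.1 hxE
      obtain ⟨hiM, hxi⟩ := Set.mem_iUnion.1 hi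
      refine Set.mem_biUnion hiM ⟨hxi, ?_⟩
      intro hTx
      apply hx
      have e1 : f x ∈ U i := disjointed_subset A i hxi
      have e2 : f (S k x) ∈ U i := disjointed_subset A i hTx
      have e3 := hVV _ (interior_subset e2) _ (interior_subset e1)
      rw [div_eq_mul_inv] at e3
      simpa [mul_assoc] using e3
  rw [ENNReal.tendsto_nhds_zero]
  intro ε hε
  have hε2 : (0 : ENNReal) < ε / 2 := ENNReal.half_pos hε.ne'
  obtain ⟨M, hM⟩ := ((ENNReal.tendsto_nhds_zero.1 hR0) (ε / 2) hε2).exists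
  have hsum : Tendsto (fun k => ∑ i ∈ Finset.range M, μ (E i \ (S k) ⁻¹' (E i))) atTop
      (𝓝 0) := by
    have := tendsto_finsetSum (Finset.range M) (fun i _ => hr (E i) (hEm i))
    simpa using this
  filter_upwards [(ENNReal.tendsto_nhds_zero.1 hsum) (ε / 2) hε2] with k hk
  calc μ {x | f (S k x) * (f x)⁻¹ ∉ V}
      ≤ μ ((⋃ i ∈ Finset.range M, (E i \ (S k) ⁻¹' (E i))) ∪ R M) := measure_mono (hincl k M)
    _ ≤ μ (⋃ i ∈ Finset.range M, (E i \ (S k) ⁻¹' (E i))) + μ (R M) := measure_union_le _ _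
    _ ≤ (∑ i ∈ Finset.range M, μ (E i \ (S k) ⁻¹' (E i))) + μ (R M) := by
        gcongr
        exact measure_biUnion_finset_le _ _
    _ ≤ ε / 2 + ε / 2 := add_le_add hk hM
    _ = ε := ENNReal.add_halves ε

/-- Tightness of a measurable function with values in a sigma compact space. -/
theorem tight_of_measurable {X : Type*} [MeasurableSpace X] (μ : Measure X)
    [IsProbabilityMeasure μ] {Q : Type*} [TopologicalSpace Q] [T2Space Q] [SigmaCompactSpace Q]
    [MeasurableSpace Q] [BorelSpace Q] (φ : X → Q) (hφ : Measurable φ) (η : ENNReal)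
    (hη : 0 < η) : ∃ C : Set Q, IsCompact C ∧ μ {x | φ x ∉ C} ≤ η := by
  have hm : ∀ M, MeasurableSet {x | φ x ∉ compactCovering Q M} := fun M =>
    (hφ (isCompact_compactCovering Q M).isClosed.measurableSet).compl
  have hanti : Antitone (fun M => {x | φ x ∉ compactCovering Q M}) := by
    intro a b hab x hx hxa
    exact hx (compactCovering_subset Q hab hxa)
  have hinter : ⋂ M, {x | φ x ∉ compactCovering Q M} = ∅ := by
    rw [Set.eq_empty_iff_forall_notMem]
    intro x hx
    have : φ x ∈ ⋃ M, compactCovering Q M := by rw [iUnion_compactCovering]; trivial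
    obtain ⟨M, hM⟩ := Set.mem_iUnion.1 this
    exact Set.mem_iInter.1 hx M hM
  have h0 : Tendsto (fun M => μ {x | φ x ∉ compactCovering Q M}) atTop (𝓝 0) := by
    have := tendsto_measure_iInter_atTop (μ := μ)
      (s := fun M => {x | φ x ∉ compactCovering Q M})
      (fun M => (hm M).nullMeasurableSet) hanti ⟨0, measure_ne_top _ _⟩
    rwa [hinter, measure_empty] at this
  obtain ⟨M, hM⟩ := ((ENNReal.tendsto_nhds_zero.1 h0) η hη).exists
  exact ⟨compactCovering Q M, isCompact_compactCovering Q M, hM⟩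

theorem coh_rel {X : Type*} [MeasurableSpace X] [MeasurableSpace.CountablyGenerated X]
    (μ : Measure X) [IsProbabilityMeasure μ] {n : ℕ} (T : X → X) (hT : MeasurePreserving T μ μ)
    (ι : X → Fin n) {G : Type*} [Group G] [TopologicalSpace G] [IsTopologicalGroup G]
    [SecondCountableTopology G] [MeasurableSpace G] [BorelSpace G] {Q : Type*} [Group Q]
    [TopologicalSpace Q] [IsTopologicalGroup Q] [T2Space Q] [SecondCountableTopology Q]
    [LocallyCompactSpace Q] [MeasurableSpace Q] [BorelSpace Q] (ρ : G →* Q) (hρ : Continuous ρ)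
    (Rel : ℕ → Q → Q → Prop)
    (hRel : ∀ j, ∀ C : Set Q, IsCompact C → ∃ V ∈ 𝓝 (1 : Q), ∀ E ∈ V, ∀ F ∈ C, ∀ b : Q,
      Rel j (E * (F * b * F⁻¹)) b)
    (g h : Fin n → G) (f : X → G) (hf : Measurable f)
    (hcoh : ∀ᵐ x ∂μ, f (T x) * g (ι x) = h (ι x) * f x) (j : ℕ) :
    Tendsto (fun k => μ {x | ¬ Rel j (wp (fun i => ρ (h (ι (T^[i] x)))) (ret T (lab k) x))
      (wp (fun i => ρ (g (ι (T^[i] x)))) (ret T (lab k) x))}) atTop (𝓝 0) := by
  classical
  set φ : X → Q := fun x => ρ (f x) with hφdef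
  have hφ : Measurable φ := hρ.measurable.comp hf
  have hall : ∀ᵐ x ∂μ, ∀ i : ℕ, f (T (T^[i] x)) * g (ι (T^[i] x)) = h (ι (T^[i] x)) * f (T^[i] x) := by
    rw [ae_all_iff]
    intro i
    exact (hT.iterate i).quasiMeasurePreserving.ae hcoh
  have hnull : μ {x | ¬ ∀ i : ℕ, f (T (T^[i] x)) * g (ι (T^[i] x))
      = h (ι (T^[i] x)) * f (T^[i] x)} = 0 := ae_iff.1 hall
  have hrig := lab_rigid μ T hT
  rw [ENNReal.tendsto_nhds_zero]
  intro ε hε
  have hε2 : (0 : ENNReal) < ε / 2 := ENNReal.half_pos hε.ne'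
  obtain ⟨C, hC, hCμ⟩ := tight_of_measurable μ φ hφ (ε / 2) hε2
  obtain ⟨V, hV, hVR⟩ := hRel j C hC
  have hclose := close_measure_seq μ (fun k => retMap T (lab k)) hrig φ hφ V hV
  filter_upwards [(ENNReal.tendsto_nhds_zero.1 hclose) (ε / 2) hε2] with k hk
  have hsub : {x | ¬ Rel j (wp (fun i => ρ (h (ι (T^[i] x)))) (ret T (lab k) x))
      (wp (fun i => ρ (g (ι (T^[i] x)))) (ret T (lab k) x))} ⊆
      ({x | φ (retMap T (lab k) x) * (φ x)⁻¹ ∉ V} ∪ {x | φ x ∉ C})
        ∪ {x | ¬ ∀ i : ℕ, f (T (T^[i] x)) * g (ι (T^[i] x)) = h (ι (T^[i] x)) * f (T^[i] x)} := by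
    intro x hbad
    by_contra hgood
    apply hbad
    simp only [Set.mem_union, not_or, Set.mem_ofPred_eq, not_not] at hgood
    obtain ⟨⟨g1, g2⟩, g3⟩ := hgood
    have hit := coh_iter T ι g h f x g3 (ret T (lab k) x)
    have hit2 : φ (retMap T (lab k) x) * wp (fun i => ρ (g (ι (T^[i] x)))) (ret T (lab k) x)
        = wp (fun i => ρ (h (ι (T^[i] x)))) (ret T (lab k) x) * φ x := by
      have := congrArg ρ hit
      rw [map_mul, map_mul, map_wp, map_wp] at this
      exact this
    have key := hVR _ g1 _ g2 (wp (fun i => ρ (g (ι (T^[i] x)))) (ret T (lab k) x))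
    have e : φ (retMap T (lab k) x) * (φ x)⁻¹ *
        (φ x * wp (fun i => ρ (g (ι (T^[i] x)))) (ret T (lab k) x) * (φ x)⁻¹)
        = wp (fun i => ρ (h (ι (T^[i] x)))) (ret T (lab k) x) := by
      have : φ (retMap T (lab k) x) * (φ x)⁻¹ *
        (φ x * wp (fun i => ρ (g (ι (T^[i] x)))) (ret T (lab k) x) * (φ x)⁻¹)
        = (φ (retMap T (lab k) x) * wp (fun i => ρ (g (ι (T^[i] x)))) (ret T (lab k) x))
          * (φ x)⁻¹ := by group
      rw [this, hit2]
      group
    rwa [e] at key
  refine (measure_mono hsub).trans ?_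
  refine (measure_union_le _ _).trans ?_
  rw [hnull, add_zero]
  refine (measure_union_le _ _).trans ?_
  calc μ {x | φ (retMap T (lab k) x) * (φ x)⁻¹ ∉ V} + μ {x | φ x ∉ C}
      ≤ ε / 2 + ε / 2 := add_le_add hk hCμ
    _ = ε := ENNReal.add_halves ε

end H24FB
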