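import Pool.Agent.H24.FB.GenClose

/-! Block G7 of the MP_fb7d21_an project: the relation on the quotient `Q` of `L`. -/

open MeasureTheory Matrix Filter Topology

namespace H24FB

/-- A continuous function that is constant on the fibres of an open surjection descends. -/
theorem descend {L Q : Type*} [TopologicalSpace L] [TopologicalSpace Q] (p : L → Q)
    (hp : Continuous p) (hpo : IsOpenMap p) (hps : Function.Surjective p) (Φ : L → ℝ)
    (hΦ : Continuous Φ) (hinv : ∀ a b, p a = p b → Φ a = Φ b) :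
    ∃ ψ : Q → ℝ, Continuous ψ ∧ ∀ l, ψ (p l) = Φ l := by
  refine ⟨fun q => Φ (Function.surjInv hps q), ?_, ?_⟩
  · rw [(hpo.isQuotientMap hp hps).continuous_iff]
    refine hΦ.congr fun l => ?_
    exact hinv _ _ (Function.surjInv_eq hps (p l)).symm
  · intro l
    exact hinv _ _ (Function.surjInv_eq hps (p l))

/-- The relation of the project: `phi` is almost the same, or `b` is exceptional. -/
def GRel {L Q : Type*} [Group L] [Group Q] {d : ℕ} (τ : L →* Matrix (Fin d) (Fin d) ℂ)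
    (p : L →* Q) (k j : ℕ) (a b : Q) : Prop :=
  ∃ A B : L, p A = a ∧ p B = b ∧
    (|phi k (τ A) - phi k (τ B)| ≤ 1 / ((j : ℝ) + 1) * phi k (τ B) ∨
      gam k ((j : ℝ) + 1) (τ B) ≠ 0 ∨ phi k (τ B) = 0)

section

variable {d : ℕ} {L : Type*} [Group L] {Q : Type*} [Group Q]

/-- Two lifts of the same element differ by a scalar root of unity. -/
theorem lift_eq (τ : L →* Matrix (Fin d) (Fin d) ℂ) (p : L →* Q) (k : ℕ)
    (hker : ∀ l : L, p l = 1 → ∃ c : ℂ, c ^ k = 1 ∧ τ l = c • 1) (a b : L) (h : p a = p b) :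
    ∃ c : ℂ, c ^ k = 1 ∧ τ a = c • τ b := by
  have h1 : p (b⁻¹ * a) = 1 := by rw [map_mul, map_inv, h, inv_mul_cancel]
  obtain ⟨c, hc, hl⟩ := hker _ h1
  refine ⟨c, hc, ?_⟩
  have h2 : τ a = τ b * τ (b⁻¹ * a) := by rw [← map_mul, mul_inv_cancel_left]
  rw [h2, hl, Matrix.mul_smul, mul_one]

theorem phi_lift (τ : L →* Matrix (Fin d) (Fin d) ℂ) (p : L →* Q) (k : ℕ) (hk : 0 < k)
    (hker : ∀ l : L, p l = 1 → ∃ c : ℂ, c ^ k = 1 ∧ τ l = c • 1) (a b : L) (h : p a = p b) :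
    phi k (τ a) = phi k (τ b) := by
  obtain ⟨c, hc, hab⟩ := lift_eq τ p k hker a b h
  rw [hab, phi_smul k hk c hc]

theorem gam_lift (τ : L →* Matrix (Fin d) (Fin d) ℂ) (p : L →* Q) (k : ℕ) (hk : 0 < k)
    (hker : ∀ l : L, p l = 1 → ∃ c : ℂ, c ^ k = 1 ∧ τ l = c • 1) (Λ : ℝ) (a b : L)
    (h : p a = p b) : gam k Λ (τ a) = gam k Λ (τ b) := by
  obtain ⟨c, hc, hab⟩ := lift_eq τ p k hker a b h
  rw [hab, gam_smul k hk Λ c hc]

theorem fro_lift (τ : L →* Matrix (Fin d) (Fin d) ℂ) (p : L →* Q) (k : ℕ) (hk : 0 < k)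
    (hker : ∀ l : L, p l = 1 → ∃ c : ℂ, c ^ k = 1 ∧ τ l = c • 1) (a b : L) (h : p a = p b) :
    fro (τ a) = fro (τ b) := by
  obtain ⟨c, hc, hab⟩ := lift_eq τ p k hker a b h
  rw [hab, fro_root_smul hk hc]

/-- The relation may be tested on any lifts. -/
theorem gRel_iff (τ : L →* Matrix (Fin d) (Fin d) ℂ) (p : L →* Q) (k : ℕ) (hk : 0 < k)
    (hker : ∀ l : L, p l = 1 → ∃ c : ℂ, c ^ k = 1 ∧ τ l = c • 1) (j : ℕ) (A B : L) :
    GRel τ p k j (p A) (p B) ↔
      (|phi k (τ A) - phi k (τ B)| ≤ 1 / ((j : ℝ) + 1) * phi k (τ B) ∨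
        gam k ((j : ℝ) + 1) (τ B) ≠ 0 ∨ phi k (τ B) = 0) := by
  constructor
  · rintro ⟨A', B', hA, hB, h⟩
    rwa [phi_lift τ p k hk hker A' A hA, phi_lift τ p k hk hker B' B hB,
      gam_lift τ p k hk hker _ B' B hB] at h
  · intro h
    exact ⟨A, B, rfl, rfl, h⟩

/-- Measurability of the relation. -/
theorem measurableSet_gRel [TopologicalSpace L] [TopologicalSpace Q] [MeasurableSpace Q]
    [BorelSpace Q] (τ : L →* Matrix (Fin d) (Fin d) ℂ) (hτ : Continuous τ)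
    (p : L →* Q) (hp : Continuous p) (hpo : IsOpenMap p) (hps : Function.Surjective p)
    (k : ℕ) (hk : 0 < k) (hker : ∀ l : L, p l = 1 → ∃ c : ℂ, c ^ k = 1 ∧ τ l = c • 1) (j : ℕ) :
    MeasurableSet {q : Q × Q | GRel τ p k j q.1 q.2} := by
  obtain ⟨φ, hφc, hφ⟩ := descend p hp hpo hps (fun l => phi k (τ l))
    ((continuous_phi k).comp hτ) (phi_lift τ p k hk hker)
  obtain ⟨γ, hγc, hγ⟩ := descend p hp hpo hps (fun l => gam k ((j : ℝ) + 1) (τ l))
    ((continuous_gam k _).comp hτ) (gam_lift τ p k hk hker _)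
  have hset : {q : Q × Q | GRel τ p k j q.1 q.2}
      = {q : Q × Q | |φ q.1 - φ q.2| ≤ 1 / ((j : ℝ) + 1) * φ q.2}
        ∪ ({q : Q × Q | γ q.2 ≠ 0} ∪ {q : Q × Q | φ q.2 = 0}) := by
    ext ⟨a, b⟩
    obtain ⟨A, rfl⟩ := hps a
    obtain ⟨B, rfl⟩ := hps b
    simp only [Set.mem_ofPred_eq, Set.mem_union, hφ, hγ]
    exact gRel_iff τ p k hk hker j A B
  have h1 : Measurable fun q : Q × Q => φ q.1 := hφc.measurable.comp measurable_fst
  have h2 : Measurable fun q : Q × Q => φ q.2 := hφc.measurable.comp measurable_snd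
  have h3 : Measurable fun q : Q × Q => γ q.2 := hγc.measurable.comp measurable_snd
  rw [hset]
  refine (measurableSet_le (h1.sub h2).abs (h2.const_mul _)).union (MeasurableSet.union ?_ ?_)
  · exact (h3 (measurableSet_singleton (0 : ℝ))).compl
  · exact h2 (measurableSet_singleton (0 : ℝ))

/-- The hypothesis `hRel` of `coh_rel` for the relation `GRel`. -/
theorem gRel_conj [TopologicalSpace L] [TopologicalSpace Q] [IsTopologicalGroup Q]
    (τ : L →* Matrix (Fin d) (Fin d) ℂ) (hτ : Continuous τ)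
    (p : L →* Q) (hp : Continuous p) (hpo : IsOpenMap p) (hps : Function.Surjective p)
    (k : ℕ) (hk : 0 < k) (hker : ∀ l : L, p l = 1 → ∃ c : ℂ, c ^ k = 1 ∧ τ l = c • 1) :
    ∀ j, ∀ C : Set Q, IsCompact C → ∃ V ∈ 𝓝 (1 : Q), ∀ E ∈ V, ∀ F ∈ C, ∀ b : Q,
      GRel τ p k j (E * (F * b * F⁻¹)) b := by
  intro j C hC
  obtain ⟨f, hfc, hf⟩ := descend p hp hpo hps (fun l => fro (τ l))
    (fro_continuous.comp hτ) (fro_lift τ p k hk hker)
  obtain ⟨R1, hR1⟩ := hC.bddAbove_image hfc.continuousOn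
  obtain ⟨R2, hR2⟩ := hC.bddAbove_image (hfc.comp continuous_inv).continuousOn
  set R : ℝ := max (max R1 R2) 1 with hR
  have hRpos : 0 < R := lt_of_lt_of_le one_pos (le_max_right _ _)
  have hj : (0 : ℝ) < (j : ℝ) + 1 := by positivity
  obtain ⟨ε, hε, hclose⟩ := gen_close (d := d) k hk R ((j : ℝ) + 1) (1 / ((j : ℝ) + 1))
    hRpos hj (by positivity)
  -- the neighbourhood of `1`
  set U : Set L := {E | ∀ i i', ‖(τ E - 1) i i'‖ < ε} with hU
  have hUo : IsOpen U := by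
    rw [hU]
    simp only [Set.ofPred_forall]
    refine isOpen_iInter_of_finite fun i => isOpen_iInter_of_finite fun i' => ?_
    refine isOpen_lt ?_ continuous_const
    exact ((hτ.sub continuous_const).matrix_elem i i').norm
  have hU1 : (1 : L) ∈ U := by
    intro i i'
    rw [map_one, sub_self]
    simpa using hε
  refine ⟨p '' U, ?_, ?_⟩
  · have : p '' U ∈ 𝓝 (p 1) := (hpo U hUo).mem_nhds ⟨1, hU1, rfl⟩
    rwa [map_one] at this
  · rintro _ ⟨E, hE, rfl⟩ a ha b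
    obtain ⟨F, rfl⟩ := hps a
    obtain ⟨B, rfl⟩ := hps b
    have e : p E * (p F * p B * (p F)⁻¹) = p (E * (F * B * F⁻¹)) := by
      simp only [map_mul, map_inv]
    rw [e, gRel_iff τ p k hk hker]
    by_cases h1 : gam k ((j : ℝ) + 1) (τ B) = 0
    · by_cases h2 : phi k (τ B) = 0
      · exact Or.inr (Or.inr h2)
      · left
        have e2 : τ (E * (F * B * F⁻¹)) = τ E * (τ F * τ B * τ F⁻¹) := by
          simp only [map_mul]
        have hu1 : ((Units.map τ (toUnits F) : GL (Fin d) ℂ) : Matrix (Fin d) (Fin d) ℂ)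
            = τ F := rfl
        have hu2 : (((Units.map τ (toUnits F))⁻¹ : GL (Fin d) ℂ) : Matrix (Fin d) (Fin d) ℂ)
            = τ F⁻¹ := rfl
        have key := hclose (τ E) (τ B) (Units.map τ (toUnits F)) (fun i i' => (hE i i').le)
        rw [hu1, hu2] at key
        rw [e2]
        refine key ?_ ?_ h1 h2
        · have h3 : f (p F) ≤ R1 := hR1 ⟨p F, ha, rfl⟩
          have h4 : f (p F) = fro (τ F) := hf F
          have h5 : R1 ≤ R := (le_max_left _ _).trans (le_max_left _ _)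
          linarith
        · have h3 : f ((p F)⁻¹) ≤ R2 := hR2 ⟨p F, ha, rfl⟩
          have h4 : f ((p F)⁻¹) = fro (τ F⁻¹) := by rw [← map_inv]; exact hf F⁻¹
          have h5 : R2 ≤ R := (le_max_right _ _).trans (le_max_left _ _)
          linarith
    · exact Or.inr (Or.inl h1)

end

end H24FB
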