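import Pool.Agent.H24.FB.GenDefs

open MeasureTheory Filter Topology

namespace H24FB

theorem eC_eq (r θ : ℝ) : (r : ℂ) * eC θ = circleMap 0 r θ := by
  simp [eC, circleMap]

/-- Circle means of a function analytic outside the unit disc do not depend on the radius. -/
theorem mean_eq (s : ℂ → ℂ) (hd : DifferentiableOn ℂ s {w | 1 < ‖w‖}) (r : ℝ) (h1 : 1 < r)
    (h2 : r ≤ 2) :
    ∫ θ in (0 : ℝ)..(2 * Real.pi), s (circleMap 0 2 θ)
      = ∫ θ in (0 : ℝ)..(2 * Real.pi), s (circleMap 0 r θ) := by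
  have hopen : IsOpen {w : ℂ | 1 < ‖w‖} := isOpen_lt continuous_const continuous_norm
  have h := Complex.circleIntegral_sub_center_inv_smul_eq_of_differentiable_on_annulus_off_countable
    (c := 0) (r := r) (R := 2) (by linarith) h2 (f := s) (s := ∅) Set.countable_empty
    (by
      refine hd.continuousOn.mono ?_
      rintro w ⟨_, hw⟩
      simp only [Metric.mem_ball, dist_zero_right, not_lt] at hw
      exact lt_of_lt_of_le h1 hw)
    (by
      rintro w ⟨⟨_, hw⟩, _⟩
      simp only [Metric.mem_closedBall, dist_zero_right, not_le] at hw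
      exact (hd w (show (1:ℝ) < ‖w‖ by linarith)).differentiableAt
        (hopen.mem_nhds (show (1:ℝ) < ‖w‖ by linarith)))
  have key : ∀ ρ : ℝ, 0 < ρ → (∮ z in C(0, ρ), (z - 0)⁻¹ • s z)
      = Complex.I * ∫ θ in (0 : ℝ)..(2 * Real.pi), s (circleMap 0 ρ θ) := by
    intro ρ hρ
    rw [circleIntegral, ← intervalIntegral.integral_const_mul]
    congr 1
    ext θ
    have hne : circleMap 0 ρ θ ≠ 0 := by
      simpa using circleMap_ne_center (c := 0) (θ := θ) hρ.ne'
    rw [deriv_circleMap, sub_zero, smul_eq_mul, smul_eq_mul]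
    field_simp
  rw [key 2 (by norm_num), key r (by linarith)] at h
  exact mul_left_cancel₀ Complex.I_ne_zero h

theorem tail_of_re_pos (h : ℂ → ℂ) (hd : DifferentiableOn ℂ h {w | 1 < ‖w‖})
    (hre : ∀ w, 1 < ‖w‖ → 0 < (h w).re) (C : ℝ) (hC0 : 0 ≤ C)
    (hC : ∀ w, ‖w‖ = 2 → ‖h w‖ ≤ C) (h₁ : ℝ → ℂ)
    (hlim : ∀ᵐ θ ∂(volume.restrict (Set.Icc 0 (2 * Real.pi))),
      Tendsto (fun r : ℝ => h (r * eC θ)) (𝓝[>] 1) (𝓝 (h₁ θ))) (Λ : ℝ) (hΛ : 0 < Λ) :
    volume {θ : ℝ | θ ∈ Set.Icc 0 (2 * Real.pi) ∧ Λ < ‖h₁ θ‖}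
      ≤ ENNReal.ofReal (2 * Real.pi * √2 * √C / √Λ) := by
  set μ : Measure ℝ := volume.restrict (Set.Icc 0 (2 * Real.pi)) with hμ
  -- the square root
  set s : ℂ → ℂ := fun w => (h w) ^ (2⁻¹ : ℂ) with hs
  have hsd : DifferentiableOn ℂ s {w | 1 < ‖w‖} := by
    intro w hw
    exact (hd w hw).cpow_const (Complex.mem_slitPlane_iff.mpr (Or.inl (hre w hw)))
  have hsre : ∀ w, 1 < ‖w‖ → √‖h w‖ ≤ √2 * (s w).re := by
    intro w hw
    rw [hs]
    simp only
    rw [Complex.cpow_inv_two_re, ← Real.sqrt_mul (by norm_num)]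
    apply Real.sqrt_le_sqrt
    have := hre w hw
    linarith
  have hsnorm : ∀ w, ‖s w‖ ≤ √‖h w‖ ∨ ‖w‖ ≤ 1 := by
    intro w
    by_cases hw : 1 < ‖w‖
    · left
      apply Real.le_sqrt_of_sq_le
      have h3 : (s w) ^ 2 = h w := by
        rw [hs]
        simp only
        simp
      rw [← norm_pow, h3]
    · right; linarith
  -- circle means of the square root
  have hpi : 0 ≤ 2 * Real.pi := by positivity
  have hnc : ∀ (r θ : ℝ), 0 < r → ‖circleMap 0 r θ‖ = r := by
    intro r θ hr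
    rw [norm_circleMap_zero, abs_of_pos hr]
  have hcont : ∀ r : ℝ, 1 < r → Continuous fun θ : ℝ => s (circleMap 0 r θ) := by
    intro r hr
    refine hsd.continuousOn.comp_continuous (continuous_circleMap 0 r) ?_
    intro θ
    show 1 < ‖circleMap 0 r θ‖
    rw [hnc r θ (by linarith)]
    exact hr
  have hconth : ∀ r : ℝ, 1 < r → Continuous fun θ : ℝ => h (circleMap 0 r θ) := by
    intro r hr
    refine hd.continuousOn.comp_continuous (continuous_circleMap 0 r) ?_
    intro θ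
    show 1 < ‖circleMap 0 r θ‖
    rw [hnc r θ (by linarith)]
    exact hr
  have hbound : ∀ r : ℝ, 1 < r → r ≤ 2 →
      ∫⁻ θ, ENNReal.ofReal (√‖h (circleMap 0 r θ)‖) ∂μ
        ≤ ENNReal.ofReal (2 * Real.pi * √2 * √C) := by
    intro r hr hr2
    have hint : Integrable (fun θ : ℝ => √2 * (s (circleMap 0 r θ)).re) μ := by
      have : Continuous fun θ : ℝ => √2 * (s (circleMap 0 r θ)).re :=
        continuous_const.mul (Complex.continuous_re.comp (hcont r hr))
      exact this.continuousOn.integrableOn_compact isCompact_Icc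
    have hnn : ∀ θ : ℝ, 0 ≤ √2 * (s (circleMap 0 r θ)).re := by
      intro θ
      refine le_trans (Real.sqrt_nonneg _) (hsre _ ?_)
      rw [hnc r θ (by linarith)]; exact hr
    calc ∫⁻ θ, ENNReal.ofReal (√‖h (circleMap 0 r θ)‖) ∂μ
        ≤ ∫⁻ θ, ENNReal.ofReal (√2 * (s (circleMap 0 r θ)).re) ∂μ := by
          refine lintegral_mono fun θ => ENNReal.ofReal_le_ofReal (hsre _ ?_)
          rw [hnc r θ (by linarith)]; exact hr
      _ = ENNReal.ofReal (∫ θ, √2 * (s (circleMap 0 r θ)).re ∂μ) := by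
          rw [ofReal_integral_eq_lintegral_ofReal hint (Eventually.of_forall hnn)]
      _ ≤ ENNReal.ofReal (2 * Real.pi * √2 * √C) := by
          apply ENNReal.ofReal_le_ofReal
          rw [integral_const_mul, hμ, integral_Icc_eq_integral_Ioc,
            ← intervalIntegral.integral_of_le hpi]
          have hre' : ∫ θ in (0 : ℝ)..(2 * Real.pi), (s (circleMap 0 r θ)).re
              = (∫ θ in (0 : ℝ)..(2 * Real.pi), s (circleMap 0 r θ)).re := by
            have hii : IntervalIntegrable (fun θ : ℝ => s (circleMap 0 r θ)) volume 0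
              (2 * Real.pi) := (hcont r hr).intervalIntegrable 0 (2 * Real.pi)
            have := (Complex.reCLM).intervalIntegral_comp_comm hii
            simpa using this
          rw [hre', ← mean_eq s hsd r hr hr2]
          have hle : ‖∫ θ in (0 : ℝ)..(2 * Real.pi), s (circleMap 0 2 θ)‖
              ≤ √C * |2 * Real.pi - 0| := by
            apply intervalIntegral.norm_integral_le_of_norm_le_const
            intro θ _
            rcases hsnorm (circleMap 0 2 θ) with h4 | h4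
            · exact h4.trans (Real.sqrt_le_sqrt (hC _ (hnc 2 θ (by norm_num))))
            · rw [hnc 2 θ (by norm_num)] at h4; norm_num at h4
          rw [sub_zero, abs_of_nonneg hpi] at hle
          have h5 := (Complex.re_le_norm _).trans hle
          calc √2 * (∫ θ in (0 : ℝ)..(2 * Real.pi), s (circleMap 0 2 θ)).re
              ≤ √2 * (√C * (2 * Real.pi)) :=
                mul_le_mul_of_nonneg_left h5 (Real.sqrt_nonneg _)
            _ = 2 * Real.pi * √2 * √C := by ring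
  -- Fatou
  set r : ℕ → ℝ := fun n => 1 + 1 / ((n : ℝ) + 1) with hr
  have hr1 : ∀ n, 1 < r n := fun n => by
    have : (0 : ℝ) < 1 / ((n : ℝ) + 1) := by positivity
    simp only [hr]; linarith
  have hr2 : ∀ n, r n ≤ 2 := fun n => by
    have : 1 / ((n : ℝ) + 1) ≤ 1 := by
      rw [div_le_one (by positivity)]
      have : (0 : ℝ) ≤ n := Nat.cast_nonneg n
      linarith
    simp only [hr]; linarith
  have hrt : Tendsto r atTop (𝓝[>] 1) := by
    refine tendsto_nhdsWithin_iff.mpr ⟨?_, Eventually.of_forall hr1⟩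
    have := (tendsto_one_div_add_atTop_nhds_zero_nat (𝕜 := ℝ)).const_add 1
    simpa [hr] using this
  set F : ℕ → ℝ → ENNReal := fun n θ => ENNReal.ofReal (√‖h (circleMap 0 (r n) θ)‖) with hF
  have hFm : ∀ n, Measurable (F n) := fun n =>
    (ENNReal.continuous_ofReal.comp (Real.continuous_sqrt.comp
      (continuous_norm.comp (hconth (r n) (hr1 n))))).measurable
  have hfat : ∫⁻ θ, liminf (fun n => F n θ) atTop ∂μ ≤ ENNReal.ofReal (2 * Real.pi * √2 * √C) :=
    (lintegral_liminf_le hFm).trans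
      (liminf_le_of_le (by isBoundedDefault) fun b hb => by
        obtain ⟨n, hn⟩ := hb.exists
        exact hn.trans (hbound (r n) (hr1 n) (hr2 n)))
  have hlimF : ∀ᵐ θ ∂μ, liminf (fun n => F n θ) atTop = ENNReal.ofReal (√‖h₁ θ‖) := by
    filter_upwards [hlim] with θ hθ
    apply Tendsto.liminf_eq
    have h6 := hθ.comp hrt
    have h7 : Tendsto (fun n => h (circleMap 0 (r n) θ)) atTop (𝓝 (h₁ θ)) := by
      refine h6.congr fun n => ?_
      simp only [Function.comp]
      rw [eC_eq]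
    exact (ENNReal.continuous_ofReal.tendsto _).comp
      ((Real.continuous_sqrt.tendsto _).comp (h7.norm))
  have hsΛ : 0 < √Λ := Real.sqrt_pos.mpr hΛ
  have hmark := meas_ge_le_lintegral_div (μ := μ) (f := fun θ => liminf (fun n => F n θ) atTop)
    (Measurable.liminf hFm).aemeasurable (ε := ENNReal.ofReal (√Λ))
    (by simpa using hsΛ) ENNReal.ofReal_ne_top
  have hset : volume {θ : ℝ | θ ∈ Set.Icc 0 (2 * Real.pi) ∧ Λ < ‖h₁ θ‖}
      ≤ μ {θ | ENNReal.ofReal (√Λ) ≤ liminf (fun n => F n θ) atTop} := by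
    have h8 : volume {θ : ℝ | θ ∈ Set.Icc 0 (2 * Real.pi) ∧ Λ < ‖h₁ θ‖}
        = volume ({θ : ℝ | Λ < ‖h₁ θ‖} ∩ Set.Icc 0 (2 * Real.pi)) := by
      congr 1; ext θ; simp [and_comm]
    have h9 : volume ({θ : ℝ | Λ < ‖h₁ θ‖} ∩ Set.Icc 0 (2 * Real.pi))
        = μ {θ : ℝ | Λ < ‖h₁ θ‖} := by
      rw [hμ, Measure.restrict_apply' measurableSet_Icc]
    rw [h8, h9]
    apply measure_mono_ae
    filter_upwards [hlimF] with θ hθ
    intro h10
    show ENNReal.ofReal (√Λ) ≤ liminf (fun n => F n θ) atTop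
    rw [hθ]
    exact ENNReal.ofReal_le_ofReal (Real.sqrt_le_sqrt (le_of_lt h10))
  calc volume {θ : ℝ | θ ∈ Set.Icc 0 (2 * Real.pi) ∧ Λ < ‖h₁ θ‖}
      ≤ μ {θ | ENNReal.ofReal (√Λ) ≤ liminf (fun n => F n θ) atTop} := hset
    _ ≤ (∫⁻ θ, liminf (fun n => F n θ) atTop ∂μ) / ENNReal.ofReal (√Λ) := hmark
    _ ≤ ENNReal.ofReal (2 * Real.pi * √2 * √C) / ENNReal.ofReal (√Λ) := by gcongr
    _ = ENNReal.ofReal (2 * Real.pi * √2 * √C / √Λ) := (ENNReal.ofReal_div_of_pos hsΛ).symm

end H24FB
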