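import Pool.Agent.H24.FB.GenTailA
import Pool.Agent.H24.FB.GenTailB

/-! Block G4: the tail estimate for the resolvents of random words. -/

open MeasureTheory Matrix Filter Topology

namespace H24FB

variable {d : ℕ}

/-! ### Differentiability -/

theorem dat_mul {B C : ℂ → Matrix (Fin d) (Fin d) ℂ} {w₀ : ℂ}
    (hB : ∀ i j, DifferentiableAt ℂ (fun w => B w i j) w₀)
    (hC : ∀ i j, DifferentiableAt ℂ (fun w => C w i j) w₀) (i j : Fin d) :
    DifferentiableAt ℂ (fun w => (B w * C w) i j) w₀ := by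
  simp only [Matrix.mul_apply]
  exact DifferentiableAt.fun_sum fun k _ => (hB i k).mul (hC k j)

theorem dat_Dm (z : Fin d → ℤ) {w₀ : ℂ} (hw : w₀ ≠ 0) (i j : Fin d) :
    DifferentiableAt ℂ (fun w => Dm z w i j) w₀ := by
  unfold Dm
  by_cases h : i = j
  · subst h
    simp only [Matrix.diagonal_apply_eq]
    exact differentiableAt_zpow.2 (Or.inl hw)
  · simp only [Matrix.diagonal_apply_ne _ h]
    exact differentiableAt_const _

theorem dat_wp (z : Fin d → ℤ) (A : ℕ → Matrix (Fin d) (Fin d) ℂ) {w₀ : ℂ} (hw : w₀ ≠ 0) (m : ℕ)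
    (i j : Fin d) : DifferentiableAt ℂ (fun w => wp (fun j => Dm z w * A j) m i j) w₀ := by
  induction m generalizing i j with
  | zero =>
    simp only [wp]
    exact differentiableAt_const _
  | succ m ih =>
    have h1 : ∀ a b, DifferentiableAt ℂ (fun w => (Dm z w * A m) a b) w₀ := fun a b =>
      dat_mul (B := fun w => Dm z w) (C := fun _ => A m) (fun i j => dat_Dm z hw i j)
        (fun i j => differentiableAt_const _) a b
    exact dat_mul (B := fun w => Dm z w * A m) (C := fun w => wp (fun j => Dm z w * A j) m)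
      h1 ih i j

theorem dat_det {B : ℂ → Matrix (Fin d) (Fin d) ℂ} {w₀ : ℂ}
    (hB : ∀ i j, DifferentiableAt ℂ (fun w => B w i j) w₀) :
    DifferentiableAt ℂ (fun w => (B w).det) w₀ := by
  simp only [Matrix.det_apply]
  refine DifferentiableAt.fun_sum fun p _ => ?_
  refine DifferentiableAt.const_smul ?_ _
  exact DifferentiableAt.fun_finsetProd fun i _ => hB _ _

theorem dat_adj {B : ℂ → Matrix (Fin d) (Fin d) ℂ} {w₀ : ℂ}
    (hB : ∀ i j, DifferentiableAt ℂ (fun w => B w i j) w₀) (i j : Fin d) :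
    DifferentiableAt ℂ (fun w => (B w).adjugate i j) w₀ := by
  simp only [Matrix.adjugate_apply]
  refine dat_det fun a b => ?_
  by_cases h : a = j
  · subst h
    simp only [Matrix.updateRow_self]
    exact differentiableAt_const _
  · simp only [Matrix.updateRow_ne h]
    exact hB a b

theorem dat_sub_smul (z : Fin d → ℤ) (A : ℕ → Matrix (Fin d) (Fin d) ℂ) (ζ : ℂ) {w₀ : ℂ}
    (hw : w₀ ≠ 0) (m : ℕ) (i j : Fin d) : DifferentiableAt ℂ
      (fun w => (wp (fun j => Dm z w * A j) m - ζ • (1 : Matrix (Fin d) (Fin d) ℂ)) i j) w₀ := by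
  simp only [Matrix.sub_apply]
  exact (dat_wp z A hw m i j).sub (differentiableAt_const _)

theorem inv_apply_eq (B : Matrix (Fin d) (Fin d) ℂ) (i j : Fin d) :
    B⁻¹ i j = (B.det)⁻¹ * B.adjugate i j := by
  rw [Matrix.inv_def, Ring.inverse_eq_inv', Matrix.smul_apply, smul_eq_mul]

theorem dat_hf (σ : Fin d → ℝ) (z : Fin d → ℤ) (A : ℕ → Matrix (Fin d) (Fin d) ℂ) (ζ : ℂ)
    (u : Fin d → ℂ) {w₀ : ℂ} (hw : w₀ ≠ 0) (m : ℕ)
    (hdet : (wp (fun j => Dm z w₀ * A j) m - ζ • (1 : Matrix (Fin d) (Fin d) ℂ)).det ≠ 0) :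
    DifferentiableAt ℂ (fun w => hf σ ζ u (wp (fun j => Dm z w * A j) m)) w₀ := by
  have h1 : ∀ i j, DifferentiableAt ℂ (fun w =>
      (wp (fun j => Dm z w * A j) m - ζ • (1 : Matrix (Fin d) (Fin d) ℂ))⁻¹ i j) w₀ := by
    intro i j
    simp only [inv_apply_eq]
    exact ((dat_det fun a b => dat_sub_smul z A ζ hw m a b).inv hdet).mul
      (dat_adj (fun a b => dat_sub_smul z A ζ hw m a b) i j)
  unfold hf Sf
  simp only [Matrix.mulVec, dotProduct]
  refine (differentiableAt_const _).add ((differentiableAt_const _).mul ?_)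
  refine DifferentiableAt.fun_sum fun i _ => ?_
  refine (differentiableAt_const _).mul ((differentiableAt_const _).mul ?_)
  exact DifferentiableAt.fun_sum fun k _ => (h1 i k).mul (differentiableAt_const _)

/-! ### The exceptional angles -/

theorem eC_ne_zero_tail (θ : ℝ) : eC θ ≠ 0 := Complex.exp_ne_zero _

theorem ae_det_ne {σ : Fin d → ℝ} {z : Fin d → ℤ} (hσ : ∀ i, σ i = 1 ∨ σ i = -1)
    (hz : ∀ i, 1 ≤ σ i * (z i : ℝ)) {A : ℕ → Matrix (Fin d) (Fin d) ℂ} (hA : ∀ j, Pres σ (A j))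
    {m : ℕ} (hm : 0 < m) {ζ : ℂ} (hζ : ‖ζ‖ = 1) :
    ∀ᵐ θ ∂(volume.restrict (Set.Icc 0 (2 * Real.pi))),
      (wp (fun j => Dm z (eC θ) * A j) m - ζ • (1 : Matrix (Fin d) (Fin d) ℂ)).det ≠ 0 := by
  set G : ℂ → ℂ := fun w =>
    (wp (fun j => Dm z w * A j) m - ζ • (1 : Matrix (Fin d) (Fin d) ℂ)).det with hG
  have hop : IsOpen ({0}ᶜ : Set ℂ) := isOpen_compl_singleton
  have hd : DifferentiableOn ℂ G {0}ᶜ := fun w hw =>
    (dat_det fun a b => dat_sub_smul z A ζ hw m a b).differentiableWithinAt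
  have han : AnalyticOnNhd ℂ G {0}ᶜ := hd.analyticOnNhd hop
  have h2 : G 2 ≠ 0 := sub_det_ne hσ hz hA hm hζ (by norm_num)
  have hconn : IsConnected ({0}ᶜ : Set ℂ) :=
    isConnected_compl_singleton_of_one_lt_rank (by simp [Complex.rank_real_complex]) 0
  have h3 := han.preimage_zero_mem_codiscreteWithin h2 (by simp) hconn
  have h4 : G ⁻¹' {0}ᶜ ∈ codiscreteWithin (Metric.sphere (0 : ℂ) |1|) := by
    refine codiscreteWithin_mono ?_ h3
    intro w hw
    simp only [abs_one, mem_sphere_iff_norm, sub_zero] at hw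
    simp only [Set.mem_compl_iff, Set.mem_singleton_iff]
    intro h0
    rw [h0, norm_zero] at hw
    norm_num at hw
  have h5 := circleMap_preimage_codiscrete (c := 0) (R := 1) one_ne_zero h4
  have h6 : circleMap 0 1 ⁻¹' (G ⁻¹' {0}ᶜ) ∈ codiscrete ℝ := h5
  have h7 := ae_restrict_le_codiscreteWithin (μ := volume) (U := Set.Icc 0 (2 * Real.pi))
    measurableSet_Icc (codiscreteWithin_mono (Set.subset_univ _) h6)
  filter_upwards [h7] with θ hθ
  have h8 : circleMap 0 1 θ = eC θ := by simp [circleMap, eC]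
  simp only [Set.mem_preimage, h8, Set.mem_compl_iff, Set.mem_singleton_iff] at hθ
  exact hθ

/-! ### One vector -/

theorem hf_zero (σ : Fin d → ℝ) (ζ : ℂ) (N : Matrix (Fin d) (Fin d) ℂ) : hf σ ζ 0 N = 0 := by
  simp [hf, Sf]

theorem tail_one {σ : Fin d → ℝ} {z : Fin d → ℤ} (hσ : ∀ i, σ i = 1 ∨ σ i = -1)
    (hz : ∀ i, 1 ≤ σ i * (z i : ℝ)) (C₀ : ℝ) (hC0 : 0 < C₀)
    (hC : ∀ (A : ℕ → Matrix (Fin d) (Fin d) ℂ) (_ : ∀ j, Pres σ (A j)) (m : ℕ) (_ : 0 < m)
      (ζ : ℂ) (_ : ‖ζ‖ = 1) (w : ℂ) (_ : ‖w‖ = 2) (u : Fin d → ℂ),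
      n2 ((wp (fun j => Dm z w * A j) m - ζ • (1 : Matrix (Fin d) (Fin d) ℂ))⁻¹ *ᵥ u)
        ≤ C₀ * n2 u)
    {A : ℕ → Matrix (Fin d) (Fin d) ℂ} (hA : ∀ j, Pres σ (A j)) {m : ℕ} (hm : 0 < m)
    {ζ : ℂ} (hζ : ‖ζ‖ = 1) (u : Fin d → ℂ) (hu : n2 u ≤ 4) {Λ : ℝ} (hΛ : 0 < Λ) :
    volume {θ : ℝ | θ ∈ Set.Icc 0 (2 * Real.pi) ∧
      Λ < ‖hf σ ζ u (wp (fun j => Dm z (eC θ) * A j) m)‖}
      ≤ ENNReal.ofReal (2 * Real.pi * √2 * √((2 + C₀) * 4) / √Λ) := by
  by_cases hu0 : u = 0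
  · have : {θ : ℝ | θ ∈ Set.Icc 0 (2 * Real.pi) ∧
      Λ < ‖hf σ ζ u (wp (fun j => Dm z (eC θ) * A j) m)‖} = ∅ := by
      ext θ
      simp only [hu0, hf_zero, norm_zero, Set.mem_empty_iff_false, iff_false]
      rintro ⟨_, h⟩
      linarith
    rw [this, measure_empty]
    exact zero_le
  · apply tail_of_re_pos (fun w => hf σ ζ u (wp (fun j => Dm z w * A j) m)) ?_ ?_
      ((2 + C₀) * 4) (by positivity) ?_ _ ?_ Λ hΛ
    · intro w hw
      have hw' : 1 < ‖w‖ := hw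
      have hw0 : w ≠ 0 := by
        intro h; rw [h, norm_zero] at hw'; linarith
      exact (dat_hf σ z A ζ u hw0 m (sub_det_ne hσ hz hA hm hζ hw')).differentiableWithinAt
    · intro w hw
      have hdet := sub_det_ne (z := z) hσ hz hA hm hζ hw
      rw [hf_re hζ hdet]
      have hv : (wp (fun j => Dm z w * A j) m - ζ • (1 : Matrix (Fin d) (Fin d) ℂ))⁻¹ *ᵥ u ≠ 0 := by
        apply mulVec_ne_zero_of_det _ hu0
        rw [Matrix.det_nonsing_inv, Ring.inverse_eq_inv']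
        exact inv_ne_zero hdet
      have := Qf_word_lt hσ hz hA hw hv hm
      linarith
    · intro w hw
      refine (hf_norm_le hσ hζ u _ C₀ (hC A hA m hm ζ hζ w hw u)).trans ?_
      exact mul_le_mul_of_nonneg_left hu (by positivity)
    · filter_upwards [ae_det_ne (z := z) hσ hz hA hm hζ] with θ hθ
      have h1 := (dat_hf σ z A ζ u (eC_ne_zero_tail θ) m hθ).continuousAt
      have h2 : Tendsto (fun r : ℝ => (r : ℂ) * eC θ) (𝓝[>] 1) (𝓝 (eC θ)) := by
        have h3 : Continuous (fun r : ℝ => (r : ℂ) * eC θ) := by fun_prop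
        have h4 := h3.tendsto 1
        simp only [Complex.ofReal_one, one_mul] at h4
        exact h4.mono_left nhdsWithin_le_nhds
      exact h1.tendsto.comp h2

/-! ### Polarisation -/

/-- The four fourth roots of unity. -/
noncomputable def rt4 (l : Fin 4) : ℂ := ![1, Complex.I, -1, -Complex.I] l

/-- The vectors of the polarisation identity. -/
noncomputable def pv (i j : Fin d) (l : Fin 4) : Fin d → ℂ :=
  Pi.single i 1 + rt4 l • Pi.single j 1

theorem polar (S : (Fin d → ℂ) → (Fin d → ℂ) → ℂ)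
    (h1 : ∀ u v w, S u (v + w) = S u v + S u w) (h2 : ∀ u v w, S (u + v) w = S u w + S v w)
    (h3 : ∀ (c : ℂ) u v, S u (c • v) = c * S u v) (h4 : ∀ (c : ℂ) u v, S (c • u) v = star c * S u v)
    (a b : Fin d → ℂ) :
    4 * S a b = ∑ l : Fin 4, star (rt4 l) * S (a + rt4 l • b) (a + rt4 l • b) := by
  rw [Fin.sum_univ_four]
  simp only [h1, h2, h3, h4, rt4, Matrix.cons_val_zero, Matrix.cons_val_one, Matrix.cons_val]
  have hI : star Complex.I = -Complex.I := Complex.conj_I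
  simp only [star_one, star_neg, hI]
  have hI2 : Complex.I ^ 2 = -1 := Complex.I_sq
  ring_nf
  rw [hI2]
  ring

theorem norm_rt4 (l : Fin 4) : ‖rt4 l‖ = 1 := by
  fin_cases l <;> simp [rt4]

theorem n2_single (i : Fin d) : n2 (Pi.single i (1 : ℂ)) = 1 := by
  unfold n2
  rw [Finset.sum_eq_single i]
  · simp
  · intro b _ hb
    rw [Pi.single_eq_of_ne hb]; simp
  · intro h; exact absurd (Finset.mem_univ i) h

theorem n2_add_le (u v : Fin d → ℂ) : n2 (u + v) ≤ 2 * n2 u + 2 * n2 v := by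
  unfold n2
  rw [Finset.mul_sum, Finset.mul_sum, ← Finset.sum_add_distrib]
  refine Finset.sum_le_sum fun i _ => ?_
  rw [Pi.add_apply]
  have h := norm_add_le (u i) (v i)
  nlinarith [sq_nonneg (‖u i‖ - ‖v i‖), norm_nonneg (u i + v i), norm_nonneg (u i),
    norm_nonneg (v i)]

theorem n2_smul (c : ℂ) (u : Fin d → ℂ) : n2 (c • u) = ‖c‖ ^ 2 * n2 u := by
  unfold n2
  rw [Finset.mul_sum]
  refine Finset.sum_congr rfl fun i _ => ?_
  rw [Pi.smul_apply, smul_eq_mul, norm_mul]; ring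

theorem n2_pv (i j : Fin d) (l : Fin 4) : n2 (pv i j l) ≤ 4 := by
  unfold pv
  refine (n2_add_le _ _).trans ?_
  rw [n2_smul, norm_rt4, n2_single, n2_single]
  norm_num

theorem Sf_norm_self {σ : Fin d → ℝ} (hσ : ∀ i, σ i = 1 ∨ σ i = -1) (u : Fin d → ℂ) :
    ‖Sf σ u u‖ ≤ n2 u := by
  have hσn : ∀ i, ‖(σ i : ℂ)‖ = 1 := by
    intro i
    rcases hσ i with h | h <;> rw [h] <;> norm_num
  unfold Sf n2
  refine (norm_sum_le _ _).trans (Finset.sum_le_sum fun i _ => ?_)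
  rw [norm_mul, hσn, one_mul, norm_mul, norm_star, sq]

theorem entry_large {σ : Fin d → ℝ} (hσ : ∀ i, σ i = 1 ∨ σ i = -1) {ζ : ℂ} (hζ : ‖ζ‖ = 1)
    (N : Matrix (Fin d) (Fin d) ℂ) (i j : Fin d) {Λ : ℝ} (hΛ : 4 ≤ Λ)
    (h : Λ < ‖(N - ζ • (1 : Matrix (Fin d) (Fin d) ℂ))⁻¹ i j‖) :
    ∃ l : Fin 4, Λ < ‖hf σ ζ (pv i j l) N‖ := by
  by_contra hcon
  push Not at hcon
  set X := (N - ζ • (1 : Matrix (Fin d) (Fin d) ℂ))⁻¹ with hX
  have hσn : ‖(σ i : ℂ)‖ = 1 := by
    rcases hσ i with h | h <;> rw [h] <;> norm_num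
  -- the form `S u v = Sf u (X v)`
  have h1 : Sf σ (Pi.single i 1) (X *ᵥ Pi.single j 1) = (σ i : ℂ) * X i j := by
    unfold Sf
    rw [Finset.sum_eq_single i]
    · rw [Matrix.mulVec_single_one]
      simp
    · intro b _ hb
      rw [Pi.single_eq_of_ne hb]; simp
    · intro h; exact absurd (Finset.mem_univ i) h
  have h2 := polar (fun u v => Sf σ u (X *ᵥ v))
    (fun u v w => by simp only [Matrix.mulVec_add, Sf_add_right])
    (fun u v w => by simp only [Sf_add_left])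
    (fun c u v => by simp only [Matrix.mulVec_smul, Sf_smul_right])
    (fun c u v => by simp only [Sf_smul_left]) (Pi.single i 1) (Pi.single j 1)
  simp only [h1] at h2
  have h3 : ∀ l, ‖Sf σ (pv i j l) (X *ᵥ pv i j l)‖ ≤ (Λ + 4) / 2 := by
    intro l
    have h4 : 2 * ζ * Sf σ (pv i j l) (X *ᵥ pv i j l)
        = hf σ ζ (pv i j l) N - Sf σ (pv i j l) (pv i j l) := by
      rw [hf, ← hX]; ring
    have h5 : ‖2 * ζ * Sf σ (pv i j l) (X *ᵥ pv i j l)‖
        = 2 * ‖Sf σ (pv i j l) (X *ᵥ pv i j l)‖ := by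
      rw [norm_mul, norm_mul, hζ]; norm_num
    have h6 := (norm_sub_le (hf σ ζ (pv i j l) N) (Sf σ (pv i j l) (pv i j l)))
    rw [← h4, h5] at h6
    have h7 := hcon l
    have h8 := (Sf_norm_self hσ (pv i j l)).trans (n2_pv i j l)
    linarith
  have h9 : ‖4 * ((σ i : ℂ) * X i j)‖ = 4 * ‖X i j‖ := by
    rw [norm_mul, norm_mul, hσn]; norm_num
  have h10 : 4 * ‖X i j‖ ≤ 4 * ((Λ + 4) / 2) := by
    rw [← h9, h2]
    refine (norm_sum_le _ _).trans ?_
    have : ∀ l ∈ (Finset.univ : Finset (Fin 4)),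
        ‖star (rt4 l) * Sf σ (Pi.single i 1 + rt4 l • Pi.single j 1)
          (X *ᵥ (Pi.single i 1 + rt4 l • Pi.single j 1))‖ ≤ (Λ + 4) / 2 := by
      intro l _
      rw [norm_mul, norm_star, norm_rt4, one_mul]
      exact h3 l
    refine (Finset.sum_le_sum this).trans ?_
    rw [Finset.sum_const, Finset.card_univ, Fintype.card_fin, nsmul_eq_mul]
    norm_num
  linarith

/-! ### The tail estimate -/

theorem gen_tail {σ : Fin d → ℝ} (hσ : ∀ i, σ i = 1 ∨ σ i = -1) {z : Fin d → ℤ}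
    (hz : ∀ i, 1 ≤ σ i * (z i : ℝ)) (k : ℕ) :
    ∃ C : ℝ, 0 < C ∧ ∀ (A : ℕ → Matrix (Fin d) (Fin d) ℂ) (_ : ∀ j, Pres σ (A j)) (m : ℕ)
      (_ : 0 < m) (Λ : ℝ) (_ : 0 < Λ),
      volume {θ : ℝ | θ ∈ Set.Icc 0 (2 * Real.pi) ∧
        (gam k Λ (wp (fun j => Dm z (eC θ) * A j) m) ≠ 0
          ∨ phi k (wp (fun j => Dm z (eC θ) * A j) m) = 0)}
        ≤ ENNReal.ofReal (C / √Λ) := by
  classical
  obtain ⟨C₀, hC0, hC⟩ := resolvent_bound hσ hz
  set R := Polynomial.nthRootsFinset k (1 : ℂ) with hR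
  have hRn : ∀ c ∈ R, ‖c‖ = 1 := by
    intro c hc
    rcases Nat.eq_zero_or_pos k with h | h
    · rw [hR, h, Polynomial.nthRootsFinset_zero] at hc
      simp at hc
    · rw [hR, Polynomial.mem_nthRootsFinset h] at hc
      exact Complex.norm_eq_one_of_pow_eq_one hc (by omega)
  set T : Finset (ℂ × (Fin d × Fin d × Fin 4)) := R ×ˢ Finset.univ with hT
  set b : ℝ := 2 * Real.pi * √2 * √((2 + C₀) * 4) with hb
  have hb0 : 0 ≤ b := by positivity
  have hpi := Real.pi_pos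
  refine ⟨4 * Real.pi + T.card * b, by positivity, ?_⟩
  intro A hA m hm Λ hΛ
  have hsq : 0 < √Λ := Real.sqrt_pos.2 hΛ
  by_cases hΛ4 : Λ < 4
  · -- trivial bound
    refine (measure_mono (t := Set.Icc 0 (2 * Real.pi)) fun θ hθ => hθ.1).trans ?_
    rw [Real.volume_Icc, sub_zero]
    apply ENNReal.ofReal_le_ofReal
    have h1 : √Λ ≤ 2 := by
      rw [show (2 : ℝ) = √4 by rw [show (4 : ℝ) = 2 ^ 2 by norm_num]; simp]
      exact Real.sqrt_le_sqrt hΛ4.le
    rw [le_div_iff₀ hsq]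
    have h2 : 0 ≤ (T.card : ℝ) * b := by positivity
    nlinarith
  · push Not at hΛ4
    set μ := volume.restrict (Set.Icc (0 : ℝ) (2 * Real.pi)) with hμ
    set S : ℂ × (Fin d × Fin d × Fin 4) → Set ℝ := fun t =>
      {θ : ℝ | θ ∈ Set.Icc 0 (2 * Real.pi) ∧
        Λ < ‖hf σ t.1 (pv t.2.1 t.2.2.1 t.2.2.2) (wp (fun j => Dm z (eC θ) * A j) m)‖} with hS
    have hae : ∀ᵐ θ ∂μ, ∀ c ∈ R,
        (wp (fun j => Dm z (eC θ) * A j) m - c • (1 : Matrix (Fin d) (Fin d) ℂ)).det ≠ 0 := by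
      rw [Filter.eventually_all_finset]
      intro c hc
      exact ae_det_ne hσ hz hA hm (hRn c hc)
    have hae2 := (ae_restrict_iff' measurableSet_Icc).1 hae
    have hsub : ({θ : ℝ | θ ∈ Set.Icc 0 (2 * Real.pi) ∧
        (gam k Λ (wp (fun j => Dm z (eC θ) * A j) m) ≠ 0
          ∨ phi k (wp (fun j => Dm z (eC θ) * A j) m) = 0)} : Set ℝ)
        ≤ᵐ[volume] (⋃ t ∈ T, S t : Set ℝ) := by
      filter_upwards [hae2] with θ hθ
      rintro ⟨h1, h2⟩
      have h3 := hθ h1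
      rcases h2 with h2 | h2
      · -- some entry is large
        have h4 : ∃ c ∈ R, ∃ i j, Λ * ‖(wp (fun j => Dm z (eC θ) * A j) m
            - c • (1 : Matrix (Fin d) (Fin d) ℂ)).det‖
            < ‖(wp (fun j => Dm z (eC θ) * A j) m
            - c • (1 : Matrix (Fin d) (Fin d) ℂ)).adjugate i j‖ := by
          by_contra hcon
          push Not at hcon
          apply h2
          unfold gam
          refine Finset.sum_eq_zero fun c hc => Finset.sum_eq_zero fun i _ =>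
            Finset.sum_eq_zero fun j _ => ?_
          apply max_eq_left
          have := hcon c hc i j
          linarith
        obtain ⟨c, hc, i, j, h5⟩ := h4
        have h6 : Λ < ‖(wp (fun j => Dm z (eC θ) * A j) m
            - c • (1 : Matrix (Fin d) (Fin d) ℂ))⁻¹ i j‖ := by
          rw [inv_apply_eq, norm_mul, norm_inv, ← div_eq_inv_mul, lt_div_iff₀]
          · exact h5
          · exact norm_pos_iff.2 (h3 c hc)
        obtain ⟨l, hl⟩ := entry_large hσ (hRn c hc) _ i j hΛ4 h6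
        refine Set.mem_iUnion₂.2 ⟨(c, i, j, l), ?_, h1, hl⟩
        rw [hT, Finset.mem_product]
        exact ⟨hc, Finset.mem_univ _⟩
      · exfalso
        unfold phi at h2
        rw [Finset.prod_eq_zero_iff] at h2
        obtain ⟨c, hc, h5⟩ := h2
        exact h3 c hc (norm_eq_zero.1 h5)
    refine (measure_mono_ae hsub).trans ((measure_biUnion_finset_le _ _).trans ?_)
    have h7 : ∀ t ∈ T, volume (S t) ≤ ENNReal.ofReal (b / √Λ) := by
      intro t ht
      rw [hT, Finset.mem_product] at ht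
      exact tail_one hσ hz C₀ hC0 hC hA hm (hRn _ ht.1) _ (n2_pv _ _ _) hΛ
    refine (Finset.sum_le_sum h7).trans ?_
    rw [Finset.sum_const, nsmul_eq_mul, ← ENNReal.ofReal_natCast,
      ← ENNReal.ofReal_mul (by positivity)]
    apply ENNReal.ofReal_le_ofReal
    rw [mul_div_assoc', div_le_div_iff_of_pos_right hsq]
    linarith

end H24FB
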