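import Pool.Agent.H24.FB.BlockB
import Pool.Agent.H24.FB.BlockG
import Pool.Agent.H24.FB.PairHom
import Pool.Agent.H24.FB.GenRel
import Pool.Agent.H24.FB.GenF
import Pool.Agent.H24.FB.GenHaar
import Pool.Agent.H24.FB.GenK
import Pool.Agent.H24.FB.GenTail
import Pool.Agent.H24.FB.GenFactor

/-! Block G9: the theorem for groups with a central quotient of a closed subgroup of `U(p, q)`. -/

open MeasureTheory Matrix Filter Topology

namespace H24FB

/-! the word estimate -/

section hw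

variable {d : ℕ} {L : Type*} [Group L] [TopologicalSpace L] [IsTopologicalGroup L]
  [SecondCountableTopology L] [MeasurableSpace L] [BorelSpace L]

theorem measurable_wordMap {n : ℕ} (w : ℕ → Fin n) (m : ℕ) :
    Measurable fun h : Fin n → L => wp (fun i => h (w i)) m := by
  induction m with
  | zero => exact measurable_const
  | succ m ih =>
    show Measurable fun h : Fin n → L => h (w m) * wp (fun i => h (w i)) m
    exact (measurable_pi_apply (w m)).mul ih

/-- The band estimate, averaged over the group. -/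
theorem gen_band (hd : 0 < d) (σ : Fin d → ℝ) (hσ : ∀ i, σ i = 1 ∨ σ i = -1)
    (z : Fin d → ℤ) (hz : ∀ i, 1 ≤ σ i * (z i : ℝ)) (τ : L →* Matrix (Fin d) (Fin d) ℂ)
    (hτ : Continuous τ) (hpres : ∀ l, Pres σ (τ l)) (r : ℝ → L) (hr : Continuous r)
    (hτr : ∀ θ, τ (r θ) = Dm z (eC θ)) {n : ℕ} (μ : Measure (Fin n → L))
    [μ.IsMulLeftInvariant] [SFinite μ] (R : ℝ) (w : ℕ → Fin n) (m : ℕ) (hm : 0 < m)
    (k : ℕ) (hk : 0 < k) (κ δ : ℝ) (hκ : 0 < κ) (hδ : 0 ≤ δ) :
    μ {h | h ∈ KG τ n R ∧ |phi k (τ (wp (fun i => h (w i)) m)) - κ| ≤ δ * κ} ≤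
      ENNReal.ofReal (200 * √δ / (2 * Real.pi)) * μ (KG τ n R) := by
  have hS : MeasurableSet (τ ⁻¹' {A | |phi k A - κ| ≤ δ * κ}) := by
    have hc : Continuous fun l : L => |phi k (τ l) - κ| :=
      ((continuous_phi k).comp hτ |>.sub continuous_const).abs
    exact (isClosed_le hc continuous_const).measurableSet
  refine gen_avg σ z τ hτ hpres r hr hτr μ R w m {A | |phi k A - κ| ≤ δ * κ} hS (200 * √δ)
    (by positivity) ?_
  intro A hA
  obtain ⟨N, K, t, hN, hK, hform⟩ := gen_factor hd σ hσ z hz A hA m hm k hk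
  have hb := band N hN t K κ δ hK hκ hδ
  refine le_trans (measure_mono ?_) hb
  rintro θ ⟨hθ, hθ2⟩
  refine ⟨hθ, ?_⟩
  have : |phi k (wp (fun j => Dm z (eC θ) * A j) m) - κ| ≤ δ * κ := hθ2
  rwa [hform θ] at this

theorem gen_word (hd : 0 < d) (σ : Fin d → ℝ) (hσ : ∀ i, σ i = 1 ∨ σ i = -1)
    (z : Fin d → ℤ) (hz : ∀ i, 1 ≤ σ i * (z i : ℝ)) (τ : L →* Matrix (Fin d) (Fin d) ℂ)
    (hτ : Continuous τ) (hpres : ∀ l, Pres σ (τ l)) (r : ℝ → L) (hr : Continuous r)
    (hτr : ∀ θ, τ (r θ) = Dm z (eC θ)) {n : ℕ} (M : Measure (Fin n → L))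
    [M.IsMulLeftInvariant] [SFinite M] (k : ℕ) (hk : 0 < k) (C : ℝ) (hC : 0 < C)
    (htail : ∀ (A : ℕ → Matrix (Fin d) (Fin d) ℂ) (_ : ∀ j, Pres σ (A j)) (m : ℕ)
      (_ : 0 < m) (Λ : ℝ) (_ : 0 < Λ),
      volume {θ : ℝ | θ ∈ Set.Icc 0 (2 * Real.pi) ∧
        (gam k Λ (wp (fun j => Dm z (eC θ) * A j) m) ≠ 0 ∨
          phi k (wp (fun j => Dm z (eC θ) * A j) m) = 0)} ≤ ENNReal.ofReal (C / √Λ))
    (R : ℝ) (hKm : MeasurableSet (KG τ n R)) (w : ℕ → Fin n) (m : ℕ) (hm : 0 < m) (δ Λ : ℝ)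
    (hδ : 0 ≤ δ) (hΛ : 0 < Λ) :
    (M.prod M) {q | (q.1 ∈ KG τ n R ∧ q.2 ∈ KG τ n R) ∧
      (|phi k (τ (wp (fun i => q.2 (w i)) m)) - phi k (τ (wp (fun i => q.1 (w i)) m))|
          ≤ δ * phi k (τ (wp (fun i => q.1 (w i)) m)) ∨
        gam k Λ (τ (wp (fun i => q.1 (w i)) m)) ≠ 0 ∨
        phi k (τ (wp (fun i => q.1 (w i)) m)) = 0)} ≤
      (ENNReal.ofReal (200 * √δ / (2 * Real.pi)) + ENNReal.ofReal (C / √Λ / (2 * Real.pi))) *
        (M (KG τ n R) * M (KG τ n R)) := by
  set W : (Fin n → L) → L := fun h => wp (fun i => h (w i)) m with hW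
  have hWm : Measurable W := measurable_wordMap w m
  have hphiW : Measurable fun h : Fin n → L => phi k (τ (W h)) :=
    ((continuous_phi k).comp hτ).measurable.comp hWm
  have hgamW : Measurable fun h : Fin n → L => gam k Λ (τ (W h)) :=
    ((continuous_gam k Λ).comp hτ).measurable.comp hWm
  -- the exceptional set of the first coordinate
  set S2 : Set (Fin n → L) := {h | h ∈ KG τ n R ∧ (gam k Λ (τ (W h)) ≠ 0 ∨ phi k (τ (W h)) = 0)}
    with hS2
  have hS2b : M S2 ≤ ENNReal.ofReal (C / √Λ / (2 * Real.pi)) * M (KG τ n R) := by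
    have hS : MeasurableSet (τ ⁻¹' {A | gam k Λ A ≠ 0 ∨ phi k A = 0}) := by
      have h1 : MeasurableSet {l : L | gam k Λ (τ l) = 0} :=
        (isClosed_eq ((continuous_gam k Λ).comp hτ) continuous_const).measurableSet
      have h2 : MeasurableSet {l : L | phi k (τ l) = 0} :=
        (isClosed_eq ((continuous_phi k).comp hτ) continuous_const).measurableSet
      exact h1.compl.union h2
    refine gen_avg σ z τ hτ hpres r hr hτr M R w m {A | gam k Λ A ≠ 0 ∨ phi k A = 0} hS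
      (C / √Λ) (by positivity) ?_
    intro A hA
    exact htail A hA m hm Λ hΛ
  set B1 : Set ((Fin n → L) × (Fin n → L)) := {q | (q.1 ∈ KG τ n R ∧ q.2 ∈ KG τ n R) ∧
    (0 < phi k (τ (W q.1)) ∧ |phi k (τ (W q.2)) - phi k (τ (W q.1))| ≤ δ * phi k (τ (W q.1)))}
    with hB1
  have hB1m : MeasurableSet B1 := by
    have a1 : MeasurableSet {q : (Fin n → L) × (Fin n → L) | q.1 ∈ KG τ n R ∧ q.2 ∈ KG τ n R} :=
      (measurable_fst hKm).inter (measurable_snd hKm)
    have a2 : MeasurableSet {q : (Fin n → L) × (Fin n → L) | 0 < phi k (τ (W q.1))} :=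
      measurableSet_lt measurable_const (hphiW.comp measurable_fst)
    have a3 : MeasurableSet {q : (Fin n → L) × (Fin n → L) |
        |phi k (τ (W q.2)) - phi k (τ (W q.1))| ≤ δ * phi k (τ (W q.1))} :=
      measurableSet_le (((hphiW.comp measurable_snd).sub (hphiW.comp measurable_fst)).norm)
        ((hphiW.comp measurable_fst).const_mul δ)
    exact a1.inter (a2.inter a3)
  have hB1b : (M.prod M) B1 ≤ ENNReal.ofReal (200 * √δ / (2 * Real.pi)) *
      (M (KG τ n R) * M (KG τ n R)) := by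
    rw [Measure.prod_apply hB1m]
    calc ∫⁻ x, M (Prod.mk x ⁻¹' B1) ∂M
        ≤ ∫⁻ x, (KG τ n R).indicator
            (fun _ => ENNReal.ofReal (200 * √δ / (2 * Real.pi)) * M (KG τ n R)) x ∂M := by
          refine lintegral_mono fun x => ?_
          by_cases hx : x ∈ KG τ n R
          · rw [Set.indicator_of_mem hx]
            by_cases hx2 : 0 < phi k (τ (W x))
            · refine le_trans (measure_mono ?_) (gen_band hd σ hσ z hz τ hτ hpres r hr hτr M R
                w m hm k hk (phi k (τ (W x))) δ hx2 hδ)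
              rintro y ⟨⟨_, hy⟩, _, hy2⟩
              exact ⟨hy, hy2⟩
            · have : Prod.mk x ⁻¹' B1 = ∅ := by
                ext y
                simp only [Set.mem_preimage, Set.mem_empty_iff_false, iff_false]
                rintro ⟨_, h2, _⟩
                exact hx2 h2
              rw [this, measure_empty]
              exact zero_le
          · have : Prod.mk x ⁻¹' B1 = ∅ := by
              ext y
              simp only [Set.mem_preimage, Set.mem_empty_iff_false, iff_false]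
              rintro ⟨⟨h1, _⟩, _⟩
              exact hx h1
            rw [this, measure_empty]
            exact zero_le
      _ = ENNReal.ofReal (200 * √δ / (2 * Real.pi)) * (M (KG τ n R) * M (KG τ n R)) := by
          rw [lintegral_indicator_const hKm, mul_assoc]
  have hsub : {q : (Fin n → L) × (Fin n → L) | (q.1 ∈ KG τ n R ∧ q.2 ∈ KG τ n R) ∧
      (|phi k (τ (W q.2)) - phi k (τ (W q.1))| ≤ δ * phi k (τ (W q.1)) ∨
        gam k Λ (τ (W q.1)) ≠ 0 ∨ phi k (τ (W q.1)) = 0)} ⊆ B1 ∪ (S2 ×ˢ KG τ n R) := by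
    rintro q ⟨⟨h1, h2⟩, h3⟩
    by_cases h4 : gam k Λ (τ (W q.1)) ≠ 0 ∨ phi k (τ (W q.1)) = 0
    · right
      exact ⟨⟨h1, h4⟩, h2⟩
    · left
      rcases h3 with h3 | h3
      · refine ⟨⟨h1, h2⟩, ?_, h3⟩
        have : phi k (τ (W q.1)) ≠ 0 := fun h => h4 (Or.inr h)
        exact lt_of_le_of_ne (phi_nonneg k _) (Ne.symm this)
      · exact absurd h3 h4
  calc (M.prod M) {q : (Fin n → L) × (Fin n → L) | (q.1 ∈ KG τ n R ∧ q.2 ∈ KG τ n R) ∧
      (|phi k (τ (W q.2)) - phi k (τ (W q.1))| ≤ δ * phi k (τ (W q.1)) ∨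
        gam k Λ (τ (W q.1)) ≠ 0 ∨ phi k (τ (W q.1)) = 0)}
      ≤ (M.prod M) (B1 ∪ (S2 ×ˢ KG τ n R)) := measure_mono hsub
    _ ≤ (M.prod M) B1 + (M.prod M) (S2 ×ˢ KG τ n R) := measure_union_le _ _
    _ ≤ ENNReal.ofReal (200 * √δ / (2 * Real.pi)) * (M (KG τ n R) * M (KG τ n R)) +
        ENNReal.ofReal (C / √Λ / (2 * Real.pi)) * M (KG τ n R) * M (KG τ n R) := by
        refine add_le_add hB1b ?_
        rw [Measure.prod_prod]
        exact mul_le_mul_left hS2b _
    _ = _ := by rw [mul_assoc, ← add_mul]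

end hw

/-- Abstract transfer: a relation with the two properties proves the theorem. -/
theorem abs_main {X : Type*} [MeasurableSpace X] [MeasurableSpace.CountablyGenerated X]
    (μ : Measure X) [IsProbabilityMeasure μ] {n : ℕ} (T : X → X) (hT : MeasurePreserving T μ μ)
    (ι : X → Fin n) (hι : Measurable ι) {Q : Type*} [Group Q] [TopologicalSpace Q]
    [IsTopologicalGroup Q] [T2Space Q] [SecondCountableTopology Q] [LocallyCompactSpace Q]
    [MeasurableSpace Q] [BorelSpace Q]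
    {L : Type*} [Group L] [TopologicalSpace L] [IsTopologicalGroup L] [T2Space L]
    [SecondCountableTopology L] [LocallyCompactSpace L] [MeasurableSpace L] [BorelSpace L]
    (p : L →* Q) (hp : Continuous p) (hps : Function.Surjective p) (Rel : ℕ → Q → Q → Prop)
    (hm : ∀ j, MeasurableSet {p : Q × Q | Rel j p.1 p.2})
    (hRel : ∀ j, ∀ C : Set Q, IsCompact C → ∃ V ∈ 𝓝 (1 : Q), ∀ E ∈ V, ∀ F ∈ C, ∀ b : Q,
      Rel j (E * (F * b * F⁻¹)) b) (ν : Measure L) [ν.IsHaarMeasure]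
    (KK : ℕ → Set (Fin n → L)) (hKm : ∀ R, MeasurableSet (KK R)) (hKu : ⋃ R, KK R = Set.univ)
    (hKmono : Monotone KK) (ε : ℕ → ℕ → ENNReal) (hε : ∀ R, Tendsto (ε R) atTop (𝓝 0))
    (hw : ∀ (R j : ℕ) (w : ℕ → Fin n) (m : ℕ), 0 < m →
      ((Measure.pi fun _ : Fin n => ν).prod (Measure.pi fun _ : Fin n => ν))
        {q | (q.1 ∈ KK R ∧ q.2 ∈ KK R) ∧
          Rel j (p (wp (fun i => q.2 (w i)) m)) (p (wp (fun i => q.1 (w i)) m))} ≤ ε R j)
    {G : Type*} [Group G] [TopologicalSpace G] [IsTopologicalGroup G] [LocallyCompactSpace G]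
    [SecondCountableTopology G] [T2Space G] [MeasurableSpace G] [BorelSpace G]
    (haar : Measure G) [haar.IsHaarMeasure] (ρ : G →* Q) (hρ : Continuous ρ)
    (hsurj : Function.Surjective ρ) :
    ∀ᵐ p : (Fin n → G) × (Fin n → G)
      ∂((Measure.pi fun _ => haar).prod (Measure.pi fun _ => haar)),
      ¬ ∃ f : X → G, Measurable f ∧ ∀ᵐ x ∂μ, f (T x) * p.1 (ι x) = p.2 (ι x) * f x := by
  have h0 := badG_null μ T hT ι hι p hp Rel hm ν KK hKm hKmono hKu ε hε hw
  have hnull : ((Measure.pi fun _ : Fin n => haar).prod (Measure.pi fun _ : Fin n => haar))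
      ((pairHom n ρ) ⁻¹' BadG μ T ι Rel) = 0 :=
    null_transfer (L := (Fin n → L) × (Fin n → L))
      ((Measure.pi fun _ : Fin n => haar).prod (Measure.pi fun _ : Fin n => haar))
      ((Measure.pi fun _ : Fin n => ν).prod (Measure.pi fun _ : Fin n => ν))
      (pairHom n ρ) (continuous_pairHom n ρ hρ) (pairHom n p) (continuous_pairHom n p hp)
      (surjective_pairHom n p hps) (surjective_pairHom n ρ hsurj)
      (BadG μ T ι Rel) (badG_meas μ T hT.measurable ι hι Rel hm) h0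
  rw [ae_iff]
  refine measure_mono_null ?_ hnull
  intro g hg
  simp only [not_not, Set.mem_ofPred_eq] at hg
  obtain ⟨f, hf, hcoh⟩ := hg
  show pairHom n ρ g ∈ BadG μ T ι Rel
  intro j
  exact coh_rel μ T hT ι ρ hρ Rel hRel g.1 g.2 f hf hcoh j

/-- The generic theorem for an abstract group `L` with a representation in `U(p, q)`. -/
theorem gen_core {X : Type*} [MeasurableSpace X] [MeasurableSpace.CountablyGenerated X]
    (μ : Measure X) [IsProbabilityMeasure μ] {n : ℕ} (T : X → X) (hT : MeasurePreserving T μ μ)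
    (ι : X → Fin n) (hι : Measurable ι)
    {d : ℕ} (hd : 0 < d) (σ : Fin d → ℝ) (hσ : ∀ i, σ i = 1 ∨ σ i = -1)
    (z : Fin d → ℤ) (hz : ∀ i, 1 ≤ σ i * (z i : ℝ))
    {L : Type*} [Group L] [TopologicalSpace L] [IsTopologicalGroup L] [T2Space L]
    [SecondCountableTopology L] [LocallyCompactSpace L] [MeasurableSpace L] [BorelSpace L]
    (τ : L →* Matrix (Fin d) (Fin d) ℂ) (hτ : Continuous τ) (hpres : ∀ l, Pres σ (τ l))
    (r : ℝ → L) (hr : Continuous r) (hτr : ∀ θ, τ (r θ) = Dm z (eC θ))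
    (hKc : ∀ R : ℝ, IsCompact (KG τ n R)) (hKu : ⋃ R : ℕ, KG τ n (R : ℝ) = Set.univ)
    {Q : Type*} [Group Q] [TopologicalSpace Q]
    [IsTopologicalGroup Q] [T2Space Q] [SecondCountableTopology Q] [LocallyCompactSpace Q]
    [MeasurableSpace Q] [BorelSpace Q]
    (p : L →* Q) (hp : Continuous p) (hpo : IsOpenMap p) (hps : Function.Surjective p)
    (k : ℕ) (hk : 0 < k)
    (hker : ∀ l : L, p l = 1 → ∃ c : ℂ, c ^ k = 1 ∧ τ l = c • (1 : Matrix (Fin d) (Fin d) ℂ))
    {G : Type*} [Group G] [TopologicalSpace G] [IsTopologicalGroup G] [LocallyCompactSpace G]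
    [SecondCountableTopology G] [T2Space G] [MeasurableSpace G] [BorelSpace G]
    (haar : Measure G) [haar.IsHaarMeasure] (ρ : G →* Q) (hρ : Continuous ρ)
    (hsurj : Function.Surjective ρ) :
    ∀ᵐ p : (Fin n → G) × (Fin n → G)
      ∂((Measure.pi fun _ => haar).prod (Measure.pi fun _ => haar)),
      ¬ ∃ f : X → G, Measurable f ∧ ∀ᵐ x ∂μ, f (T x) * p.1 (ι x) = p.2 (ι x) * f x := by
  obtain ⟨C, hC, htail⟩ := gen_tail hσ hz k
  set M : Measure (Fin n → L) := Measure.pi fun _ : Fin n => (Measure.haar : Measure L) with hM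
  refine abs_main μ T hT ι hι p hp hps (GRel τ p k)
    (fun j => measurableSet_gRel τ hτ p hp hpo hps k hk hker j)
    (gRel_conj τ hτ p hp hpo hps k hk hker)
    (Measure.haar : Measure L) (fun R => KG τ n (R : ℝ)) (fun R => (isClosed_KG τ hτ n R).measurableSet) hKu
    (fun R R' h => KG_mono τ n (by exact_mod_cast h))
    (fun R j => (ENNReal.ofReal (200 * √(1 / ((j : ℝ) + 1)) / (2 * Real.pi)) +
      ENNReal.ofReal (C / √((j : ℝ) + 1) / (2 * Real.pi))) * (M (KG τ n R) * M (KG τ n R)))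
    ?_ ?_ haar ρ hρ hsurj
  · intro R
    have hfin : M (KG τ n (R : ℝ)) * M (KG τ n (R : ℝ)) ≠ ⊤ :=
      ENNReal.mul_ne_top (hKc R).measure_lt_top.ne (hKc R).measure_lt_top.ne
    have hj : Tendsto (fun j : ℕ => 1 / ((j : ℝ) + 1)) atTop (𝓝 0) :=
      tendsto_one_div_add_atTop_nhds_zero_nat
    have hs : Tendsto (fun j : ℕ => √(1 / ((j : ℝ) + 1))) atTop (𝓝 0) := by
      have h := (Real.continuous_sqrt.tendsto 0).comp hj
      rw [Real.sqrt_zero] at h
      exact h
    have h1 : Tendsto (fun j : ℕ => ENNReal.ofReal (200 * √(1 / ((j : ℝ) + 1)) / (2 * Real.pi)))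
        atTop (𝓝 0) := by
      have h2 : Tendsto (fun j : ℕ => 200 * √(1 / ((j : ℝ) + 1)) / (2 * Real.pi)) atTop
          (𝓝 (200 * 0 / (2 * Real.pi))) := (hs.const_mul 200).div_const _
      have := ENNReal.tendsto_ofReal h2
      simpa using this
    have h3 : Tendsto (fun j : ℕ => ENNReal.ofReal (C / √((j : ℝ) + 1) / (2 * Real.pi)))
        atTop (𝓝 0) := by
      have h4 : ∀ j : ℕ, C / √((j : ℝ) + 1) / (2 * Real.pi)
          = C * √(1 / ((j : ℝ) + 1)) / (2 * Real.pi) := by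
        intro j
        rw [one_div, Real.sqrt_inv, div_eq_mul_inv C]
      have h2 : Tendsto (fun j : ℕ => C * √(1 / ((j : ℝ) + 1)) / (2 * Real.pi)) atTop
          (𝓝 (C * 0 / (2 * Real.pi))) := (hs.const_mul C).div_const _
      have := ENNReal.tendsto_ofReal h2
      simp only [h4]
      simpa using this
    have h5 := ENNReal.Tendsto.mul_const (h1.add h3) (Or.inr hfin)
    simpa using h5
  · intro R j w m hm
    have hb := gen_word hd σ hσ z hz τ hτ hpres r hr hτr M k hk C hC htail R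
      (isClosed_KG τ hτ n R).measurableSet w m hm (1 / ((j : ℝ) + 1)) ((j : ℝ) + 1) (by positivity)
      (by positivity)
    refine le_trans (measure_mono ?_) hb
    rintro q ⟨hq1, hq2⟩
    refine ⟨hq1, ?_⟩
    exact (gRel_iff τ p k hk hker j _ _).1 hq2

/-- The theorem for every group with a continuous homomorphism onto a central quotient `Q` of a
closed subgroup `L` of `U(p, q)` which contains the circle `diag (e^{i z_a θ})`. -/
theorem gen_main {X : Type*} [MeasurableSpace X] [MeasurableSpace.CountablyGenerated X]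
    (μ : Measure X) [IsProbabilityMeasure μ] {n : ℕ} (T : X → X) (hT : MeasurePreserving T μ μ)
    (ι : X → Fin n) (hι : Measurable ι)
    {d : ℕ} (hd : 0 < d) (σ : Fin d → ℝ) (hσ : ∀ i, σ i = 1 ∨ σ i = -1)
    (z : Fin d → ℤ) (hz : ∀ i, 1 ≤ σ i * (z i : ℝ))
    (L : Subgroup (GL (Fin d) ℂ)) (hLc : IsClosed (L : Set (GL (Fin d) ℂ)))
    (hLp : ∀ A ∈ L, Pres σ (A : Matrix (Fin d) (Fin d) ℂ))
    (hLr : ∀ θ : ℝ, ∃ A ∈ L, (A : Matrix (Fin d) (Fin d) ℂ) = Dm z (eC θ))
    {Q : Type*} [Group Q] [TopologicalSpace Q] [IsTopologicalGroup Q] [T2Space Q]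
    (p : L →* Q) (hp : Continuous p) (hpo : IsOpenMap p) (hps : Function.Surjective p)
    (k : ℕ) (hk : 0 < k)
    (hker : ∀ l : L, p l = 1 → ∃ c : ℂ, c ^ k = 1 ∧
      ((l : GL (Fin d) ℂ) : Matrix (Fin d) (Fin d) ℂ) = c • 1)
    {G : Type*} [Group G] [TopologicalSpace G] [IsTopologicalGroup G] [LocallyCompactSpace G]
    [SecondCountableTopology G] [T2Space G] [MeasurableSpace G] [BorelSpace G]
    (haar : Measure G) [haar.IsHaarMeasure] (ρ : G →* Q) (hρ : Continuous ρ)
    (hsurj : Function.Surjective ρ) :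
    ∀ᵐ p : (Fin n → G) × (Fin n → G)
      ∂((Measure.pi fun _ => haar).prod (Measure.pi fun _ => haar)),
      ¬ ∃ f : X → G, Measurable f ∧ ∀ᵐ x ∂μ, f (T x) * p.1 (ι x) = p.2 (ι x) * f x := by
  have _ : LocallyCompactSpace L := locallyCompact_L L hLc
  have _ : SecondCountableTopology L := secondCountable_L L
  have _ : T2Space L := t2_L L
  let _ : MeasurableSpace L := borel L
  have _ : BorelSpace L := ⟨rfl⟩
  let _ : MeasurableSpace Q := borel Q
  have _ : BorelSpace Q := ⟨rfl⟩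
  have hq : IsOpenQuotientMap p := ⟨hps, hp, hpo⟩
  have _ : SecondCountableTopology Q := hq.isQuotientMap.secondCountableTopology hpo
  have _ : LocallyCompactSpace Q := hq.locallyCompactSpace
  exact gen_core μ T hT ι hι hd σ hσ z hz (tauL L) (continuous_tauL L)
    (fun l => hLp l l.2) (rL z L hLr) (continuous_rL z L hLr) (tauL_rL z L hLr)
    (fun R => isCompact_KG σ hσ L hLc hLp n R) (iUnion_KG (tauL L) n) p hp hpo hps k hk hker
    haar ρ hρ hsurj

end H24FB
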