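import Pool.Agent.H24.FB.GenMain

/-! The special unitary groups `SU(p, q)` and their quotients by the scalars. -/

open MeasureTheory Matrix Filter Topology

namespace H24FB

theorem su_pres_mul {d : ℕ} {σ : Fin d → ℝ} {A B : Matrix (Fin d) (Fin d) ℂ}
    (hA : Pres σ A) (hB : Pres σ B) : Pres σ (A * B) := by
  unfold Pres at hA hB ⊢
  rw [conjTranspose_mul]
  calc Bᴴ * Aᴴ * Matrix.diagonal (fun i => (σ i : ℂ)) * (A * B)
      = Bᴴ * (Aᴴ * Matrix.diagonal (fun i => (σ i : ℂ)) * A) * B := by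
        simp only [Matrix.mul_assoc]
    _ = _ := by rw [hA, hB]

theorem su_pres_one {d : ℕ} {σ : Fin d → ℝ} : Pres σ (1 : Matrix (Fin d) (Fin d) ℂ) := by
  unfold Pres
  rw [conjTranspose_one, Matrix.one_mul, Matrix.mul_one]

theorem su_pres_inv {d : ℕ} {σ : Fin d → ℝ} {A B : Matrix (Fin d) (Fin d) ℂ}
    (hA : Pres σ A) (h1 : A * B = 1) : Pres σ B := by
  have h2 : Bᴴ * Aᴴ = 1 := by rw [← conjTranspose_mul, h1, conjTranspose_one]
  unfold Pres at hA ⊢
  calc Bᴴ * Matrix.diagonal (fun i => (σ i : ℂ)) * B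
      = Bᴴ * (Aᴴ * Matrix.diagonal (fun i => (σ i : ℂ)) * A) * B := by rw [hA]
    _ = (Bᴴ * Aᴴ) * Matrix.diagonal (fun i => (σ i : ℂ)) * (A * B) := by
        simp only [Matrix.mul_assoc]
    _ = _ := by rw [h1, h2, Matrix.one_mul, Matrix.mul_one]

/-- The complex matrices of determinant `1` which preserve the Hermitian form with diagonal
matrix `σ`. -/
def SUsig {d : ℕ} (σ : Fin d → ℝ) : Subgroup (GL (Fin d) ℂ) where
  carrier := {A | Pres σ (A : Matrix (Fin d) (Fin d) ℂ) ∧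
    (A : Matrix (Fin d) (Fin d) ℂ).det = 1}
  mul_mem' := by
    intro A B hA hB
    have key : ((A * B : GL (Fin d) ℂ) : Matrix (Fin d) (Fin d) ℂ)
      = (A : Matrix (Fin d) (Fin d) ℂ) * (B : Matrix (Fin d) (Fin d) ℂ) := Units.val_mul A B
    rw [Set.mem_ofPred_eq, key, Matrix.det_mul, hA.2, hB.2, one_mul]
    exact ⟨su_pres_mul hA.1 hB.1, rfl⟩
  one_mem' := by
    have key : ((1 : GL (Fin d) ℂ) : Matrix (Fin d) (Fin d) ℂ) = 1 := Units.val_one
    rw [Set.mem_ofPred_eq, key, Matrix.det_one]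
    exact ⟨su_pres_one, rfl⟩
  inv_mem' := by
    intro A hA
    have h1 : (A : Matrix (Fin d) (Fin d) ℂ) * ((A⁻¹ : GL (Fin d) ℂ) : Matrix (Fin d) (Fin d) ℂ)
        = 1 := Units.mul_inv A
    refine ⟨su_pres_inv hA.1 h1, ?_⟩
    have h3 := congrArg Matrix.det h1
    rw [Matrix.det_mul, hA.2, one_mul, Matrix.det_one] at h3
    exact h3

/-- The subgroup of the scalar matrices of `SU σ`. -/
def SUscal {d : ℕ} (σ : Fin d → ℝ) : Subgroup (SUsig σ) where
  carrier := {A | ∃ c : ℂ, ((A : GL (Fin d) ℂ) : Matrix (Fin d) (Fin d) ℂ)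
    = c • (1 : Matrix (Fin d) (Fin d) ℂ)}
  mul_mem' := by
    rintro A B ⟨a, ha⟩ ⟨b, hb⟩
    have key : (((A * B : SUsig σ) : GL (Fin d) ℂ) : Matrix (Fin d) (Fin d) ℂ)
      = ((A : GL (Fin d) ℂ) : Matrix (Fin d) (Fin d) ℂ)
        * ((B : GL (Fin d) ℂ) : Matrix (Fin d) (Fin d) ℂ) := Units.val_mul _ _
    exact ⟨a * b, by rw [key, ha, hb, smul_mul_smul_comm, one_mul]⟩
  one_mem' := ⟨1, by rw [one_smul]; exact Units.val_one⟩
  inv_mem' := by
    rintro A ⟨a, ha⟩
    have h1 : ((A : GL (Fin d) ℂ) : Matrix (Fin d) (Fin d) ℂ) *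
        (((A⁻¹ : SUsig σ) : GL (Fin d) ℂ) : Matrix (Fin d) (Fin d) ℂ) = 1 :=
      Units.mul_inv (A : GL (Fin d) ℂ)
    refine ⟨a⁻¹, ?_⟩
    rw [ha, smul_mul_assoc, one_mul] at h1
    by_cases h0 : a = 0
    · rw [h0, zero_smul] at h1
      have hs : Subsingleton (Matrix (Fin d) (Fin d) ℂ) :=
        subsingleton_of_zero_eq_one h1
      exact Subsingleton.elim _ _
    · rw [← h1, smul_smul, inv_mul_cancel₀ h0, one_smul]

instance {d : ℕ} (σ : Fin d → ℝ) : (SUscal σ).Normal where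
  conj_mem := by
    rintro A ⟨a, ha⟩ g
    have key : (((g * A * g⁻¹ : SUsig σ) : GL (Fin d) ℂ) : Matrix (Fin d) (Fin d) ℂ)
      = ((g : GL (Fin d) ℂ) : Matrix (Fin d) (Fin d) ℂ)
        * ((A : GL (Fin d) ℂ) : Matrix (Fin d) (Fin d) ℂ)
        * (((g⁻¹ : SUsig σ) : GL (Fin d) ℂ) : Matrix (Fin d) (Fin d) ℂ) := by
      rw [Subgroup.coe_mul, Subgroup.coe_mul, Units.val_mul, Units.val_mul]
    have h1 : ((g : GL (Fin d) ℂ) : Matrix (Fin d) (Fin d) ℂ) *
        (((g⁻¹ : SUsig σ) : GL (Fin d) ℂ) : Matrix (Fin d) (Fin d) ℂ) = 1 :=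
      Units.mul_inv (g : GL (Fin d) ℂ)
    exact ⟨a, by rw [key, ha, mul_smul_comm, mul_one, smul_mul_assoc, h1]⟩

theorem isClosed_SUsig {d : ℕ} (σ : Fin d → ℝ) : IsClosed (SUsig σ : Set (GL (Fin d) ℂ)) := by
  have hc : Continuous (fun A : GL (Fin d) ℂ => (A : Matrix (Fin d) (Fin d) ℂ)) :=
    Units.continuous_val
  have h1 : IsClosed {A : GL (Fin d) ℂ | Pres σ (A : Matrix (Fin d) (Fin d) ℂ)} := by
    unfold Pres
    exact isClosed_eq ((hc.matrix_conjTranspose.matrix_mul continuous_const).matrix_mul hc)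
      continuous_const
  have h2 : IsClosed {A : GL (Fin d) ℂ | (A : Matrix (Fin d) (Fin d) ℂ).det = 1} :=
    isClosed_eq hc.matrix_det continuous_const
  exact h1.inter h2

theorem isClosed_SUscal {d : ℕ} (hd : 0 < d) (σ : Fin d → ℝ) :
    IsClosed (SUscal σ : Set (SUsig σ)) := by
  have hc : Continuous (fun A : SUsig σ => ((A : GL (Fin d) ℂ) : Matrix (Fin d) (Fin d) ℂ)) :=
    Units.continuous_val.comp continuous_subtype_val
  have heq : (SUscal σ : Set (SUsig σ)) = {A : SUsig σ | ((A : GL (Fin d) ℂ) :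
      Matrix (Fin d) (Fin d) ℂ) = (((A : GL (Fin d) ℂ) :
      Matrix (Fin d) (Fin d) ℂ) ⟨0, hd⟩ ⟨0, hd⟩) • (1 : Matrix (Fin d) (Fin d) ℂ)} := by
    ext A
    constructor
    · rintro ⟨c, h⟩
      rw [Set.mem_ofPred_eq, h]
      simp
    · intro h
      exact ⟨_, h⟩
  rw [heq]
  exact isClosed_eq hc ((hc.matrix_elem _ _).smul continuous_const)

/-- The signature `(1, .., 1, -1, .., -1)` with `p` entries `1` and `q` entries `-1`. -/
def suSig (p q : ℕ) (i : Fin (p + q)) : ℝ := if (i : ℕ) < p then 1 else -1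

/-- The weights of the circle subgroup of `SU(p, q)`. -/
def suWt (p q : ℕ) (i : Fin (p + q)) : ℤ := if (i : ℕ) < p then (q : ℤ) else -(p : ℤ)

theorem suWt_sum (p q : ℕ) : ∑ i : Fin (p + q), suWt p q i = 0 := by
  rw [Fin.sum_univ_add]
  have h1 : ∀ i : Fin p, suWt p q (Fin.castAdd q i) = (q : ℤ) := by
    intro i; simp [suWt]
  have h2 : ∀ i : Fin q, suWt p q (Fin.natAdd p i) = -(p : ℤ) := by
    intro i; simp [suWt]
  simp only [h1, h2, Finset.sum_const, Finset.card_univ, Fintype.card_fin, nsmul_eq_mul]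
  ring

theorem su_det_Dm (p q : ℕ) (θ : ℝ) : (Dm (suWt p q) (eC θ)).det = 1 := by
  have h0 : eC θ ≠ 0 := Complex.exp_ne_zero _
  unfold Dm
  rw [Matrix.det_diagonal]
  have h : ∀ s : Finset (Fin (p + q)),
      ∏ i ∈ s, eC θ ^ suWt p q i = eC θ ^ (∑ i ∈ s, suWt p q i) := by
    classical
    intro s
    induction s using Finset.induction_on with
    | empty => simp
    | insert a s ha ih => rw [Finset.prod_insert ha, Finset.sum_insert ha, zpow_add₀ h0, ih]
  rw [h, suWt_sum, zpow_zero]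

theorem su_pres_Dm {d : ℕ} (σ : Fin d → ℝ) (z : Fin d → ℤ) (θ : ℝ) : Pres σ (Dm z (eC θ)) := by
  have hn : ‖eC θ‖ = 1 := Complex.norm_exp_ofReal_mul_I θ
  unfold Pres Dm
  rw [Matrix.diagonal_conjTranspose, Matrix.diagonal_mul_diagonal, Matrix.diagonal_mul_diagonal]
  congr 1
  funext i
  have h1 : star (eC θ ^ z i) * eC θ ^ z i = 1 := by
    rw [Complex.star_def, mul_comm, Complex.mul_conj, Complex.normSq_eq_norm_sq, norm_zpow, hn]
    simp
  show star (eC θ ^ z i) * (σ i : ℂ) * eC θ ^ z i = (σ i : ℂ)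
  rw [mul_right_comm, h1, one_mul]

theorem Dm_mem_SUsig {p q : ℕ} (θ : ℝ) : ∃ A ∈ SUsig (suSig p q),
    (A : Matrix (Fin (p + q)) (Fin (p + q)) ℂ) = Dm (suWt p q) (eC θ) :=
  ⟨Matrix.GeneralLinearGroup.mkOfDetNeZero (Dm (suWt p q) (eC θ))
    (by rw [su_det_Dm]; exact one_ne_zero),
    ⟨su_pres_Dm _ _ _, su_det_Dm p q θ⟩, rfl⟩

theorem suSig_eq (p q : ℕ) (i : Fin (p + q)) : suSig p q i = 1 ∨ suSig p q i = -1 := by
  unfold suSig
  split_ifs <;> simp

theorem one_le_suSig_mul {p q : ℕ} (hp : 0 < p) (hq : 0 < q) (i : Fin (p + q)) :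
    1 ≤ suSig p q i * (suWt p q i : ℝ) := by
  unfold suSig suWt
  have hp' : (1 : ℝ) ≤ p := by exact_mod_cast hp
  have hq' : (1 : ℝ) ≤ q := by exact_mod_cast hq
  split_ifs
  · simpa using hq'
  · simpa using hp'

/-- Every locally compact second countable group with a continuous homomorphism onto
`PSU(p, q)`, `p, q ≥ 1`: for every probability preserving `T` and every finite partition almost
all pairs of cocycles are not cohomologous. -/
theorem su_main {X : Type*} [MeasurableSpace X] [MeasurableSpace.CountablyGenerated X]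
    (μ : Measure X) [IsProbabilityMeasure μ] {n : ℕ} (T : X → X) (hT : MeasurePreserving T μ μ)
    (ι : X → Fin n) (hι : Measurable ι) {p q : ℕ} (hp : 0 < p) (hq : 0 < q)
    {G : Type*} [Group G] [TopologicalSpace G] [IsTopologicalGroup G] [LocallyCompactSpace G]
    [SecondCountableTopology G] [T2Space G] [MeasurableSpace G] [BorelSpace G]
    (haar : Measure G) [haar.IsHaarMeasure]
    (ρ : G →* SUsig (suSig p q) ⧸ SUscal (suSig p q))
    (hρ : Continuous ρ) (hsurj : Function.Surjective ρ) :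
    ∀ᵐ P : (Fin n → G) × (Fin n → G)
      ∂((Measure.pi fun _ => haar).prod (Measure.pi fun _ => haar)),
      ¬ ∃ f : X → G, Measurable f ∧ ∀ᵐ x ∂μ, f (T x) * P.1 (ι x) = P.2 (ι x) * f x := by
  have hpq : 0 < p + q := by omega
  have hcl : IsClosed (SUscal (suSig p q) : Set (SUsig (suSig p q))) := isClosed_SUscal hpq _
  have hker : ∀ l : SUsig (suSig p q), QuotientGroup.mk' (SUscal (suSig p q)) l = 1 →
      ∃ c : ℂ, c ^ (p + q) = 1 ∧
        ((l : GL (Fin (p + q)) ℂ) : Matrix (Fin (p + q)) (Fin (p + q)) ℂ) = c • 1 := by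
    intro l hl
    have hl' : l ∈ SUscal (suSig p q) := by
      rw [← QuotientGroup.ker_mk' (SUscal (suSig p q))]
      exact hl
    obtain ⟨c, hc⟩ := hl'
    refine ⟨c, ?_, hc⟩
    have hd : (((l : GL (Fin (p + q)) ℂ) : Matrix (Fin (p + q)) (Fin (p + q)) ℂ)).det = 1 :=
      l.2.2
    rw [hc, Matrix.det_smul, Matrix.det_one, mul_one, Fintype.card_fin] at hd
    exact hd
  exact gen_main μ T hT ι hι (d := p + q) hpq (suSig p q) (suSig_eq p q) (suWt p q)
    (one_le_suSig_mul hp hq) (SUsig (suSig p q)) (isClosed_SUsig _) (fun A hA => hA.1)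
    Dm_mem_SUsig (QuotientGroup.mk' (SUscal (suSig p q))) continuous_quotient_mk'
    QuotientGroup.isOpenMap_coe (QuotientGroup.mk'_surjective _) (p + q) hpq hker
    haar ρ hρ hsurj

end H24FB
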