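import Pool.Agent.H24.FB.GenEmb

/-! The symplectic group over the reals, with the Cayley transform. -/

open MeasureTheory Matrix Filter Topology

namespace H24FB

namespace SpAux

variable {N : ℕ}

instance instTG : IsTopologicalGroup (symplecticGroup (Fin N) ℝ) where
  continuous_inv := by
    refine Continuous.subtype_mk ?_ _
    exact ((continuous_const.matrix_mul continuous_subtype_val.matrix_transpose).matrix_mul
      continuous_const)

/-- The Cayley matrix. -/
noncomputable def CP : Matrix (Fin N ⊕ Fin N) (Fin N ⊕ Fin N) ℂ :=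
  fromBlocks 1 (Complex.I • (1 : Matrix (Fin N) (Fin N) ℂ)) 1
    (-(Complex.I • (1 : Matrix (Fin N) (Fin N) ℂ)))

/-- The inverse of the Cayley matrix. -/
noncomputable def CI : Matrix (Fin N ⊕ Fin N) (Fin N ⊕ Fin N) ℂ :=
  (1 / 2 : ℂ) • fromBlocks 1 1 (-(Complex.I • (1 : Matrix (Fin N) (Fin N) ℂ)))
    (Complex.I • (1 : Matrix (Fin N) (Fin N) ℂ))

lemma CP_CI : (CP : Matrix (Fin N ⊕ Fin N) (Fin N ⊕ Fin N) ℂ) * CI = 1 := by
  unfold CP CI
  rw [Matrix.mul_smul, fromBlocks_multiply, fromBlocks_smul, ← fromBlocks_one]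
  congr 1
  · simp only [Matrix.mul_one, Matrix.mul_neg, Matrix.smul_mul, Matrix.one_mul, smul_smul,
      Complex.I_mul_I]
    rw [neg_smul, neg_neg, one_smul, ← two_smul ℂ, smul_smul]
    norm_num
  · simp only [Matrix.mul_one, Matrix.smul_mul, Matrix.one_mul, smul_smul,
      Complex.I_mul_I]
    simp
  · simp only [Matrix.mul_one, Matrix.mul_neg, Matrix.smul_mul, Matrix.one_mul, smul_smul,
      Complex.I_mul_I, Matrix.neg_mul, neg_neg]
    simp
  · simp only [Matrix.mul_one, Matrix.neg_mul, Matrix.smul_mul, Matrix.one_mul, smul_smul,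
      Complex.I_mul_I]
    rw [neg_smul, neg_neg, one_smul, ← two_smul ℂ, smul_smul]
    norm_num

lemma CI_CP : (CI : Matrix (Fin N ⊕ Fin N) (Fin N ⊕ Fin N) ℂ) * CP = 1 :=
  mul_eq_one_comm.mp CP_CI

/-- The signature matrix. -/
noncomputable def SG : Matrix (Fin N ⊕ Fin N) (Fin N ⊕ Fin N) ℂ :=
  fromBlocks 1 0 0 (-1)

lemma CP_form : (CP : Matrix (Fin N ⊕ Fin N) (Fin N ⊕ Fin N) ℂ)ᴴ * SG * CP =
    (-(2 * Complex.I)) • J (Fin N) ℂ := by
  unfold CP SG J
  rw [fromBlocks_conjTranspose, fromBlocks_multiply, fromBlocks_multiply, fromBlocks_smul]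
  congr 1
  · simp
  · simp [two_mul, add_smul]
  · simp [two_mul, add_smul]
  · simp [smul_smul]

/-- The Cayley transform of a real matrix. -/
noncomputable def cay (A : Matrix (Fin N ⊕ Fin N) (Fin N ⊕ Fin N) ℝ) :
    Matrix (Fin N ⊕ Fin N) (Fin N ⊕ Fin N) ℂ := CP * A.map Complex.ofReal * CI

lemma cay_one : cay (1 : Matrix (Fin N ⊕ Fin N) (Fin N ⊕ Fin N) ℝ) = 1 := by
  unfold cay
  rw [Matrix.map_one _ Complex.ofReal_zero Complex.ofReal_one, Matrix.mul_one, CP_CI]

lemma cay_mul (A B : Matrix (Fin N ⊕ Fin N) (Fin N ⊕ Fin N) ℝ) :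
    cay (A * B) = cay A * cay B := by
  unfold cay
  have h : (A * B).map Complex.ofReal = A.map Complex.ofReal * B.map Complex.ofReal :=
    Matrix.map_mul (f := Complex.ofRealHom)
  rw [h]
  calc CP * (A.map Complex.ofReal * B.map Complex.ofReal) * CI
      = CP * A.map Complex.ofReal * 1 * (B.map Complex.ofReal * CI) := by
        simp only [Matrix.mul_assoc, Matrix.one_mul]
    _ = CP * A.map Complex.ofReal * (CI * CP) * (B.map Complex.ofReal * CI) := by rw [CI_CP]
    _ = _ := by simp only [Matrix.mul_assoc]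

lemma cay_form (A : Matrix (Fin N ⊕ Fin N) (Fin N ⊕ Fin N) ℝ)
    (hA : A ∈ symplecticGroup (Fin N) ℝ) : (cay A)ᴴ * SG * cay A = SG := by
  have h1 : (A.map Complex.ofReal)ᴴ * J (Fin N) ℂ * A.map Complex.ofReal = J (Fin N) ℂ := by
    have h2 := SymplecticGroup.mem_iff'.mp (SymplecticGroup.map_mem hA Complex.ofRealHom)
    have h3 : (A.map Complex.ofReal)ᴴ = (A.map Complex.ofRealHom)ᵀ := by
      ext i j
      simp
    rw [h3]
    exact h2
  have h4 : (cay A)ᴴ = CIᴴ * (A.map Complex.ofReal)ᴴ * CPᴴ := by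
    unfold cay
    rw [conjTranspose_mul, conjTranspose_mul, Matrix.mul_assoc]
  calc (cay A)ᴴ * SG * cay A
      = CIᴴ * ((A.map Complex.ofReal)ᴴ * (CPᴴ * SG * CP) * A.map Complex.ofReal) * CI := by
        rw [h4]; unfold cay; simp only [Matrix.mul_assoc]
    _ = CIᴴ * ((-(2 * Complex.I)) • ((A.map Complex.ofReal)ᴴ * J (Fin N) ℂ *
          A.map Complex.ofReal)) * CI := by
        rw [CP_form, Matrix.mul_smul, Matrix.smul_mul]
    _ = CIᴴ * (CPᴴ * SG * CP) * CI := by rw [h1, CP_form]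
    _ = (CP * CI)ᴴ * SG * (CP * CI) := by
        rw [conjTranspose_mul]; simp only [Matrix.mul_assoc]
    _ = SG := by rw [CP_CI, conjTranspose_one, Matrix.one_mul, Matrix.mul_one]

/-- The homomorphism into complex matrices. -/
noncomputable def fSp : symplecticGroup (Fin N) ℝ →* Matrix (Fin (N + N)) (Fin (N + N)) ℂ where
  toFun A := (cay (A : Matrix (Fin N ⊕ Fin N) (Fin N ⊕ Fin N) ℝ)).submatrix
    finSumFinEquiv.symm finSumFinEquiv.symm
  map_one' := by
    show (cay (1 : Matrix (Fin N ⊕ Fin N) (Fin N ⊕ Fin N) ℝ)).submatrix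
      finSumFinEquiv.symm finSumFinEquiv.symm = 1
    rw [cay_one, Matrix.submatrix_one_equiv]
  map_mul' A B := by
    show (cay ((A : Matrix (Fin N ⊕ Fin N) (Fin N ⊕ Fin N) ℝ) *
      (B : Matrix (Fin N ⊕ Fin N) (Fin N ⊕ Fin N) ℝ))).submatrix
      finSumFinEquiv.symm finSumFinEquiv.symm = _
    rw [cay_mul, ← Matrix.submatrix_mul_equiv _ _ _ finSumFinEquiv.symm _]

/-- The homomorphism into the general linear group. -/
noncomputable def tauSp : symplecticGroup (Fin N) ℝ →* GL (Fin (N + N)) ℂ := fSp.toHomUnits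

lemma tauSp_coe (A : symplecticGroup (Fin N) ℝ) :
    (tauSp A : Matrix (Fin (N + N)) (Fin (N + N)) ℂ) = fSp A := rfl

lemma continuous_cay : Continuous (cay : Matrix (Fin N ⊕ Fin N) (Fin N ⊕ Fin N) ℝ → _) := by
  unfold cay
  exact (continuous_const.matrix_mul (continuous_id.matrix_map Complex.continuous_ofReal)).matrix_mul
    continuous_const

/-- The continuous left inverse. -/
noncomputable def gSp (B : Matrix (Fin (N + N)) (Fin (N + N)) ℂ) :
    Matrix (Fin N ⊕ Fin N) (Fin N ⊕ Fin N) ℝ :=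
  (CI * (B.submatrix finSumFinEquiv finSumFinEquiv) * CP).map Complex.re

lemma continuous_gSp : Continuous (gSp : Matrix (Fin (N + N)) (Fin (N + N)) ℂ → _) := by
  unfold gSp
  refine Continuous.matrix_map ?_ Complex.continuous_re
  exact (continuous_const.matrix_mul (continuous_id.matrix_submatrix _ _)).matrix_mul
    continuous_const

lemma gSp_cay (A : Matrix (Fin N ⊕ Fin N) (Fin N ⊕ Fin N) ℝ) :
    gSp ((cay A).submatrix finSumFinEquiv.symm finSumFinEquiv.symm) = A := by
  unfold gSp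
  rw [Matrix.submatrix_submatrix]
  have h : (finSumFinEquiv.symm : Fin (N + N) → Fin N ⊕ Fin N) ∘ finSumFinEquiv = id := by
    ext x; simp
  rw [h, Matrix.submatrix_id_id]
  have h2 : CI * cay A * CP = A.map Complex.ofReal := by
    unfold cay
    calc CI * (CP * A.map Complex.ofReal * CI) * CP
        = (CI * CP) * A.map Complex.ofReal * (CI * CP) := by simp only [Matrix.mul_assoc]
      _ = _ := by rw [CI_CP, Matrix.one_mul, Matrix.mul_one]
  rw [h2]
  ext i j
  simp

lemma isClosed_sp : IsClosed (symplecticGroup (Fin N) ℝ : Set (Matrix (Fin N ⊕ Fin N)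
    (Fin N ⊕ Fin N) ℝ)) := by
  have : (symplecticGroup (Fin N) ℝ : Set (Matrix (Fin N ⊕ Fin N) (Fin N ⊕ Fin N) ℝ)) =
      {A | A * J (Fin N) ℝ * Aᵀ = J (Fin N) ℝ} := rfl
  rw [this]
  exact isClosed_eq ((continuous_id.matrix_mul continuous_const).matrix_mul
    continuous_id.matrix_transpose) continuous_const

lemma closedEmb_fSp : Topology.IsClosedEmbedding
    (fSp : symplecticGroup (Fin N) ℝ → Matrix (Fin (N + N)) (Fin (N + N)) ℂ) := by
  have h1 : Topology.IsClosedEmbedding (fun A : Matrix (Fin N ⊕ Fin N) (Fin N ⊕ Fin N) ℝ =>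
      (cay A).submatrix (finSumFinEquiv.symm : Fin (N + N) → Fin N ⊕ Fin N)
        finSumFinEquiv.symm) := by
    refine Function.LeftInverse.isClosedEmbedding (f := gSp) (fun A => gSp_cay A)
      continuous_gSp ?_
    exact continuous_cay.matrix_submatrix _ _
  exact h1.comp isClosed_sp.isClosedEmbedding_subtypeVal

lemma closedEmb_tauSp : Topology.IsClosedEmbedding
    (tauSp : symplecticGroup (Fin N) ℝ → GL (Fin (N + N)) ℂ) := by
  have hc : Continuous (tauSp : symplecticGroup (Fin N) ℝ → GL (Fin (N + N)) ℂ) := by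
    rw [Units.continuous_iff]
    refine ⟨closedEmb_fSp.continuous, ?_⟩
    have : (fun A : symplecticGroup (Fin N) ℝ =>
        (((tauSp A)⁻¹ : GL (Fin (N + N)) ℂ) : Matrix (Fin (N + N)) (Fin (N + N)) ℂ)) =
        fun A => fSp A⁻¹ := by
      funext A
      rw [← map_inv]
      rfl
    rw [this]
    exact closedEmb_fSp.continuous.comp continuous_inv
  have hcomp : (Units.val ∘ tauSp : symplecticGroup (Fin N) ℝ →
      Matrix (Fin (N + N)) (Fin (N + N)) ℂ) = fSp := rfl
  refine ⟨Topology.IsEmbedding.of_comp hc Units.continuous_val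
    (by rw [hcomp]; exact closedEmb_fSp.isEmbedding), ?_⟩
  have : Set.range (tauSp : symplecticGroup (Fin N) ℝ → GL (Fin (N + N)) ℂ) =
      Units.val ⁻¹' Set.range (fSp : symplecticGroup (Fin N) ℝ → _) := by
    ext x
    constructor
    · rintro ⟨A, rfl⟩
      exact ⟨A, rfl⟩
    · rintro ⟨A, hA⟩
      exact ⟨A, Units.ext hA⟩
  rw [this]
  exact closedEmb_fSp.isClosed_range.preimage Units.continuous_val

/-- The signs. -/
def sgn (N : ℕ) (i : Fin (N + N)) : ℝ :=
  Sum.elim (fun _ : Fin N => (1 : ℝ)) (fun _ : Fin N => -1) (finSumFinEquiv.symm i)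

/-- The weights. -/
def wgt (N : ℕ) (i : Fin (N + N)) : ℤ :=
  Sum.elim (fun _ : Fin N => (1 : ℤ)) (fun _ : Fin N => -1) (finSumFinEquiv.symm i)

lemma sgn_eq (i : Fin (N + N)) : sgn N i = 1 ∨ sgn N i = -1 := by
  unfold sgn
  rcases finSumFinEquiv.symm i with a | a
  · exact Or.inl rfl
  · exact Or.inr rfl

lemma sgn_wgt (i : Fin (N + N)) : 1 ≤ sgn N i * (wgt N i : ℝ) := by
  unfold sgn wgt
  rcases finSumFinEquiv.symm i with a | a <;> simp

lemma diag_sgn : (diagonal (fun i => (sgn N i : ℂ)) : Matrix (Fin (N + N)) (Fin (N + N)) ℂ) =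
    SG.submatrix finSumFinEquiv.symm finSumFinEquiv.symm := by
  have h : (SG : Matrix (Fin N ⊕ Fin N) (Fin N ⊕ Fin N) ℂ) =
      diagonal (fun s => ((Sum.elim (fun _ : Fin N => (1 : ℝ)) (fun _ : Fin N => -1) s : ℝ) : ℂ)) := by
    unfold SG
    ext i j
    rcases i with i | i <;> rcases j with j | j <;>
      by_cases hij : i = j <;> simp [Matrix.one_apply, Matrix.diagonal_apply, hij]
  rw [h, Matrix.submatrix_diagonal_equiv]
  rfl

lemma pres_tauSp (A : symplecticGroup (Fin N) ℝ) :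
    Pres (sgn N) (tauSp A : Matrix (Fin (N + N)) (Fin (N + N)) ℂ) := by
  unfold Pres
  rw [tauSp_coe, diag_sgn]
  show ((cay (A : Matrix (Fin N ⊕ Fin N) (Fin N ⊕ Fin N) ℝ)).submatrix
    finSumFinEquiv.symm finSumFinEquiv.symm)ᴴ * _ *
    ((cay (A : Matrix (Fin N ⊕ Fin N) (Fin N ⊕ Fin N) ℝ)).submatrix
    finSumFinEquiv.symm finSumFinEquiv.symm) = _
  rw [Matrix.conjTranspose_submatrix, Matrix.submatrix_mul_equiv, Matrix.submatrix_mul_equiv,
    cay_form _ A.2]

/-- The rotations. -/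
noncomputable def rotSp (N : ℕ) (θ : ℝ) : Matrix (Fin N ⊕ Fin N) (Fin N ⊕ Fin N) ℝ :=
  fromBlocks (Real.cos θ • 1) (-(Real.sin θ • 1)) (Real.sin θ • 1) (Real.cos θ • 1)

lemma rotSp_mem (θ : ℝ) : rotSp N θ ∈ symplecticGroup (Fin N) ℝ := by
  unfold rotSp
  rw [SymplecticGroup.fromBlocks_mem_iff]
  refine ⟨?_, ?_, ?_⟩
  · simp [smul_comm (Real.sin θ) (Real.cos θ)]
  · simp [smul_comm (Real.sin θ) (Real.cos θ)]
  · simp only [transpose_smul, transpose_one, Matrix.smul_mul, Matrix.mul_smul, Matrix.one_mul,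
      smul_smul, Matrix.mul_neg, Matrix.mul_one]
    rw [sub_neg_eq_add, ← add_smul, ← sq, ← sq, Real.cos_sq_add_sin_sq, one_smul]

lemma cay_rot (θ : ℝ) : cay (rotSp N θ) =
    fromBlocks (eC θ • 1) 0 0 ((eC θ)⁻¹ • 1) := by
  have h1 : eC θ = Real.cos θ + Real.sin θ * Complex.I := by
    unfold eC
    rw [Complex.exp_mul_I]; push_cast; rfl
  have h2 : (eC θ)⁻¹ = Real.cos θ - Real.sin θ * Complex.I := by
    unfold eC
    rw [← Complex.exp_neg, ← neg_mul, Complex.exp_mul_I]
    push_cast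
    rw [Complex.cos_neg, Complex.sin_neg]
    ring
  have hm : (rotSp N θ).map Complex.ofReal =
      fromBlocks (((Real.cos θ : ℝ) : ℂ) • 1) (-(((Real.sin θ : ℝ) : ℂ) • 1))
        (((Real.sin θ : ℝ) : ℂ) • 1) (((Real.cos θ : ℝ) : ℂ) • 1) := by
    unfold rotSp
    ext i j
    rcases i with i | i <;> rcases j with j | j <;>
      by_cases hij : i = j <;> simp [Matrix.one_apply, hij]
  have hI : Complex.I * Complex.I = -1 := Complex.I_mul_I
  unfold cay
  rw [hm, h2, h1]
  unfold CP CI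
  rw [Matrix.mul_smul, fromBlocks_multiply, fromBlocks_multiply, fromBlocks_smul]
  congr 1
  all_goals
    ext i j
    simp only [Matrix.smul_apply, Matrix.add_apply, Matrix.mul_one, Matrix.one_mul,
      Matrix.smul_mul, Matrix.mul_smul, Matrix.mul_neg, Matrix.neg_mul, Matrix.neg_apply,
      smul_eq_mul, Matrix.zero_apply, Matrix.one_apply]
    by_cases hij : i = j
    · simp only [hij, if_true]
      first
        | linear_combination (((Real.cos θ : ℝ) : ℂ) / 2) * hI
        | linear_combination (-((Real.cos θ : ℝ) : ℂ) / 2) * hI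
    · simp only [hij, if_false]
      ring

lemma tauSp_rot (θ : ℝ) : ∃ l : symplecticGroup (Fin N) ℝ,
    (tauSp l : Matrix (Fin (N + N)) (Fin (N + N)) ℂ) = Dm (wgt N) (eC θ) := by
  refine ⟨⟨rotSp N θ, rotSp_mem θ⟩, ?_⟩
  rw [tauSp_coe]
  show (cay (rotSp N θ)).submatrix finSumFinEquiv.symm finSumFinEquiv.symm = _
  have h : (fromBlocks (eC θ • 1) 0 0 ((eC θ)⁻¹ • 1) :
      Matrix (Fin N ⊕ Fin N) (Fin N ⊕ Fin N) ℂ) =
      diagonal (fun s => (eC θ) ^ (Sum.elim (fun _ : Fin N => (1 : ℤ)) (fun _ : Fin N => -1) s)) := by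
    ext i j
    rcases i with i | i <;> rcases j with j | j <;>
      by_cases hij : i = j <;> simp [Matrix.one_apply, Matrix.diagonal_apply, hij]
  rw [cay_rot, h, Matrix.submatrix_diagonal_equiv]
  rfl

/-- Central elements are scalars with square `1`. -/
lemma center_sp (l : symplecticGroup (Fin N) ℝ) (hl : l ∈ Subgroup.center (symplecticGroup (Fin N) ℝ)) :
    ∃ c : ℝ, c ^ 2 = 1 ∧ (l : Matrix (Fin N ⊕ Fin N) (Fin N ⊕ Fin N) ℝ) = c • 1 := by
  rcases Nat.eq_zero_or_pos N with h0 | hN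
  · subst h0
    refine ⟨1, by norm_num, ?_⟩
    ext i
    rcases i with i | i <;> exact i.elim0
  have hcomm : ∀ g ∈ symplecticGroup (Fin N) ℝ, g * (l : Matrix (Fin N ⊕ Fin N) (Fin N ⊕ Fin N) ℝ) =
      (l : Matrix (Fin N ⊕ Fin N) (Fin N ⊕ Fin N) ℝ) * g := by
    intro g hg
    have := Subgroup.mem_center_iff.mp hl ⟨g, hg⟩
    exact congrArg Subtype.val this
  have hmem := l.2
  generalize (l : Matrix (Fin N ⊕ Fin N) (Fin N ⊕ Fin N) ℝ) = A at hcomm hmem ⊢
  obtain ⟨a, b, c, d, rfl⟩ : ∃ a b c d : Matrix (Fin N) (Fin N) ℝ, A = fromBlocks a b c d :=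
    ⟨A.toBlocks₁₁, A.toBlocks₁₂, A.toBlocks₂₁, A.toBlocks₂₂, (fromBlocks_toBlocks A).symm⟩
  -- the diagonal element
  have hD : fromBlocks ((2 : ℝ) • 1) 0 0 ((1 / 2 : ℝ) • 1) ∈ symplecticGroup (Fin N) ℝ := by
    rw [SymplecticGroup.fromBlocks_mem_iff]
    refine ⟨by simp, by simp, ?_⟩
    simp only [transpose_smul, transpose_one, transpose_zero, Matrix.smul_mul, Matrix.mul_smul,
      Matrix.one_mul, smul_smul, Matrix.zero_mul, sub_zero]
    norm_num
  have h1 := hcomm _ hD
  rw [fromBlocks_multiply, fromBlocks_multiply, fromBlocks_inj] at h1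
  obtain ⟨_, hb, hc, _⟩ := h1
  simp only [Matrix.smul_mul, Matrix.mul_smul, Matrix.one_mul, Matrix.mul_one, Matrix.zero_mul,
    Matrix.mul_zero, add_zero, zero_add] at hb hc
  have hb0 : b = 0 := by
    ext i j
    have := congrFun (congrFun hb i) j
    simp only [Matrix.smul_apply, smul_eq_mul] at this
    simp only [Matrix.zero_apply]
    linarith
  have hc0 : c = 0 := by
    ext i j
    have := congrFun (congrFun hc i) j
    simp only [Matrix.smul_apply, smul_eq_mul] at this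
    simp only [Matrix.zero_apply]
    linarith
  subst hb0 hc0
  -- `J`
  have h2 := hcomm _ (SymplecticGroup.J_mem (Fin N) ℝ)
  unfold J at h2
  rw [fromBlocks_multiply, fromBlocks_multiply, fromBlocks_inj] at h2
  obtain ⟨_, _, had, _⟩ := h2
  simp only [Matrix.one_mul, Matrix.mul_one, Matrix.zero_mul, Matrix.mul_zero, add_zero,
    zero_add] at had
  subst had
  -- unipotent elements
  have hU : ∀ S : Matrix (Fin N) (Fin N) ℝ, Sᵀ = S → S * a = a * S := by
    intro S hS
    have hm : fromBlocks 1 S 0 1 ∈ symplecticGroup (Fin N) ℝ := by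
      rw [SymplecticGroup.fromBlocks_mem_iff]
      refine ⟨by simp, by simp [hS], by simp⟩
    have h3 := hcomm _ hm
    rw [fromBlocks_multiply, fromBlocks_multiply, fromBlocks_inj] at h3
    have h4 := h3.2.1
    simpa using h4
  have hoff : ∀ i j, i ≠ j → a i j = 0 := by
    intro i j hij
    have h5 := hU (diagonal (fun k => if k = i then 1 else 0)) (diagonal_transpose _)
    have h6 := congrFun (congrFun h5 i) j
    rw [Matrix.diagonal_mul, Matrix.mul_diagonal] at h6
    simpa [hij.symm] using h6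
  have hdiag : ∀ i j, a i i = a j j := by
    intro i j
    have h5 := hU (Matrix.of fun _ _ => 1) (by ext; simp)
    have h6 := congrFun (congrFun h5 i) j
    rw [Matrix.mul_apply, Matrix.mul_apply] at h6
    simp only [Matrix.of_apply, one_mul, mul_one] at h6
    rw [Finset.sum_eq_single j (fun k _ hk => hoff k j hk) (by simp),
      Finset.sum_eq_single i (fun k _ hk => hoff i k hk.symm) (by simp)] at h6
    exact h6.symm
  set r : ℝ := a ⟨0, hN⟩ ⟨0, hN⟩ with hr
  have har : a = r • 1 := by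
    ext i j
    rw [Matrix.smul_apply, Matrix.one_apply]
    split_ifs with h
    · subst h
      rw [smul_eq_mul, mul_one]
      exact hdiag _ _
    · rw [smul_zero]
      exact hoff i j h
  have hr2 : r ^ 2 = 1 := by
    rw [SymplecticGroup.fromBlocks_mem_iff] at hmem
    have h7 := hmem.2.2
    rw [har] at h7
    have h8 := congrFun (congrFun h7 ⟨0, hN⟩) ⟨0, hN⟩
    simpa [sq] using h8
  refine ⟨r, hr2, ?_⟩
  rw [har, ← fromBlocks_one, fromBlocks_smul, smul_zero]

lemma tauSp_center (l : symplecticGroup (Fin N) ℝ)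
    (hl : l ∈ Subgroup.center (symplecticGroup (Fin N) ℝ)) :
    ∃ c : ℂ, c ^ 2 = 1 ∧ (tauSp l : Matrix (Fin (N + N)) (Fin (N + N)) ℂ) =
      c • (1 : Matrix (Fin (N + N)) (Fin (N + N)) ℂ) := by
  obtain ⟨c, hc, h⟩ := center_sp l hl
  refine ⟨(c : ℂ), by rw [← Complex.ofReal_pow, hc, Complex.ofReal_one], ?_⟩
  rw [tauSp_coe]
  show (cay (l : Matrix (Fin N ⊕ Fin N) (Fin N ⊕ Fin N) ℝ)).submatrix
    finSumFinEquiv.symm finSumFinEquiv.symm = _
  have h2 : (c • (1 : Matrix (Fin N ⊕ Fin N) (Fin N ⊕ Fin N) ℝ)).map Complex.ofReal =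
      (c : ℂ) • 1 := by
    ext i j
    by_cases hij : i = j <;> simp [Matrix.one_apply, hij]
  rw [h]
  unfold cay
  rw [h2, Matrix.mul_smul, Matrix.mul_one, Matrix.smul_mul, CP_CI]
  ext i j
  by_cases hij : i = j <;> simp [Matrix.one_apply, hij]

end SpAux

open SpAux in
/-- The theorem for groups with a continuous surjection onto the projective symplectic group. -/
theorem sp_main {X : Type*} [MeasurableSpace X] [MeasurableSpace.CountablyGenerated X]
    (μ : Measure X) [IsProbabilityMeasure μ] {n : ℕ} (T : X → X) (hT : MeasurePreserving T μ μ)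
    (ι : X → Fin n) (hι : Measurable ι) {N : ℕ} (hN : 0 < N)
    {G : Type*} [Group G] [TopologicalSpace G] [IsTopologicalGroup G] [LocallyCompactSpace G]
    [SecondCountableTopology G] [T2Space G] [MeasurableSpace G] [BorelSpace G]
    (haar : Measure G) [haar.IsHaarMeasure]
    (ρ : G →* symplecticGroup (Fin N) ℝ ⧸ Subgroup.center (symplecticGroup (Fin N) ℝ))
    (hρ : Continuous ρ) (hsurj : Function.Surjective ρ) :
    ∀ᵐ p : (Fin n → G) × (Fin n → G)
      ∂((Measure.pi fun _ => haar).prod (Measure.pi fun _ => haar)),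
      ¬ ∃ f : X → G, Measurable f ∧ ∀ᵐ x ∂μ, f (T x) * p.1 (ι x) = p.2 (ι x) * f x :=
  gen_main_quot μ T hT ι hι (Nat.add_pos_left hN N) (sgn N) sgn_eq (wgt N) sgn_wgt tauSp
    closedEmb_tauSp pres_tauSp tauSp_rot (Subgroup.center (symplecticGroup (Fin N) ℝ)) 2
    two_pos tauSp_center haar ρ hρ hsurj

end H24FB
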