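import Pool.Agent.H24.FB.GenDefs

/-! Block G4, algebraic part: growth of the Hermitian form along the words, the resolvent. -/

open MeasureTheory Matrix Filter Topology

namespace H24FB

variable {d : ℕ}

/-- The sesquilinear form with diagonal matrix `σ`. -/
noncomputable def Sf (σ : Fin d → ℝ) (u v : Fin d → ℂ) : ℂ :=
  ∑ i, (σ i : ℂ) * (star (u i) * v i)

/-- The squared norm. -/
noncomputable def n2 (v : Fin d → ℂ) : ℝ := ∑ i, ‖v i‖ ^ 2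

theorem n2_nonneg (v : Fin d → ℂ) : 0 ≤ n2 v :=
  Finset.sum_nonneg fun _ _ => by positivity

theorem n2_pos {v : Fin d → ℂ} (hv : v ≠ 0) : 0 < n2 v := by
  obtain ⟨i, hi⟩ := Function.ne_iff.1 hv
  have h1 : 0 < ‖v i‖ ^ 2 := by
    have : 0 < ‖v i‖ := norm_pos_iff.2 hi
    positivity
  exact lt_of_lt_of_le h1
    (Finset.single_le_sum (f := fun i => ‖v i‖ ^ 2) (fun _ _ => by positivity) (Finset.mem_univ i))

theorem Sf_self (σ : Fin d → ℝ) (v : Fin d → ℂ) : Sf σ v v = (Qf σ v : ℂ) := by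
  unfold Sf Qf
  rw [Complex.ofReal_sum]
  refine Finset.sum_congr rfl fun i _ => ?_
  have : star (v i) * v i = ((‖v i‖ ^ 2 : ℝ) : ℂ) := by
    rw [Complex.star_def, ← Complex.normSq_eq_conj_mul_self, Complex.normSq_eq_norm_sq]
  rw [this]
  push_cast
  ring

theorem Sf_eq_dot (σ : Fin d → ℝ) (u v : Fin d → ℂ) :
    Sf σ u v = star u ⬝ᵥ (Matrix.diagonal (fun i => (σ i : ℂ)) *ᵥ v) := by
  unfold Sf dotProduct
  refine Finset.sum_congr rfl fun i _ => ?_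
  rw [Matrix.mulVec_diagonal, Pi.star_apply]
  ring

theorem Sf_pres {σ : Fin d → ℝ} {A : Matrix (Fin d) (Fin d) ℂ} (hA : Pres σ A)
    (u v : Fin d → ℂ) : Sf σ (A *ᵥ u) (A *ᵥ v) = Sf σ u v := by
  rw [Sf_eq_dot, Sf_eq_dot, Matrix.star_mulVec, ← Matrix.dotProduct_mulVec, Matrix.mulVec_mulVec,
    Matrix.mulVec_mulVec]
  unfold Pres at hA
  rw [hA]

theorem Qf_pres {σ : Fin d → ℝ} {A : Matrix (Fin d) (Fin d) ℂ} (hA : Pres σ A)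
    (v : Fin d → ℂ) : Qf σ (A *ᵥ v) = Qf σ v := by
  have := Sf_pres hA v v
  rw [Sf_self, Sf_self] at this
  exact_mod_cast this

theorem Sf_conj (σ : Fin d → ℝ) (u v : Fin d → ℂ) : star (Sf σ u v) = Sf σ v u := by
  unfold Sf
  rw [star_sum]
  refine Finset.sum_congr rfl fun i _ => ?_
  rw [star_mul', star_mul', star_star]
  have : star ((σ i : ℂ)) = (σ i : ℂ) := Complex.conj_ofReal _
  rw [this]
  ring

theorem Sf_add_right (σ : Fin d → ℝ) (u v w : Fin d → ℂ) :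
    Sf σ u (v + w) = Sf σ u v + Sf σ u w := by
  unfold Sf
  rw [← Finset.sum_add_distrib]
  refine Finset.sum_congr rfl fun i _ => ?_
  rw [Pi.add_apply]; ring

theorem Sf_add_left (σ : Fin d → ℝ) (u v w : Fin d → ℂ) :
    Sf σ (u + v) w = Sf σ u w + Sf σ v w := by
  unfold Sf
  rw [← Finset.sum_add_distrib]
  refine Finset.sum_congr rfl fun i _ => ?_
  rw [Pi.add_apply, star_add]; ring

theorem Sf_smul_right (σ : Fin d → ℝ) (c : ℂ) (u v : Fin d → ℂ) :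
    Sf σ u (c • v) = c * Sf σ u v := by
  unfold Sf
  rw [Finset.mul_sum]
  refine Finset.sum_congr rfl fun i _ => ?_
  rw [Pi.smul_apply, smul_eq_mul]; ring

theorem Sf_smul_left (σ : Fin d → ℝ) (c : ℂ) (u v : Fin d → ℂ) :
    Sf σ (c • u) v = star c * Sf σ u v := by
  unfold Sf
  rw [Finset.mul_sum]
  refine Finset.sum_congr rfl fun i _ => ?_
  rw [Pi.smul_apply, smul_eq_mul, star_mul']; ring

theorem Dm_mulVec (z : Fin d → ℤ) (w : ℂ) (v : Fin d → ℂ) (i : Fin d) :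
    (Dm z w *ᵥ v) i = w ^ z i * v i := by
  unfold Dm
  rw [Matrix.mulVec_diagonal]

theorem zpow_growth (s : ℝ) (n : ℤ) (hs : s = 1 ∨ s = -1) (hn : 1 ≤ s * (n : ℝ)) (r : ℝ)
    (hr : 1 < r) : s + (1 - (r ^ 2)⁻¹) ≤ s * (r ^ n) ^ 2 := by
  have hr0 : 0 < r := by linarith
  have ht : 0 < r ^ 2 := by positivity
  rcases hs with rfl | rfl
  · have hn1 : (1 : ℤ) ≤ n := by
      have : (1 : ℝ) ≤ (n : ℝ) := by linarith
      exact_mod_cast this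
    have h1 : r ≤ r ^ n := by
      have := zpow_le_zpow_right₀ hr.le hn1
      rwa [zpow_one] at this
    have h2 : r ^ 2 ≤ (r ^ n) ^ 2 := by
      have h3 : 0 ≤ r := hr0.le
      nlinarith
    have h4 : 2 - (r ^ 2)⁻¹ ≤ r ^ 2 := by
      have h5 : (r ^ 2) * (r ^ 2)⁻¹ = 1 := mul_inv_cancel₀ ht.ne'
      have h6 : 0 < (r ^ 2)⁻¹ := by positivity
      nlinarith [sq_nonneg (r ^ 2 - 1), sq_nonneg (1 - (r ^ 2)⁻¹)]
    linarith
  · have hn1 : n ≤ (-1 : ℤ) := by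
      have : (n : ℝ) ≤ -1 := by linarith
      exact_mod_cast this
    have h1 : r ^ n ≤ r⁻¹ := by
      have := zpow_le_zpow_right₀ hr.le hn1
      rwa [_root_.zpow_neg_one] at this
    have h0 : 0 < r ^ n := zpow_pos hr0 n
    have h2 : (r ^ n) ^ 2 ≤ (r ^ 2)⁻¹ := by
      rw [← inv_pow]
      have h3 : 0 < r⁻¹ := by positivity
      nlinarith
    linarith

section word

variable {σ : Fin d → ℝ} {z : Fin d → ℤ} {A : ℕ → Matrix (Fin d) (Fin d) ℂ}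

theorem Dm_growth (hσ : ∀ i, σ i = 1 ∨ σ i = -1) (hz : ∀ i, 1 ≤ σ i * (z i : ℝ)) {w : ℂ}
    (hw : 1 < ‖w‖) (v : Fin d → ℂ) :
    Qf σ v + (1 - (‖w‖ ^ 2)⁻¹) * n2 v ≤ Qf σ (Dm z w *ᵥ v) := by
  unfold Qf n2
  rw [Finset.mul_sum, ← Finset.sum_add_distrib]
  refine Finset.sum_le_sum fun i _ => ?_
  rw [Dm_mulVec, norm_mul, norm_zpow, mul_pow]
  have h := zpow_growth (σ i) (z i) (hσ i) (hz i) ‖w‖ hw
  have h2 : 0 ≤ ‖v i‖ ^ 2 := by positivity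
  nlinarith

theorem wp_succ_mulVec (w : ℂ) (v : Fin d → ℂ) (m : ℕ) :
    wp (fun j => Dm z w * A j) (m + 1) *ᵥ v
      = Dm z w *ᵥ (A m *ᵥ (wp (fun j => Dm z w * A j) m *ᵥ v)) := by
  rw [Matrix.mulVec_mulVec, Matrix.mulVec_mulVec]
  rfl

theorem inv_sq_lt_one {w : ℂ} (hw : 1 < ‖w‖) : 0 < 1 - (‖w‖ ^ 2)⁻¹ := by
  have h1 : 1 < ‖w‖ ^ 2 := by nlinarith
  have h2 : (‖w‖ ^ 2)⁻¹ < 1 := inv_lt_one_of_one_lt₀ h1
  linarith

theorem Qf_word_le (hσ : ∀ i, σ i = 1 ∨ σ i = -1) (hz : ∀ i, 1 ≤ σ i * (z i : ℝ))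
    (hA : ∀ j, Pres σ (A j)) {w : ℂ} (hw : 1 < ‖w‖) (v : Fin d → ℂ) (m : ℕ) :
    Qf σ v ≤ Qf σ (wp (fun j => Dm z w * A j) m *ᵥ v) := by
  induction m with
  | zero => simp [wp]
  | succ m ih =>
    rw [wp_succ_mulVec]
    have h1 := Dm_growth hσ hz hw (A m *ᵥ (wp (fun j => Dm z w * A j) m *ᵥ v))
    rw [Qf_pres (hA m)] at h1
    have h2 := n2_nonneg (A m *ᵥ (wp (fun j => Dm z w * A j) m *ᵥ v))
    have h3 := inv_sq_lt_one hw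
    nlinarith

theorem Qf_word_succ (hσ : ∀ i, σ i = 1 ∨ σ i = -1) (hz : ∀ i, 1 ≤ σ i * (z i : ℝ))
    (hA : ∀ j, Pres σ (A j)) {w : ℂ} (hw : 1 < ‖w‖) (v : Fin d → ℂ) (m : ℕ) :
    Qf σ v + (1 - (‖w‖ ^ 2)⁻¹) * n2 (A m *ᵥ (wp (fun j => Dm z w * A j) m *ᵥ v))
      ≤ Qf σ (wp (fun j => Dm z w * A j) (m + 1) *ᵥ v) := by
  rw [wp_succ_mulVec]
  have h1 := Dm_growth hσ hz hw (A m *ᵥ (wp (fun j => Dm z w * A j) m *ᵥ v))
  rw [Qf_pres (hA m)] at h1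
  have h2 := Qf_word_le hσ hz hA hw v m
  linarith

theorem det_ne_of_pres (hσ : ∀ i, σ i = 1 ∨ σ i = -1) {B : Matrix (Fin d) (Fin d) ℂ}
    (hB : Pres σ B) : B.det ≠ 0 := by
  intro h0
  have h1 := congrArg Matrix.det hB
  rw [Matrix.det_mul, h0, mul_zero, Matrix.det_diagonal] at h1
  have h2 : (∏ i, (σ i : ℂ)) ≠ 0 := by
    rw [Finset.prod_ne_zero_iff]
    intro i _
    rcases hσ i with h | h <;> rw [h] <;> norm_num
  exact h2 h1.symm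

theorem Dm_det_ne (z : Fin d → ℤ) {w : ℂ} (hw : w ≠ 0) : (Dm z w).det ≠ 0 := by
  unfold Dm
  rw [Matrix.det_diagonal, Finset.prod_ne_zero_iff]
  intro i _
  exact zpow_ne_zero _ hw

theorem wp_det_ne {B : ℕ → Matrix (Fin d) (Fin d) ℂ} (hB : ∀ j, (B j).det ≠ 0) (m : ℕ) :
    (wp B m).det ≠ 0 := by
  induction m with
  | zero => simp [wp]
  | succ m ih =>
    show (B m * wp B m).det ≠ 0
    rw [Matrix.det_mul]
    exact mul_ne_zero (hB m) ih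

theorem mulVec_ne_zero_of_det {B : Matrix (Fin d) (Fin d) ℂ} (hB : B.det ≠ 0) {v : Fin d → ℂ}
    (hv : v ≠ 0) : B *ᵥ v ≠ 0 := by
  intro h
  exact hB (Matrix.exists_mulVec_eq_zero_iff.1 ⟨v, hv, h⟩)

theorem Qf_word_lt (hσ : ∀ i, σ i = 1 ∨ σ i = -1) (hz : ∀ i, 1 ≤ σ i * (z i : ℝ))
    (hA : ∀ j, Pres σ (A j)) {w : ℂ} (hw : 1 < ‖w‖) {v : Fin d → ℂ} (hv : v ≠ 0) {m : ℕ}
    (hm : 0 < m) : Qf σ v < Qf σ (wp (fun j => Dm z w * A j) m *ᵥ v) := by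
  obtain ⟨m, rfl⟩ : ∃ k, m = k + 1 := ⟨m - 1, by omega⟩
  have h1 := Qf_word_succ hσ hz hA hw v m
  have hw0 : w ≠ 0 := by
    intro h; rw [h, norm_zero] at hw; linarith
  have h2 : A m *ᵥ (wp (fun j => Dm z w * A j) m *ᵥ v) ≠ 0 := by
    apply mulVec_ne_zero_of_det (det_ne_of_pres hσ (hA m))
    apply mulVec_ne_zero_of_det _ hv
    apply wp_det_ne
    intro j
    rw [Matrix.det_mul]
    exact mul_ne_zero (Dm_det_ne z hw0) (det_ne_of_pres hσ (hA j))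
  have h3 := n2_pos h2
  have h4 := inv_sq_lt_one hw
  have h5 : 0 < (1 - (‖w‖ ^ 2)⁻¹) * n2 (A m *ᵥ (wp (fun j => Dm z w * A j) m *ᵥ v)) :=
    mul_pos h4 h3
  linarith

theorem Qf_smul_norm (σ : Fin d → ℝ) (c : ℂ) (v : Fin d → ℂ) : Qf σ (c • v) = ‖c‖ ^ 2 * Qf σ v := by
  unfold Qf
  rw [Finset.mul_sum]
  refine Finset.sum_congr rfl fun i _ => ?_
  rw [Pi.smul_apply, smul_eq_mul, norm_mul]; ring

theorem sub_det_ne (hσ : ∀ i, σ i = 1 ∨ σ i = -1) (hz : ∀ i, 1 ≤ σ i * (z i : ℝ))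
    (hA : ∀ j, Pres σ (A j)) {m : ℕ} (hm : 0 < m) {ζ : ℂ} (hζ : ‖ζ‖ = 1) {w : ℂ}
    (hw : 1 < ‖w‖) :
    (wp (fun j => Dm z w * A j) m - ζ • (1 : Matrix (Fin d) (Fin d) ℂ)).det ≠ 0 := by
  intro h0
  obtain ⟨v, hv, hv0⟩ := Matrix.exists_mulVec_eq_zero_iff.2 h0
  rw [Matrix.sub_mulVec, Matrix.smul_mulVec, Matrix.one_mulVec, sub_eq_zero] at hv0
  have h1 := Qf_word_lt hσ hz hA hw hv hm
  rw [hv0, Qf_smul_norm, hζ] at h1
  linarith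

end word

/-- The function with positive real part attached to the matrix `N`. -/
noncomputable def hf (σ : Fin d → ℝ) (ζ : ℂ) (u : Fin d → ℂ) (N : Matrix (Fin d) (Fin d) ℂ) : ℂ :=
  Sf σ u u + 2 * ζ * Sf σ u ((N - ζ • (1 : Matrix (Fin d) (Fin d) ℂ))⁻¹ *ᵥ u)

theorem resolvent_spec {N : Matrix (Fin d) (Fin d) ℂ} {ζ : ℂ}
    (hdet : (N - ζ • (1 : Matrix (Fin d) (Fin d) ℂ)).det ≠ 0) (u : Fin d → ℂ) :
    N *ᵥ ((N - ζ • (1 : Matrix (Fin d) (Fin d) ℂ))⁻¹ *ᵥ u)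
      = u + ζ • ((N - ζ • (1 : Matrix (Fin d) (Fin d) ℂ))⁻¹ *ᵥ u) := by
  have h1 : (N - ζ • (1 : Matrix (Fin d) (Fin d) ℂ)) *ᵥ
      ((N - ζ • (1 : Matrix (Fin d) (Fin d) ℂ))⁻¹ *ᵥ u) = u := by
    rw [Matrix.mulVec_mulVec, Matrix.mul_nonsing_inv _ (isUnit_iff_ne_zero.2 hdet),
      Matrix.one_mulVec]
  rw [Matrix.sub_mulVec, Matrix.smul_mulVec, Matrix.one_mulVec, sub_eq_iff_eq_add] at h1
  exact h1

theorem hf_re {σ : Fin d → ℝ} {N : Matrix (Fin d) (Fin d) ℂ} {ζ : ℂ} (hζ : ‖ζ‖ = 1)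
    (hdet : (N - ζ • (1 : Matrix (Fin d) (Fin d) ℂ)).det ≠ 0) (u : Fin d → ℂ) :
    (hf σ ζ u N).re = Qf σ (N *ᵥ ((N - ζ • (1 : Matrix (Fin d) (Fin d) ℂ))⁻¹ *ᵥ u))
      - Qf σ ((N - ζ • (1 : Matrix (Fin d) (Fin d) ℂ))⁻¹ *ᵥ u) := by
  have h1 := resolvent_spec hdet u
  set v := (N - ζ • (1 : Matrix (Fin d) (Fin d) ℂ))⁻¹ *ᵥ u with hv
  have hu : u = N *ᵥ v + (-ζ) • v := by rw [h1, neg_smul]; abel
  have e1 : hf σ ζ u N = Sf σ u u + 2 * ζ * Sf σ u v := by rw [hf, ← hv]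
  set a := N *ᵥ v with ha
  -- `u = a - ζ v`, `u + 2 ζ v = a + ζ v`
  have e2 : Sf σ u u + 2 * ζ * Sf σ u v = Sf σ u (a + ζ • v) := by
    have : a + ζ • v = u + (2 * ζ) • v := by
      rw [hu, mul_smul, two_smul, neg_smul]; abel
    rw [this, Sf_add_right, Sf_smul_right]
  have e3 : Sf σ u (a + ζ • v) = Sf σ a a + (ζ * Sf σ a v - star (ζ * Sf σ a v))
      - (star ζ * ζ) * Sf σ v v := by
    conv_lhs => rw [hu]
    rw [Sf_add_left, Sf_add_right, Sf_add_right, Sf_smul_left, Sf_smul_left, Sf_smul_right,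
      Sf_smul_right, star_mul', Sf_conj, star_neg]
    ring
  have e4 : star ζ * ζ = 1 := by
    rw [Complex.star_def, ← Complex.normSq_eq_conj_mul_self, Complex.normSq_eq_norm_sq, hζ]
    norm_num
  rw [e1, e2, e3, e4, Sf_self, Sf_self]
  simp

/-- Bound for the resolvent on the circle `|w| = 2`. -/
theorem resolvent_bound {σ : Fin d → ℝ} {z : Fin d → ℤ} (hσ : ∀ i, σ i = 1 ∨ σ i = -1)
    (hz : ∀ i, 1 ≤ σ i * (z i : ℝ)) : ∃ C₀ : ℝ, 0 < C₀ ∧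
    ∀ (A : ℕ → Matrix (Fin d) (Fin d) ℂ) (_ : ∀ j, Pres σ (A j)) (m : ℕ) (_ : 0 < m)
      (ζ : ℂ) (_ : ‖ζ‖ = 1) (w : ℂ) (_ : ‖w‖ = 2) (u : Fin d → ℂ),
      n2 ((wp (fun j => Dm z w * A j) m - ζ • (1 : Matrix (Fin d) (Fin d) ℂ))⁻¹ *ᵥ u)
        ≤ C₀ * n2 u := by
  classical
  -- bound for the diagonal matrix
  set K : ℝ := ∑ i, ((2 : ℝ) ^ z i) ^ 2 + 1 with hK
  have hK0 : 0 < K := by
    have : 0 ≤ ∑ i, ((2 : ℝ) ^ z i) ^ 2 := Finset.sum_nonneg fun _ _ => by positivity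
    linarith
  have hKi : ∀ i, ((2 : ℝ) ^ z i) ^ 2 ≤ K := by
    intro i
    have := Finset.single_le_sum (f := fun i => ((2 : ℝ) ^ z i) ^ 2)
      (fun _ _ => by positivity) (Finset.mem_univ i)
    linarith
  set c : ℝ := 3 / (4 * K) with hc
  have hc0 : 0 < c := by positivity
  refine ⟨(4 / c) * (1 + 4 / c + c), by positivity, ?_⟩
  intro A hA m hm ζ hζ w hw u
  have hw1 : 1 < ‖w‖ := by rw [hw]; norm_num
  have hdet := sub_det_ne (z := z) hσ hz hA hm hζ hw1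
  obtain ⟨m, rfl⟩ : ∃ k, m = k + 1 := ⟨m - 1, by omega⟩
  set N := wp (fun j => Dm z w * A j) (m + 1) with hN
  have h1 := resolvent_spec hdet u
  set v := (N - ζ • (1 : Matrix (Fin d) (Fin d) ℂ))⁻¹ *ᵥ u with hv
  have h2 := Qf_word_succ hσ hz hA hw1 v m
  rw [← hN] at h2
  set v' := A m *ᵥ (wp (fun j => Dm z w * A j) m *ᵥ v) with hv'
  have h3 : N *ᵥ v = Dm z w *ᵥ v' := by rw [hN, wp_succ_mulVec]
  -- `n2 (N v) ≤ K * n2 v'`
  have h4 : n2 (N *ᵥ v) ≤ K * n2 v' := by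
    rw [h3]
    unfold n2
    rw [Finset.mul_sum]
    refine Finset.sum_le_sum fun i _ => ?_
    rw [Dm_mulVec, norm_mul, norm_zpow, hw, mul_pow]
    exact mul_le_mul_of_nonneg_right (hKi i) (by positivity)
  have h5 : c * n2 (N *ᵥ v) ≤ Qf σ (N *ᵥ v) - Qf σ v := by
    have : (1 - (‖w‖ ^ 2)⁻¹) = 3 / 4 := by rw [hw]; norm_num
    rw [this] at h2
    have h6 : c * n2 (N *ᵥ v) ≤ 3 / 4 * n2 v' := by
      calc c * n2 (N *ᵥ v) ≤ c * (K * n2 v') := mul_le_mul_of_nonneg_left h4 hc0.le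
        _ = 3 / 4 * n2 v' := by rw [hc]; field_simp
    linarith
  rw [h1] at h5
  -- pointwise estimates
  have h7 : n2 v / 2 - n2 u ≤ n2 (u + ζ • v) := by
    unfold n2
    rw [Finset.sum_div, ← Finset.sum_sub_distrib]
    refine Finset.sum_le_sum fun i _ => ?_
    rw [Pi.add_apply, Pi.smul_apply, smul_eq_mul]
    have h8 : ‖v i‖ ≤ ‖u i + ζ * v i‖ + ‖u i‖ := by
      have : ‖ζ * v i‖ = ‖v i‖ := by rw [norm_mul, hζ, one_mul]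
      rw [← this]
      have h9 : ζ * v i = (u i + ζ * v i) - u i := by ring
      calc ‖ζ * v i‖ = ‖(u i + ζ * v i) - u i‖ := by rw [← h9]
        _ ≤ _ := norm_sub_le _ _
    nlinarith [sq_nonneg (‖u i + ζ * v i‖ - ‖u i‖), norm_nonneg (v i), norm_nonneg (u i),
      norm_nonneg (u i + ζ * v i)]
  have h10 : Qf σ (u + ζ • v) - Qf σ v ≤ (1 + 4 / c) * n2 u + (c / 4) * n2 v := by
    unfold Qf n2
    rw [← Finset.sum_sub_distrib, Finset.mul_sum, Finset.mul_sum, ← Finset.sum_add_distrib]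
    refine Finset.sum_le_sum fun i _ => ?_
    rw [Pi.add_apply, Pi.smul_apply, smul_eq_mul]
    set a := ‖u i + ζ * v i‖ with ha
    have hζv : ‖ζ * v i‖ = ‖v i‖ := by rw [norm_mul, hζ, one_mul]
    have h11 : a ≤ ‖u i‖ + ‖v i‖ := by rw [ha, ← hζv]; exact norm_add_le _ _
    have h12 : ‖v i‖ ≤ a + ‖u i‖ := by
      rw [← hζv]
      have h9 : ζ * v i = (u i + ζ * v i) - u i := by ring
      calc ‖ζ * v i‖ = ‖(u i + ζ * v i) - u i‖ := by rw [← h9]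
        _ ≤ _ := norm_sub_le _ _
    have ha0 : 0 ≤ a := norm_nonneg _
    have hx := norm_nonneg (u i)
    have hy := norm_nonneg (v i)
    -- `|a^2 - y^2| ≤ x^2 + 2 x y ≤ (1 + 4/c) x^2 + (c/4) y^2`
    have h13 : 2 * ‖u i‖ * ‖v i‖ ≤ 4 / c * ‖u i‖ ^ 2 + c / 4 * ‖v i‖ ^ 2 := by
      have h14 : 4 / c * ‖u i‖ ^ 2 + c / 4 * ‖v i‖ ^ 2 - 2 * ‖u i‖ * ‖v i‖
          = (4 / c) * (‖u i‖ - c / 4 * ‖v i‖) ^ 2 := by
        field_simp
        ring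
      have h15 : 0 ≤ (4 / c) * (‖u i‖ - c / 4 * ‖v i‖) ^ 2 := by positivity
      linarith
    have h16 : a ^ 2 - ‖v i‖ ^ 2 ≤ ‖u i‖ ^ 2 + 2 * ‖u i‖ * ‖v i‖ := by nlinarith
    have h17 : ‖v i‖ ^ 2 - a ^ 2 ≤ ‖u i‖ ^ 2 + 2 * ‖u i‖ * ‖v i‖ := by
      by_cases h18 : ‖v i‖ ≤ ‖u i‖
      · nlinarith [sq_nonneg a]
      · push Not at h18
        have h19 : ‖v i‖ - ‖u i‖ ≤ a := by linarith
        nlinarith
    rcases hσ i with h | h <;> rw [h] <;> nlinarith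
  have h20 : (c / 4) * n2 v ≤ (1 + 4 / c + c) * n2 u := by nlinarith
  have h21 : n2 v = (4 / c) * ((c / 4) * n2 v) := by
    have hcne : c * 4 ≠ 0 := mul_ne_zero hc0.ne' (by norm_num)
    rw [← mul_assoc, div_mul_div_comm, mul_comm 4 c, div_self hcne, one_mul]
  have hc4 : 0 ≤ 4 / c := (div_pos (by norm_num) hc0).le
  calc n2 v = (4 / c) * ((c / 4) * n2 v) := h21
    _ ≤ (4 / c) * ((1 + 4 / c + c) * n2 u) := mul_le_mul_of_nonneg_left h20 hc4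
    _ = (4 / c) * (1 + 4 / c + c) * n2 u := by ring

/-- Bound for `hf` in terms of the resolvent bound. -/
theorem hf_norm_le {σ : Fin d → ℝ} (hσ : ∀ i, σ i = 1 ∨ σ i = -1) {ζ : ℂ} (hζ : ‖ζ‖ = 1)
    (u : Fin d → ℂ) (N : Matrix (Fin d) (Fin d) ℂ) (C₀ : ℝ)
    (h : n2 ((N - ζ • (1 : Matrix (Fin d) (Fin d) ℂ))⁻¹ *ᵥ u) ≤ C₀ * n2 u) :
    ‖hf σ ζ u N‖ ≤ (2 + C₀) * n2 u := by
  set v := (N - ζ • (1 : Matrix (Fin d) (Fin d) ℂ))⁻¹ *ᵥ u with hv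
  have hσn : ∀ i, ‖(σ i : ℂ)‖ = 1 := by
    intro i
    rcases hσ i with h | h <;> rw [h] <;> norm_num
  have h1 : ‖Sf σ u u‖ ≤ n2 u := by
    unfold Sf n2
    refine (norm_sum_le _ _).trans (Finset.sum_le_sum fun i _ => ?_)
    rw [norm_mul, hσn, one_mul, norm_mul, norm_star, sq]
  have h2 : ‖Sf σ u v‖ ≤ (n2 u + n2 v) / 2 := by
    unfold Sf n2
    rw [← Finset.sum_add_distrib, Finset.sum_div]
    refine (norm_sum_le _ _).trans (Finset.sum_le_sum fun i _ => ?_)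
    rw [norm_mul, hσn, one_mul, norm_mul, norm_star]
    nlinarith [sq_nonneg (‖u i‖ - ‖v i‖)]
  unfold hf
  rw [← hv]
  calc ‖Sf σ u u + 2 * ζ * Sf σ u v‖ ≤ ‖Sf σ u u‖ + ‖2 * ζ * Sf σ u v‖ := norm_add_le _ _
    _ = ‖Sf σ u u‖ + 2 * ‖Sf σ u v‖ := by
        rw [norm_mul, norm_mul, hζ]; norm_num
    _ ≤ n2 u + (n2 u + n2 v) := by linarith
    _ ≤ (2 + C₀) * n2 u := by linarith

end H24FB
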