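import Pool.Agent.H24.FB.BlockC

open MeasureTheory Matrix Filter Topology
open scoped MatrixGroups

namespace H24FB

instance instPolishMat : PolishSpace (Matrix (Fin 2) (Fin 2) ℝ) :=
  inferInstanceAs (PolishSpace (Fin 2 → Fin 2 → ℝ))

instance instPolishSL : PolishSpace SL(2, ℝ) :=
  (Matrix.SpecialLinearGroup.isClosedEmbedding_val (n := Fin 2) (R := ℝ)).polishSpace

instance instBorelPSL : BorelSpace PSL(2, ℝ) := inferInstance

end H24FB
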